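import Pool.Agent.T2h98.EA.StmP
import Pool.Agent.T2h98.NB.COV

/-! The pointwise ergodic theorem for covariant operators: almost sure convergence
(task PE-ASC). -/

set_option autoImplicit false

open scoped BigOperators Topology ENNReal InnerProductSpace
open MeasureTheory ProbabilityTheory Filter
open Pool.Agent.TH980.IM.PR (PP sh)
open Pool.Agent.T2h98.NB

namespace Pool.Agent.T2h98.EA

namespace ASCx

/-- almost sure convergence from a maximal inequality -/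
theorem ae_of_max {Ω F : Type*} [MeasurableSpace Ω] (μ : Measure Ω) [IsProbabilityMeasure μ]
    [NormedAddCommGroup F] (a : ℕ → Ω → F)
    (h : ∀ δ : ℝ, 0 < δ → ∃ n : ℕ, ∀ m : ℕ, ∃ g : Ω → ℝ, Integrable g μ ∧
      (∀ (V : Ω) (i : ℕ), n ≤ i → i ≤ m → ‖a i V‖ ^ 2 ≤ g V) ∧ (∀ V, 0 ≤ g V) ∧
      ∫ V, g V ∂μ ≤ δ) :
    ∀ᵐ V ∂μ, Tendsto (fun n => a n V) atTop (𝓝 0) := by
  have h1 : ∀ k : ℕ, ∀ᵐ V ∂μ, ∃ n, ∀ i ≥ n, ‖a i V‖ ^ 2 < 1 / ((k : ℝ) + 1) := by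
    intro k
    rw [ae_iff]
    have hk : (0 : ℝ) < 1 / ((k : ℝ) + 1) := by positivity
    refine le_antisymm (ENNReal.le_of_forall_pos_le_add ?_) zero_le
    intro ε hε _
    rw [zero_add]
    have hεr : (0 : ℝ) < ε := hε
    obtain ⟨n, hn⟩ := h (ε * (1 / ((k : ℝ) + 1))) (by positivity)
    obtain ⟨s, hs⟩ : ∃ s : ℕ → Set Ω, s = fun m =>
      {V | ∃ i, n ≤ i ∧ i ≤ m ∧ 1 / ((k : ℝ) + 1) ≤ ‖a i V‖ ^ 2} := ⟨_, rfl⟩
    have hmono : Monotone s := by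
      intro m m' hmm V hV
      rw [hs] at hV ⊢
      obtain ⟨i, h1, h2, h3⟩ := hV
      exact ⟨i, h1, h2.trans hmm, h3⟩
    have hsub : {V | ¬ ∃ n, ∀ i ≥ n, ‖a i V‖ ^ 2 < 1 / ((k : ℝ) + 1)} ⊆ ⋃ m, s m := by
      intro V hV
      have h2 : ¬ ∀ i ≥ n, ‖a i V‖ ^ 2 < 1 / ((k : ℝ) + 1) := fun hc => hV ⟨n, hc⟩
      push Not at h2
      obtain ⟨i, hi, hi2⟩ := h2
      rw [Set.mem_iUnion]
      refine ⟨i, ?_⟩
      rw [hs]
      exact ⟨i, hi, le_rfl, hi2⟩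
    refine (measure_mono hsub).trans ?_
    rw [hmono.measure_iUnion]
    refine iSup_le fun m => ?_
    obtain ⟨g, hgi, hga, hg0, hgδ⟩ := hn m
    have h3 := mul_meas_ge_le_integral_of_nonneg (μ := μ) (f := g)
      (Filter.Eventually.of_forall hg0) hgi (1 / ((k : ℝ) + 1))
    have h4 : μ.real {V | 1 / ((k : ℝ) + 1) ≤ g V} ≤ ε := by
      have h5 : 1 / ((k : ℝ) + 1) * μ.real {V | 1 / ((k : ℝ) + 1) ≤ g V} ≤
          1 / ((k : ℝ) + 1) * ε := by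
        rw [mul_comm _ (ε : ℝ)]
        exact h3.trans hgδ
      exact le_of_mul_le_mul_left h5 hk
    have h6 : s m ⊆ {V | 1 / ((k : ℝ) + 1) ≤ g V} := by
      intro V hV
      rw [hs] at hV
      obtain ⟨i, h7, h8, h9⟩ := hV
      exact h9.trans (hga V i h7 h8)
    refine (measure_mono h6).trans ?_
    rw [← ENNReal.ofReal_toReal (measure_ne_top μ {V | 1 / ((k : ℝ) + 1) ≤ g V})]
    refine (ENNReal.ofReal_le_ofReal h4).trans (le_of_eq ?_)
    exact ENNReal.ofReal_coe_nnreal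
  filter_upwards [ae_all_iff.2 h1] with V hV
  rw [Metric.tendsto_atTop]
  intro ε hε
  obtain ⟨k, hk⟩ := exists_nat_one_div_lt (show (0 : ℝ) < ε ^ 2 by positivity)
  obtain ⟨n, hn⟩ := hV k
  refine ⟨n, fun i hi => ?_⟩
  rw [dist_zero_right]
  exact lt_of_pow_lt_pow_left₀ 2 hε.le ((hn i hi).trans hk)

variable {d : ℕ}

theorem int_bdd {F : Type*} [NormedAddCommGroup F] (ν : Measure ℝ) [IsProbabilityMeasure ν]
    {g : Om d → F} (hg : StronglyMeasurable g) (C : ℝ) (h : ∀ V, ‖g V‖ ≤ C) :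
    Integrable g (PP (Sd d) ν) :=
  Integrable.of_bound hg.aestronglyMeasurable C (Filter.Eventually.of_forall h)

theorem cov_apply_sq_int (ν : Measure ℝ) [IsProbabilityMeasure ν] {B : Om d → L2 d →L[ℂ] L2 d}
    (hB : Cov B) (f : L2 d) : Integrable (fun V => ‖B V f‖ ^ 2) (PP (Sd d) ν) := by
  obtain ⟨c, hc⟩ := hB.bdd
  refine int_bdd ν ((hB.meas _).norm.pow 2) ((c * ‖f‖) ^ 2) fun V => ?_
  rw [Real.norm_eq_abs, abs_of_nonneg (sq_nonneg _)]
  refine pow_le_pow_left₀ (norm_nonneg _) ?_ 2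
  refine ((B V).le_opNorm _).trans ?_
  exact mul_le_mul_of_nonneg_right (hc V) (norm_nonneg _)

theorem cov_one : Cov fun _ : Om d => (1 : L2 d →L[ℂ] L2 d) := by
  refine ⟨fun f => stronglyMeasurable_const, ⟨‖(1 : L2 d →L[ℂ] L2 d)‖, fun _ => le_rfl⟩,
    fun z V f => ?_⟩
  rw [one_apply_eq_self, one_apply_eq_self, Sf_Sf, neg_add_cancel, Sf_zero]

theorem three_sq {a b c t : ℝ} (ht : 0 ≤ t) (h : t ≤ a + b + c) : t ^ 2 ≤ 3 * (a ^ 2 + b ^ 2 + c ^ 2) := by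
  have h1 : t ^ 2 ≤ (a + b + c) ^ 2 := pow_le_pow_left₀ ht h 2
  nlinarith [sq_nonneg (a - b), sq_nonneg (b - c), sq_nonneg (a - c)]

end ASCx

open ASCx in
/-- **almost sure convergence of discrete averages** -/
theorem t_ASC (hX : T_XT) (hS : T_SNF) (hQ : T_SQZ) (hM : T_MAX) : T_ASC := by
  intro d U hU ν _ X hXc hlim
  obtain ⟨-, -, hUc, -⟩ := hX d U hU
  obtain ⟨hS1, hS2, hS3, -⟩ := hS d U hU
  obtain ⟨C', hC'⟩ := hXc.bdd
  obtain ⟨C, hC, hC0⟩ : ∃ C : ℝ, (∀ V, ‖X V‖ ≤ C) ∧ 0 ≤ C :=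
    ⟨max C' 0, fun V => (hC' V).trans (le_max_left _ _), le_max_right _ _⟩
  have hav : ∀ n : ℕ, Cov fun V => ((n : ℂ)⁻¹) • SN U X n V := fun n => cov_smul _ (hS1 X n hXc)
  refine ae_of_max _ _ fun δ hδ => ?_
  obtain ⟨lam, hlam, hlam2⟩ : ∃ lam : ℝ, 0 < lam ∧ 15 * lam = δ := ⟨δ / 15, by positivity, by ring⟩
  -- the choice of `n₀`
  have hev : ∀ᶠ n : ℕ in atTop,
      ∫ V, ‖((n : ℂ)⁻¹) • SN U X n V (ee 0)‖ ^ 2 ∂(PP (Sd d) ν) < lam ^ 2 / (C ^ 2 + 1) :=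
    hlim.eventually (gt_mem_nhds (by positivity))
  obtain ⟨n₀, hn₀, hr⟩ := ((eventually_ge_atTop 1).and hev).exists
  have hRc := hav n₀
  -- the choice of `n₁`
  obtain ⟨n₁, hn₁⟩ := exists_nat_gt (2 * n₀ * C / √lam + 1)
  have hn₁0 : (0 : ℝ) < n₁ := by
    have : (0 : ℝ) ≤ 2 * n₀ * C / √lam := by positivity
    linarith
  have hn₁1 : 1 ≤ n₁ := by exact_mod_cast hn₁0
  have h4 : (2 * n₀ * C / n₁) ^ 2 ≤ lam := by
    have h5 : 2 * n₀ * C / n₁ ≤ √lam := by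
      rw [div_le_iff₀ hn₁0]
      have h6 : 2 * n₀ * C / √lam ≤ n₁ := by linarith
      rw [div_le_iff₀ (Real.sqrt_pos.2 hlam)] at h6
      linarith
    calc (2 * n₀ * C / n₁) ^ 2 ≤ (√lam) ^ 2 := pow_le_pow_left₀ (by positivity) h5 2
      _ = lam := Real.sq_sqrt hlam.le
  refine ⟨n₁, fun m => ?_⟩
  -- the choice of `ε`
  obtain ⟨ε, hε, hε1, hε2⟩ : ∃ ε : ℝ, 0 < ε ∧ ε ≤ lam ^ 2 / (C ^ 2 + 1) ∧ m * ε ≤ lam := by
    refine ⟨min (lam ^ 2 / (C ^ 2 + 1)) (lam / (m + 1)), by positivity, min_le_left _ _, ?_⟩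
    calc (m : ℝ) * min (lam ^ 2 / (C ^ 2 + 1)) (lam / (m + 1)) ≤ m * (lam / (m + 1)) :=
          mul_le_mul_of_nonneg_left (min_le_right _ _) (Nat.cast_nonneg _)
      _ = (m / (m + 1)) * lam := by ring
      _ ≤ 1 * lam := by
          refine mul_le_mul_of_nonneg_right ?_ hlam.le
          rw [div_le_one (by positivity)]
          linarith
      _ = lam := one_mul _
  obtain ⟨R, hR⟩ : ∃ R : Om d → L2 d →L[ℂ] L2 d, R = fun V => ((n₀ : ℂ)⁻¹) • SN U X n₀ V :=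
    ⟨_, rfl⟩
  rw [← hR] at hRc
  obtain ⟨z, hz, hz1, hz2⟩ := hM d U hU ν R hRc m lam ε hlam hε
  have hzn : ∀ V, ‖z V (ee 0)‖ ≤ 1 := fun V => by
    rw [← norm_ee (d := d) 0]
    exact (hQ d (z V) (hz.sa V) (hz.pos V) (hz.le_one V) (ee 0)).2
  obtain ⟨G, hG⟩ : ∃ G : ℕ → Om d → ℝ, G = fun (i : ℕ) (V : Om d) =>
    max 0 (‖((i : ℂ)⁻¹) • SN U R i V (z V (ee 0))‖ ^ 2 - lam) := ⟨_, rfl⟩
  have hGV : ∀ (i : ℕ) (V : Om d), max 0 (‖((i : ℂ)⁻¹) • SN U R i V (z V (ee 0))‖ ^ 2 - lam) = G i V :=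
    fun i V => by rw [hG]
  simp only [hGV] at hz2
  have hG0 : ∀ i V, 0 ≤ G i V := fun i V => by
    rw [← hGV]
    exact le_max_left _ _
  have hGi : ∀ i, Integrable (G i) (PP (Sd d) ν) := by
    intro i
    have h1 := cov_apply_sq_int ν (cov_comp (cov_smul ((i : ℂ)⁻¹) (hS1 R i hRc)) hz.cov) (ee 0)
    have h2 := (integrable_zero _ _ _).sup (h1.sub (integrable_const lam))
    rw [hG]
    exact h2
  have hEi : Integrable (fun V => ‖ee 0 - z V (ee 0)‖ ^ 2) (PP (Sd d) ν) :=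
    cov_apply_sq_int ν (cov_sub cov_one hz.cov) (ee 0)
  have hsum : Integrable (fun V => ∑ i ∈ Finset.range m, G (i + 1) V) (PP (Sd d) ν) :=
    integrable_finsetSum _ fun i _ => hGi (i + 1)
  refine ⟨fun V => 3 * (C ^ 2 * ‖ee 0 - z V (ee 0)‖ ^ 2 +
    (lam + ∑ i ∈ Finset.range m, G (i + 1) V) + (2 * n₀ * C / n₁) ^ 2), ?_, ?_, ?_, ?_⟩
  · exact (((hEi.const_mul _).add ((integrable_const _).add hsum)).add
      (integrable_const _)).const_mul _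
  · intro V i hi him
    have hi0 : (0 : ℝ) < i := by
      have : 1 ≤ i := hn₁1.trans hi
      exact_mod_cast this
    have hnn : ∀ v : L2 d, ‖((i : ℂ)⁻¹) • v‖ = (i : ℝ)⁻¹ * ‖v‖ := fun v => by
      rw [norm_smul, norm_inv, Complex.norm_natCast]
    have e1 : ((i : ℂ)⁻¹) • SN U X i V (ee 0) = ((i : ℂ)⁻¹) • SN U X i V (ee 0 - z V (ee 0)) +
        ((i : ℂ)⁻¹) • SN U R i V (z V (ee 0)) +
        ((i : ℂ)⁻¹) • (SN U X i V (z V (ee 0)) - SN U R i V (z V (ee 0))) := by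
      rw [map_sub, smul_sub, smul_sub]
      abel
    have e2 : ‖((i : ℂ)⁻¹) • SN U X i V (ee 0 - z V (ee 0))‖ ≤ C * ‖ee 0 - z V (ee 0)‖ := by
      rw [hnn]
      have := hS2 X i C hC V (ee 0 - z V (ee 0))
      calc (i : ℝ)⁻¹ * ‖SN U X i V (ee 0 - z V (ee 0))‖
          ≤ (i : ℝ)⁻¹ * (i * C * ‖ee 0 - z V (ee 0)‖) :=
            mul_le_mul_of_nonneg_left this (by positivity)
        _ = C * ‖ee 0 - z V (ee 0)‖ := by field_simp
    have e3 : ‖((i : ℂ)⁻¹) • SN U R i V (z V (ee 0))‖ ^ 2 ≤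
        lam + ∑ i ∈ Finset.range m, G (i + 1) V := by
      have h7 : G i V ≤ ∑ i ∈ Finset.range m, G (i + 1) V := by
        obtain ⟨j, rfl⟩ : ∃ j, i = j + 1 := ⟨i - 1, by omega⟩
        exact Finset.single_le_sum (f := fun i => G (i + 1) V) (fun j _ => hG0 _ _)
          (Finset.mem_range.2 (by omega))
      have h8 := le_max_right 0 (‖((i : ℂ)⁻¹) • SN U R i V (z V (ee 0))‖ ^ 2 - lam)
      rw [hGV] at h8
      linarith
    have e4 : ‖((i : ℂ)⁻¹) • (SN U X i V (z V (ee 0)) - SN U R i V (z V (ee 0)))‖ ≤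
        2 * n₀ * C / n₁ := by
      rw [hnn]
      have h9 := hS3 X n₀ i C hC0 hC hn₀ V (z V (ee 0))
      rw [← hR] at h9
      calc (i : ℝ)⁻¹ * ‖SN U X i V (z V (ee 0)) - SN U R i V (z V (ee 0))‖
          ≤ (i : ℝ)⁻¹ * (2 * n₀ * C * ‖z V (ee 0)‖) :=
            mul_le_mul_of_nonneg_left h9 (by positivity)
        _ ≤ (i : ℝ)⁻¹ * (2 * n₀ * C * 1) := by
            refine mul_le_mul_of_nonneg_left ?_ (by positivity)
            exact mul_le_mul_of_nonneg_left (hzn V) (by positivity)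
        _ = 2 * n₀ * C / i := by ring
        _ ≤ 2 * n₀ * C / n₁ := by
            refine div_le_div_of_nonneg_left (by positivity) hn₁0 ?_
            exact_mod_cast hi
    rw [e1]
    have e5 := three_sq (norm_nonneg _) (norm_add₃_le (a := ((i : ℂ)⁻¹) •
      SN U X i V (ee 0 - z V (ee 0))) (b := ((i : ℂ)⁻¹) • SN U R i V (z V (ee 0)))
      (c := ((i : ℂ)⁻¹) • (SN U X i V (z V (ee 0)) - SN U R i V (z V (ee 0)))))
    refine e5.trans ?_
    refine mul_le_mul_of_nonneg_left ?_ (by norm_num)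
    refine add_le_add (add_le_add ?_ e3) ?_
    · rw [← mul_pow]
      exact pow_le_pow_left₀ (norm_nonneg _) e2 2
    · exact pow_le_pow_left₀ (norm_nonneg _) e4 2
  · intro V
    have : 0 ≤ ∑ i ∈ Finset.range m, G (i + 1) V := Finset.sum_nonneg fun i _ => hG0 _ _
    positivity
  · have hp : (0 : ℝ) < C ^ 2 + 1 := by positivity
    have h10 : ∫ V, ∑ i ∈ Finset.range m, G (i + 1) V ∂(PP (Sd d) ν) ≤ lam := by
      rw [integral_finsetSum _ fun i _ => hGi (i + 1)]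
      refine (Finset.sum_le_sum fun i hi => hz2 (i + 1) (by omega)
        (by have := Finset.mem_range.1 hi; omega)).trans ?_
      rw [Finset.sum_const, Finset.card_range, nsmul_eq_mul]
      exact hε2
    have h11 : C ^ 2 * ∫ V, ‖ee 0 - z V (ee 0)‖ ^ 2 ∂(PP (Sd d) ν) ≤ 2 * lam := by
      have h12 : ∫ V, ‖R V (ee 0)‖ ^ 2 ∂(PP (Sd d) ν) + ε ≤ 2 * (lam ^ 2 / (C ^ 2 + 1)) := by
        have h13 : ∫ V, ‖R V (ee 0)‖ ^ 2 ∂(PP (Sd d) ν) < lam ^ 2 / (C ^ 2 + 1) := by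
          rw [hR]
          exact hr
        linarith
      calc C ^ 2 * ∫ V, ‖ee 0 - z V (ee 0)‖ ^ 2 ∂(PP (Sd d) ν)
          ≤ C ^ 2 * (2 * (lam ^ 2 / (C ^ 2 + 1)) / lam) := by
            refine mul_le_mul_of_nonneg_left (hz1.trans ?_) (by positivity)
            exact div_le_div_of_nonneg_right h12 hlam.le
        _ = (C ^ 2 / (C ^ 2 + 1)) * (2 * lam) := by
            field_simp
        _ ≤ 1 * (2 * lam) := by
            refine mul_le_mul_of_nonneg_right ?_ (by positivity)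
            rw [div_le_one hp]
            linarith
        _ = 2 * lam := one_mul _
    have i1 : Integrable (fun V => C ^ 2 * ‖ee 0 - z V (ee 0)‖ ^ 2) (PP (Sd d) ν) :=
      hEi.const_mul _
    have i2 : Integrable (fun V => lam + ∑ i ∈ Finset.range m, G (i + 1) V) (PP (Sd d) ν) :=
      (integrable_const _).add hsum
    have i3 : Integrable (fun V => C ^ 2 * ‖ee 0 - z V (ee 0)‖ ^ 2 +
        (lam + ∑ i ∈ Finset.range m, G (i + 1) V)) (PP (Sd d) ν) := i1.add i2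
    rw [integral_const_mul, integral_add i3 (integrable_const _), integral_add i1 i2,
      integral_const_mul, integral_add (integrable_const _) hsum]
    simp only [integral_const, probReal_univ, one_smul]
    linarith

end Pool.Agent.T2h98.EA
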