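import Pool.Agent.T2h98.EA.StmP
import Pool.Agent.T2h98.NB.COV

/-! The pointwise ergodic theorem for covariant operators: the maximal inequality (task PE-MAX). -/

set_option autoImplicit false

open scoped BigOperators Topology ENNReal InnerProductSpace
open MeasureTheory ProbabilityTheory Filter
open Pool.Agent.TH980.IM.PR (PP sh)
open Pool.Agent.T2h98.NB

namespace Pool.Agent.T2h98.EA

namespace MAXx

variable {d : ℕ}

theorem cov_one : Cov fun _ : Om d => (1 : L2 d →L[ℂ] L2 d) := by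
  refine ⟨fun f => stronglyMeasurable_const, ⟨‖(1 : L2 d →L[ℂ] L2 d)‖, fun _ => le_rfl⟩,
    fun z V f => ?_⟩
  rw [one_apply_eq_self, one_apply_eq_self, Sf_Sf, neg_add_cancel, Sf_zero]

theorem cov_zero : Cov fun _ : Om d => (0 : L2 d →L[ℂ] L2 d) := by
  refine ⟨fun f => stronglyMeasurable_const, ⟨‖(0 : L2 d →L[ℂ] L2 d)‖, fun _ => le_rfl⟩,
    fun z V f => ?_⟩
  rw [zero_apply, zero_apply, map_zero]

theorem cov_add {B C : Om d → L2 d →L[ℂ] L2 d} (hB : Cov B) (hC : Cov C) :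
    Cov fun V => B V + C V := by
  have h := cov_sub hB (cov_smul (-1) hC)
  have h2 : (fun V => B V - (-1 : ℂ) • C V) = fun V => B V + C V := by
    funext V
    rw [neg_one_smul, sub_neg_eq_add]
  rwa [h2] at h

theorem cov_sum (s : Finset ℕ) {B : ℕ → Om d → L2 d →L[ℂ] L2 d} (hB : ∀ i, Cov (B i)) :
    Cov fun V => ∑ i ∈ s, B i V := by
  induction s using Finset.cons_induction with
  | empty =>
    simp only [Finset.sum_empty]
    exact cov_zero
  | cons a s ha ih =>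
    simp only [Finset.sum_cons]
    exact cov_add (hB a) ih

/-- the trace per volume -/
noncomputable def tau (ν : Measure ℝ) (B : Om d → L2 d →L[ℂ] L2 d) : ℝ :=
  (∫ V, (inner ℂ (ee 0) (B V (ee 0)) : ℂ) ∂(PP (Sd d) ν)).re

theorem int_bdd {F : Type*} [NormedAddCommGroup F] (ν : Measure ℝ) [IsProbabilityMeasure ν]
    {g : Om d → F} (hg : StronglyMeasurable g) (C : ℝ) (h : ∀ V, ‖g V‖ ≤ C) :
    Integrable g (PP (Sd d) ν) :=
  Integrable.of_bound hg.aestronglyMeasurable C (Filter.Eventually.of_forall h)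

theorem norm_inner_le {B : L2 d →L[ℂ] L2 d} {c : ℝ} (h : ‖B‖ ≤ c) :
    ‖(inner ℂ (ee 0) (B (ee 0)) : ℂ)‖ ≤ c := by
  refine (norm_inner_le_norm _ _).trans ?_
  rw [norm_ee, one_mul]
  refine (B.le_opNorm _).trans ?_
  rw [norm_ee, mul_one]
  exact h

theorem int_cov (ν : Measure ℝ) [IsProbabilityMeasure ν] {B : Om d → L2 d →L[ℂ] L2 d}
    (hB : Cov B) : Integrable (fun V => (inner ℂ (ee 0) (B V (ee 0)) : ℂ)) (PP (Sd d) ν) := by
  obtain ⟨c, hc⟩ := hB.bdd
  exact int_bdd ν (stronglyMeasurable_const.inner (hB.meas _)) c fun V => norm_inner_le (hc V)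

theorem tau_re (ν : Measure ℝ) [IsProbabilityMeasure ν] {B : Om d → L2 d →L[ℂ] L2 d}
    (hB : Cov B) :
    tau ν B = ∫ V, (inner ℂ (ee 0) (B V (ee 0)) : ℂ).re ∂(PP (Sd d) ν) :=
  (integral_re (int_cov ν hB)).symm

theorem tau_add (ν : Measure ℝ) [IsProbabilityMeasure ν] {B C : Om d → L2 d →L[ℂ] L2 d}
    (hB : Cov B) (hC : Cov C) : tau ν (fun V => B V + C V) = tau ν B + tau ν C := by
  unfold tau
  rw [← Complex.add_re, ← integral_add (int_cov ν hB) (int_cov ν hC)]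
  simp only [add_apply, inner_add_right]

theorem tau_sub (ν : Measure ℝ) [IsProbabilityMeasure ν] {B C : Om d → L2 d →L[ℂ] L2 d}
    (hB : Cov B) (hC : Cov C) : tau ν (fun V => B V - C V) = tau ν B - tau ν C := by
  unfold tau
  rw [← Complex.sub_re, ← integral_sub (int_cov ν hB) (int_cov ν hC)]
  simp only [sub_apply, inner_sub_right]

theorem tau_smul (ν : Measure ℝ) (c : ℝ) (B : Om d → L2 d →L[ℂ] L2 d) :
    tau ν (fun V => (c : ℂ) • B V) = c * tau ν B := by
  unfold tau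
  simp only [smul_apply, inner_smul_right]
  rw [integral_const_mul, Complex.re_ofReal_mul]

theorem tau_zero (ν : Measure ℝ) : tau ν (fun _ : Om d => (0 : L2 d →L[ℂ] L2 d)) = 0 := by
  unfold tau
  simp

theorem tau_sum (ν : Measure ℝ) [IsProbabilityMeasure ν] (s : Finset ℕ)
    {B : ℕ → Om d → L2 d →L[ℂ] L2 d} (hB : ∀ i, Cov (B i)) :
    tau ν (fun V => ∑ i ∈ s, B i V) = ∑ i ∈ s, tau ν (B i) := by
  induction s using Finset.cons_induction with
  | empty =>
    simp only [Finset.sum_empty]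
    exact tau_zero ν
  | cons a s ha ih =>
    simp only [Finset.sum_cons]
    rw [tau_add ν (hB a) (cov_sum s hB), ih]

theorem tau_le (ν : Measure ℝ) [IsProbabilityMeasure ν] {B : Om d → L2 d →L[ℂ] L2 d}
    (hB : Cov B) {c : ℝ} (h : ∀ V, ‖B V‖ ≤ c) : |tau ν B| ≤ c := by
  unfold tau
  refine (Complex.abs_re_le_norm _).trans ?_
  refine (norm_integral_le_integral_norm _).trans ?_
  have h1 : ∫ V, ‖(inner ℂ (ee 0) (B V (ee 0)) : ℂ)‖ ∂(PP (Sd d) ν) ≤ ∫ _, c ∂(PP (Sd d) ν) :=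
    integral_mono (int_cov ν hB).norm (integrable_const _) fun V => norm_inner_le (h V)
  simpa using h1

theorem tau_comm (hT : T_TP) (ν : Measure ℝ) [IsProbabilityMeasure ν]
    {B C : Om d → L2 d →L[ℂ] L2 d} (hB : Cov B) (hC : Cov C) :
    tau ν (fun V => (B V).comp (C V)) = tau ν (fun V => (C V).comp (B V)) := by
  unfold tau
  exact congrArg Complex.re (hT d ν B C hB hC)

/-- tuples of positive operators with sum at most one -/
structure Tup (m : ℕ) (y : ℕ → Om d → L2 d →L[ℂ] L2 d) : Prop where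
  cov : ∀ i, Cov (y i)
  sa : ∀ (i : ℕ) (V : Om d) (f g : L2 d), inner ℂ (y i V f) g = (inner ℂ f (y i V g) : ℂ)
  pos : ∀ (i : ℕ) (V : Om d) (f : L2 d), 0 ≤ (inner ℂ f (y i V f) : ℂ).re
  le : ∀ (V : Om d) (f : L2 d), ∑ i ∈ Finset.range m, (inner ℂ f (y i V f) : ℂ).re ≤ ‖f‖ ^ 2

theorem tup_zero (m : ℕ) : Tup m (fun _ _ => (0 : L2 d →L[ℂ] L2 d)) := by
  refine ⟨fun _ => cov_zero, fun i V f g => by simp, fun i V f => by simp, fun V f => ?_⟩
  simp

/-- the sum -/
noncomputable def YY (m : ℕ) (y : ℕ → Om d → L2 d →L[ℂ] L2 d) (V : Om d) : L2 d →L[ℂ] L2 d :=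
  ∑ i ∈ Finset.range m, y i V

theorem inner_sum_re (s : Finset ℕ) (y : ℕ → Om d → L2 d →L[ℂ] L2 d) (V : Om d) (f g : L2 d) :
    (inner ℂ f ((∑ i ∈ s, y i V) g) : ℂ).re = ∑ i ∈ s, (inner ℂ f (y i V g) : ℂ).re := by
  rw [sum_apply, inner_sum, Complex.re_sum]

theorem sum_sa (s : Finset ℕ) {y : ℕ → Om d → L2 d →L[ℂ] L2 d}
    (h : ∀ (i : ℕ) (V : Om d) (f g : L2 d), inner ℂ (y i V f) g = (inner ℂ f (y i V g) : ℂ))
    (V : Om d) (f g : L2 d) :
    inner ℂ ((∑ i ∈ s, y i V) f) g = (inner ℂ f ((∑ i ∈ s, y i V) g) : ℂ) := by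
  rw [sum_apply, sum_apply, inner_sum, sum_inner]
  exact Finset.sum_congr rfl fun i _ => h i V f g

theorem YY_uni {m : ℕ} {y : ℕ → Om d → L2 d →L[ℂ] L2 d} (hy : Tup m y) : Uni1 (YY m y) := by
  refine ⟨cov_sum _ hy.cov, fun V f g => sum_sa _ hy.sa V f g, fun V f => ?_, fun V f => ?_⟩
  · unfold YY
    rw [inner_sum_re]
    exact Finset.sum_nonneg fun i _ => hy.pos i V f
  · unfold YY
    rw [inner_sum_re]
    exact hy.le V f

theorem sub_uni {B : Om d → L2 d →L[ℂ] L2 d} (hB : Uni1 B) : Uni1 fun V => 1 - B V := by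
  refine ⟨cov_sub cov_one hB.cov, fun V f g => ?_, fun V f => ?_, fun V f => ?_⟩
  · rw [sub_apply, sub_apply, inner_sub_left, inner_sub_right, hB.sa,
      one_apply_eq_self, one_apply_eq_self]
  · rw [sub_apply, inner_sub_right, Complex.sub_re, one_apply_eq_self]
    have h1 : (inner ℂ f f : ℂ).re = ‖f‖ ^ 2 := by
      rw [inner_self_eq_norm_sq_to_K]
      norm_cast
    rw [h1]
    have := hB.le_one V f
    linarith
  · rw [sub_apply, inner_sub_right, Complex.sub_re, one_apply_eq_self]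
    have h1 : (inner ℂ f f : ℂ).re = ‖f‖ ^ 2 := by
      rw [inner_self_eq_norm_sq_to_K]
      norm_cast
    rw [h1]
    have := hB.pos V f
    linarith

theorem inner_self_re (f : L2 d) : (inner ℂ f f : ℂ).re = ‖f‖ ^ 2 := by
  rw [inner_self_eq_norm_sq_to_K]
  norm_cast

theorem tup_norm (hQ : T_SQZ) {m : ℕ} {y : ℕ → Om d → L2 d →L[ℂ] L2 d} (hy : Tup m y) {i : ℕ}
    (hi : i < m) (V : Om d) : ‖y i V‖ ≤ 1 := by
  refine ContinuousLinearMap.opNorm_le_bound _ zero_le_one fun f => ?_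
  rw [one_mul]
  refine (hQ d (y i V) (hy.sa i V) (hy.pos i V) (fun g => ?_) f).2
  refine le_trans ?_ (hy.le V g)
  exact Finset.single_le_sum (f := fun i => (inner ℂ g (y i V g) : ℂ).re)
    (fun j _ => hy.pos j V g) (Finset.mem_range.2 hi)

/-- the functional -/
noncomputable def phi (ν : Measure ℝ) (D : ℕ → Om d → L2 d →L[ℂ] L2 d) (m : ℕ)
    (y : ℕ → Om d → L2 d →L[ℂ] L2 d) : ℝ :=
  ∑ i ∈ Finset.range m, tau ν fun V => (y i V).comp (D i V)

theorem exists_max (hQ : T_SQZ) (ν : Measure ℝ) [IsProbabilityMeasure ν]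
    {D : ℕ → Om d → L2 d →L[ℂ] L2 d} (hD : ∀ i, Cov (D i)) (m : ℕ) {ε : ℝ} (hε : 0 < ε) :
    ∃ y, Tup m y ∧ ∀ y', Tup m y' → phi ν D m y' ≤ phi ν D m y + ε := by
  choose C hC using fun i => (hD i).bdd
  obtain ⟨S, hS⟩ : ∃ S : Set ℝ, S = {r | ∃ y, Tup m y ∧ phi ν D m y = r} := ⟨_, rfl⟩
  have hne : S.Nonempty := ⟨phi ν D m (fun _ _ => 0), by
    rw [hS]
    exact ⟨_, tup_zero m, rfl⟩⟩
  have hbd : BddAbove S := by
    refine ⟨∑ i ∈ Finset.range m, C i, ?_⟩
    rintro r hr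
    rw [hS] at hr
    obtain ⟨y, hy, rfl⟩ := hr
    unfold phi
    refine Finset.sum_le_sum fun i hi => ?_
    refine (le_abs_self _).trans (tau_le ν (cov_comp (hy.cov i) (hD i)) fun V => ?_)
    refine (ContinuousLinearMap.opNorm_comp_le _ _).trans ?_
    calc ‖y i V‖ * ‖D i V‖ ≤ 1 * C i :=
          mul_le_mul (tup_norm hQ hy (Finset.mem_range.1 hi) V) (hC i V) (norm_nonneg _) zero_le_one
      _ = C i := one_mul _
  obtain ⟨r, hr, hlt⟩ := exists_lt_of_lt_csSup hne (sub_lt_self (sSup S) hε)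
  rw [hS] at hr
  obtain ⟨y, hy, rfl⟩ := hr
  refine ⟨y, hy, fun y' hy' => ?_⟩
  have h1 : phi ν D m y' ≤ sSup S := le_csSup hbd (by rw [hS]; exact ⟨y', hy', rfl⟩)
  linarith

/-- the perturbation of a tuple -/
theorem tup_pert {m : ℕ} {y : ℕ → Om d → L2 d →L[ℂ] L2 d} (hy : Tup m y) {i : ℕ} (hi : i < m)
    {w : Om d → L2 d →L[ℂ] L2 d} (hw : Cov w)
    (hsa : ∀ (V : Om d) (f g : L2 d), inner ℂ (w V f) g = (inner ℂ f (w V g) : ℂ))
    (hpos : ∀ (V : Om d) (f : L2 d), 0 ≤ (inner ℂ f (w V f) : ℂ).re)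
    (hle : ∀ (V : Om d) (f : L2 d), (inner ℂ f (w V f) : ℂ).re ≤
      (inner ℂ f ((1 - YY m y V) f) : ℂ).re) :
    Tup m (fun j V => y j V + (((if j = i then 1 else 0 : ℝ)) : ℂ) • w V) := by
  have h0 : ∀ j : ℕ, (0 : ℝ) ≤ (if j = i then 1 else 0 : ℝ) := fun j => by split_ifs <;> norm_num
  refine ⟨fun j => cov_add (hy.cov j) (cov_smul _ hw), fun j V f g => ?_, fun j V f => ?_,
    fun V f => ?_⟩
  · rw [add_apply, add_apply, inner_add_left, inner_add_right, smul_apply, smul_apply,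
      inner_smul_left, inner_smul_right, Complex.conj_ofReal, hy.sa, hsa]
  · rw [add_apply, inner_add_right, smul_apply, inner_smul_right, Complex.add_re,
      Complex.re_ofReal_mul]
    exact add_nonneg (hy.pos j V f) (mul_nonneg (h0 j) (hpos V f))
  · have h1 : ∀ j ∈ Finset.range m,
        (inner ℂ f ((y j V + (((if j = i then 1 else 0 : ℝ)) : ℂ) • w V) f) : ℂ).re =
        (inner ℂ f (y j V f) : ℂ).re + (if j = i then 1 else 0 : ℝ) * (inner ℂ f (w V f) : ℂ).re := by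
      intro j _
      rw [add_apply, inner_add_right, smul_apply, inner_smul_right, Complex.add_re,
        Complex.re_ofReal_mul]
    rw [Finset.sum_congr rfl h1, Finset.sum_add_distrib, ← Finset.sum_mul,
      Finset.sum_ite_eq' (Finset.range m) i, if_pos (Finset.mem_range.2 hi), one_mul]
    have h2 := hle V f
    rw [sub_apply, inner_sub_right, Complex.sub_re, one_apply_eq_self, inner_self_re]
      at h2
    unfold YY at h2
    rw [inner_sum_re] at h2
    linarith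

theorem phi_pert (ν : Measure ℝ) [IsProbabilityMeasure ν]
    {D : ℕ → Om d → L2 d →L[ℂ] L2 d} (hD : ∀ i, Cov (D i)) {m : ℕ}
    {y : ℕ → Om d → L2 d →L[ℂ] L2 d} (hy : ∀ i, Cov (y i)) {i : ℕ} (hi : i < m)
    {w : Om d → L2 d →L[ℂ] L2 d} (hw : Cov w) :
    phi ν D m (fun j V => y j V + (((if j = i then 1 else 0 : ℝ)) : ℂ) • w V) =
      phi ν D m y + tau ν fun V => (w V).comp (D i V) := by
  unfold phi
  have h1 : ∀ j ∈ Finset.range m,
      tau ν (fun V => (y j V + (((if j = i then 1 else 0 : ℝ)) : ℂ) • w V).comp (D j V)) =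
      tau ν (fun V => (y j V).comp (D j V)) +
        (if j = i then 1 else 0 : ℝ) * tau ν (fun V => (w V).comp (D j V)) := by
    intro j _
    have h2 : (fun V => (y j V + (((if j = i then 1 else 0 : ℝ)) : ℂ) • w V).comp (D j V)) =
        fun V => (y j V).comp (D j V) +
          (((if j = i then 1 else 0 : ℝ)) : ℂ) • (w V).comp (D j V) := by
      funext V
      ext f
      rfl
    rw [h2, tau_add ν (cov_comp (hy j) (hD j)) (cov_smul _ (cov_comp hw (hD j))), tau_smul]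
  rw [Finset.sum_congr rfl h1, Finset.sum_add_distrib]
  congr 1
  rw [Finset.sum_eq_single i]
  · rw [if_pos rfl, one_mul]
  · intro j _ hj
    rw [if_neg hj, zero_mul]
  · intro h
    exact absurd (Finset.mem_range.2 hi) h

/-- step (a) -/
theorem step_a (hT : T_TP) (hQ : T_SQZ) (hM : T_MUL) (ν : Measure ℝ) [IsProbabilityMeasure ν]
    {D : ℕ → Om d → L2 d →L[ℂ] L2 d} (hD : ∀ i, Cov (D i)) {m : ℕ}
    {y : ℕ → Om d → L2 d →L[ℂ] L2 d} (hy : Tup m y) {ε : ℝ}
    (hmax : ∀ y', Tup m y' → phi ν D m y' ≤ phi ν D m y + ε) {i : ℕ} (hi : i < m) :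
    ∫ V, max 0 (inner ℂ ((1 - YY m y V) (ee 0)) (D i V ((1 - YY m y V) (ee 0))) : ℂ).re
      ∂(PP (Sd d) ν) ≤ ε := by
  obtain ⟨z, hz⟩ : ∃ z : Om d → L2 d →L[ℂ] L2 d, z = fun V => 1 - YY m y V := ⟨_, rfl⟩
  have hzV : ∀ V, 1 - YY m y V = z V := fun V => by rw [hz]
  have hu : Uni1 z := by
    rw [hz]
    exact sub_uni (YY_uni hy)
  simp only [hzV]
  obtain ⟨q, hq⟩ : ∃ q : Om d → ℝ, q = fun V =>
    (inner ℂ (z V (ee 0)) (D i V (z V (ee 0))) : ℂ).re := ⟨_, rfl⟩
  have hqV : ∀ V, (inner ℂ (z V (ee 0)) (D i V (z V (ee 0))) : ℂ).re = q V := fun V => by rw [hq]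
  simp only [hqV]
  have hin : StronglyMeasurable fun V => (inner ℂ (z V (ee 0)) (D i V (z V (ee 0))) : ℂ) :=
    (hu.cov.meas _).inner ((cov_comp (hD i) hu.cov).meas _)
  have hqm : Measurable q := by
    rw [hq]
    exact Complex.measurable_re.comp hin.measurable
  obtain ⟨g, hg⟩ : ∃ g : Om d → ℝ, g = fun V => {V | 0 < q V}.indicator (fun _ => (1 : ℝ)) V :=
    ⟨_, rfl⟩
  have hgm : Measurable g := by
    rw [hg]
    exact measurable_const.indicator (measurableSet_lt measurable_const hqm)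
  have hg0 : ∀ V, 0 ≤ g V := fun V => by
    rw [hg]
    exact Set.indicator_nonneg (fun _ _ => zero_le_one) V
  have hg1 : ∀ V, g V ≤ 1 := fun V => by
    rw [hg]
    exact Set.indicator_le' (fun _ _ => le_rfl) (fun _ _ => zero_le_one) V
  obtain ⟨b, hb, hbe⟩ := hM d g hgm hg0 hg1
  have hw : Cov fun V => (z V).comp ((b V).comp (z V)) := cov_comp hu.cov (cov_comp hb.cov hu.cov)
  have hwin : ∀ (V : Om d) (f : L2 d), (inner ℂ f ((z V).comp ((b V).comp (z V)) f) : ℂ) =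
      inner ℂ (z V f) (b V (z V f)) := fun V f => (hu.sa V f _).symm
  have h1 := hmax _ (tup_pert hy hi hw (fun V f g => by
      show inner ℂ (z V (b V (z V f))) g = (inner ℂ f (z V (b V (z V g))) : ℂ)
      rw [hu.sa, hb.sa, hu.sa]) (fun V f => by
      rw [hwin]
      exact hb.pos V _) (fun V f => by
      rw [hwin, hzV]
      exact (hb.le_one V _).trans (hQ d (z V) (hu.sa V) (hu.pos V) (hu.le_one V) f).1))
  rw [phi_pert ν hD hy.cov hi hw] at h1
  have h2 : tau ν (fun V => ((z V).comp ((b V).comp (z V))).comp (D i V)) =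
      ∫ V, max 0 (q V) ∂(PP (Sd d) ν) := by
    have h3 := tau_comm hT ν hu.cov (cov_comp hb.cov (cov_comp hu.cov (hD i)))
    have h4 : tau ν (fun V => ((z V).comp ((b V).comp (z V))).comp (D i V)) =
        tau ν (fun V => (z V).comp ((b V).comp ((z V).comp (D i V)))) := rfl
    rw [h4, h3, tau_re ν (cov_comp (cov_comp hb.cov (cov_comp hu.cov (hD i))) hu.cov)]
    refine integral_congr_ae (Filter.Eventually.of_forall fun V => ?_)
    show (inner ℂ (ee 0) (b V (z V (D i V (z V (ee 0))))) : ℂ).re = max 0 (q V)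
    rw [← hb.sa, hbe, inner_smul_left, Complex.conj_ofReal, Complex.re_ofReal_mul, ← hu.sa, hqV]
    rw [hg]
    by_cases h5 : 0 < q V
    · show {V | 0 < q V}.indicator (fun _ => (1 : ℝ)) V * q V = _
      rw [Set.indicator_of_mem (show V ∈ {V | 0 < q V} from h5), one_mul, max_eq_right h5.le]
    · show {V | 0 < q V}.indicator (fun _ => (1 : ℝ)) V * q V = _
      rw [Set.indicator_of_notMem (show V ∉ {V | 0 < q V} from h5), zero_mul,
        max_eq_left (not_lt.1 h5)]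
  rw [h2] at h1
  linarith

theorem sum_delta (m : ℕ) (b : ℕ → ℝ) :
    ∑ j ∈ Finset.range m, (if j + 1 < m then 1 else 0 : ℝ) * b j =
      ∑ j ∈ Finset.range (m - 1), b j := by
  cases m with
  | zero => simp
  | succ n =>
    rw [Finset.sum_range_succ, if_neg (lt_irrefl _), zero_mul, add_zero, Nat.add_sub_cancel]
    refine Finset.sum_congr rfl fun j hj => ?_
    rw [if_pos (by have := Finset.mem_range.1 hj; omega), one_mul]

theorem sum_shift_le (m : ℕ) {a : ℕ → ℝ} (ha : ∀ j, 0 ≤ a j) :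
    ∑ j ∈ Finset.range (m - 1), a (j + 1) ≤ ∑ j ∈ Finset.range m, a j := by
  cases m with
  | zero => simp
  | succ n =>
    rw [Nat.add_sub_cancel, Finset.sum_range_succ']
    exact le_add_of_nonneg_right (ha 0)

/-- step (b) -/
theorem step_b (hT : T_TP) {U : Om d → ℝ → L2 d →L[ℂ] L2 d}
    (hadj : ∀ (V : Om d) (t : ℝ) (f g : L2 d), inner ℂ (U V t f) g = (inner ℂ f (U V (-t) g) : ℂ))
    (hn : ∀ (V : Om d) (t : ℝ) (f : L2 d), ‖U V t f‖ = ‖f‖)
    (hUc : ∀ t : ℝ, Cov fun V => U V t)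
    (ν : Measure ℝ) [IsProbabilityMeasure ν]
    {D : ℕ → Om d → L2 d →L[ℂ] L2 d} (hD : ∀ i, Cov (D i))
    (hDs : ∀ (j : ℕ) (V : Om d) (f : L2 d),
      U V (-1) (D j V (U V 1 f)) = D (j + 1) V f - D 0 V f) {m : ℕ}
    {y : ℕ → Om d → L2 d →L[ℂ] L2 d} (hy : Tup m y) {ε : ℝ}
    (hmax : ∀ y', Tup m y' → phi ν D m y' ≤ phi ν D m y + ε) :
    -ε ≤ tau ν fun V => (YY m y V).comp (D 0 V) := by
  have h0 : ∀ j : ℕ, (0 : ℝ) ≤ (if j + 1 < m then 1 else 0 : ℝ) :=
    fun j => by split_ifs <;> norm_num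
  have hadj1 : ∀ (V : Om d) (f g : L2 d), inner ℂ f (U V 1 g) = (inner ℂ (U V (-1) f) g : ℂ) := by
    intro V f g
    rw [hadj V (-1), neg_neg]
  have hin : ∀ (j : ℕ) (V : Om d) (f : L2 d),
      (inner ℂ f (((U V 1).comp ((y (j + 1) V).comp (U V (-1)))) f) : ℂ) =
        inner ℂ (U V (-1) f) (y (j + 1) V (U V (-1) f)) := fun j V f => hadj1 V f _
  have hc : ∀ j, Cov fun V => (U V 1).comp ((y (j + 1) V).comp (U V (-1))) := fun j =>
    cov_comp (hUc 1) (cov_comp (hy.cov _) (hUc (-1)))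
  have h1 : Tup m (fun j V => (((if j + 1 < m then 1 else 0 : ℝ)) : ℂ) •
      (U V 1).comp ((y (j + 1) V).comp (U V (-1)))) := by
    refine ⟨fun j => cov_smul _ (hc j), fun j V f g => ?_, fun j V f => ?_, fun V f => ?_⟩
    · rw [smul_apply, smul_apply, inner_smul_left, inner_smul_right, Complex.conj_ofReal]
      congr 1
      show inner ℂ (U V 1 (y (j + 1) V (U V (-1) f))) g = (inner ℂ f (U V 1 (y (j + 1) V (U V (-1) g))) : ℂ)
      rw [hadj V 1, hy.sa, hadj1]
    · rw [smul_apply, inner_smul_right, Complex.re_ofReal_mul, hin]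
      exact mul_nonneg (h0 j) (hy.pos _ _ _)
    · have h2 : ∀ j ∈ Finset.range m, (inner ℂ f (((((if j + 1 < m then 1 else 0 : ℝ)) : ℂ) •
          (U V 1).comp ((y (j + 1) V).comp (U V (-1)))) f) : ℂ).re =
          (if j + 1 < m then 1 else 0 : ℝ) *
            (inner ℂ (U V (-1) f) (y (j + 1) V (U V (-1) f)) : ℂ).re := by
        intro j _
        rw [smul_apply, inner_smul_right, Complex.re_ofReal_mul, hin]
      rw [Finset.sum_congr rfl h2, sum_delta m fun j =>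
        (inner ℂ (U V (-1) f) (y (j + 1) V (U V (-1) f)) : ℂ).re]
      refine (sum_shift_le m (a := fun j =>
        (inner ℂ (U V (-1) f) (y j V (U V (-1) f)) : ℂ).re) fun j => hy.pos _ _ _).trans ?_
      refine (hy.le V (U V (-1) f)).trans (le_of_eq ?_)
      rw [hn]
  have h2 := hmax _ h1
  have h3 : ∀ j, tau ν (fun V => ((((if j + 1 < m then 1 else 0 : ℝ)) : ℂ) •
      (U V 1).comp ((y (j + 1) V).comp (U V (-1)))).comp (D j V)) =
      (if j + 1 < m then 1 else 0 : ℝ) * (tau ν (fun V => (y (j + 1) V).comp (D (j + 1) V)) -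
        tau ν (fun V => (y (j + 1) V).comp (D 0 V))) := by
    intro j
    have h4 : (fun V => ((((if j + 1 < m then 1 else 0 : ℝ)) : ℂ) •
        (U V 1).comp ((y (j + 1) V).comp (U V (-1)))).comp (D j V)) =
        fun V => (((if j + 1 < m then 1 else 0 : ℝ)) : ℂ) •
          (U V 1).comp ((y (j + 1) V).comp ((U V (-1)).comp (D j V))) := by
      funext V
      ext f
      rfl
    rw [h4, tau_smul, tau_comm hT ν (hUc 1) (cov_comp (hy.cov _) (cov_comp (hUc (-1)) (hD j))),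
      ← tau_sub ν (cov_comp (hy.cov _) (hD _)) (cov_comp (hy.cov _) (hD _))]
    congr 2
    funext V
    ext1 f
    show y (j + 1) V (U V (-1) (D j V (U V 1 f))) = y (j + 1) V (D (j + 1) V f) -
      y (j + 1) V (D 0 V f)
    rw [hDs, map_sub]
  have h5 : phi ν D m (fun j V => (((if j + 1 < m then 1 else 0 : ℝ)) : ℂ) •
      (U V 1).comp ((y (j + 1) V).comp (U V (-1)))) =
      phi ν D m y - tau ν fun V => (YY m y V).comp (D 0 V) := by
    have h6 : tau ν (fun V => (YY m y V).comp (D 0 V)) =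
        ∑ j ∈ Finset.range m, tau ν fun V => (y j V).comp (D 0 V) := by
      rw [← tau_sum ν _ fun j => cov_comp (hy.cov j) (hD 0)]
      congr 1
      funext V
      ext1 f
      show (∑ j ∈ Finset.range m, y j V) (D 0 V f) = (∑ j ∈ Finset.range m, (y j V).comp (D 0 V)) f
      rw [sum_apply, sum_apply]
      rfl
    rw [h6]
    unfold phi
    rw [Finset.sum_congr rfl fun j _ => h3 j, sum_delta m fun j =>
      tau ν (fun V => (y (j + 1) V).comp (D (j + 1) V)) -
        tau ν (fun V => (y (j + 1) V).comp (D 0 V)), Finset.sum_sub_distrib]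
    cases m with
    | zero => simp
    | succ n =>
      rw [Nat.add_sub_cancel, Finset.sum_range_succ' (fun j => tau ν fun V => (y j V).comp (D j V)),
        Finset.sum_range_succ' (fun j => tau ν fun V => (y j V).comp (D 0 V))]
      ring
  rw [h5] at h2
  linarith

/-- the norm of the average -/
theorem avg_le {i : ℕ} (hi : 1 ≤ i) (v : ℕ → L2 d) :
    ‖((i : ℂ)⁻¹) • ∑ k ∈ Finset.range i, v k‖ ^ 2 ≤
      (i : ℝ)⁻¹ * ∑ k ∈ Finset.range i, ‖v k‖ ^ 2 := by
  have hi0 : (0 : ℝ) < i := by exact_mod_cast hi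
  rw [norm_smul, norm_inv, Complex.norm_natCast, mul_pow]
  have h1 : ‖∑ k ∈ Finset.range i, v k‖ ^ 2 ≤ i * ∑ k ∈ Finset.range i, ‖v k‖ ^ 2 := by
    refine (pow_le_pow_left₀ (norm_nonneg _) (norm_sum_le _ _) 2).trans ?_
    have h2 := sq_sum_le_card_mul_sum_sq (s := Finset.range i) (f := fun k => ‖v k‖)
    rwa [Finset.card_range] at h2
  calc ((i : ℝ)⁻¹) ^ 2 * ‖∑ k ∈ Finset.range i, v k‖ ^ 2
      ≤ ((i : ℝ)⁻¹) ^ 2 * (i * ∑ k ∈ Finset.range i, ‖v k‖ ^ 2) :=
        mul_le_mul_of_nonneg_left h1 (by positivity)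
    _ = (i : ℝ)⁻¹ * ∑ k ∈ Finset.range i, ‖v k‖ ^ 2 := by
        field_simp

end MAXx

open MAXx in
/-- **the maximal inequality** -/
theorem t_MAX (hX : T_XT) (hT : T_TP) (hQ : T_SQZ) (hM : T_MUL) : T_MAX := by
  intro d U hU ν _ R hR m lam ε hlam hε
  obtain ⟨hadj, -, hUc, -⟩ := hX d U hU
  have hn := hU.g0.norm
  have hadd := hU.g0.add
  obtain ⟨x, hx⟩ : ∃ x : Om d → L2 d →L[ℂ] L2 d,
    x = fun V => (ContinuousLinearMap.adjoint (R V)).comp (R V) := ⟨_, rfl⟩
  have hxc : Cov x := by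
    rw [hx]
    exact cov_comp (cov_adjoint hR) hR
  have hSc : ∀ i, Cov (SN U x i) := fun i =>
    cov_sum (Finset.range i) (B := fun k V => (U V (-(k : ℝ))).comp ((x V).comp (U V (k : ℝ))))
      fun k => cov_comp (hUc _) (cov_comp hxc (hUc _))
  obtain ⟨D, hD⟩ : ∃ D : ℕ → Om d → L2 d →L[ℂ] L2 d,
    D = fun i V => SN U x (i + 1) V - ((((i + 1 : ℕ) : ℝ) * lam : ℝ) : ℂ) • (1 : L2 d →L[ℂ] L2 d) :=
    ⟨_, rfl⟩
  have hDV : ∀ (i : ℕ) (V : Om d) (f : L2 d), D i V f =
      SN U x (i + 1) V f - ((((i + 1 : ℕ) : ℝ) * lam : ℝ) : ℂ) • f := by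
    intro i V f
    rw [hD]
    rfl
  have hDc : ∀ i, Cov (D i) := fun i => by
    rw [hD]
    exact cov_sub (hSc _) (cov_smul _ cov_one)
  have hSN : ∀ (B : Om d → L2 d →L[ℂ] L2 d) (i : ℕ) (V : Om d) (f : L2 d), SN U B i V f =
      ∑ k ∈ Finset.range i, U V (-(k : ℝ)) (B V (U V (k : ℝ) f)) := by
    intro B i V f
    unfold SN
    rw [sum_apply]
    rfl
  have hD0 : ∀ (V : Om d) (f : L2 d), D 0 V f = x V f - (lam : ℂ) • f := by
    intro V f
    rw [hDV, hSN, zero_add, Finset.sum_range_one, Nat.cast_zero, neg_zero, hU.g0.zero,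
      Nat.cast_one, one_mul]
    rfl
  have hDs : ∀ (j : ℕ) (V : Om d) (f : L2 d),
      U V (-1) (D j V (U V 1 f)) = D (j + 1) V f - D 0 V f := by
    intro j V f
    have h1 : U V (-1) (U V 1 f) = f := by
      rw [← hadd, neg_add_cancel, hU.g0.zero]
      rfl
    rw [hD0, hDV, hDV, hSN, hSN, map_sub, map_smul, h1, map_sum,
      Finset.sum_range_succ' _ (j + 1)]
    have h2 : ∀ k ∈ Finset.range (j + 1), U V (-1) (U V (-(k : ℝ)) (x V (U V (k : ℝ) (U V 1 f)))) =
        U V (-((k + 1 : ℕ) : ℝ)) (x V (U V ((k + 1 : ℕ) : ℝ) f)) := by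
      intro k _
      rw [← hadd, ← hadd]
      congr 2
      push_cast
      ring
      push_cast
      ring_nf
    rw [Finset.sum_congr rfl h2]
    have h3 : U V (-((0 : ℕ) : ℝ)) (x V (U V ((0 : ℕ) : ℝ) f)) = x V f := by
      rw [Nat.cast_zero, neg_zero, hU.g0.zero]
      rfl
    rw [h3]
    have h4 : (((((j + 1 + 1 : ℕ) : ℝ) * lam : ℝ)) : ℂ) =
        (((((j + 1 : ℕ) : ℝ) * lam : ℝ)) : ℂ) + (lam : ℂ) := by
      push_cast
      ring
    rw [h4, add_smul]
    abel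
  obtain ⟨y, hy, hmax⟩ := exists_max hQ ν hDc m hε
  have hY := YY_uni hy
  refine ⟨fun V => 1 - YY m y V, sub_uni hY, ?_, ?_⟩
  · have hb := step_b hT hadj hn hUc ν hDc hDs hy hmax
    have h1 : tau ν (fun V => (YY m y V).comp (D 0 V)) =
        tau ν (fun V => (YY m y V).comp (x V)) - lam * tau ν (YY m y) := by
      rw [← tau_smul, ← tau_sub ν (cov_comp hY.cov hxc) (cov_smul _ hY.cov)]
      congr 1
      funext V
      ext1 f
      show YY m y V (D 0 V f) = YY m y V (x V f) - (lam : ℂ) • YY m y V f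
      rw [hD0, map_sub, map_smul]
    have hRa := cov_adjoint hR
    obtain ⟨c, hc⟩ := hR.bdd
    have hi1 : Integrable (fun V => ‖R V (ee 0)‖ ^ 2) (PP (Sd d) ν) := by
      refine int_bdd ν ((hR.meas _).norm.pow 2) (c ^ 2) fun V => ?_
      rw [Real.norm_eq_abs, abs_of_nonneg (sq_nonneg _)]
      refine pow_le_pow_left₀ (norm_nonneg _) ?_ 2
      refine ((R V).le_opNorm _).trans ?_
      rw [norm_ee, mul_one]
      exact hc V
    have hi2 : Integrable (fun V => ‖ContinuousLinearMap.adjoint (R V) (ee 0)‖ ^ 2)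
        (PP (Sd d) ν) := by
      refine int_bdd ν ((hRa.meas _).norm.pow 2) (c ^ 2) fun V => ?_
      rw [Real.norm_eq_abs, abs_of_nonneg (sq_nonneg _)]
      refine pow_le_pow_left₀ (norm_nonneg _) ?_ 2
      refine ((ContinuousLinearMap.adjoint (R V)).le_opNorm _).trans ?_
      rw [norm_ee, mul_one, LinearIsometryEquiv.norm_map]
      exact hc V
    have h2 : tau ν (fun V => (YY m y V).comp (x V)) ≤ ∫ V, ‖R V (ee 0)‖ ^ 2 ∂(PP (Sd d) ν) := by
      have h3 : tau ν (fun V => (YY m y V).comp (x V)) =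
          tau ν (fun V => (R V).comp ((YY m y V).comp (ContinuousLinearMap.adjoint (R V)))) := by
        rw [← tau_comm hT ν (cov_comp hY.cov hRa) hR, hx]
        rfl
      have h4 : ∫ V, ‖ContinuousLinearMap.adjoint (R V) (ee 0)‖ ^ 2 ∂(PP (Sd d) ν) =
          ∫ V, ‖R V (ee 0)‖ ^ 2 ∂(PP (Sd d) ν) := by
        have h5 := tau_comm hT ν hR hRa
        rw [tau_re ν (cov_comp hR hRa), tau_re ν (cov_comp hRa hR)] at h5
        have h6 : ∀ V, (inner ℂ (ee 0) (((R V).comp (ContinuousLinearMap.adjoint (R V))) (ee 0)) :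
            ℂ).re = ‖ContinuousLinearMap.adjoint (R V) (ee 0)‖ ^ 2 := by
          intro V
          rw [ContinuousLinearMap.comp_apply, ← ContinuousLinearMap.adjoint_inner_left,
            inner_self_re]
        have h7 : ∀ V, (inner ℂ (ee 0) (((ContinuousLinearMap.adjoint (R V)).comp (R V)) (ee 0)) :
            ℂ).re = ‖R V (ee 0)‖ ^ 2 := by
          intro V
          rw [ContinuousLinearMap.comp_apply, ContinuousLinearMap.adjoint_inner_right,
            inner_self_re]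
        simp only [h6, h7] at h5
        exact h5
      have h8 := cov_comp hR (cov_comp hY.cov hRa)
      rw [h3, tau_re ν h8, ← h4]
      refine integral_mono (int_cov ν h8).re hi2 fun V => ?_
      show (inner ℂ (ee 0) (R V (YY m y V (ContinuousLinearMap.adjoint (R V) (ee 0)))) : ℂ).re ≤ _
      rw [← ContinuousLinearMap.adjoint_inner_left]
      exact hY.le_one V _
    have h9 : ∫ V, ‖ee 0 - (1 - YY m y V) (ee 0)‖ ^ 2 ∂(PP (Sd d) ν) ≤ tau ν (YY m y) := by
      rw [tau_re ν hY.cov]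
      have h10 : ∀ V, ee 0 - (1 - YY m y V) (ee 0) = YY m y V (ee 0) := by
        intro V
        rw [sub_apply, one_apply_eq_self, sub_sub_cancel]
      simp only [h10]
      refine integral_mono ?_ (int_cov ν hY.cov).re fun V => ?_
      · obtain ⟨c', hc'⟩ := hY.cov.bdd
        refine int_bdd ν ((hY.cov.meas _).norm.pow 2) (c' ^ 2) fun V => ?_
        rw [Real.norm_eq_abs, abs_of_nonneg (sq_nonneg _)]
        refine pow_le_pow_left₀ (norm_nonneg _) ?_ 2
        refine ((YY m y V).le_opNorm _).trans ?_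
        rw [norm_ee, mul_one]
        exact hc' V
      · exact (hQ d (YY m y V) (hY.sa V) (hY.pos V) (hY.le_one V) (ee 0)).1
    rw [le_div_iff₀ hlam]
    rw [h1] at hb
    have h11 := mul_le_mul_of_nonneg_right h9 hlam.le
    linarith
  · intro i hi him
    obtain ⟨j, rfl⟩ : ∃ j, i = j + 1 := ⟨i - 1, by omega⟩
    have ha := step_a hT hQ hM ν hDc hy hmax (i := j) (by omega)
    refine le_trans (integral_mono_of_nonneg (Filter.Eventually.of_forall fun V => le_max_left _ _)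
      ?_ (Filter.Eventually.of_forall fun V => ?_)) ha
    · have hz := (sub_uni hY)
      have h1 := (int_cov ν (cov_comp hz.cov (cov_comp (hDc j) hz.cov))).re
      have h2 : (fun V => RCLike.re (inner ℂ (ee 0)
          (((1 - YY m y V).comp ((D j V).comp (1 - YY m y V))) (ee 0)) : ℂ)) =
          fun V => (inner ℂ ((1 - YY m y V) (ee 0)) (D j V ((1 - YY m y V) (ee 0))) : ℂ).re := by
        funext V
        rw [hz.sa]
        rfl
      rw [h2] at h1
      exact (integrable_zero _ _ _).sup h1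
    · have hz := (sub_uni hY)
      obtain ⟨g, hg⟩ : ∃ g : L2 d, g = (1 - YY m y V) (ee 0) := ⟨_, rfl⟩
      show max 0 (‖(((j + 1 : ℕ) : ℂ)⁻¹) • SN U R (j + 1) V ((1 - YY m y V) (ee 0))‖ ^ 2 - lam) ≤
        max 0 (inner ℂ ((1 - YY m y V) (ee 0)) (D j V ((1 - YY m y V) (ee 0))) : ℂ).re
      rw [← hg]
      have hg1 : ‖g‖ ≤ 1 := by
        rw [hg, ← norm_ee (d := d) 0]
        exact (hQ d (1 - YY m y V) (hz.sa V) (hz.pos V) (hz.le_one V) (ee 0)).2
      have h1 := avg_le hi fun k => U V (-(k : ℝ)) (R V (U V (k : ℝ) g))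
      rw [← hSN] at h1
      have h2 : (inner ℂ g (D j V g) : ℂ).re = ∑ k ∈ Finset.range (j + 1),
          ‖U V (-(k : ℝ)) (R V (U V (k : ℝ) g))‖ ^ 2 - ((j + 1 : ℕ) : ℝ) * lam * ‖g‖ ^ 2 := by
        rw [hDV, inner_sub_right, inner_smul_right, Complex.sub_re, Complex.re_ofReal_mul,
          inner_self_re, hSN, inner_sum, Complex.re_sum]
        congr 1
        refine Finset.sum_congr rfl fun k _ => ?_
        rw [hn]
        have h3 : (inner ℂ g (U V (-(k : ℝ)) (x V (U V (k : ℝ) g))) : ℂ) =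
            inner ℂ (U V (k : ℝ) g) (x V (U V (k : ℝ) g)) := (hadj V (k : ℝ) g _).symm
        rw [h3, hx]
        show (inner ℂ (U V (k : ℝ) g) (ContinuousLinearMap.adjoint (R V) (R V (U V (k : ℝ) g))) :
          ℂ).re = _
        rw [ContinuousLinearMap.adjoint_inner_right, inner_self_re]
      obtain ⟨N, hN⟩ : ∃ N : ℝ, N = ((j + 1 : ℕ) : ℝ) := ⟨_, rfl⟩
      have hN1 : 1 ≤ N := by
        rw [hN]
        exact_mod_cast hi
      rw [← hN] at h1 h2
      obtain ⟨s, hs⟩ : ∃ s : ℝ, s = ∑ k ∈ Finset.range (j + 1),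
          ‖U V (-(k : ℝ)) (R V (U V (k : ℝ) g))‖ ^ 2 := ⟨_, rfl⟩
      rw [← hs] at h1 h2
      obtain ⟨q, hq⟩ : ∃ q : ℝ, q = (inner ℂ g (D j V g) : ℂ).re := ⟨_, rfl⟩
      rw [← hq] at h2 ⊢
      have hNi : N⁻¹ ≤ 1 := inv_le_one_of_one_le₀ hN1
      have hNi0 : 0 ≤ N⁻¹ := by positivity
      have hgg : ‖g‖ ^ 2 ≤ 1 := pow_le_one₀ (norm_nonneg _) hg1
      have h4 : N⁻¹ * s = N⁻¹ * q + lam * ‖g‖ ^ 2 := by
        have : s = q + N * lam * ‖g‖ ^ 2 := by linarith
        rw [this]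
        field_simp
      have h5 : N⁻¹ * q ≤ max 0 q := by
        refine (mul_le_mul_of_nonneg_left (le_max_right 0 q) hNi0).trans ?_
        exact mul_le_of_le_one_left (le_max_left _ _) hNi
      have h6 : lam * ‖g‖ ^ 2 ≤ lam * 1 := mul_le_mul_of_nonneg_left hgg hlam.le
      refine max_le (le_max_left _ _) ?_
      linarith

end Pool.Agent.T2h98.EA
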