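import Pool.Agent.T2h98.EA.StmP

/-! The pointwise ergodic theorem for covariant operators: multiplication operators
(task PE-MUL). -/

set_option autoImplicit false

open scoped BigOperators Topology ENNReal InnerProductSpace
open MeasureTheory ProbabilityTheory Filter
open Pool.Agent.TH980.IM.PR (PP sh)
open Pool.Agent.T2h98.NB

namespace Pool.Agent.T2h98.EA

namespace MULx

variable {d : ℕ}

/-- multiplication by a function with values in `[0, 1]` -/
noncomputable def mo (θ : Sd d → ℝ) (h0 : ∀ x, 0 ≤ θ x) (h1 : ∀ x, θ x ≤ 1) : L2 d →L[ℂ] L2 d :=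
  LinearMap.mkContinuous
    { toFun := fun f => ⟨fun x => (θ x : ℂ) * f x, mem_of_summable (by
        refine Summable.of_nonneg_of_le (fun x => by positivity) (fun x => ?_) (sq_summable f)
        rw [norm_mul, Complex.norm_real, Real.norm_of_nonneg (h0 x)]
        refine pow_le_pow_left₀ (mul_nonneg (h0 x) (norm_nonneg _)) ?_ 2
        exact mul_le_of_le_one_left (norm_nonneg _) (h1 x))⟩
      map_add' := fun f g => by ext x; exact mul_add _ _ _
      map_smul' := fun c f => by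
        ext x
        show (θ x : ℂ) * (c * f x) = c * ((θ x : ℂ) * f x)
        ring } 1 (fun f => by
      rw [one_mul]
      refine (sq_le_sq₀ (norm_nonneg _) (norm_nonneg _)).1 ?_
      rw [norm_sq, norm_sq]
      refine Summable.tsum_le_tsum (fun x => ?_) (sq_summable _) (sq_summable f)
      show ‖(θ x : ℂ) * f x‖ ^ 2 ≤ ‖f x‖ ^ 2
      rw [norm_mul, Complex.norm_real, Real.norm_of_nonneg (h0 x)]
      refine pow_le_pow_left₀ (mul_nonneg (h0 x) (norm_nonneg _)) ?_ 2
      exact mul_le_of_le_one_left (norm_nonneg _) (h1 x))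

theorem mo_apply (θ : Sd d → ℝ) (h0 : ∀ x, 0 ≤ θ x) (h1 : ∀ x, θ x ≤ 1) (f : L2 d) (x : Sd d) :
    (mo θ h0 h1 f) x = (θ x : ℂ) * f x := rfl

theorem mo_norm (θ : Sd d → ℝ) (h0 : ∀ x, 0 ≤ θ x) (h1 : ∀ x, θ x ≤ 1) : ‖mo θ h0 h1‖ ≤ 1 :=
  LinearMap.mkContinuous_norm_le _ zero_le_one _

theorem mo_inner (θ : Sd d → ℝ) (h0 : ∀ x, 0 ≤ θ x) (h1 : ∀ x, θ x ≤ 1) (f : L2 d) :
    (inner ℂ f (mo θ h0 h1 f) : ℂ).re = ∑' x, θ x * ‖f x‖ ^ 2 := by
  rw [lp.inner_eq_tsum]
  have e : ∀ x, (inner ℂ (f x) ((mo θ h0 h1 f) x) : ℂ) = ((θ x * ‖f x‖ ^ 2 : ℝ) : ℂ) := by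
    intro x
    rw [mo_apply, RCLike.inner_apply, mul_assoc, Complex.mul_conj, Complex.normSq_eq_norm_sq]
    push_cast
    ring
  simp_rw [e]
  rw [← Complex.ofReal_tsum, Complex.ofReal_re]

theorem mo_le (θ : Sd d → ℝ) (h0 : ∀ x, 0 ≤ θ x) (h1 : ∀ x, θ x ≤ 1) (f : L2 d) :
    (inner ℂ f (mo θ h0 h1 f) : ℂ).re ≤ ‖f‖ ^ 2 := by
  rw [mo_inner, norm_sq]
  have h2 : ∀ x, θ x * ‖f x‖ ^ 2 ≤ ‖f x‖ ^ 2 := fun x => mul_le_of_le_one_left (sq_nonneg _) (h1 x)
  exact Summable.tsum_le_tsum h2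
    (Summable.of_nonneg_of_le (fun x => mul_nonneg (h0 x) (sq_nonneg _)) h2 (sq_summable f))
    (sq_summable f)

theorem measurable_sh (z : Sd d) : Measurable (sh z : Om d → Om d) :=
  measurable_pi_lambda _ fun y => measurable_pi_apply (y + z)

end MULx

open MULx in
theorem t_MUL : T_MUL := by
  intro d g hg h0 h1
  have hm : ∀ (f : L2 d), StronglyMeasurable fun V : Om d =>
      mo (fun x => g (sh x V)) (fun x => h0 _) (fun x => h1 _) f := by
    intro f
    refine stronglyMeasurable_of_tendsto (atTop : Filter (Finset (Sd d)))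
      (f := fun S V => ∑ x ∈ S, ((g (sh x V) : ℂ) * f x) • (ee x : L2 d)) (fun S => ?_) ?_
    · refine Finset.stronglyMeasurable_fun_sum S fun x _ => ?_
      have h2 : Measurable fun V : Om d => (g (sh x V) : ℂ) * f x :=
        (Complex.measurable_ofReal.comp (hg.comp (measurable_sh x))).mul_const _
      exact h2.stronglyMeasurable.smul_const _
    · rw [tendsto_pi_nhds]
      intro V
      have h2 := lp.hasSum_single (by norm_num : (2 : ℝ≥0∞) ≠ ∞)
        (mo (fun x => g (sh x V)) (fun x => h0 _) (fun x => h1 _) f)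
      refine h2.congr fun S => Finset.sum_congr rfl fun x _ => ?_
      ext y
      change (lp.single 2 x ((g (sh x V) : ℂ) * f x) : L2 d) y = ((g (sh x V) : ℂ) * f x) * (ee x : L2 d) y
      rw [ee_apply, lp.single_apply]
      by_cases h : y = x
      · subst h
        simp
      · rw [Pi.single_eq_of_ne h, if_neg h, mul_zero]
  refine ⟨fun V => mo (fun x => g (sh x V)) (fun x => h0 _) (fun x => h1 _),
    ⟨⟨hm, ⟨1, fun V => mo_norm _ _ _⟩, fun z V f => ?_⟩, fun V f h => ?_, fun V f => ?_,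
      fun V f => mo_le _ _ _ f⟩, fun V => ?_⟩
  · ext x
    rw [mo_apply, Sf_apply, mo_apply, Sf_apply, sub_neg_eq_add, add_sub_cancel_right]
    have e : sh x (sh z V) = sh (x + z) V := by
      funext y
      change V (y + x + z) = V (y + (x + z))
      rw [add_assoc]
    rw [e]
  · rw [lp.inner_eq_tsum, lp.inner_eq_tsum]
    refine tsum_congr fun x => ?_
    rw [mo_apply, mo_apply, RCLike.inner_apply, RCLike.inner_apply, map_mul, Complex.conj_ofReal]
    ring
  · rw [mo_inner]
    exact tsum_nonneg fun x => mul_nonneg (h0 _) (sq_nonneg _)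
  · ext x
    change (g (sh x V) : ℂ) * (ee 0 : L2 d) x = (g V : ℂ) * (ee 0 : L2 d) x
    rw [ee_apply]
    by_cases h : x = 0
    · subst h
      have e : sh 0 V = V := by
        funext y
        change V (y + 0) = V y
        rw [add_zero]
      rw [e]
    · rw [if_neg h, mul_zero, mul_zero]

end Pool.Agent.T2h98.EA
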