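import Pool.Agent.T2h98.EA.Stm

/-! The pointwise ergodic theorem for covariant operators: statements of the parts. -/

set_option autoImplicit false
set_option linter.unusedVariables false

open scoped BigOperators Topology ENNReal InnerProductSpace
open MeasureTheory ProbabilityTheory Filter
open Pool.Agent.TH980.IM.PR (PP sh)
open Pool.Agent.T2h98.NB

namespace Pool.Agent.T2h98.EA

section

variable {d : ℕ}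

/-- the sum `∑_{k < n} U(-k) B U(k)` -/
noncomputable def SN (U : Om d → ℝ → L2 d →L[ℂ] L2 d) (B : Om d → L2 d →L[ℂ] L2 d) (n : ℕ)
    (V : Om d) : L2 d →L[ℂ] L2 d :=
  ∑ k ∈ Finset.range n, (U V (-(k : ℝ))).comp ((B V).comp (U V (k : ℝ)))

/-- positive covariant operators, at most one -/
structure Uni1 (z : Om d → L2 d →L[ℂ] L2 d) : Prop where
  cov : Cov z
  sa : ∀ (V : Om d) (f g : L2 d), inner ℂ (z V f) g = (inner ℂ f (z V g) : ℂ)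
  pos : ∀ (V : Om d) (f : L2 d), 0 ≤ (inner ℂ f (z V f) : ℂ).re
  le_one : ∀ (V : Om d) (f : L2 d), (inner ℂ f (z V f) : ℂ).re ≤ ‖f‖ ^ 2

end

/-- simple facts: the sums are covariant and bounded, the telescoping sum, the time integral -/
def T_SNF : Prop := ∀ (d : ℕ) (U : Om d → ℝ → L2 d →L[ℂ] L2 d), Grp U →
  (∀ (B : Om d → L2 d →L[ℂ] L2 d) (n : ℕ), Cov B → Cov (SN U B n)) ∧
  (∀ (B : Om d → L2 d →L[ℂ] L2 d) (n : ℕ) (c : ℝ), (∀ V, ‖B V‖ ≤ c) →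
    ∀ (V : Om d) (f : L2 d), ‖SN U B n V f‖ ≤ n * c * ‖f‖) ∧
  (∀ (B : Om d → L2 d →L[ℂ] L2 d) (n m : ℕ) (c : ℝ), 0 ≤ c → (∀ V, ‖B V‖ ≤ c) → 1 ≤ n →
    ∀ (V : Om d) (f : L2 d),
    ‖SN U B m V f - SN U (fun W => ((n : ℂ)⁻¹) • SN U B n W) m V f‖ ≤ 2 * n * c * ‖f‖) ∧
  (∀ (O : Om d → L2 d →L[ℂ] L2 d) (c : ℝ), Obg O c → ∀ (A : Om d → L2 d →L[ℂ] L2 d),
    Cons U A c → ∀ (n : ℕ) (V : Om d) (f : L2 d),
    SN U (fun W => XOT U O W 1 - A W) n V f = XOT U O V n f - (n : ℂ) • A V f)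

/-- the square of an operator between zero and one -/
def T_SQZ : Prop := ∀ (d : ℕ) (z : L2 d →L[ℂ] L2 d),
  (∀ f g : L2 d, inner ℂ (z f) g = (inner ℂ f (z g) : ℂ)) →
  (∀ f : L2 d, 0 ≤ (inner ℂ f (z f) : ℂ).re) → (∀ f : L2 d, (inner ℂ f (z f) : ℂ).re ≤ ‖f‖ ^ 2) →
  ∀ f : L2 d, ‖z f‖ ^ 2 ≤ (inner ℂ f (z f) : ℂ).re ∧ ‖z f‖ ≤ ‖f‖

/-- multiplication by a measurable function of the shifted potential -/
def T_MUL : Prop := ∀ (d : ℕ) (g : Om d → ℝ), Measurable g → (∀ V, 0 ≤ g V) → (∀ V, g V ≤ 1) →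
  ∃ b : Om d → L2 d →L[ℂ] L2 d, Uni1 b ∧ ∀ V : Om d, b V (ee 0) = (g V : ℂ) • ee 0

/-- **the maximal inequality** (Yeadon; here with approximate maximizers) -/
def T_MAX : Prop := ∀ (d : ℕ) (U : Om d → ℝ → L2 d →L[ℂ] L2 d), Grp U →
  ∀ (ν : Measure ℝ) [IsProbabilityMeasure ν] (R : Om d → L2 d →L[ℂ] L2 d), Cov R →
  ∀ (m : ℕ) (lam ε : ℝ), 0 < lam → 0 < ε → ∃ z : Om d → L2 d →L[ℂ] L2 d, Uni1 z ∧
    ∫ V, ‖ee 0 - z V (ee 0)‖ ^ 2 ∂(PP (Sd d) ν) ≤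
      (∫ V, ‖R V (ee 0)‖ ^ 2 ∂(PP (Sd d) ν) + ε) / lam ∧
    ∀ i : ℕ, 1 ≤ i → i ≤ m →
      ∫ V, max 0 (‖((i : ℂ)⁻¹) • SN U R i V (z V (ee 0))‖ ^ 2 - lam) ∂(PP (Sd d) ν) ≤ ε

/-- almost sure convergence of discrete averages -/
def T_ASC : Prop := ∀ (d : ℕ) (U : Om d → ℝ → L2 d →L[ℂ] L2 d), Grp U →
  ∀ (ν : Measure ℝ) [IsProbabilityMeasure ν] (X : Om d → L2 d →L[ℂ] L2 d), Cov X →
  Tendsto (fun n : ℕ => ∫ V, ‖((n : ℂ)⁻¹) • SN U X n V (ee 0)‖ ^ 2 ∂(PP (Sd d) ν)) atTop (𝓝 0) →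
  ∀ᵐ V ∂(PP (Sd d) ν), Tendsto (fun n : ℕ => ((n : ℂ)⁻¹) • SN U X n V (ee 0)) atTop (𝓝 0)

/-- **the pointwise ergodic theorem** -/
def T_PET : Prop := ∀ (d : ℕ) (U : Om d → ℝ → L2 d →L[ℂ] L2 d), Grp U →
  ∀ (O : Om d → L2 d →L[ℂ] L2 d) (c : ℝ), Obg O c →
  ∀ (ν : Measure ℝ) [IsProbabilityMeasure ν] (A : Om d → L2 d →L[ℂ] L2 d), LimO U ν O c A →
  ∀ᵐ V ∂(PP (Sd d) ν), ∀ f : L2 d,
    Tendsto (fun T : ℝ => T⁻¹ • XOT U O V T f) atTop (𝓝 (A V f))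

end Pool.Agent.T2h98.EA
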