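import Pool.Agent.T2h98.EA.NBG
import Pool.Agent.T2h98.EA.StmP

/-! No ballistic motion, almost surely, for all initial states with finite second moment. -/

set_option autoImplicit false
set_option linter.unusedVariables false

open scoped BigOperators Topology ENNReal InnerProductSpace
open MeasureTheory ProbabilityTheory Filter
open Pool.Agent.TH980.IM.PR (PP sh mp_sh)
open Pool.Agent.T2h98.NB

namespace Pool.Agent.T2h98.EA

variable {d : ℕ}

/-- the limit of the averages of the velocity is zero -/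
theorem vel_lim (hV : T_VEL) (hXO : T_XO) (hL : T_LIMO) (hOdd : T_ODD)
    (d : ℕ) (U : Om d → ℝ → L2 d →L[ℂ] L2 d) (hU : Grp U) (ν : Measure ℝ) [IsProbabilityMeasure ν]
    (K : ℝ) (hK : BD ν K) (i : Fin d) :
    ∃ A : Om d → L2 d →L[ℂ] L2 d, LimO U ν (fun _ => vel i) 2 A ∧
      ∀ᵐ V ∂(PP (Sd d) ν), A V = 0 := by
  obtain ⟨O, hO⟩ : ∃ O : Om d → L2 d →L[ℂ] L2 d, O = fun _ => vel i := ⟨_, rfl⟩
  have hOb : Obs O 2 := by rw [hO]; exact vel_obs hV d i
  obtain ⟨xcov, xeq, xbd, -, -, xc, -⟩ := hXO d U hU O 2 hOb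
  obtain ⟨A, hAL⟩ := hL d U hU O 2 hOb ν
  have hodd := hOdd d U hU ν K hK O 2 hOb (by
    intro V g
    rw [hO]
    exact (hV d i).2.2.1 g) (ee 0)
  have hAm := hAL.cov.meas (ee 0)
  have hbdm : ∀ (B : Om d → L2 d) (C : ℝ), StronglyMeasurable B → (∀ V, ‖B V‖ ≤ C) →
      Integrable (fun V => ‖B V‖ ^ 2) (PP (Sd d) ν) := by
    intro B C hB hC
    refine Integrable.of_bound (hB.norm.pow 2).aestronglyMeasurable (C ^ 2) (ae_of_all _ fun V => ?_)
    rw [Real.norm_of_nonneg (by positivity)]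
    exact pow_le_pow_left₀ (norm_nonneg _) (hC V) 2
  have hAb : ∀ V, ‖A V (ee 0)‖ ≤ 2 := by
    intro V
    have h1 := (A V).le_opNorm (ee 0)
    rw [norm_ee, mul_one] at h1
    exact h1.trans (hAL.bdd V)
  have hTm : ∀ T : ℝ, StronglyMeasurable fun V => T⁻¹ • XOT U O V T (ee 0) := fun T =>
    ((xc T).meas (ee 0)).const_smul T⁻¹
  have hTb : ∀ (T : ℝ) (V : Om d), ‖T⁻¹ • XOT U O V T (ee 0)‖ ≤ |T⁻¹| * (2 * |T|) := by
    intro T V
    rw [norm_smul, Real.norm_eq_abs]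
    have h1 := (XOT U O V T).le_opNorm (ee 0)
    rw [norm_ee, mul_one] at h1
    exact mul_le_mul_of_nonneg_left (h1.trans (xbd V T)) (abs_nonneg _)
  have hA0 : ∫ V, ‖A V (ee 0)‖ ^ 2 ∂(PP (Sd d) ν) = 0 := by
    have h1 : ∀ T : ℝ, ∫ V, ‖A V (ee 0)‖ ^ 2 ∂(PP (Sd d) ν) ≤
        2 * (∫ V, ‖T⁻¹ • XOT U O V T (ee 0)‖ ^ 2 ∂(PP (Sd d) ν)) +
        2 * ∫ V, ‖T⁻¹ • XOT U O V T (ee 0) - A V (ee 0)‖ ^ 2 ∂(PP (Sd d) ν) := by
      intro T
      have i1 := hbdm _ _ (hTm T) (hTb T)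
      have i2 : Integrable (fun V => ‖T⁻¹ • XOT U O V T (ee 0) - A V (ee 0)‖ ^ 2)
          (PP (Sd d) ν) := hbdm _ _ ((hTm T).sub hAm) (fun V => (norm_sub_le _ _).trans
        (add_le_add (hTb T V) (hAb V)))
      rw [← integral_const_mul, ← integral_const_mul, ← integral_add (i1.const_mul 2)
        (i2.const_mul 2)]
      refine integral_mono (hbdm _ _ hAm hAb) ((i1.const_mul 2).add (i2.const_mul 2)) fun V => ?_
      simp only
      have h2 : ‖A V (ee 0)‖ ≤ ‖T⁻¹ • XOT U O V T (ee 0)‖ +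
          ‖T⁻¹ • XOT U O V T (ee 0) - A V (ee 0)‖ := by
        have h3 : A V (ee 0) = T⁻¹ • XOT U O V T (ee 0) -
            (T⁻¹ • XOT U O V T (ee 0) - A V (ee 0)) := by abel
        conv_lhs => rw [h3]
        exact norm_sub_le _ _
      have h4 := norm_nonneg (A V (ee 0))
      nlinarith [sq_nonneg (‖T⁻¹ • XOT U O V T (ee 0)‖ - ‖T⁻¹ • XOT U O V T (ee 0) - A V (ee 0)‖)]
    have h2 := (hodd.const_mul 2).add (hAL.lim.const_mul 2)
    rw [mul_zero, add_zero] at h2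
    exact le_antisymm (ge_of_tendsto' h2 h1) (integral_nonneg fun V => by positivity)
  have hA1 : ∀ᵐ V ∂(PP (Sd d) ν), A V (ee 0) = 0 := by
    have h1 := (integral_eq_zero_iff_of_nonneg (fun V => by positivity) (hbdm _ _ hAm hAb)).1 hA0
    filter_upwards [h1] with V hV
    have h2 : ‖A V (ee 0)‖ ^ 2 = 0 := hV
    exact norm_eq_zero.1 (pow_eq_zero_iff two_ne_zero |>.1 h2)
  have hA2 : ∀ᵐ V ∂(PP (Sd d) ν), ∀ x : Sd d, A V (ee x) = 0 := by
    rw [ae_all_iff]
    intro x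
    filter_upwards [(mp_sh ν x).quasiMeasurePreserving.ae hA1] with V hV
    rw [hAL.cov.cov, Sf_ee, zero_add] at hV
    have h1 := congrArg (Sf x) hV
    rw [Sf_Sf, add_neg_cancel, Sf_zero, map_zero] at h1
    exact h1
  have hA3 : ∀ᵐ V ∂(PP (Sd d) ν), A V = 0 := by
    filter_upwards [hA2] with V hV
    ext g : 1
    have h1 := (lp.hasSum_single (p := 2) (by norm_num) g).mapL (A V)
    have h2 : ∀ x : Sd d, A V (lp.single 2 x (g x)) = 0 := by
      intro x
      have h3 : (lp.single 2 x (g x) : L2 d) = g x • ee x := by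
        unfold ee
        rw [← lp.single_smul, smul_eq_mul, mul_one]
      rw [h3, map_smul, hV, smul_zero]
    simp only [h2] at h1
    exact h1.unique hasSum_zero
  exact ⟨A, hO ▸ hAL, hA3⟩

/-- **no ballistic motion**, almost surely, all initial states with finite second moment -/
theorem nbas (hM : T_MUC) (hV : T_VEL) (hXO : T_XO) (hL : T_LIMO) (hOdd : T_ODD) (hP : T_PET)
    (d : ℕ) (U : Om d → ℝ → L2 d →L[ℂ] L2 d) (hU : Grp U) (ν : Measure ℝ) [IsProbabilityMeasure ν]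
    (K : ℝ) (hK : BD ν K) : ∀ᵐ V ∂(PP (Sd d) ν), ∀ f : L2 d, mom f ≠ ⊤ →
    Tendsto (fun t : ℝ => mom (U V t f) / ENNReal.ofReal (t ^ 2)) atTop (𝓝 0) := by
  have h1 : ∀ᵐ V ∂(PP (Sd d) ν), ∀ i : Fin d, ∀ f : L2 d,
      Tendsto (fun T : ℝ => T⁻¹ • Xt U i V T f) atTop (𝓝 0) := by
    rw [ae_all_iff]
    intro i
    obtain ⟨A, hAL, hA0⟩ := vel_lim hV hXO hL hOdd d U hU ν K hK i
    have hOb := vel_obs hV d i
    obtain ⟨xcov, xeq, -⟩ := hXO d U hU _ 2 hOb
    filter_upwards [hP d U hU _ 2 ⟨xcov, hOb.bdd, hOb.sa⟩ ν A hAL, hA0] with V h2 h3 f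
    have h4 := h2 f
    rw [h3] at h4
    refine h4.congr fun T => ?_
    rw [xeq]
    rfl
  filter_upwards [h1] with V hV' f hf
  -- the bound at time t
  have hb : ∀ t : ℝ, mom (U V t f) ≤ 2 * (d * mom f) +
      ∑ i, 2 * ENNReal.ofReal (‖Xt U i V t f‖ ^ 2) := by
    intro t
    rw [mom_eq]
    calc ∑ i, momi i (U V t f) ≤ ∑ i : Fin d, (2 * mom f +
          2 * ENNReal.ofReal (‖Xt U i V t f‖ ^ 2)) := by
          refine Finset.sum_le_sum fun i _ => (momi_evol hM hU.g0 i V t f).trans ?_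
          gcongr
          exact momi_le i f
      _ = _ := by
          rw [Finset.sum_add_distrib, Finset.sum_const, Finset.card_univ, Fintype.card_fin,
            nsmul_eq_mul]
          ring
  have h1 : Tendsto (fun t : ℝ => (2 * (d * mom f)) / ENNReal.ofReal (t ^ 2)) atTop (𝓝 0) := by
    have e1 : Tendsto (fun t : ℝ => ENNReal.ofReal (t ^ 2)) atTop (𝓝 ⊤) :=
      ENNReal.tendsto_ofReal_atTop.comp (tendsto_pow_atTop two_ne_zero)
    have e2 := ENNReal.Tendsto.const_div (a := 2 * (d * mom f)) e1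
      (Or.inr (ENNReal.mul_ne_top (by norm_num)
        (ENNReal.mul_ne_top (ENNReal.natCast_ne_top d) hf)))
    rwa [ENNReal.div_top] at e2
  have h2 : ∀ i : Fin d, Tendsto (fun t : ℝ => (2 * ENNReal.ofReal
      (‖Xt U i V t f‖ ^ 2)) / ENNReal.ofReal (t ^ 2)) atTop (𝓝 0) := by
    intro i
    have e1 : Tendsto (fun t : ℝ => ‖t⁻¹ • Xt U i V t f‖ ^ 2) atTop (𝓝 0) := by
      have e0 := (hV' i f).norm.pow 2
      simpa using e0
    have e2 := ENNReal.tendsto_ofReal e1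
    rw [ENNReal.ofReal_zero] at e2
    have e3 := ENNReal.Tendsto.const_mul (a := 2) e2 (Or.inr (by norm_num))
    rw [mul_zero] at e3
    refine e3.congr' ?_
    filter_upwards [eventually_gt_atTop 0] with t ht
    have e4 : ‖t⁻¹ • Xt U i V t f‖ ^ 2 = ‖Xt U i V t f‖ ^ 2 / t ^ 2 := by
      rw [norm_smul, mul_pow, Real.norm_eq_abs, sq_abs]
      field_simp
    rw [e4, ENNReal.ofReal_div_of_pos (by positivity), mul_div_assoc]
  have h3 := h1.add (tendsto_finsetSum Finset.univ fun i (_ : i ∈ Finset.univ) => h2 i)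
  rw [Finset.sum_const_zero, add_zero] at h3
  refine tendsto_of_tendsto_of_tendsto_of_le_of_le tendsto_const_nhds h3 (fun _ => zero_le)
    fun t => ?_
  simp only [div_eq_mul_inv]
  rw [← Finset.sum_mul, ← add_mul]
  gcongr
  exact hb t

end Pool.Agent.T2h98.EA
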