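import Pool.Agent.T2h98.EA.SNF

/-! The pointwise ergodic theorem for covariant operators: from the discrete averages at the origin
to the averages at all vectors. -/

set_option autoImplicit false
set_option linter.unusedVariables false

open scoped BigOperators Topology ENNReal InnerProductSpace
open MeasureTheory ProbabilityTheory Filter
open Pool.Agent.TH980.IM.PR (PP sh mp_sh)

namespace Pool.Agent.T2h98.EA.PETx

open Pool.Agent.T2h98.NB
open Pool.Agent.T2h98.NB.GPO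
open Pool.Agent.T2h98.EA

variable {d : ℕ} {U : Om d → ℝ → L2 d →L[ℂ] L2 d}

/-- bounded operators which tend to zero at the unit vectors tend to zero -/
theorem all_of_ee {K : ℕ → L2 d →L[ℂ] L2 d} {C : ℝ} (hC : 0 ≤ C) (hK : ∀ n f, ‖K n f‖ ≤ C * ‖f‖)
    (he : ∀ x : Sd d, Tendsto (fun n => K n (ee x)) atTop (𝓝 0)) (f : L2 d) :
    Tendsto (fun n => K n f) atTop (𝓝 0) := by
  have h9 : HasSum (fun x : Sd d => (lp.single 2 x (f x) : L2 d)) f :=
    lp.hasSum_single (by norm_num) f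
  have h12 : ∀ x, (lp.single 2 x (f x) : L2 d) = f x • ee x := by
    intro x
    ext y
    rw [lp.single_apply]
    show _ = f x * (ee x : L2 d) y
    rw [ee_apply]
    by_cases h : y = x
    · subst h; simp
    · rw [Pi.single_eq_of_ne h, if_neg h, mul_zero]
  simp only [h12] at h9
  have hfin : ∀ s : Finset (Sd d), Tendsto (fun n => K n (∑ x ∈ s, f x • (ee x : L2 d))) atTop
      (𝓝 0) := by
    intro s
    have h1 : Tendsto (fun n => ∑ x ∈ s, f x • K n (ee x : L2 d)) atTop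
        (𝓝 (∑ x ∈ s, f x • (0 : L2 d))) :=
      tendsto_finsetSum _ fun x _ => (he x).const_smul (f x)
    simp only [smul_zero, Finset.sum_const_zero] at h1
    refine h1.congr fun n => ?_
    rw [map_sum]
    exact Finset.sum_congr rfl fun x _ => (map_smul _ _ _).symm
  rw [Metric.tendsto_atTop]
  intro ε hε
  have hε' : 0 < ε / (2 * (C + 1)) := by positivity
  obtain ⟨s, hs⟩ := (Metric.tendsto_atTop.1 h9) _ hε'
  have hs1 := hs s le_rfl
  rw [dist_eq_norm, norm_sub_rev] at hs1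
  obtain ⟨N, hN⟩ := (Metric.tendsto_atTop.1 (hfin s)) (ε / 2) (by positivity)
  refine ⟨N, fun n hn => ?_⟩
  have h1 := hN n hn
  rw [dist_eq_norm, sub_zero] at h1 ⊢
  have h2 : K n f = K n (f - ∑ x ∈ s, f x • (ee x : L2 d)) +
      K n (∑ x ∈ s, f x • (ee x : L2 d)) := by
    rw [← map_add, sub_add_cancel]
  rw [h2]
  have h3 := hK n (f - ∑ x ∈ s, f x • (ee x : L2 d))
  have h4 : C * ‖f - ∑ x ∈ s, f x • (ee x : L2 d)‖ ≤ ε / 2 := by
    calc C * ‖f - ∑ x ∈ s, f x • (ee x : L2 d)‖ ≤ (C + 1) * (ε / (2 * (C + 1))) :=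
          mul_le_mul (by linarith) hs1.le (norm_nonneg _) (by linarith)
      _ = ε / 2 := by field_simp
  calc _ ≤ ‖K n (f - ∑ x ∈ s, f x • (ee x : L2 d))‖ + ‖K n (∑ x ∈ s, f x • (ee x : L2 d))‖ :=
        norm_add_le _ _
    _ < ε := by linarith

theorem nsc (n : ℕ) (v : L2 d) : ((n : ℂ)⁻¹) • v = ((n : ℝ)⁻¹) • v := by
  have h : ((n : ℂ)⁻¹) = (((n : ℝ)⁻¹ : ℝ) : ℂ) := by push_cast; rfl
  rw [h]
  exact Complex.coe_smul _ _

/-- from integer times to real times -/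
theorem int_real {c : ℝ} (hc : 0 ≤ c) {X : ℝ → L2 d} {a : L2 d} {M : ℝ}
    (hX : ∀ (n : ℕ) (s : ℝ), 0 ≤ s → s ≤ 1 → ‖X (n + s) - X n‖ ≤ M)
    (h : Tendsto (fun n : ℕ => ((n : ℂ)⁻¹) • X n) atTop (𝓝 a)) :
    Tendsto (fun T : ℝ => T⁻¹ • X T) atTop (𝓝 a) := by
  have h1 : Tendsto (fun T : ℝ => ((⌊T⌋₊ : ℂ)⁻¹) • X (⌊T⌋₊ : ℝ)) atTop (𝓝 a) :=
    h.comp (tendsto_nat_floor_atTop (α := ℝ))
  have h2 : Tendsto (fun T : ℝ => ‖((⌊T⌋₊ : ℂ)⁻¹) • X (⌊T⌋₊ : ℝ)‖) atTop (𝓝 ‖a‖) := h1.norm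
  have hi : Tendsto (fun T : ℝ => T⁻¹) atTop (𝓝 0) := tendsto_inv_atTop_zero
  have h3 : Tendsto (fun T : ℝ => ‖((⌊T⌋₊ : ℂ)⁻¹) • X (⌊T⌋₊ : ℝ) - a‖ + T⁻¹ * M +
      T⁻¹ * ‖((⌊T⌋₊ : ℂ)⁻¹) • X (⌊T⌋₊ : ℝ)‖) atTop (𝓝 (0 + 0 * M + 0 * ‖a‖)) :=
    ((tendsto_iff_norm_sub_tendsto_zero.1 h1).add (hi.mul_const M)).add (hi.mul h2)
  rw [zero_mul, zero_mul, add_zero, add_zero] at h3
  apply tendsto_iff_norm_sub_tendsto_zero.2
  refine squeeze_zero' (Eventually.of_forall fun T => norm_nonneg _) ?_ h3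
  filter_upwards [eventually_ge_atTop (1 : ℝ)] with T hT
  have hT0 : 0 < T := by linarith
  set n : ℕ := ⌊T⌋₊ with hn
  have hn1 : 1 ≤ n := (Nat.one_le_floor_iff T).2 hT
  have hn0 : (0 : ℝ) < n := by exact_mod_cast hn1
  have hnT : (n : ℝ) ≤ T := Nat.floor_le hT0.le
  have hTn : T < n + 1 := Nat.lt_floor_add_one T
  have h4 := hX n (T - n) (by linarith) (by linarith)
  rw [add_sub_cancel] at h4
  have e1 : ((n : ℂ)⁻¹) • X (n : ℝ) = ((n : ℝ)⁻¹) • X (n : ℝ) := nsc _ _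
  rw [e1]
  have e2 : T⁻¹ • X T - a = T⁻¹ • (X T - X n) + (((n : ℝ)⁻¹) • X n - a) -
      (1 - T⁻¹ * n) • (((n : ℝ)⁻¹) • X n) := by
    rw [sub_smul, one_smul, smul_smul, smul_sub]
    have : T⁻¹ * n * (n : ℝ)⁻¹ = T⁻¹ := by field_simp
    rw [this]
    abel
  rw [e2]
  have h5 : ‖T⁻¹ • (X T - X n)‖ ≤ T⁻¹ * M := by
    rw [norm_smul, norm_inv, Real.norm_of_nonneg hT0.le]
    exact mul_le_mul_of_nonneg_left h4 (inv_nonneg.2 hT0.le)
  have h6 : ‖(1 - T⁻¹ * n) • (((n : ℝ)⁻¹) • X n)‖ ≤ T⁻¹ * ‖((n : ℝ)⁻¹) • X n‖ := by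
    rw [norm_smul]
    apply mul_le_mul_of_nonneg_right _ (norm_nonneg _)
    have e3 : 1 - T⁻¹ * n = T⁻¹ * (T - n) := by field_simp
    rw [e3, norm_mul, norm_inv, Real.norm_of_nonneg hT0.le,
      Real.norm_of_nonneg (by linarith : (0 : ℝ) ≤ T - n)]
    have : T⁻¹ * (T - n) ≤ T⁻¹ * 1 :=
      mul_le_mul_of_nonneg_left (by linarith) (inv_nonneg.2 hT0.le)
    linarith
  calc _ ≤ ‖T⁻¹ • (X T - X n) + (((n : ℝ)⁻¹) • X n - a)‖ +
        ‖(1 - T⁻¹ * n) • (((n : ℝ)⁻¹) • X n)‖ := norm_sub_le _ _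
    _ ≤ ‖T⁻¹ • (X T - X n)‖ + ‖((n : ℝ)⁻¹) • X n - a‖ +
        ‖(1 - T⁻¹ * n) • (((n : ℝ)⁻¹) • X n)‖ := by
        gcongr
        exact norm_add_le _ _
    _ ≤ _ := by linarith

theorem t_PET (hA : T_ASC) : T_PET := by
  intro d U hG O c hO ν _ A hL
  have hU : Gr0 U := hG.g0
  have hc : 0 ≤ c := XOGx.c_nonneg hO
  obtain ⟨x1, x2, x3, x4, x5, x6, x7⟩ := XOGx.t_XOG d U hG O c hO
  obtain ⟨s1, s2, s3, s4⟩ := SNFx.t_SNF d U hG
  have hCons : Cons U A c := ⟨hL.cov, hL.bdd, hL.sa, hL.com⟩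
  set X : Om d → L2 d →L[ℂ] L2 d := fun W => XOT U O W 1 - A W with hX
  have hXc : Cov X := cov_sub (x5 1) hL.cov
  have hXb : ∀ V, ‖X V‖ ≤ 2 * c := by
    intro V
    refine (norm_sub_le _ _).trans ?_
    have h1 := x2 V 1
    have h2 := hL.bdd V
    rw [abs_one, mul_one] at h1
    linarith
  have hSN : ∀ (n : ℕ) (V : Om d) (f : L2 d), SN U X n V f = XOT U O V n f - (n : ℂ) • A V f :=
    fun n V f => s4 O c hO A hCons n V f
  have hSN1 : ∀ (n : ℕ), 1 ≤ n → ∀ (V : Om d) (f : L2 d),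
      ((n : ℂ)⁻¹) • SN U X n V f = ((n : ℝ)⁻¹) • XOT U O V n f - A V f := by
    intro n hn V f
    have hn0 : (n : ℂ) ≠ 0 := by
      have : n ≠ 0 := by omega
      exact_mod_cast this
    rw [hSN, smul_sub, smul_smul, inv_mul_cancel₀ hn0, one_smul, nsc]
  -- the discrete averages at the origin
  have h0 : ∀ᵐ V ∂(PP (Sd d) ν),
      Tendsto (fun n : ℕ => ((n : ℂ)⁻¹) • SN U X n V (ee 0)) atTop (𝓝 0) := by
    apply hA d U hG ν X hXc
    refine (hL.lim.comp tendsto_natCast_atTop_atTop).congr' ?_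
    filter_upwards [eventually_ge_atTop 1] with n hn
    show ∫ V, ‖((n : ℝ)⁻¹) • XOT U O V (n : ℝ) (ee 0) - A V (ee 0)‖ ^ 2 ∂(PP (Sd d) ν) = _
    congr 1
    funext V
    rw [hSN1 n hn]
  have h1 : ∀ᵐ V ∂(PP (Sd d) ν), ∀ x : Sd d,
      Tendsto (fun n : ℕ => ((n : ℂ)⁻¹) • SN U X n V (ee x)) atTop (𝓝 0) := by
    rw [ae_all_iff]
    intro x
    have h2 := (mp_sh (ι := Sd d) ν x).quasiMeasurePreserving.ae h0
    filter_upwards [h2] with V hV
    rw [tendsto_zero_iff_norm_tendsto_zero] at hV ⊢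
    refine hV.congr fun n => ?_
    rw [(s1 X n hXc).cov, Sf_ee, zero_add, norm_smul, norm_smul, LinearIsometry.norm_map]
  filter_upwards [h1] with V hV
  intro f
  have h2 : Tendsto (fun n : ℕ => (((n : ℂ)⁻¹) • SN U X n V) f) atTop (𝓝 0) := by
    refine all_of_ee (C := 2 * c) (by linarith) (fun n g => ?_) (fun x => hV x) f
    rw [smul_apply, norm_smul, norm_inv, Complex.norm_natCast]
    have h3 := s2 X n (2 * c) hXb V g
    rcases Nat.eq_zero_or_pos n with hn | hn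
    · rw [hn]
      simp only [Nat.cast_zero, inv_zero, zero_mul]
      positivity
    · have hn0 : (0 : ℝ) < n := by exact_mod_cast hn
      rw [inv_mul_le_iff₀ hn0]
      refine h3.trans (le_of_eq ?_)
      ring
  have h3 : Tendsto (fun n : ℕ => ((n : ℂ)⁻¹) • XOT U O V n f) atTop (𝓝 (A V f)) := by
    have h4 := h2.add_const (A V f)
    rw [zero_add] at h4
    refine h4.congr' ?_
    filter_upwards [eventually_ge_atTop 1] with n hn
    rw [smul_apply, hSN1 n hn, sub_add_cancel, nsc]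
  refine int_real (X := fun T : ℝ => XOT U O V T f) (M := c * ‖f‖) hc ?_ h3
  intro n s hs0 hs1
  show ‖XOT U O V (n + s) f - XOT U O V n f‖ ≤ c * ‖f‖
  rw [x3 V n s f, add_sub_cancel_left, hU.norm]
  refine (ContinuousLinearMap.le_opNorm _ _).trans ?_
  rw [hU.norm]
  apply mul_le_mul_of_nonneg_right _ (norm_nonneg _)
  refine (x2 V s).trans ?_
  rw [abs_of_nonneg hs0]
  exact mul_le_of_le_one_right hc hs1

end Pool.Agent.T2h98.EA.PETx
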