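import Pool.Agent.T2h98.EA.Stm
import Pool.Agent.T2h98.NB.XT

/-! Ergodicity on the absolutely continuous spectrum: simple facts on the time integral of a
general observable (adapted from `NB/XO.lean`). -/

set_option autoImplicit false
set_option linter.unusedVariables false

open scoped BigOperators Topology ENNReal InnerProductSpace
open MeasureTheory ProbabilityTheory Filter
open Pool.Agent.TH980.IM.PR (PP sh)

namespace Pool.Agent.T2h98.EA.XOGx

open Pool.Agent.T2h98.NB
open Pool.Agent.T2h98.NB.GPO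
open Pool.Agent.T2h98.NB.XTx (U_cont')
open Pool.Agent.T2h98.EA

variable {d : ℕ} {U : Om d → ℝ → L2 d →L[ℂ] L2 d} {O : Om d → L2 d →L[ℂ] L2 d} {c : ℝ}

/-- Caratheodory functions of operators and vectors -/
theorem clm_meas {α : Type} [MeasurableSpace α] {Φ : α → L2 d →L[ℂ] L2 d}
    (hΦ : ∀ y, StronglyMeasurable fun a => Φ a y) {f : α → L2 d} (hf : StronglyMeasurable f) :
    StronglyMeasurable fun a => Φ a (f a) := by
  have h1 : ∀ s : SimpleFunc α (L2 d), StronglyMeasurable fun a => Φ a (s a) := by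
    intro s
    have h2 : (fun a => Φ a (s a)) = fun a => ∑ y ∈ s.range,
        (s ⁻¹' {y}).indicator (fun a => Φ a y) a := by
      funext a
      rw [Finset.sum_eq_single (s a)]
      · rw [Set.indicator_of_mem]
        exact rfl
      · intro y _ hy
        rw [Set.indicator_of_notMem]
        intro h
        exact hy (by simpa using h.symm)
      · intro h
        exact absurd (SimpleFunc.mem_range_self s a) h
    rw [h2]
    refine Finset.stronglyMeasurable_fun_sum _ fun y _ => ?_
    exact (hΦ y).indicator (s.measurableSet_fiber y)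
  refine stronglyMeasurable_of_tendsto atTop (fun n => h1 (hf.approx n)) ?_
  rw [tendsto_pi_nhds]
  intro a
  exact ((Φ a).continuous.tendsto _).comp (hf.tendsto_approx a)

theorem c_nonneg (hO : Obg O c) : 0 ≤ c := le_trans (norm_nonneg _) (hO.bdd 0)

theorem O_norm (hO : Obg O c) (V : Om d) (f : L2 d) : ‖O V f‖ ≤ c * ‖f‖ :=
  ContinuousLinearMap.le_of_opNorm_le _ (hO.bdd V) f

/-- the integrand -/
noncomputable def ig (U : Om d → ℝ → L2 d →L[ℂ] L2 d) (O : Om d → L2 d →L[ℂ] L2 d) (V : Om d)
    (f : L2 d) (s : ℝ) : L2 d := U V (-s) (O V (U V s f))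

theorem ig_cont (hU : Gr0 U) (O : Om d → L2 d →L[ℂ] L2 d) (V : Om d) (f : L2 d) :
    Continuous fun s : ℝ => ig U O V f s :=
  U_cont' hU continuous_const continuous_neg
    ((O V).continuous.comp ((hU.cont f).comp (continuous_const.prodMk continuous_id)))

theorem ig_meas (hU : Gr0 U) (hO : Cov O) (f : L2 d) :
    StronglyMeasurable fun p : Om d × ℝ => ig U O p.1 f p.2 := by
  have h1 : StronglyMeasurable fun p : Om d × ℝ => U p.1 p.2 f := (hU.cont f).stronglyMeasurable
  have h2 : StronglyMeasurable fun p : Om d × ℝ => O p.1 (U p.1 p.2 f) :=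
    clm_meas (Φ := fun p : Om d × ℝ => O p.1)
      (fun y => (hO.meas y).comp_measurable measurable_fst) h1
  refine clm_meas (Φ := fun p : Om d × ℝ => U p.1 (-p.2)) (fun y => ?_) h2
  exact ((hU.cont y).comp (continuous_fst.prodMk continuous_snd.neg)).stronglyMeasurable

theorem ig_int (hU : Gr0 U) (O : Om d → L2 d →L[ℂ] L2 d) (V : Om d) (f : L2 d) (a b : ℝ) :
    IntervalIntegrable (ig U O V f) volume a b := (ig_cont hU O V f).intervalIntegrable _ _

theorem ig_norm (hU : Gr0 U) (hO : Obg O c) (V : Om d) (f : L2 d) (s : ℝ) :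
    ‖ig U O V f s‖ ≤ c * ‖f‖ := by
  unfold ig
  rw [hU.norm]
  refine le_trans (O_norm hO _ _) ?_
  rw [hU.norm]

theorem XO_eq (V : Om d) (t : ℝ) (f : L2 d) :
    XO U O V t f = ∫ s in (0 : ℝ)..t, ig U O V f s := rfl

theorem XO_norm (hU : Gr0 U) (hO : Obg O c) (V : Om d) (t : ℝ) (f : L2 d) :
    ‖XO U O V t f‖ ≤ c * |t| * ‖f‖ := by
  rw [XO_eq]
  refine le_trans (intervalIntegral.norm_integral_le_of_norm_le_const
    (C := c * ‖f‖) fun s _ => ig_norm hU hO V f s) ?_
  rw [sub_zero]
  linarith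

/-- the time integral as a linear map -/
noncomputable def Xl (hU : Gr0 U) (O : Om d → L2 d →L[ℂ] L2 d) (V : Om d) (t : ℝ) :
    L2 d →ₗ[ℂ] L2 d where
  toFun f := XO U O V t f
  map_add' f g := by
    rw [XO_eq, XO_eq, XO_eq, ← intervalIntegral.integral_add (ig_int hU O V f _ _)
      (ig_int hU O V g _ _)]
    congr 1
    funext s
    simp only [ig, map_add]
  map_smul' k f := by
    rw [RingHom.id_apply, XO_eq, XO_eq, ← intervalIntegral.integral_smul]
    congr 1
    funext s
    simp only [ig, map_smul]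

theorem XOT_eq (hU : Gr0 U) (hO : Obg O c) (V : Om d) (t : ℝ) (f : L2 d) :
    XOT U O V t f = XO U O V t f := by
  have h : ∃ B : L2 d →L[ℂ] L2 d, ∀ f, B f = XO U O V t f :=
    ⟨LinearMap.mkContinuous (Xl hU O V t) (c * |t|) (XO_norm hU hO V t), fun f => rfl⟩
  unfold XOT
  rw [dif_pos h]
  exact h.choose_spec f

theorem XO_meas (hU : Gr0 U) (hO : Cov O) (f : L2 d) :
    StronglyMeasurable fun p : Om d × ℝ => XO U O p.1 p.2 f := by
  have h1 : StronglyMeasurable fun q : (Om d × ℝ) × ℝ => ig U O q.1.1 f (q.1.2 * q.2) :=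
    (ig_meas hU hO f).comp_measurable
      ((measurable_fst.comp measurable_fst).prodMk
        ((measurable_snd.comp measurable_fst).mul measurable_snd))
  have h2 := h1.integral_prod_right' (ν := volume.restrict (Set.Ioc (0 : ℝ) 1))
  have h3 : (fun p : Om d × ℝ => XO U O p.1 p.2 f) = fun p : Om d × ℝ =>
      p.2 • ∫ u in Set.Ioc (0 : ℝ) 1, ig U O p.1 f (p.2 * u) := by
    funext p
    rw [← intervalIntegral.integral_of_le zero_le_one,
      intervalIntegral.smul_integral_comp_mul_left, mul_zero, mul_one, XO_eq]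
  rw [h3]
  exact measurable_snd.stronglyMeasurable.smul h2

theorem XO_inner (hU : Gr0 U) (O : Om d → L2 d →L[ℂ] L2 d) (V : Om d) (t : ℝ) (f g : L2 d) :
    (inner ℂ g (XO U O V t f) : ℂ) = ∫ s in (0 : ℝ)..t, (inner ℂ g (ig U O V f s) : ℂ) :=
  ((innerSL ℂ g).intervalIntegral_comp_comm (ig_int hU O V f _ _)).symm

theorem XO_inner' (hU : Gr0 U) (O : Om d → L2 d →L[ℂ] L2 d) (V : Om d) (t : ℝ) (f g : L2 d) :
    (inner ℂ (XO U O V t f) g : ℂ) = ∫ s in (0 : ℝ)..t, (inner ℂ (ig U O V f s) g : ℂ) := by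
  rw [← inner_conj_symm, XO_inner hU O]
  have h1 := (Complex.conjCLE.toContinuousLinearMap).intervalIntegral_comp_comm
    (((innerSL ℂ g).continuous.comp (ig_cont hU O V f)).intervalIntegrable
      (μ := volume) 0 t)
  have h2 : ∀ s, Complex.conjCLE.toContinuousLinearMap ((⇑(innerSL ℂ g) ∘ fun s => ig U O V f s) s)
      = (inner ℂ (ig U O V f s) g : ℂ) := by
    intro s
    show (starRingEnd ℂ) (inner ℂ g (ig U O V f s)) = _
    exact inner_conj_symm _ _
  simp only [h2] at h1
  rw [h1]
  rfl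

theorem t_XOG : T_XOG := by
  intro d U hG O c hO
  have hU : Gr0 U := hG.g0
  have hsh : ∀ (z : Sd d) (V : Om d) (t : ℝ) (f : L2 d),
      XO U O (sh z V) t f = Sf (-z) (XO U O V t (Sf z f)) := by
    intro z V t f
    have h1 := (Sf (-z)).toContinuousLinearMap.intervalIntegral_comp_comm
      (ig_int hU O V (Sf z f) 0 t)
    rw [XO_eq, XO_eq]
    refine Eq.trans ?_ h1
    congr 1
    funext s
    show ig U O (sh z V) f s = Sf (-z) (ig U O V (Sf z f) s)
    unfold ig
    rw [hG.shift, hG.shift, hO.cov.cov, Sf_Sf, Sf_Sf, add_neg_cancel, Sf_zero, Sf_zero]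
  refine ⟨XOT_eq hU hO, ?_, ?_, ?_, ?_, ?_, ?_⟩
  · intro V t
    refine ContinuousLinearMap.opNorm_le_bound _ (mul_nonneg (c_nonneg hO) (abs_nonneg _))
      fun f => ?_
    rw [XOT_eq hU hO]
    exact XO_norm hU hO V t f
  · intro V s t f
    rw [XOT_eq hU hO, XOT_eq hU hO, XOT_eq hU hO, XO_eq, XO_eq, XO_eq,
      ← intervalIntegral.integral_add_adjacent_intervals (ig_int hU O V f 0 s)
        (ig_int hU O V f s (s + t))]
    congr 1
    have h1 := (U V (-s)).intervalIntegral_comp_comm (ig_int hU O V (U V s f) 0 t)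
    refine Eq.trans ?_ h1
    have h2 := intervalIntegral.integral_comp_add_left (a := 0) (b := t) (fun r => ig U O V f r) s
    rw [add_zero] at h2
    rw [← h2]
    congr 1
    funext r
    unfold ig
    rw [neg_add, hU.add, add_comm s r, hU.add]
  · intro V t f g
    rw [XOT_eq hU hO, XOT_eq hU hO, XO_inner hU O, XO_inner' hU O]
    congr 1
    funext s
    unfold ig
    rw [U_adj hU, neg_neg, hO.sa, U_adj hU]
  · intro t
    refine ⟨?_, ⟨c * |t|, ?_⟩, ?_⟩
    · intro f
      have h1 := (XO_meas hU hO.cov f).comp_measurable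
        (measurable_id.prodMk (measurable_const (a := t)) : Measurable fun V : Om d => (V, t))
      have e : (fun V => XOT U O V t f) = fun V => XO U O V t f :=
        funext fun V => XOT_eq hU hO V t f
      rw [e]
      exact h1
    · intro V
      refine ContinuousLinearMap.opNorm_le_bound _ (mul_nonneg (c_nonneg hO) (abs_nonneg _))
        fun f => ?_
      rw [XOT_eq hU hO]
      exact XO_norm hU hO V t f
    · intro z V f
      rw [XOT_eq hU hO, XOT_eq hU hO]
      exact hsh z V t f
  · intro V f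
    refine (intervalIntegral.continuous_primitive (ig_int hU O V f) 0).congr ?_
    intro t
    exact (XOT_eq hU hO V t f).symm
  · intro f
    have e : (fun p : Om d × ℝ => XOT U O p.1 p.2 f) = fun p : Om d × ℝ => XO U O p.1 p.2 f :=
      funext fun p => XOT_eq hU hO p.1 p.2 f
    rw [e]
    exact XO_meas hU hO.cov f

end Pool.Agent.T2h98.EA.XOGx
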