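import Pool.Agent.T2h98.EA.StmP
import Pool.Agent.T2h98.EA.XOG
import Pool.Agent.T2h98.NB.COV

/-! The pointwise ergodic theorem for covariant operators: simple facts on the sums. -/

set_option autoImplicit false
set_option linter.unusedVariables false

open scoped BigOperators Topology ENNReal InnerProductSpace
open MeasureTheory ProbabilityTheory Filter
open Pool.Agent.TH980.IM.PR (PP sh)

namespace Pool.Agent.T2h98.EA.SNFx

open Pool.Agent.T2h98.NB
open Pool.Agent.T2h98.NB.GPO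
open Pool.Agent.T2h98.EA

variable {d : ℕ} {U : Om d → ℝ → L2 d →L[ℂ] L2 d}

theorem cov_zero : Cov fun _ : Om d => (0 : L2 d →L[ℂ] L2 d) := by
  refine ⟨fun f => stronglyMeasurable_const, ⟨0, fun V => by simp⟩, fun z V f => ?_⟩
  rw [zero_apply, zero_apply, map_zero]

theorem cov_add {B C : Om d → L2 d →L[ℂ] L2 d} (hB : Cov B) (hC : Cov C) :
    Cov fun V => B V + C V := by
  obtain ⟨b, hb⟩ := hB.bdd
  obtain ⟨c, hc⟩ := hC.bdd
  refine ⟨fun f => (hB.meas f).add (hC.meas f), ⟨b + c, fun V => ?_⟩, fun z V f => ?_⟩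
  · exact (norm_add_le _ _).trans (add_le_add (hb V) (hc V))
  · rw [add_apply, add_apply, hB.cov, hC.cov, map_add]

theorem cov_U (hG : Grp U) (t : ℝ) : Cov fun V => U V t := by
  have hU : Gr0 U := hG.g0
  refine ⟨?_, ⟨1, ?_⟩, ?_⟩
  · intro f
    exact ((hU.cont f).comp (continuous_id.prodMk continuous_const)).stronglyMeasurable
  · intro V
    refine ContinuousLinearMap.opNorm_le_bound _ zero_le_one fun f => ?_
    rw [hU.norm, one_mul]
  · intro z V f
    exact hG.shift z V t f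

theorem SN_zero (B : Om d → L2 d →L[ℂ] L2 d) (V : Om d) : SN U B 0 V = 0 := by
  unfold SN
  rw [Finset.range_zero, Finset.sum_empty]

theorem SN_succ (B : Om d → L2 d →L[ℂ] L2 d) (n : ℕ) (V : Om d) :
    SN U B (n + 1) V = SN U B n V + (U V (-(n : ℝ))).comp ((B V).comp (U V (n : ℝ))) := by
  unfold SN
  rw [Finset.sum_range_succ]

theorem SN_cov (hG : Grp U) {B : Om d → L2 d →L[ℂ] L2 d} (hB : Cov B) (n : ℕ) :
    Cov (SN U B n) := by
  induction n with
  | zero =>
    have e : SN U B 0 = fun _ => 0 := funext fun V => SN_zero B V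
    rw [e]
    exact cov_zero
  | succ n ih =>
    have e : SN U B (n + 1) = fun V => SN U B n V +
        (U V (-(n : ℝ))).comp ((B V).comp (U V (n : ℝ))) := funext fun V => SN_succ B n V
    rw [e]
    exact cov_add ih (cov_comp (cov_U hG _) (cov_comp hB (cov_U hG _)))

/-- one term -/
noncomputable def tm (U : Om d → ℝ → L2 d →L[ℂ] L2 d) (B : Om d → L2 d →L[ℂ] L2 d) (V : Om d)
    (f : L2 d) (k : ℕ) : L2 d := U V (-(k : ℝ)) (B V (U V (k : ℝ) f))

theorem SN_tm (B : Om d → L2 d →L[ℂ] L2 d) (n : ℕ) (V : Om d) (f : L2 d) :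
    SN U B n V f = ∑ k ∈ Finset.range n, tm U B V f k := by
  induction n with
  | zero => rw [SN_zero, Finset.range_zero, Finset.sum_empty]; rfl
  | succ n ih => rw [SN_succ, Finset.sum_range_succ, ← ih]; rfl

theorem tm_norm (hU : Gr0 U) {B : Om d → L2 d →L[ℂ] L2 d} {c : ℝ} (hB : ∀ V, ‖B V‖ ≤ c)
    (V : Om d) (f : L2 d) (k : ℕ) : ‖tm U B V f k‖ ≤ c * ‖f‖ := by
  unfold tm
  rw [hU.norm]
  refine (ContinuousLinearMap.le_of_opNorm_le _ (hB V) _).trans ?_
  rw [hU.norm]

theorem sum_norm {E : Type} [NormedAddCommGroup E] {g : ℕ → E} {C : ℝ} (hg : ∀ k, ‖g k‖ ≤ C)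
    (n : ℕ) : ‖∑ k ∈ Finset.range n, g k‖ ≤ n * C := by
  refine (norm_sum_le _ _).trans ?_
  refine (Finset.sum_le_sum fun k _ => hg k).trans ?_
  rw [Finset.sum_const, Finset.card_range, nsmul_eq_mul]

theorem bracket {E : Type} [NormedAddCommGroup E] {g : ℕ → E} {C : ℝ} (hg : ∀ k, ‖g k‖ ≤ C)
    (m j : ℕ) : ‖∑ k ∈ Finset.range m, g k - ∑ k ∈ Finset.range m, g (j + k)‖ ≤ 2 * (j * C) := by
  have h1 := Finset.sum_range_add g m j
  have h2 := Finset.sum_range_add g j m
  rw [add_comm j m, h1] at h2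
  have h3 : ∑ k ∈ Finset.range m, g k - ∑ k ∈ Finset.range m, g (j + k) =
      ∑ k ∈ Finset.range j, g k - ∑ k ∈ Finset.range j, g (m + k) := by
    rw [sub_eq_sub_iff_add_eq_add, h2]
  rw [h3]
  refine (norm_sub_le _ _).trans ?_
  have h4 := sum_norm hg j
  have h5 := sum_norm (g := fun k => g (m + k)) (fun k => hg _) j
  linarith

theorem SN_avg (hU : Gr0 U) (B : Om d → L2 d →L[ℂ] L2 d) (n m : ℕ) (V : Om d) (f : L2 d) :
    SN U (fun W => ((n : ℂ)⁻¹) • SN U B n W) m V f =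
      ((n : ℂ)⁻¹) • ∑ j ∈ Finset.range n, ∑ k ∈ Finset.range m, tm U B V f (j + k) := by
  rw [SN_tm]
  rw [Finset.sum_comm, Finset.smul_sum]
  refine Finset.sum_congr rfl fun k _ => ?_
  unfold tm
  rw [smul_apply, SN_tm, map_smul, map_sum]
  congr 1
  refine Finset.sum_congr rfl fun j _ => ?_
  unfold tm
  rw [← hU.add, ← hU.add]
  push_cast
  rw [neg_add, add_comm (-(k : ℝ))]

theorem t_SNF : T_SNF := by
  intro d U hG
  have hU : Gr0 U := hG.g0
  refine ⟨fun B n hB => SN_cov hG hB n, ?_, ?_, ?_⟩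
  · intro B n c hB V f
    rw [SN_tm]
    have h1 := sum_norm (tm_norm hU hB V f) n
    linarith
  · intro B n m c hc hB hn V f
    have hn0 : (n : ℂ) ≠ 0 := by
      have : n ≠ 0 := by omega
      exact_mod_cast this
    rw [SN_avg hU, SN_tm]
    have h1 : ∑ k ∈ Finset.range m, tm U B V f k = ((n : ℂ)⁻¹) • ∑ j ∈ Finset.range n,
        ∑ k ∈ Finset.range m, tm U B V f k := by
      rw [Finset.sum_const, Finset.card_range, ← Nat.cast_smul_eq_nsmul ℂ, smul_smul,
        inv_mul_cancel₀ hn0, one_smul]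
    rw [h1, ← smul_sub, ← Finset.sum_sub_distrib, norm_smul, norm_inv, Complex.norm_natCast]
    have h2 : ∀ j ∈ Finset.range n, ‖∑ k ∈ Finset.range m, tm U B V f k -
        ∑ k ∈ Finset.range m, tm U B V f (j + k)‖ ≤ 2 * (n * (c * ‖f‖)) := by
      intro j hj
      refine (bracket (tm_norm hU hB V f) m j).trans ?_
      have h3 : (j : ℝ) ≤ n := by exact_mod_cast (Finset.mem_range.1 hj).le
      have h4 : 0 ≤ c * ‖f‖ := mul_nonneg hc (norm_nonneg _)
      have := mul_le_mul_of_nonneg_right h3 h4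
      linarith
    have h3 := (norm_sum_le _ _).trans (Finset.sum_le_sum h2)
    rw [Finset.sum_const, Finset.card_range, nsmul_eq_mul] at h3
    have hn1 : (0 : ℝ) < n := by exact_mod_cast hn
    rw [inv_mul_le_iff₀ hn1]
    refine h3.trans (le_of_eq ?_)
    ring
  · intro O c hO A hA n V f
    obtain ⟨x1, x2, x3, -⟩ := XOGx.t_XOG d U hG O c hO
    induction n with
    | zero =>
      rw [SN_zero]
      have h0 : XOT U O V ((0 : ℕ) : ℝ) f = 0 := by
        rw [x1, XOGx.XO_eq, Nat.cast_zero, intervalIntegral.integral_same]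
      rw [h0, Nat.cast_zero, zero_smul, sub_zero]
      rfl
    | succ n ih =>
      rw [SN_succ, add_apply, ih, Nat.cast_succ, x3 V n 1 f]
      change _ + U V (-(n : ℝ)) ((XOT U O V 1 - A V) (U V (n : ℝ) f)) = _
      rw [sub_apply, map_sub, ← hA.com, U_neg hU, Nat.cast_succ, add_smul, one_smul]
      abel

end Pool.Agent.T2h98.EA.SNFx
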