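import Pool.Agent.T2h98.EA.StmP

/-! The pointwise ergodic theorem for covariant operators: the square of an operator between zero
and one (task PE-SQZ). -/

set_option autoImplicit false

open scoped BigOperators Topology ENNReal InnerProductSpace
open Pool.Agent.T2h98.NB

namespace Pool.Agent.T2h98.EA

theorem t_SQZ : T_SQZ := by
  intro d z hsa hpos hle f
  have h1 := hpos (f - z f)
  have h2 := hle (z f)
  have e1 : (inner ℂ (f - z f) (z (f - z f)) : ℂ) =
      inner ℂ f (z f) - inner ℂ (z f) (z f) - inner ℂ (z f) (z f) + inner ℂ (z f) (z (z f)) := by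
    rw [map_sub, inner_sub_right, inner_sub_left, inner_sub_left, ← hsa f (z f)]
    ring
  have e2 : (inner ℂ (z f) (z f) : ℂ).re = ‖z f‖ ^ 2 := by
    rw [inner_self_eq_norm_sq_to_K]
    norm_cast
  rw [e1, Complex.add_re, Complex.sub_re, Complex.sub_re, e2] at h1
  have h3 : ‖z f‖ ^ 2 ≤ (inner ℂ f (z f) : ℂ).re := by linarith
  exact ⟨h3, (sq_le_sq₀ (norm_nonneg _) (norm_nonneg _)).1 (h3.trans (hle f))⟩

end Pool.Agent.T2h98.EA
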