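import Pool.Agent.T2h98.EA.All
import Pool.Agent.T2h98.EA.NBP
import Pool.Agent.T2h98.EA.SNF
import Pool.Agent.T2h98.EA.SQZ
import Pool.Agent.T2h98.EA.MUL
import Pool.Agent.T2h98.EA.MAX
import Pool.Agent.T2h98.EA.ASC
import Pool.Agent.T2h98.EA.PET

/-! The pointwise ergodic theorem: all parts. -/

set_option autoImplicit false

open scoped BigOperators Topology ENNReal InnerProductSpace
open MeasureTheory ProbabilityTheory Filter
open Pool.Agent.TH980.IM.PR (PP sh)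
open Pool.Agent.T2h98.NB

namespace Pool.Agent.T2h98.EA.All

open Pool.Agent.T2h98.EA Pool.Agent.T2h98.NB.All

theorem maxA : T_MAX := t_MAX xtA tp t_SQZ t_MUL

theorem ascA : T_ASC := t_ASC xtA SNFx.t_SNF t_SQZ maxA

theorem petA : T_PET := PETx.t_PET ascA

/-- no ballistic motion, almost surely -/
theorem nbasA (d : ℕ) (U : Om d → ℝ → L2 d →L[ℂ] L2 d) (hU : Grp U) (ν : Measure ℝ)
    [IsProbabilityMeasure ν] (K : ℝ) (hK : BD ν K) : ∀ᵐ V ∂(PP (Sd d) ν), ∀ f : L2 d, mom f ≠ ⊤ →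
    Tendsto (fun t : ℝ => mom (U V t f) / ENNReal.ofReal (t ^ 2)) atTop (𝓝 0) :=
  nbas muc vel_facts xoA limoA oddA petA d U hU ν K hK

end Pool.Agent.T2h98.EA.All
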