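import Pool.Agent.T2h98.QD.Exi

/-! Uniqueness of bounded solutions of the Schrödinger equation on the lattice. -/

set_option autoImplicit false

open scoped BigOperators Interval
open MeasureTheory

namespace Pool.Agent.T2h98.EA

open Pool.Agent.T2h98.QD Pool.Agent.T2h98.QD.Exi

variable {d : ℕ}

/-- uniqueness of bounded solutions -/
theorem uni {v : Zd d → ℝ} {ψ χ : ℝ → Zd d → ℂ} (M : ℝ)
    (h1 : ∀ (t : ℝ) (x : Zd d), HasDerivAt (fun s => ψ s x)
      (-(Complex.I * (nb (ψ t) x + (v x : ℂ) * ψ t x))) t)
    (h2 : ∀ (t : ℝ) (x : Zd d), HasDerivAt (fun s => χ s x)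
      (-(Complex.I * (nb (χ t) x + (v x : ℂ) * χ t x))) t)
    (h0 : ψ 0 = χ 0) (hb1 : ∀ t x, ‖ψ t x‖ ≤ M) (hb2 : ∀ t x, ‖χ t x‖ ≤ M) : ψ = χ := by
  obtain ⟨D, hD⟩ : ∃ D : ℝ → Zd d → ℂ, D = fun t x => ψ t x - χ t x := ⟨_, rfl⟩
  have hDc : ∀ x, Continuous fun t => D t x := by
    intro x
    rw [hD]
    exact continuous_iff_continuousAt.2 fun t =>
      (h1 t x).continuousAt.sub (h2 t x).continuousAt
  have hder : ∀ t x, HasDerivAt (fun s => ex (s * v x) * D s x)
      (-(Complex.I * (ex (t * v x) * nb (D t) x))) t := by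
    intro t x
    have e1 : HasDerivAt (fun s : ℝ => ex (s * v x)) (Complex.I * v x * ex (t * v x)) t := by
      have h3 := ex_deriv (-(v x)) t
      have e2 : ∀ s : ℝ, -(s * -(v x)) = s * v x := fun s => by ring
      simp only [e2] at h3
      convert h3 using 1
      push_cast
      ring
    have e3 : HasDerivAt (fun s => D s x) (-(Complex.I * (nb (D t) x + (v x : ℂ) * D t x))) t := by
      have h3 := (h1 t x).fun_sub (h2 t x)
      rw [hD]
      have e4 : nb ((fun t x => ψ t x - χ t x) t) x =
          ∑ i : Fin d, (ψ t (x + Pi.single i 1) + ψ t (x - Pi.single i 1)) -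
            ∑ i : Fin d, (χ t (x + Pi.single i 1) + χ t (x - Pi.single i 1)) := by
        unfold nb
        rw [← Finset.sum_sub_distrib]
        exact Finset.sum_congr rfl fun i _ => by ring
      rw [e4]
      have e5 : ∀ a b c d' : ℂ, -(Complex.I * (a - b + (v x : ℂ) * (c - d'))) =
          -(Complex.I * (a + (v x : ℂ) * c)) - -(Complex.I * (b + (v x : ℂ) * d')) := by
        intro a b c d'
        ring
      exact (e5 _ _ _ _) ▸ h3
    have h4 := e1.fun_mul e3
    have e6 : -(Complex.I * (ex (t * v x) * nb (D t) x)) =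
        Complex.I * v x * ex (t * v x) * D t x +
          ex (t * v x) * -(Complex.I * (nb (D t) x + (v x : ℂ) * D t x)) := by ring
    rw [e6]
    exact h4
  have hkey : ∀ k : ℕ, ∀ t x, ‖D t x‖ ≤ 2 * M * ((2 * d) ^ k * |t| ^ k / k.factorial) := by
    intro k
    induction k with
    | zero =>
      intro t x
      rw [hD]
      have := norm_sub_le (ψ t x) (χ t x)
      have a1 := hb1 t x
      have a2 := hb2 t x
      simp only [pow_zero, Nat.factorial_zero, Nat.cast_one, mul_one, div_one]
      linarith
    | succ k ih =>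
      intro t x
      have hc : Continuous fun s => -(Complex.I * (ex (s * v x) * nb (D s) x)) := by
        unfold nb
        refine (continuous_const.mul ((ex_cont.comp (by fun_prop)).mul ?_)).neg
        exact continuous_finsetSum _ fun i _ => (hDc _).add (hDc _)
      have h3 := intervalIntegral.integral_eq_sub_of_hasDerivAt (a := 0) (b := t)
        (fun s _ => hder s x) (hc.intervalIntegrable _ _)
      have h00 : D 0 x = 0 := by
        rw [hD]
        show ψ 0 x - χ 0 x = 0
        rw [h0, sub_self]
      rw [h00, mul_zero, sub_zero] at h3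
      have h4 : ‖D t x‖ = ‖∫ s in (0 : ℝ)..t, -(Complex.I * (ex (s * v x) * nb (D s) x))‖ := by
        rw [h3, norm_mul, ex_norm, one_mul]
      rw [h4]
      refine intervalIntegral.norm_integral_le_integral_norm_uIoc.trans ?_
      have h5 : ∀ s : ℝ, ‖-(Complex.I * (ex (s * v x) * nb (D s) x))‖ ≤
          (2 * M * ((2 * d) ^ (k + 1) / k.factorial)) * |s - 0| ^ k := by
        intro s
        rw [norm_neg, norm_mul, norm_mul, Complex.norm_I, ex_norm, one_mul, one_mul, sub_zero]
        have h6 : ‖nb (D s) x‖ ≤ ∑ _i : Fin d, 2 * (2 * M * ((2 * d) ^ k * |s| ^ k / k.factorial)) := by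
          refine (norm_sum_le _ _).trans (Finset.sum_le_sum fun i _ => ?_)
          refine (norm_add_le _ _).trans ?_
          have a1 := ih s (x + Pi.single i 1)
          have a2 := ih s (x - Pi.single i 1)
          linarith
        refine h6.trans (le_of_eq ?_)
        rw [Finset.sum_const, Finset.card_univ, Fintype.card_fin, nsmul_eq_mul, pow_succ]
        ring
      have hg : Continuous fun s : ℝ => (2 * M * ((2 * (d : ℝ)) ^ (k + 1) / k.factorial)) * |s - 0| ^ k := by
        fun_prop
      calc ∫ s in Ι (0 : ℝ) t, ‖-(Complex.I * (ex (s * v x) * nb (D s) x))‖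
          ≤ ∫ s in Ι (0 : ℝ) t, (2 * M * ((2 * (d : ℝ)) ^ (k + 1) / k.factorial)) * |s - 0| ^ k := by
            refine setIntegral_mono_on ?_ ?_ measurableSet_uIoc fun s _ => h5 s
            · exact (hc.norm.intervalIntegrable 0 t).def'
            · exact (hg.intervalIntegrable 0 t).def'
        _ = (2 * M * ((2 * (d : ℝ)) ^ (k + 1) / k.factorial)) * (|t - 0| ^ (k + 1) / (k + 1)) := by
            rw [MeasureTheory.integral_const_mul, integral_pow_abs_sub_uIoc]
        _ = _ := by
            rw [sub_zero, Nat.factorial_succ]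
            push_cast
            field_simp
  funext t x
  have hlim : Filter.Tendsto (fun k : ℕ => 2 * M * ((2 * d) ^ k * |t| ^ k / k.factorial)) Filter.atTop
      (nhds 0) := by
    have h3 := (FloorSemiring.tendsto_pow_div_factorial_atTop (2 * (d : ℝ) * |t|)).const_mul (2 * M)
    rw [mul_zero] at h3
    refine h3.congr fun k => ?_
    rw [mul_pow]
  have h3 : ‖D t x‖ ≤ 0 := ge_of_tendsto' hlim fun k => hkey k t x
  have h4 : D t x = 0 := norm_le_zero_iff.1 h3
  rw [hD] at h4
  exact sub_eq_zero.1 h4


end Pool.Agent.T2h98.EA
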