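import Pool.Agent.T2h98.NB.Stm
import Pool.Agent.T2h98.EA.Uni

/-! The unitary group of `Δ + V`: existence and uniqueness, in elementary terms. -/

set_option autoImplicit false

open scoped BigOperators Topology ENNReal InnerProductSpace
open MeasureTheory ProbabilityTheory Filter
open Pool.Agent.T2h98.NB

namespace Pool.Agent.T2h98.EA

variable {d : ℕ}

/-- `W t = exp (-i t (Δ + V))` -/
structure Prp (V : Om d) (W : ℝ → L2 d →L[ℂ] L2 d) : Prop where
  zero : W 0 = 1
  norm : ∀ (t : ℝ) (f : L2 d), ‖W t f‖ = ‖f‖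
  deriv : ∀ (t : ℝ) (f : L2 d) (x : Sd d), HasDerivAt (fun s => (W s f) x)
    (-(Complex.I * (∑ i : Fin d, ((W t f) (x + Pi.single i 1) + (W t f) (x - Pi.single i 1)) +
      (V x : ℂ) * (W t f) x))) t

theorem prp_of {U : Om d → ℝ → L2 d →L[ℂ] L2 d} (hU : Gr0 U) (V : Om d) : Prp V (U V) := by
  refine ⟨hU.zero V, hU.norm V, fun t f x => ?_⟩
  have h1 := hU.der V f t
  have h2 : HasDerivAt (fun s : ℝ => (Mu (s • V) (U V s f)) x)
      ((-(Complex.I • Mu (t • V) (Ad d (U V t f))) : L2 d) x) t := by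
    have h3 := (((innerSL ℂ (ee x : L2 d)).restrictScalars ℝ).hasFDerivAt
      (x := Mu (t • V) (U V t f))).comp_hasDerivAt t h1
    simpa only [ContinuousLinearMap.coe_restrictScalars', innerSL_apply_apply, inner_ee,
      Function.comp_def] using h3
  have h4 : HasDerivAt (fun s : ℝ => Complex.exp (-((s * V x : ℝ) : ℂ) * Complex.I))
      (Complex.exp (-((t * V x : ℝ) : ℂ) * Complex.I) * (-(V x : ℂ) * Complex.I)) t := by
    have h5 : HasDerivAt (fun s : ℝ => -((s * V x : ℝ) : ℂ) * Complex.I)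
        (-(V x : ℂ) * Complex.I) t := by
      have h6 : HasDerivAt (fun s : ℝ => ((s * V x : ℝ) : ℂ)) ((V x : ℝ) : ℂ) t := by
        have := ((hasDerivAt_id t).mul_const (V x)).ofReal_comp
        simpa using this
      exact (h6.neg).mul_const _
    exact h5.cexp
  have h7 := h4.mul h2
  have e1 : ∀ s : ℝ, Complex.exp (-((s * V x : ℝ) : ℂ) * Complex.I) *
      (Mu (s • V) (U V s f)) x = (U V s f) x := by
    intro s
    rw [Mu_apply, ← mul_assoc, ← Complex.exp_add]
    have : (-((s * V x : ℝ) : ℂ) * Complex.I + (((s • V) x : ℝ) : ℂ) * Complex.I) = 0 := by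
      simp only [Pi.smul_apply, smul_eq_mul]
      ring
    rw [this, Complex.exp_zero, one_mul]
  have h8 := h7.congr_of_eventuallyEq (Filter.Eventually.of_forall fun s => (e1 s).symm)
  refine h8.congr_deriv ?_
  have e2 : ((-(Complex.I • Mu (t • V) (Ad d (U V t f))) : L2 d) x) =
      -(Complex.I * (Complex.exp (((t • V) x : ℝ) * Complex.I) * (Ad d (U V t f)) x)) := rfl
  rw [e2, Ad_apply]
  have e3 : Complex.exp (-((t * V x : ℝ) : ℂ) * Complex.I) *
      Complex.exp ((((t • V) x : ℝ) : ℂ) * Complex.I) = 1 := by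
    rw [← Complex.exp_add]
    have : (-((t * V x : ℝ) : ℂ) * Complex.I + (((t • V) x : ℝ) : ℂ) * Complex.I) = 0 := by
      simp only [Pi.smul_apply, smul_eq_mul]
      ring
    rw [this, Complex.exp_zero]
  have e4 := e1 t
  linear_combination -(Complex.I * (∑ i : Fin d, ((U V t f) (x + Pi.single i 1) +
    (U V t f) (x - Pi.single i 1)))) * e3 - (V x : ℂ) * Complex.I * e4

theorem coord_le (f : L2 d) (x : Sd d) : ‖f x‖ ≤ ‖f‖ := by
  rw [← inner_ee]
  have h := norm_inner_le_norm (𝕜 := ℂ) (ee x) f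
  rwa [norm_ee, one_mul] at h

theorem prp_unique {V : Om d} {W W' : ℝ → L2 d →L[ℂ] L2 d} (h : Prp V W) (h' : Prp V W') :
    W = W' := by
  funext t
  ext f : 1
  ext x
  have h1 := uni (v := V) (ψ := fun s x => (W s f) x) (χ := fun s x => (W' s f) x) ‖f‖
    (fun s y => h.deriv s f y) (fun s y => h'.deriv s f y) (by
      funext y
      simp only [h.zero, h'.zero])
    (fun s y => (coord_le _ y).trans (h.norm s f).le)
    (fun s y => (coord_le _ y).trans (h'.norm s f).le)
  exact congrFun (congrFun h1 t) x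

end Pool.Agent.T2h98.EA
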