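import Pool.Agent.T2h98.EA.All
import Pool.Agent.T2h98.EA.StmP

/-! Ergodicity on the absolutely continuous spectrum: the final form. -/

set_option autoImplicit false
set_option linter.unusedVariables false

open scoped BigOperators Topology ENNReal InnerProductSpace
open MeasureTheory ProbabilityTheory Filter
open Pool.Agent.TH980.IM.PR (PP sh)
open Pool.Agent.TH980.IM (zk BT kap)
open Pool.Agent.T2h44.GU (RV GG qn Cy spm dn)
open Pool.Agent.T2h98.NB

namespace Pool.Agent.T2h98.EA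

open Pool.Agent.T2h98.EA.All Pool.Agent.T2h98.NB.All

/-- spectral measures exist and are unique -/
theorem spe_unique {d : ℕ} {U : Om d → ℝ → L2 d →L[ℂ] L2 d} (hU : Grp U) (V : Om d) (f : L2 d) :
    ∃! m : Measure ℝ, IsFiniteMeasure m ∧ Spe U V f m := by
  refine ⟨spm V f, ⟨inferInstance, (speA d U hU V f).1⟩, fun m hm => ?_⟩
  obtain ⟨h1, h2⟩ := hm
  have := h1
  have h3 := (speA d U hU V f).2.2 m h2
  have h4 : ∀ z : ℂ, 0 < z.im → BT m z = BT (spm V f) z := fun z hz => by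
    rw [h3 z hz.ne', Pool.Agent.T2h44.GU.BT_spm V f hz.ne']
  have h5 := t_DOM m (spm V f) 1 zero_le_one fun z hz => by rw [one_mul, h4 z hz]
  have h6 := t_DOM (spm V f) m 1 zero_le_one fun z hz => by rw [one_mul, h4 z hz]
  rw [ENNReal.ofReal_one, one_smul] at h5 h6
  exact le_antisymm h5 h6

/-- the expectation of the time averages -/
theorem avg_inner (hP : T_PET) {d : ℕ} {U : Om d → ℝ → L2 d →L[ℂ] L2 d} (hU : Grp U)
    {O : Om d → L2 d →L[ℂ] L2 d} {c : ℝ} (hO : Obg O c) (V : Om d) (f : L2 d) (T : ℝ) :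
    (inner ℂ f (T⁻¹ • XOT U O V T f) : ℂ).re =
      T⁻¹ * ∫ s in (0 : ℝ)..T, (inner ℂ (U V s f) (O V (U V s f)) : ℂ).re := by
  obtain ⟨hadj, -⟩ := xtA d U hU
  obtain ⟨xeq, -⟩ := xogA d U hU O c hO
  have hc1 : Continuous fun s : ℝ => U V s f :=
    (hU.g0.cont f).comp (continuous_const.prodMk continuous_id)
  have hc : Continuous fun s : ℝ => U V (-s) (O V (U V s f)) := by
    have h1 : Continuous fun s : ℝ => O V (U V s f) := (O V).continuous.comp hc1
    rw [continuous_iff_continuousAt]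
    intro s₀
    apply tendsto_iff_norm_sub_tendsto_zero.2
    have h2 : Tendsto (fun s => ‖O V (U V s f) - O V (U V s₀ f)‖ +
        ‖U V (-s) (O V (U V s₀ f)) - U V (-s₀) (O V (U V s₀ f))‖) (𝓝 s₀) (𝓝 (0 + 0)) := by
      apply Tendsto.add
      · exact tendsto_iff_norm_sub_tendsto_zero.1 h1.continuousAt
      · have h3 : Continuous fun s : ℝ => U V (-s) (O V (U V s₀ f)) :=
          (hU.g0.cont _).comp (continuous_const.prodMk continuous_neg)
        exact tendsto_iff_norm_sub_tendsto_zero.1 h3.continuousAt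
    rw [add_zero] at h2
    refine squeeze_zero (fun s => norm_nonneg _) (fun s => ?_) h2
    have h4 : U V (-s) (O V (U V s f)) - U V (-s₀) (O V (U V s₀ f)) =
        U V (-s) (O V (U V s f) - O V (U V s₀ f)) +
          (U V (-s) (O V (U V s₀ f)) - U V (-s₀) (O V (U V s₀ f))) := by
      rw [map_sub]; abel
    rw [h4]
    refine (norm_add_le _ _).trans ?_
    rw [hU.g0.norm]
  have h1 : (inner ℂ f (XOT U O V T f) : ℂ) =
      ∫ s in (0 : ℝ)..T, (inner ℂ (U V s f) (O V (U V s f)) : ℂ) := by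
    rw [xeq]
    unfold XO
    have h20 : IntervalIntegrable (fun s : ℝ => U V (-s) (O V (U V s f))) volume 0 T :=
      hc.intervalIntegrable 0 T
    have h2 := (innerSL ℂ f).intervalIntegral_comp_comm h20
    rw [innerSL_apply_apply] at h2
    rw [← h2]
    refine intervalIntegral.integral_congr fun s _ => ?_
    simp only [innerSL_apply_apply]
    have h3 := hadj V s f (O V (U V s f))
    exact h3.symm
  have h2 : (inner ℂ f (T⁻¹ • XOT U O V T f) : ℂ) =
      ((T⁻¹ : ℝ) : ℂ) * inner ℂ f (XOT U O V T f) := by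
    rw [← inner_smul_right]
    rfl
  rw [h2, h1, Complex.re_ofReal_mul]
  congr 1
  have h4 : Continuous fun s : ℝ => (inner ℂ (U V s f) (O V (U V s f)) : ℂ) :=
    hc1.inner ((O V).continuous.comp hc1)
  have h6 : IntervalIntegrable (fun s : ℝ => (inner ℂ (U V s f) (O V (U V s f)) : ℂ)) volume 0 T :=
    h4.intervalIntegrable 0 T
  have h5 := Complex.reCLM.intervalIntegral_comp_comm h6
  simp only [Complex.reCLM_apply] at h5
  exact h5.symm

/-- **time averages converge; ergodicity on the absolutely continuous spectrum** -/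
theorem ea_main (hP : T_PET) (d : ℕ) (hd : 1 ≤ d) (U : Om d → ℝ → L2 d →L[ℂ] L2 d) (hU : Grp U)
    (ν : Measure ℝ) [IsProbabilityMeasure ν] (K : ℝ) (hK : BD ν K)
    (O : Om d → L2 d →L[ℂ] L2 d) (c : ℝ) (hO : Obg O c) :
    ∃ ρ : ℝ → ℝ, Measurable ρ ∧ (∀ E, |ρ E| ≤ c) ∧ ∀ᵐ V ∂(PP (Sd d) ν), ∀ f : L2 d, ∃ l : ℝ,
      Tendsto (fun T : ℝ => T⁻¹ * ∫ s in (0 : ℝ)..T, (inner ℂ (U V s f) (O V (U V s f)) : ℂ).re)
        atTop (𝓝 l) ∧
      ∀ m : Measure ℝ, IsFiniteMeasure m → Spe U V f m → m ≪ volume → l = ∫ E, ρ E ∂m := by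
  obtain ⟨A, hA⟩ := limgA d U hU O c hO ν
  obtain ⟨ρ, h1, h2, h3⟩ := eaA d hd U hU ν K hK A c ⟨hA.cov, hA.bdd, hA.sa, hA.com⟩
  refine ⟨ρ, h1, h2, ?_⟩
  filter_upwards [h3, hP d U hU O c hO ν A hA] with V hV hV2 f
  have h5 : Tendsto (fun T : ℝ => (inner ℂ f (T⁻¹ • XOT U O V T f) : ℂ).re) atTop
      (𝓝 ((inner ℂ f (A V f) : ℂ).re)) :=
    (Complex.continuous_re.tendsto _).comp (((innerSL ℂ f).continuous.tendsto _).comp (hV2 f))
  refine ⟨_, h5.congr fun T => avg_inner hP hU hO V f T, fun m hm hs hac => ?_⟩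
  rw [hV f m hm hs hac, Complex.ofReal_re]

end Pool.Agent.T2h98.EA
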