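import Pool.Agent.T2h98.EA.Stm

/-! Vectors with an absolutely continuous spectral measure. -/

set_option autoImplicit false

open scoped BigOperators Topology ENNReal InnerProductSpace
open MeasureTheory ProbabilityTheory Filter
open Pool.Agent.TH980.IM.PR (PP sh)
open Pool.Agent.TH980.IM (zk BT kap kap_pos zk_im_pos)
open Pool.Agent.T2h44.GU (RV GG qn Cy spm dn BT_spm qn_sq qn_add qn_smul qn_nonneg qn_tendsto
  dn_nonneg)
open Pool.Agent.T2h98.NB

namespace Pool.Agent.T2h98.EA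

namespace ACF

variable {d : ℕ}

/-- the spectral measure of `f + s B f` is dominated -/
theorem dom (hF : T_FRM) (hD : T_DOM) {V : Om d} {B : L2 d →L[ℂ] L2 d} {c : ℝ} (hB : Cmr V B c)
    (f : L2 d) (s : ℝ) (hs : |s| = 1) :
    spm V (f + (s : ℂ) • B f) ≤ ENNReal.ofReal ((1 + c) ^ 2) • spm V f := by
  have hc : 0 ≤ c := (norm_nonneg B).trans hB.bdd
  refine hD _ _ ((1 + c) ^ 2) (by positivity) fun z hz => ?_
  rw [BT_spm V _ hz.ne', BT_spm V _ hz.ne', ← qn_sq V hz, ← qn_sq V hz]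
  have h1 : qn V z (f + (s : ℂ) • B f) ≤ (1 + c) * qn V z f := by
    refine (qn_add V z _ _).trans ?_
    rw [qn_smul, Complex.norm_real, Real.norm_eq_abs, hs, one_mul]
    have := ((hF d V).2.2.2.2 B c hB z f f hz).2
    linarith
  have h2 := pow_le_pow_left₀ (qn_nonneg V z _) h1 2
  rwa [mul_pow] at h2

/-- the density of the spectral measure of `f + s B f` -/
theorem dens {V : Om d} {B : L2 d →L[ℂ] L2 d} {ρ : ℝ → ℝ} (f : L2 d) (s : ℝ)
    (hN : ∀ᵐ E : ℝ, Ngl V E (B f - (ρ E : ℂ) • f)) :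
    ∀ᵐ E : ℝ, dn V (f + (s : ℂ) • B f) E = (1 + s * ρ E) ^ 2 * dn V f E := by
  filter_upwards [hN, qn_tendsto V f, qn_tendsto V (f + (s : ℂ) • B f)] with E h1 h2 h3
  have h4 : Tendsto (fun k => |1 + s * ρ E| * qn V (zk k E) f) atTop
      (𝓝 (|1 + s * ρ E| * Real.sqrt (kap * dn V f E))) := h2.const_mul _
  have h5 : Tendsto (fun k => |s| * qn V (zk k E) (B f - (ρ E : ℂ) • f)) atTop (𝓝 0) := by
    have := Tendsto.const_mul |s| h1
    rwa [mul_zero] at this
  have e1 : f + (s : ℂ) • B f = ((1 + s * ρ E : ℝ) : ℂ) • f + (s : ℂ) • (B f - (ρ E : ℂ) • f) := by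
    push_cast
    rw [add_smul, one_smul, smul_sub, smul_smul]
    abel
  have e2 : ((1 + s * ρ E : ℝ) : ℂ) • f = (f + (s : ℂ) • B f) +
      ((-s : ℝ) : ℂ) • (B f - (ρ E : ℂ) • f) := by
    push_cast
    rw [add_smul, one_smul, smul_sub, smul_smul, neg_smul, neg_mul, neg_smul]
    abel
  have b1 : ∀ k, qn V (zk k E) (f + (s : ℂ) • B f) ≤ |1 + s * ρ E| * qn V (zk k E) f +
      |s| * qn V (zk k E) (B f - (ρ E : ℂ) • f) := by
    intro k
    conv_lhs => rw [e1]
    refine (qn_add V _ _ _).trans ?_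
    rw [qn_smul, qn_smul, Complex.norm_real, Complex.norm_real, Real.norm_eq_abs,
      Real.norm_eq_abs]
  have b2 : ∀ k, |1 + s * ρ E| * qn V (zk k E) f ≤ qn V (zk k E) (f + (s : ℂ) • B f) +
      |s| * qn V (zk k E) (B f - (ρ E : ℂ) • f) := by
    intro k
    have h := qn_add V (zk k E) (f + (s : ℂ) • B f) (((-s : ℝ) : ℂ) • (B f - (ρ E : ℂ) • f))
    rw [← e2, qn_smul, qn_smul, Complex.norm_real, Complex.norm_real, Real.norm_eq_abs,
      Real.norm_eq_abs, abs_neg] at h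
    exact h
  have l1 := le_of_tendsto_of_tendsto' h3 (h4.add h5) b1
  have l2 := le_of_tendsto_of_tendsto' h4 (h3.add h5) b2
  rw [add_zero] at l1 l2
  have e3 := le_antisymm l1 l2
  have hk := kap_pos
  have e4 : Real.sqrt (kap * dn V (f + (s : ℂ) • B f) E) ^ 2 =
      (|1 + s * ρ E| * Real.sqrt (kap * dn V f E)) ^ 2 := by rw [e3]
  rw [mul_pow, Real.sq_sqrt (mul_nonneg hk.le (dn_nonneg _ _ _)),
    Real.sq_sqrt (mul_nonneg hk.le (dn_nonneg _ _ _)), sq_abs] at e4
  have e5 : kap * dn V (f + (s : ℂ) • B f) E = kap * ((1 + s * ρ E) ^ 2 * dn V f E) := by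
    rw [e4]; ring
  exact mul_left_cancel₀ hk.ne' e5

end ACF

open ACF in
theorem t_ACF (hF : T_FRM) (hD : T_DOM) : T_ACF := by
  intro d V B c ρ hB hρ hρc hN hmass f m _ hm hac
  have hc : 0 ≤ c := (norm_nonneg B).trans hB.bdd
  -- the measure is the spectral measure
  have hmm : m = spm V f := by
    have h1 : m ≤ ENNReal.ofReal 1 • spm V f := by
      refine hD m (spm V f) 1 zero_le_one fun z hz => ?_
      rw [hm z hz.ne', BT_spm V f hz.ne', one_mul]
    have h2 : spm V f ≤ ENNReal.ofReal 1 • m := by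
      refine hD (spm V f) m 1 zero_le_one fun z hz => ?_
      rw [hm z hz.ne', BT_spm V f hz.ne', one_mul]
    rw [ENNReal.ofReal_one, one_smul] at h1 h2
    exact le_antisymm h1 h2
  subst hmm
  have hacs : ∀ s : ℝ, |s| = 1 → spm V (f + (s : ℂ) • B f) ≪ volume := fun s hs =>
    (Measure.absolutelyContinuous_of_le_smul (dom hF hD hB f s hs)).trans hac
  have hint : ∀ u : L2 d, Integrable (dn V u) := fun u =>
    Measure.integrable_toReal_rnDeriv
  have hnorm : ∀ s : ℝ, |s| = 1 → ‖f + (s : ℂ) • B f‖ ^ 2 = ∫ E, (1 + s * ρ E) ^ 2 * dn V f E := by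
    intro s hs
    rw [← hmass, ← Measure.integral_toReal_rnDeriv (hacs s hs)]
    exact integral_congr_ae (dens f s (hN f))
  have hi : ∀ s : ℝ, |s| = 1 → Integrable fun E => (1 + s * ρ E) ^ 2 * dn V f E := by
    intro s hs
    refine (hint (f + (s : ℂ) • B f)).congr ?_
    exact dens f s (hN f)
  have hρm : ∫ E, ρ E ∂(spm V f) = ∫ E, ρ E * dn V f E := by
    rw [← integral_rnDeriv_smul hac]
    refine integral_congr_ae (Eventually.of_forall fun E => ?_)
    show (((spm V f).rnDeriv volume E).toReal) • ρ E = ρ E * dn V f E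
    rw [smul_eq_mul, mul_comm]
    rfl
  -- polarization
  have hpol : ‖f + ((1 : ℝ) : ℂ) • B f‖ ^ 2 - ‖f + ((-1 : ℝ) : ℂ) • B f‖ ^ 2 =
      4 * (inner ℂ f (B f) : ℂ).re := by
    have e1 : f + ((1 : ℝ) : ℂ) • B f = f + B f := by rw [Complex.ofReal_one, one_smul]
    have e2 : f + ((-1 : ℝ) : ℂ) • B f = f - B f := by
      push_cast
      rw [neg_smul, one_smul, sub_eq_add_neg]
    rw [e1, e2, @norm_add_sq ℂ, @norm_sub_sq ℂ]
    show _ + 2 * (inner ℂ f (B f) : ℂ).re + _ - (_ - 2 * (inner ℂ f (B f) : ℂ).re + _) = _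
    ring
  have hreal : ((inner ℂ f (B f) : ℂ).re : ℂ) = inner ℂ f (B f) := by
    rw [← Complex.conj_eq_iff_re, inner_conj_symm]
    exact hB.sa f f
  rw [← hreal, hρm]
  congr 1
  rw [hnorm 1 (by norm_num), hnorm (-1) (by norm_num), ← integral_sub (hi 1 (by norm_num))
    (hi (-1) (by norm_num))] at hpol
  have h4 : ∫ E, ((1 + 1 * ρ E) ^ 2 * dn V f E - (1 + -1 * ρ E) ^ 2 * dn V f E) =
      4 * ∫ E, ρ E * dn V f E := by
    rw [← integral_const_mul]
    refine integral_congr_ae (Eventually.of_forall fun E => ?_)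
    show (1 + 1 * ρ E) ^ 2 * dn V f E - (1 + -1 * ρ E) ^ 2 * dn V f E = 4 * (ρ E * dn V f E)
    ring
  rw [h4] at hpol
  linarith

end Pool.Agent.T2h98.EA
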