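import Pool.Agent.T2h98.EA.Stm

/-! The averages at random vectors. -/

set_option autoImplicit false

open scoped BigOperators Topology ENNReal InnerProductSpace
open MeasureTheory ProbabilityTheory Filter
open Pool.Agent.TH980.IM.PR (PP sh)
open Pool.Agent.T2h98.NB

namespace Pool.Agent.T2h98.EA

namespace ALLG

variable {d : ℕ}

/-- the part of a vector in a finite set -/
noncomputable def Pr (s : Finset (Sd d)) (f : L2 d) : L2 d := ∑ x ∈ s, (f x) • (ee x : L2 d)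

open Classical in
theorem Pr_apply (s : Finset (Sd d)) (f : L2 d) (y : Sd d) :
    (Pr s f) y = if y ∈ s then f y else 0 := by
  rw [← inner_ee y (Pr s f)]
  unfold Pr
  rw [inner_sum]
  simp only [inner_smul_right, inner_ee, ee_apply, mul_ite, mul_one, mul_zero]
  rw [Finset.sum_ite_eq]

theorem Pr_norm (s : Finset (Sd d)) (f : L2 d) : ‖Pr s f‖ ≤ ‖f‖ := by
  classical
  have h : ‖Pr s f‖ ^ 2 ≤ ‖f‖ ^ 2 := by
    rw [norm_sq, norm_sq]
    refine Summable.tsum_le_tsum (fun x => ?_) (sq_summable _) (sq_summable _)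
    rw [Pr_apply]
    split_ifs
    · exact le_rfl
    · rw [norm_zero, zero_pow two_ne_zero]; positivity
  exact (pow_le_pow_iff_left₀ (norm_nonneg _) (norm_nonneg _) two_ne_zero).1 h

theorem Pr_tendsto (f : L2 d) : Tendsto (fun s : Finset (Sd d) => Pr s f) atTop (𝓝 f) := by
  have h2 := lp.hasSum_single (E := fun _ : Sd d => ℂ) (p := 2) (by norm_num) f
  refine h2.congr fun s => ?_
  unfold Pr
  refine Finset.sum_congr rfl fun x _ => ?_
  unfold ee
  rw [← lp.single_smul, smul_eq_mul, mul_one]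

theorem coord_le (f : L2 d) (x : Sd d) : ‖f x‖ ≤ ‖f‖ := by
  rw [← inner_ee x f]
  refine (norm_inner_le_norm _ _).trans ?_
  rw [norm_ee, one_mul]

theorem Pr_meas (s : Finset (Sd d)) {f : Om d → L2 d} (hf : StronglyMeasurable f) :
    StronglyMeasurable fun V => Pr s (f V) := by
  unfold Pr
  refine Finset.stronglyMeasurable_fun_sum _ fun x _ => ?_
  have h1 : StronglyMeasurable fun V => (inner ℂ (ee x) (f V) : ℂ) :=
    (stronglyMeasurable_const (b := (ee x : L2 d))).inner hf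
  simp only [inner_ee] at h1
  exact h1.smul_const _

/-- a bounded operator at a finite combination of the unit vectors -/
theorem fin_bound (B : L2 d →L[ℂ] L2 d) (s : Finset (Sd d)) (f : L2 d) (R : ℝ) (hR : ‖f‖ ≤ R) :
    ‖B (Pr s f)‖ ^ 2 ≤ s.card * R ^ 2 * ∑ x ∈ s, ‖B (ee x)‖ ^ 2 := by
  have hR0 : 0 ≤ R := (norm_nonneg _).trans hR
  have h2 : ‖B (Pr s f)‖ ≤ ∑ x ∈ s, R * ‖B (ee x)‖ := by
    unfold Pr
    rw [map_sum]
    refine (norm_sum_le _ _).trans (Finset.sum_le_sum fun x _ => ?_)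
    rw [map_smul, norm_smul]
    exact mul_le_mul_of_nonneg_right ((coord_le f x).trans hR) (norm_nonneg _)
  calc ‖B (Pr s f)‖ ^ 2 ≤ (∑ x ∈ s, R * ‖B (ee x)‖) ^ 2 :=
        pow_le_pow_left₀ (norm_nonneg _) h2 2
    _ ≤ s.card * ∑ x ∈ s, (R * ‖B (ee x)‖) ^ 2 := sq_sum_le_card_mul_sum_sq
    _ = s.card * R ^ 2 * ∑ x ∈ s, ‖B (ee x)‖ ^ 2 := by
        have h3 : ∑ x ∈ s, (R * ‖B (ee x)‖) ^ 2 = R ^ 2 * ∑ x ∈ s, ‖B (ee x)‖ ^ 2 := by
          rw [Finset.mul_sum]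
          exact Finset.sum_congr rfl fun x _ => by ring
        rw [h3]
        ring

end ALLG

open ALLG

theorem t_ALLG (hO : T_XOG) (hC : T_COV) : T_ALLG := by
  classical
  intro d U hU O c hOb ν _ A hL f hf hfi
  obtain ⟨hXt, hXb, hcoc, hXs, hXc, hXcont, hXm⟩ := hO d U hU O c hOb
  obtain ⟨_, hCsub, hCs, _, hCm⟩ := hC d
  have hc0 : 0 ≤ c := (norm_nonneg _).trans (hOb.bdd 0)
  set B : ℝ → Om d → L2 d →L[ℂ] L2 d := fun τ V => A V - ((τ⁻¹ : ℝ) : ℂ) • XOT U O V τ with hB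
  have hBf : ∀ τ V g, ‖τ⁻¹ • XOT U O V τ g - A V g‖ = ‖B τ V g‖ := by
    intro τ V g
    simp only [hB, sub_apply, smul_apply]
    rw [norm_sub_rev]
    rfl
  have hBc : ∀ τ, Cov (B τ) := fun τ => hCsub _ _ hL.cov (hCs _ _ (hXc τ))
  have hBb : ∀ τ, 0 < τ → ∀ V, ‖B τ V‖ ≤ 2 * c := by
    intro τ hτ V
    have h1 : ‖((τ⁻¹ : ℝ) : ℂ) • XOT U O V τ‖ ≤ c := by
      rw [norm_smul, Complex.norm_real, norm_inv, Real.norm_of_nonneg hτ.le]
      have h1 := hXb V τ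
      rw [abs_of_pos hτ] at h1
      calc τ⁻¹ * ‖XOT U O V τ‖ ≤ τ⁻¹ * (c * τ) :=
            mul_le_mul_of_nonneg_left h1 (inv_nonneg.2 hτ.le)
        _ = c := by field_simp
    calc ‖B τ V‖ ≤ ‖A V‖ + ‖((τ⁻¹ : ℝ) : ℂ) • XOT U O V τ‖ := norm_sub_le _ _
      _ ≤ c + c := add_le_add (hL.bdd V) h1
      _ = 2 * c := by ring
  have hBm : ∀ τ, ∀ h : Om d → L2 d, StronglyMeasurable h →
      StronglyMeasurable fun V => B τ V (h V) := fun τ h hh =>
    hCm (B τ) (hBc τ) (Om d) id h measurable_id hh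
  have hBv : ∀ τ, 0 < τ → ∀ V g, ‖B τ V g‖ ≤ 2 * c * ‖g‖ := fun τ hτ V g =>
    ((B τ V).le_opNorm g).trans (mul_le_mul_of_nonneg_right (hBb τ hτ V) (norm_nonneg _))
  have hint : ∀ τ, 0 < τ → ∀ g, Integrable (fun V => ‖B τ V g‖ ^ 2) (PP (Sd d) ν) := by
    intro τ hτ g
    refine Integrable.of_bound (C := (2 * c * ‖g‖) ^ 2)
      (((hBc τ).meas g).norm.pow 2).aestronglyMeasurable (ae_of_all _ fun V => ?_)
    rw [Real.norm_of_nonneg (by positivity)]
    exact pow_le_pow_left₀ (norm_nonneg _) (hBv τ hτ V g) 2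
  have hx : ∀ τ x, ∫ V, ‖B τ V (ee x)‖ ^ 2 ∂(PP (Sd d) ν) =
      ∫ V, ‖B τ V (ee 0)‖ ^ 2 ∂(PP (Sd d) ν) := by
    intro τ x
    have h1 : ∀ V, ‖B τ V (ee x)‖ = ‖B τ (sh x V) (ee 0)‖ := by
      intro V
      rw [(hBc τ).cov, LinearIsometry.norm_map, Sf_ee, zero_add]
    simp only [h1]
    have h3 : ∫ V, ‖B τ (sh x V) (ee 0)‖ ^ 2 ∂(PP (Sd d) ν) =
        ∫ W, ‖B τ W (ee 0)‖ ^ 2 ∂((PP (Sd d) ν).map (sh x)) := by
      rw [integral_map (Pool.Agent.TH980.IM.PR.mp_sh ν x).measurable.aemeasurable]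
      exact (((hBc τ).meas _).norm.pow 2).aestronglyMeasurable
    rw [h3, (Pool.Agent.TH980.IM.PR.mp_sh ν x).map_eq]
  have hlim0 : Tendsto (fun T : ℝ => ∫ V, ‖B T V (ee 0)‖ ^ 2 ∂(PP (Sd d) ν)) atTop (𝓝 0) := by
    have h1 := hL.lim
    simp only [hBf] at h1
    exact h1
  simp only [hBf]
  -- the approximations
  obtain ⟨s, hs⟩ := exists_seq_tendsto (atTop : Filter (Finset (Sd d)))
  set g : ℕ → Om d → L2 d := fun n V => {V | ‖f V‖ ≤ n}.indicator (fun V => Pr (s n) (f V)) V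
    with hg
  have hgm : ∀ n, StronglyMeasurable (g n) := by
    intro n
    refine (Pr_meas (s n) hf).indicator ?_
    exact measurableSet_le hf.norm.measurable measurable_const
  have hgn : ∀ n V, ‖g n V‖ ≤ ‖f V‖ := by
    intro n V
    simp only [hg]
    by_cases h : V ∈ {V | ‖f V‖ ≤ n}
    · rw [Set.indicator_of_mem h]; exact Pr_norm _ _
    · rw [Set.indicator_of_notMem h, norm_zero]; exact norm_nonneg _
  have hglim : ∀ V, Tendsto (fun n => g n V) atTop (𝓝 (f V)) := by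
    intro V
    have h1 : Tendsto (fun n => Pr (s n) (f V)) atTop (𝓝 (f V)) := (Pr_tendsto (f V)).comp hs
    refine h1.congr' ?_
    obtain ⟨n0, hn0⟩ := exists_nat_ge ‖f V‖
    filter_upwards [eventually_ge_atTop n0] with n hn
    have h : V ∈ {V | ‖f V‖ ≤ n} := by
      show ‖f V‖ ≤ n
      exact hn0.trans (by exact_mod_cast hn)
    simp only [hg]
    rw [Set.indicator_of_mem h]
  have hdiff : Tendsto (fun n => ∫ V, ‖f V - g n V‖ ^ 2 ∂(PP (Sd d) ν)) atTop (𝓝 0) := by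
    have h1 : Tendsto (fun n => ∫ V, ‖f V - g n V‖ ^ 2 ∂(PP (Sd d) ν)) atTop
        (𝓝 (∫ V, (0 : ℝ) ∂(PP (Sd d) ν))) := by
      apply tendsto_integral_of_dominated_convergence (fun V => 4 * ‖f V‖ ^ 2)
      · intro n
        exact ((hf.sub (hgm n)).norm.pow 2).aestronglyMeasurable
      · exact hfi.const_mul 4
      · intro n
        refine ae_of_all _ fun V => ?_
        rw [Real.norm_of_nonneg (by positivity)]
        have h2 : ‖f V - g n V‖ ≤ 2 * ‖f V‖ :=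
          (norm_sub_le _ _).trans (by linarith [hgn n V])
        calc ‖f V - g n V‖ ^ 2 ≤ (2 * ‖f V‖) ^ 2 := pow_le_pow_left₀ (norm_nonneg _) h2 2
          _ = 4 * ‖f V‖ ^ 2 := by ring
      · refine ae_of_all _ fun V => ?_
        have h3 : Tendsto (fun n => ‖f V - g n V‖ ^ 2) atTop (𝓝 (‖f V - f V‖ ^ 2)) :=
          ((tendsto_const_nhds.sub (hglim V)).norm).pow 2
        simpa using h3
    simpa using h1
  have hdint : ∀ n, Integrable (fun V => ‖f V - g n V‖ ^ 2) (PP (Sd d) ν) := by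
    intro n
    refine Integrable.mono' (hfi.const_mul 4) ((hf.sub (hgm n)).norm.pow 2).aestronglyMeasurable
      (ae_of_all _ fun V => ?_)
    rw [Real.norm_of_nonneg (by positivity)]
    have h2 : ‖f V - g n V‖ ≤ 2 * ‖f V‖ := (norm_sub_le _ _).trans (by linarith [hgn n V])
    calc ‖f V - g n V‖ ^ 2 ≤ (2 * ‖f V‖) ^ 2 := pow_le_pow_left₀ (norm_nonneg _) h2 2
      _ = 4 * ‖f V‖ ^ 2 := by ring
  -- the bound
  have hbound : ∀ n τ, 0 < τ → ∫ V, ‖B τ V (f V)‖ ^ 2 ∂(PP (Sd d) ν) ≤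
      8 * c ^ 2 * ∫ V, ‖f V - g n V‖ ^ 2 ∂(PP (Sd d) ν) +
      2 * ((s n).card * (n : ℝ) ^ 2 * ((s n).card * ∫ V, ‖B τ V (ee 0)‖ ^ 2 ∂(PP (Sd d) ν))) := by
    intro n τ hτ
    have hsum : ∫ V, ∑ x ∈ s n, ‖B τ V (ee x)‖ ^ 2 ∂(PP (Sd d) ν) =
        (s n).card * ∫ V, ‖B τ V (ee 0)‖ ^ 2 ∂(PP (Sd d) ν) := by
      rw [integral_finsetSum _ fun x _ => hint τ hτ (ee x)]
      simp only [hx]
      rw [Finset.sum_const, nsmul_eq_mul]
    rw [← hsum, ← integral_const_mul, ← integral_const_mul, ← integral_const_mul, ← integral_add]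
    · apply integral_mono_of_nonneg
      · exact ae_of_all _ fun V => by positivity
      · refine ((hdint n).const_mul _).add ?_
        exact ((integrable_finsetSum _ fun x _ => hint τ hτ (ee x)).const_mul _).const_mul _
      · refine ae_of_all _ fun V => ?_
        have h1 : ‖B τ V (g n V)‖ ^ 2 ≤ (s n).card * (n : ℝ) ^ 2 * ∑ x ∈ s n, ‖B τ V (ee x)‖ ^ 2 := by
          simp only [hg]
          by_cases h : V ∈ {V | ‖f V‖ ≤ n}
          · rw [Set.indicator_of_mem h]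
            exact fin_bound (B τ V) (s n) (f V) n h
          · rw [Set.indicator_of_notMem h, map_zero, norm_zero, zero_pow two_ne_zero]
            positivity
        have h2 : ‖B τ V (f V - g n V)‖ ^ 2 ≤ 4 * c ^ 2 * ‖f V - g n V‖ ^ 2 := by
          calc ‖B τ V (f V - g n V)‖ ^ 2 ≤ (2 * c * ‖f V - g n V‖) ^ 2 :=
                pow_le_pow_left₀ (norm_nonneg _) (hBv τ hτ V _) 2
            _ = _ := by ring
        have h3 : ‖B τ V (f V)‖ ≤ ‖B τ V (f V - g n V)‖ + ‖B τ V (g n V)‖ := by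
          have h4 : B τ V (f V) = B τ V (f V - g n V) + B τ V (g n V) := by
            rw [← map_add, sub_add_cancel]
          rw [h4]
          exact norm_add_le _ _
        have h5 : ‖B τ V (f V)‖ ^ 2 ≤ (‖B τ V (f V - g n V)‖ + ‖B τ V (g n V)‖) ^ 2 :=
          pow_le_pow_left₀ (norm_nonneg _) h3 2
        show ‖B τ V (f V)‖ ^ 2 ≤ 8 * c ^ 2 * ‖f V - g n V‖ ^ 2 +
          2 * ((s n).card * (n : ℝ) ^ 2 * ∑ x ∈ s n, ‖B τ V (ee x)‖ ^ 2)
        nlinarith [sq_nonneg (‖B τ V (f V - g n V)‖ - ‖B τ V (g n V)‖)]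
    · exact (hdint n).const_mul _
    · exact ((integrable_finsetSum _ fun x _ => hint τ hτ (ee x)).const_mul _).const_mul _
  rw [Metric.tendsto_nhds]
  intro ε hε
  have hε1 : 0 < ε / (16 * (c + 1) ^ 2) := by positivity
  obtain ⟨n, hn⟩ := (Metric.tendsto_nhds.1 hdiff _ hε1).exists
  rw [Real.dist_eq, sub_zero, abs_of_nonneg (integral_nonneg fun V => by positivity)] at hn
  have hlim1 : Tendsto (fun τ : ℝ => 2 * ((s n).card * (n : ℝ) ^ 2 *
      ((s n).card * ∫ V, ‖B τ V (ee 0)‖ ^ 2 ∂(PP (Sd d) ν)))) atTop (𝓝 0) := by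
    have h1 := ((hlim0.const_mul ((s n).card : ℝ)).const_mul (((s n).card : ℝ) * (n : ℝ) ^ 2)).const_mul
      (2 : ℝ)
    simpa using h1
  filter_upwards [eventually_gt_atTop 0, hlim1.eventually (gt_mem_nhds (half_pos hε))] with τ hτ h2
  rw [Real.dist_eq, sub_zero, abs_of_nonneg (integral_nonneg fun V => by positivity)]
  refine (hbound n τ hτ).trans_lt ?_
  have h3 : 8 * c ^ 2 * ∫ V, ‖f V - g n V‖ ^ 2 ∂(PP (Sd d) ν) ≤ ε / 2 := by
    calc 8 * c ^ 2 * ∫ V, ‖f V - g n V‖ ^ 2 ∂(PP (Sd d) ν)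
        ≤ 8 * (c + 1) ^ 2 * (ε / (16 * (c + 1) ^ 2)) := by
          apply mul_le_mul _ hn.le (integral_nonneg fun V => by positivity) (by positivity)
          nlinarith
      _ = ε / 2 := by field_simp; norm_num
  linarith

end Pool.Agent.T2h98.EA
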