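import Pool.Agent.T2h98.EA.Stm
import Pool.Agent.H4R2.AE.Exist

/-! Task EA-APX (helper78): approximation by local observables. -/

set_option autoImplicit false

open scoped BigOperators Topology ENNReal InnerProductSpace
open MeasureTheory ProbabilityTheory Filter
open Pool.Agent.TH980.IM.PR (PP sh)
open Pool.Agent.T2h98.NB

namespace Pool.Agent.T2h98.EA

namespace APXx

variable {d : ℕ}

open Classical in
/-- multiplication operators -/
noncomputable def Dg (β : Sd d → ℂ) : L2 d →L[ℂ] L2 d :=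
  if h : ∃ A : L2 d →L[ℂ] L2 d, ∀ f x, (A f) x = β x * f x then h.choose else 0

theorem Dg_apply {β : Sd d → ℂ} {C : ℝ} (hβ : ∀ x, ‖β x‖ ≤ C) (f : L2 d) (x : Sd d) :
    (Dg β f) x = β x * f x := by
  have hC : 0 ≤ C := (norm_nonneg _).trans (hβ 0)
  have h : ∃ A : L2 d →L[ℂ] L2 d, ∀ f x, (A f) x = β x * f x :=
    Pool.Agent.H4R2.AE.Exist.exists_op id Function.injective_id β C hC hβ
  unfold Dg
  rw [dif_pos h]
  exact h.choose_spec f x

theorem Dg_norm_le {β : Sd d → ℂ} {C : ℝ} (hβ : ∀ x, ‖β x‖ ≤ C) (f : L2 d) :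
    ‖Dg β f‖ ≤ C * ‖f‖ := by
  have hC : 0 ≤ C := (norm_nonneg _).trans (hβ 0)
  have h : ‖Dg β f‖ ^ 2 ≤ (C * ‖f‖) ^ 2 := by
    rw [mul_pow, norm_sq, norm_sq, ← tsum_mul_left]
    refine Summable.tsum_le_tsum (fun x => ?_) (sq_summable _) ((sq_summable f).mul_left _)
    rw [Dg_apply hβ, norm_mul, mul_pow]
    have := hβ x
    gcongr
  exact (sq_le_sq₀ (norm_nonneg _) (by positivity)).1 h

theorem Dg_adj {β : Sd d → ℂ} {C : ℝ} (hβ : ∀ x, ‖β x‖ ≤ C) (f g : L2 d) :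
    inner ℂ (Dg β f) g = (inner ℂ f (Dg (fun x => (starRingEnd ℂ) (β x)) g) : ℂ) := by
  have hβ' : ∀ x, ‖(starRingEnd ℂ) (β x)‖ ≤ C := fun x => by simpa using hβ x
  rw [lp.inner_eq_tsum, lp.inner_eq_tsum]
  refine tsum_congr fun x => ?_
  rw [Dg_apply hβ, Dg_apply hβ']
  simp only [RCLike.inner_apply, map_mul]
  ring

theorem norm_le_fin (g : L2 d) (G : Finset (Sd d)) (h : ∀ y, y ∉ G → g y = 0) :
    ‖g‖ ≤ ∑ y ∈ G, ‖g y‖ := by
  have h1 : ‖g‖ ^ 2 = ∑ y ∈ G, ‖g y‖ ^ 2 := by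
    rw [norm_sq]
    exact tsum_eq_sum (fun y hy => by rw [h y hy]; simp)
  have h2 : ∑ y ∈ G, ‖g y‖ ^ 2 ≤ (∑ y ∈ G, ‖g y‖) ^ 2 :=
    Finset.sum_sq_le_sq_sum_of_nonneg fun _ _ => norm_nonneg _
  rw [← h1] at h2
  exact (sq_le_sq₀ (norm_nonneg _) (Finset.sum_nonneg fun _ _ => norm_nonneg _)).1 h2

theorem Dg_loc {b : Om d → ℂ} {C : ℝ} (hb : ∀ V, ‖b V‖ ≤ C) {S : Finset (Sd d)}
    (hS : ∀ V W : Om d, (∀ x ∈ S, V x = W x) → b V = b W) (V : Om d) (v : ℝ) (f : L2 d) :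
    ‖Dg (fun y => b (sh y (ud V v))) f - Dg (fun y => b (sh y V)) f‖ ≤
      ∑ y ∈ S.image (fun s => -s), 2 * C * ‖f y‖ := by
  refine (norm_le_fin _ (S.image fun s => -s) ?_).trans (Finset.sum_le_sum fun y _ => ?_)
  · intro y hy
    rw [lp.coeFn_sub, Pi.sub_apply, Dg_apply (fun _ => hb _), Dg_apply (fun _ => hb _)]
    rw [hS (sh y (ud V v)) (sh y V) ?_, sub_self]
    intro s hs
    show Function.update V 0 v (s + y) = V (s + y)
    rw [Function.update_of_ne]
    intro h0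
    apply hy
    rw [Finset.mem_image]
    exact ⟨s, hs, neg_eq_of_add_eq_zero_right h0⟩
  · rw [lp.coeFn_sub, Pi.sub_apply, Dg_apply (fun _ => hb _), Dg_apply (fun _ => hb _), ← sub_mul,
      norm_mul]
    have h1 : ‖b (sh y (ud V v)) - b (sh y V)‖ ≤ 2 * C := by
      refine (norm_sub_le _ _).trans ?_
      have e1 := hb (sh y (ud V v))
      have e2 := hb (sh y V)
      linarith
    gcongr

theorem cont_sh (y : Sd d) : Continuous fun V : Om d => sh y V :=
  continuous_pi fun x => continuous_apply (x + y)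

theorem Dg_cont {b : Om d → ℂ} {C : ℝ} (hbc : Continuous b) (hb : ∀ V, ‖b V‖ ≤ C) (f : L2 d) :
    Continuous fun V => Dg (fun y => b (sh y V)) f := by
  rw [continuous_iff_continuousAt]
  intro V₀
  rw [ContinuousAt, tendsto_iff_norm_sub_tendsto_zero]
  have h1 : Tendsto (fun V => ∑' y, ‖(b (sh y V) - b (sh y V₀)) * f y‖ ^ 2) (𝓝 V₀)
      (𝓝 (∑' _ : Sd d, (0 : ℝ))) := by
    refine tendsto_tsum_of_dominated_convergence (bound := fun y => (2 * C) ^ 2 * ‖f y‖ ^ 2)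
      ((sq_summable f).mul_left _) ?_ ?_
    · intro y
      have h2 : Tendsto (fun V => ‖(b (sh y V) - b (sh y V₀)) * f y‖ ^ 2) (𝓝 V₀)
          (𝓝 (‖(b (sh y V₀) - b (sh y V₀)) * f y‖ ^ 2)) :=
        (((((hbc.comp (cont_sh y)).sub continuous_const).mul
          continuous_const).norm.pow 2).tendsto V₀)
      simpa using h2
    · refine Eventually.of_forall fun V y => ?_
      rw [Real.norm_eq_abs, abs_of_nonneg (by positivity), norm_mul, mul_pow]
      have h1 : ‖b (sh y V) - b (sh y V₀)‖ ≤ 2 * C := by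
        refine (norm_sub_le _ _).trans ?_
        have e1 := hb (sh y V)
        have e2 := hb (sh y V₀)
        linarith
      gcongr
  rw [tsum_zero] at h1
  have h3 : Tendsto (fun V => ‖Dg (fun y => b (sh y V)) f - Dg (fun y => b (sh y V₀)) f‖ ^ 2)
      (𝓝 V₀) (𝓝 0) := by
    refine h1.congr fun V => ?_
    rw [norm_sq]
    refine tsum_congr fun y => ?_
    rw [lp.coeFn_sub, Pi.sub_apply, Dg_apply (fun _ => hb _), Dg_apply (fun _ => hb _), ← sub_mul]
  have h4 := h3.sqrt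
  rw [Real.sqrt_zero] at h4
  refine h4.congr fun V => ?_
  rw [Real.sqrt_sq (norm_nonneg _)]

theorem Sf_adj (x : Sd d) (f g : L2 d) :
    inner ℂ (Sf x f) g = (inner ℂ f (Sf (-x) g) : ℂ) := by
  have h : g = Sf x (Sf (-x) g) := by rw [Sf_Sf, add_neg_cancel, Sf_zero]
  conv_lhs => rw [h]
  rw [LinearIsometry.inner_map_map]

/-- the local observable -/
noncomputable def Oq (F : Finset (Sd d)) (b : Sd d → Om d → ℂ) (V : Om d) : L2 d →L[ℂ] L2 d :=
  (1 / 2 : ℂ) • ∑ x ∈ F, ((Sf x).toContinuousLinearMap.comp (Dg fun y => b x (sh y V)) +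
    (Dg fun y => (starRingEnd ℂ) (b x (sh y V))).comp (Sf (-x)).toContinuousLinearMap)

theorem Oq_apply (F : Finset (Sd d)) (b : Sd d → Om d → ℂ) (V : Om d) (f : L2 d) :
    Oq F b V f = (1 / 2 : ℂ) • ∑ x ∈ F, (Sf x (Dg (fun y => b x (sh y V)) f) +
      Dg (fun y => (starRingEnd ℂ) (b x (sh y V))) (Sf (-x) f)) := by
  unfold Oq
  rw [smul_apply, sum_apply]
  rfl

theorem Oq_obs (F : Finset (Sd d)) (b : Sd d → Om d → ℂ) (C : Sd d → ℝ)
    (S : Sd d → Finset (Sd d)) (hbc : ∀ x, Continuous (b x)) (hb : ∀ x V, ‖b x V‖ ≤ C x)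
    (hS : ∀ x, ∀ V W : Om d, (∀ s ∈ S x, V s = W s) → b x V = b x W) :
    Obs (Oq F b) (∑ x ∈ F, C x) := by
  have hC : ∀ x, 0 ≤ C x := fun x => (norm_nonneg _).trans (hb x 0)
  have hb' : ∀ x V, ‖(starRingEnd ℂ) (b x V)‖ ≤ C x := fun x V => by simpa using hb x V
  refine ⟨fun f => ?_, fun V => ?_, fun V f g => ?_, fun z V f => ?_, ?_⟩
  · simp only [Oq_apply]
    have hsum : Continuous fun V : Om d => ∑ x ∈ F, (Sf x (Dg (fun y => b x (sh y V)) f) +
        Dg (fun y => (starRingEnd ℂ) (b x (sh y V))) (Sf (-x) f)) := by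
      refine continuous_finsetSum F fun x _ => ?_
      refine Continuous.add ?_ ?_
      · exact (Sf x).continuous.comp (Dg_cont (hbc x) (hb x) f)
      · exact Dg_cont (b := fun V => (starRingEnd ℂ) (b x V))
          (Complex.continuous_conj.comp (hbc x)) (hb' x) (Sf (-x) f)
    exact hsum.const_smul (1 / 2 : ℂ)
  · refine ContinuousLinearMap.opNorm_le_bound _ (Finset.sum_nonneg fun x _ => hC x) fun f => ?_
    rw [Oq_apply, norm_smul]
    have h1 : ‖∑ x ∈ F, (Sf x (Dg (fun y => b x (sh y V)) f) +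
        Dg (fun y => (starRingEnd ℂ) (b x (sh y V))) (Sf (-x) f))‖ ≤
        ∑ x ∈ F, 2 * C x * ‖f‖ := by
      refine (norm_sum_le _ _).trans (Finset.sum_le_sum fun x _ => ?_)
      refine (norm_add_le _ _).trans ?_
      rw [LinearIsometry.norm_map]
      have e1 := Dg_norm_le (β := fun y => b x (sh y V)) (fun y => hb x _) f
      have e2 := Dg_norm_le (β := fun y => (starRingEnd ℂ) (b x (sh y V))) (fun y => hb' x _)
        (Sf (-x) f)
      rw [LinearIsometry.norm_map] at e2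
      linarith
    have h2 : ‖(1 / 2 : ℂ)‖ = 1 / 2 := by norm_num
    rw [h2]
    rw [← Finset.sum_mul, ← Finset.mul_sum] at h1
    linarith
  · rw [Oq_apply, Oq_apply, inner_smul_left, inner_smul_right, sum_inner, inner_sum]
    have h2 : (starRingEnd ℂ) (1 / 2 : ℂ) = 1 / 2 := by
      rw [map_div₀, map_one, map_ofNat]
    rw [h2]
    congr 1
    refine Finset.sum_congr rfl fun x _ => ?_
    rw [inner_add_left, inner_add_right, Sf_adj, Dg_adj (C := C x) (fun y => hb x _),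
      Dg_adj (C := C x) (fun y => hb' x _), Sf_adj, neg_neg, add_comm]
    simp only [Complex.conj_conj]
  · rw [Oq_apply, Oq_apply, map_smul, map_sum]
    congr 1
    refine Finset.sum_congr rfl fun x _ => ?_
    rw [map_add]
    congr 1
    · ext j
      rw [Sf_apply, Dg_apply (C := C x) (fun y => hb x _), Sf_apply, Sf_apply,
        Dg_apply (C := C x) (fun y => hb x _), Sf_apply, Pool.Agent.TH980.IM.PR.sh_sh]
      have e1 : j - x + z = j - -z - x := by abel
      have e2 : j - x = j - -z - x - z := by abel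
      rw [← e1, e1, ← e2]
    · ext j
      rw [Sf_apply, Dg_apply (C := C x) (fun y => hb' x _), Sf_apply,
        Dg_apply (C := C x) (fun y => hb' x _), Sf_apply, Sf_apply,
        Pool.Agent.TH980.IM.PR.sh_sh]
      have e1 : j + z = j - -z := by abel
      have e2 : j - -x = j - -z - -x - z := by abel
      rw [e1, ← e2]
  · classical
    refine ⟨F.biUnion fun x => (S x).image (fun s => -s) ∪ (S x).image (fun s => -s + x),
      fun V v f => ?_⟩
    obtain ⟨G, hG⟩ : ∃ G : Finset (Sd d), G = F.biUnion fun x =>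
      (S x).image (fun s => -s) ∪ (S x).image (fun s => -s + x) := ⟨_, rfl⟩
    rw [← hG]
    rw [Oq_apply, Oq_apply, ← smul_sub, ← Finset.sum_sub_distrib, norm_smul]
    have h2 : ‖(1 / 2 : ℂ)‖ = 1 / 2 := by norm_num
    rw [h2]
    have h1 : ‖∑ x ∈ F, ((Sf x (Dg (fun y => b x (sh y (ud V v))) f) +
        Dg (fun y => (starRingEnd ℂ) (b x (sh y (ud V v)))) (Sf (-x) f)) -
        (Sf x (Dg (fun y => b x (sh y V)) f) +
        Dg (fun y => (starRingEnd ℂ) (b x (sh y V))) (Sf (-x) f)))‖ ≤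
        ∑ x ∈ F, 4 * C x * ∑ y ∈ G, ‖f y‖ := by
      refine (norm_sum_le _ _).trans (Finset.sum_le_sum fun x hx => ?_)
      rw [add_sub_add_comm]
      refine (norm_add_le _ _).trans ?_
      rw [← map_sub, LinearIsometry.norm_map]
      have e1 := Dg_loc (hb x) (hS x) V v f
      have e2 := Dg_loc (b := fun V => (starRingEnd ℂ) (b x V)) (hb' x)
        (fun V W h => by rw [hS x V W h]) V v (Sf (-x) f)
      have e3 : ∑ y ∈ (S x).image (fun s => -s), 2 * C x * ‖f y‖ ≤ 2 * C x * ∑ y ∈ G, ‖f y‖ := by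
        rw [← Finset.mul_sum]
        refine mul_le_mul_of_nonneg_left ?_ (by linarith [hC x])
        refine Finset.sum_le_sum_of_subset_of_nonneg ?_ fun _ _ _ => norm_nonneg _
        rw [hG]
        exact Finset.subset_union_left.trans (Finset.subset_biUnion_of_mem (fun x =>
          (S x).image (fun s => -s) ∪ (S x).image (fun s => -s + x)) hx)
      have e4 : ∑ y ∈ (S x).image (fun s => -s), 2 * C x * ‖(Sf (-x) f) y‖ ≤
          2 * C x * ∑ y ∈ G, ‖f y‖ := by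
        rw [← Finset.mul_sum]
        refine mul_le_mul_of_nonneg_left ?_ (by linarith [hC x])
        have e5 : ∑ y ∈ (S x).image (fun s => -s), ‖(Sf (-x) f) y‖ =
            ∑ y ∈ (S x).image (fun s => -s + x), ‖f y‖ := by
          rw [Finset.sum_image (by intro a _ b _ h; simpa using h),
            Finset.sum_image (by intro a _ b _ h; simpa using h)]
          refine Finset.sum_congr rfl fun s _ => ?_
          rw [Sf_apply, sub_neg_eq_add]
        rw [e5]
        refine Finset.sum_le_sum_of_subset_of_nonneg ?_ fun _ _ _ => norm_nonneg _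
        rw [hG]
        exact Finset.subset_union_right.trans (Finset.subset_biUnion_of_mem (fun x =>
          (S x).image (fun s => -s) ∪ (S x).image (fun s => -s + x)) hx)
      linarith
    rw [← Finset.sum_mul, ← Finset.mul_sum] at h1
    linarith

theorem ax_conj {O : Om d → L2 d →L[ℂ] L2 d} {c : ℝ} (hO : Obg O c) (V : Om d) (x : Sd d) :
    (O V (ee 0)) (-x) = (starRingEnd ℂ) ((O (sh (-x) V) (ee 0)) x) := by
  have h1 : (O (sh (-x) V) (ee 0)) x = inner ℂ (ee 0) (O V (ee (-x))) := by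
    rw [hO.cov.cov, neg_neg, Sf_ee, zero_add, inner_ee, Sf_apply, sub_self]
  rw [h1, ← inner_ee, ← hO.sa, inner_conj_symm]

theorem ax_meas {O : Om d → L2 d →L[ℂ] L2 d} {c : ℝ} (hO : Obg O c) (x : Sd d) :
    Measurable fun V => (O V (ee 0)) x := by
  have h2 : Continuous fun f : L2 d => f x := by
    have : (fun f : L2 d => f x) = fun f => (inner ℂ (ee x) f : ℂ) := by
      funext f
      rw [inner_ee]
    rw [this]
    exact continuous_const.inner continuous_id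
  exact (h2.comp_stronglyMeasurable (hO.cov.meas (ee 0))).measurable

theorem ax_le {O : Om d → L2 d →L[ℂ] L2 d} {c : ℝ} (hO : Obg O c) (V : Om d) :
    ‖O V (ee 0)‖ ≤ c := by
  have h := (O V).le_opNorm (ee 0)
  rw [norm_ee, mul_one] at h
  exact h.trans (hO.bdd V)

theorem ax_le' {O : Om d → L2 d →L[ℂ] L2 d} {c : ℝ} (hO : Obg O c) (V : Om d) (x : Sd d) :
    ‖(O V (ee 0)) x‖ ≤ c := by
  rw [← inner_ee]
  refine (norm_inner_le_norm _ _).trans ?_
  rw [norm_ee, one_mul]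
  exact ax_le hO V

/-- truncation -/
noncomputable def Tr (F : Finset (Sd d)) (g : L2 d) : L2 d := ∑ x ∈ F, g x • ee x

theorem Tr_apply (F : Finset (Sd d)) (g : L2 d) (y : Sd d) :
    (Tr F g) y = if y ∈ F then g y else 0 := by
  unfold Tr
  rw [← inner_ee, inner_sum]
  simp only [inner_smul_right, inner_ee, ee_apply]
  simp only [mul_ite, mul_one, mul_zero]
  rw [Finset.sum_ite_eq]

theorem Tr_norm (F : Finset (Sd d)) (g : L2 d) :
    ‖g - Tr F g‖ ^ 2 = ‖g‖ ^ 2 - ∑ x ∈ F, ‖g x‖ ^ 2 := by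
  have h1 : ∀ y, ‖(g - Tr F g) y‖ ^ 2 = ‖g y‖ ^ 2 - if y ∈ F then ‖g y‖ ^ 2 else 0 := by
    intro y
    rw [lp.coeFn_sub, Pi.sub_apply, Tr_apply]
    split_ifs <;> simp
  rw [norm_sq, norm_sq g]
  simp only [h1]
  have hs : Summable fun y => if y ∈ F then ‖g y‖ ^ 2 else 0 :=
    summable_of_ne_finset_zero (s := F) fun y hy => by rw [if_neg hy]
  have h3 : ∑' y, (if y ∈ F then ‖g y‖ ^ 2 else 0) = ∑ y ∈ F, ‖g y‖ ^ 2 := by
    rw [tsum_eq_sum (s := F) (fun y hy => if_neg hy)]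
    exact Finset.sum_congr rfl fun y hy => if_pos hy
  rw [Summable.tsum_sub (sq_summable g) hs, h3]

theorem Tr_small {O : Om d → L2 d →L[ℂ] L2 d} {c : ℝ} (hO : Obg O c) (ν : Measure ℝ)
    [IsProbabilityMeasure ν] {ε : ℝ} (hε : 0 < ε) :
    ∃ F : Finset (Sd d), (∀ x ∈ F, -x ∈ F) ∧
      ∫ V, ‖O V (ee 0) - Tr F (O V (ee 0))‖ ^ 2 ∂(PP (Sd d) ν) ≤ ε := by
  classical
  have hp : IsProbabilityMeasure (PP (Sd d) ν) := by unfold PP; infer_instance
  have h1 : Tendsto (fun F : Finset (Sd d) =>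
      ∫ V, (‖O V (ee 0)‖ ^ 2 - ∑ x ∈ F, ‖(O V (ee 0)) x‖ ^ 2) ∂(PP (Sd d) ν)) atTop
      (𝓝 (∫ _, (0 : ℝ) ∂(PP (Sd d) ν))) := by
    refine tendsto_integral_filter_of_dominated_convergence (fun _ => c ^ 2) ?_ ?_
      (integrable_const _) ?_
    · refine Eventually.of_forall fun F => ?_
      refine (Measurable.sub ?_ ?_).aestronglyMeasurable
      · exact ((hO.cov.meas (ee 0)).norm.pow 2).measurable
      · exact Finset.measurable_sum F fun x _ => (ax_meas hO x).norm.pow_const 2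
    · refine Eventually.of_forall fun F => Eventually.of_forall fun V => ?_
      rw [← Tr_norm, Real.norm_eq_abs, abs_of_nonneg (by positivity), Tr_norm]
      have e1 : 0 ≤ ∑ x ∈ F, ‖(O V (ee 0)) x‖ ^ 2 := Finset.sum_nonneg fun _ _ => by positivity
      have e2 : ‖O V (ee 0)‖ ^ 2 ≤ c ^ 2 := by
        have := ax_le hO V
        gcongr
      linarith
    · refine Eventually.of_forall fun V => ?_
      have h2 : Tendsto (fun F : Finset (Sd d) => ∑ x ∈ F, ‖(O V (ee 0)) x‖ ^ 2) atTop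
          (𝓝 (‖O V (ee 0)‖ ^ 2)) := by
        rw [norm_sq]
        exact (sq_summable (O V (ee 0))).hasSum
      have h3 := (tendsto_const_nhds (x := ‖O V (ee 0)‖ ^ 2)).sub h2
      rwa [sub_self] at h3
  rw [integral_zero] at h1
  obtain ⟨F0, hF0⟩ := Filter.eventually_atTop.1 (h1.eventually (Iic_mem_nhds hε))
  refine ⟨F0 ∪ F0.image (fun x => -x), ?_, ?_⟩
  · intro x hx
    rw [Finset.mem_union, Finset.mem_image] at hx ⊢
    rcases hx with hx | ⟨y, hy, rfl⟩
    · exact Or.inr ⟨x, hx, rfl⟩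
    · left
      rwa [neg_neg]
  · have := hF0 (F0 ∪ F0.image (fun x => -x)) Finset.subset_union_left
    simp only [Tr_norm]
    exact this

end APXx

open APXx in
theorem t_APX (hB : T_BCA) : T_APX := by
  intro d ν hν O c hO ε hε
  classical
  have hp : IsProbabilityMeasure (PP (Sd d) ν) := by unfold PP; infer_instance
  obtain ⟨F, hF, hFε⟩ := Tr_small hO ν (ε := ε / 4) (by linarith)
  obtain ⟨δ, hδ⟩ : ∃ δ : ℝ, δ = ε / (4 * ((F.card : ℝ) ^ 2 + 1)) := ⟨_, rfl⟩
  have hδ0 : 0 < δ := by rw [hδ]; positivity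
  have hδ1 : 2 * (F.card : ℝ) ^ 2 * δ ≤ ε / 2 := by
    rw [hδ]
    rw [mul_div_assoc', div_le_div_iff₀ (by positivity) (by norm_num)]
    nlinarith [sq_nonneg (F.card : ℝ)]
  have hex : ∀ x : Sd d, ∃ (S : Finset (Sd d)) (b : Om d → ℂ) (C' : ℝ), Continuous b ∧
      (∀ V, ‖b V‖ ≤ C') ∧ (∀ V W : Om d, (∀ x ∈ S, V x = W x) → b V = b W) ∧
      ∫ V, ‖(O V (ee 0)) x - b V‖ ^ 2 ∂(PP (Sd d) ν) ≤ δ := fun x =>
    hB d ν (fun V => (O V (ee 0)) x) c (ax_meas hO x) (fun V => ax_le' hO V x) δ hδ0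
  choose S b C hbc hb hS hbδ using hex
  refine ⟨Oq F b, ∑ x ∈ F, C x, Oq_obs F b C S hbc hb hS, ?_⟩
  have hsh0 : ∀ V : Om d, sh 0 V = V := by
    intro V
    funext y
    show V (y + 0) = V y
    rw [add_zero]
  -- values at the unit vector
  have hval : ∀ V, Oq F b V (ee 0) = (1 / 2 : ℂ) • ∑ x ∈ F, (b x V • ee x +
      (starRingEnd ℂ) (b x (sh (-x) V)) • ee (-x)) := by
    intro V
    rw [Oq_apply]
    congr 1
    refine Finset.sum_congr rfl fun x _ => ?_
    have hb' : ∀ V, ‖(starRingEnd ℂ) (b x V)‖ ≤ C x := fun V => by simpa using hb x V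
    congr 1
    · ext j
      rw [Sf_apply, Dg_apply (C := C x) (fun y => hb x _), ee_apply, lp.coeFn_smul, Pi.smul_apply,
        ee_apply]
      by_cases hj : j = x
      · rw [hj, sub_self, if_pos rfl, if_pos rfl, hsh0]
        rfl
      · rw [if_neg (sub_ne_zero.2 hj), if_neg hj, mul_zero, smul_zero]
    · ext j
      rw [Dg_apply (C := C x) (fun y => hb' _), Sf_ee, zero_add, lp.coeFn_smul, Pi.smul_apply,
        ee_apply]
      by_cases hj : j = -x
      · rw [hj, if_pos rfl]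
        rfl
      · rw [if_neg hj, mul_zero, smul_zero]
  have hTr : ∀ V, Tr F (O V (ee 0)) = (1 / 2 : ℂ) • ∑ x ∈ F, ((O V (ee 0)) x • ee x +
      (starRingEnd ℂ) ((O (sh (-x) V) (ee 0)) x) • ee (-x)) := by
    intro V
    have h1 : ∑ x ∈ F, (starRingEnd ℂ) ((O (sh (-x) V) (ee 0)) x) • (ee (-x) : L2 d) =
        Tr F (O V (ee 0)) := by
      unfold Tr
      simp only [← ax_conj hO V]
      refine Finset.sum_bij (fun x _ => -x) (fun x hx => hF x hx)
        (fun x _ y _ h => neg_injective h) (fun y hy => ⟨-y, hF y hy, neg_neg y⟩)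
        (fun x _ => rfl)
    rw [Finset.sum_add_distrib, h1]
    have h2 : ∑ x ∈ F, (O V (ee 0)) x • (ee x : L2 d) = Tr F (O V (ee 0)) := rfl
    rw [h2, ← two_smul ℂ (Tr F (O V (ee 0))), smul_smul]
    norm_num
  obtain ⟨u, hu⟩ : ∃ u : Sd d → Om d → ℝ, u = fun x V => ‖(O V (ee 0)) x - b x V‖ := ⟨_, rfl⟩
  have hu0 : ∀ x V, 0 ≤ u x V := fun x V => by rw [hu]; exact norm_nonneg _
  have hum : ∀ x, Measurable (u x) := by
    intro x
    rw [hu]
    exact ((ax_meas hO x).sub (hbc x).measurable).norm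
  have hub : ∀ x V, u x V ≤ c + C x := by
    intro x V
    rw [hu]
    refine (norm_sub_le _ _).trans ?_
    have e1 := ax_le' hO V x
    have e2 := hb x V
    linarith
  have hui : ∀ x, Integrable (fun V => u x V ^ 2) (PP (Sd d) ν) := by
    intro x
    refine Integrable.of_bound ((hum x).pow_const 2).aestronglyMeasurable ((c + C x) ^ 2)
      (Eventually.of_forall fun V => ?_)
    rw [Real.norm_eq_abs, abs_of_nonneg (by positivity)]
    have e1 := hu0 x V
    have e2 := hub x V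
    gcongr
  have huδ : ∀ x, ∫ V, u x V ^ 2 ∂(PP (Sd d) ν) ≤ δ := by
    intro x
    rw [hu]
    exact hbδ x
  have hshi : ∀ x z, Integrable (fun V => u x (sh z V) ^ 2) (PP (Sd d) ν) := fun x z =>
    (Pool.Agent.TH980.IM.PR.mp_sh ν z).integrable_comp_of_integrable (hui x)
  have hshe : ∀ x z, ∫ V, u x (sh z V) ^ 2 ∂(PP (Sd d) ν) = ∫ V, u x V ^ 2 ∂(PP (Sd d) ν) := by
    intro x z
    have h := (Pool.Agent.TH980.IM.PR.mp_sh ν z).map_eq
    conv_rhs => rw [← h]
    rw [integral_map (Pool.Agent.TH980.IM.PR.meas_sh z).aemeasurable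
      ((hum x).pow_const 2).aestronglyMeasurable]
  -- the pointwise bound
  have hpt : ∀ V, ‖O V (ee 0) - Oq F b V (ee 0)‖ ^ 2 ≤
      2 * ‖O V (ee 0) - Tr F (O V (ee 0))‖ ^ 2 +
        (F.card : ℝ) * ∑ x ∈ F, (u x V ^ 2 + u x (sh (-x) V) ^ 2) := by
    intro V
    have h1 : ‖Tr F (O V (ee 0)) - Oq F b V (ee 0)‖ ≤
        (1 / 2) * ∑ x ∈ F, (u x V + u x (sh (-x) V)) := by
      rw [hTr, hval, ← smul_sub, ← Finset.sum_sub_distrib, norm_smul]
      have h2 : ‖(1 / 2 : ℂ)‖ = 1 / 2 := by norm_num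
      rw [h2]
      refine mul_le_mul_of_nonneg_left ?_ (by norm_num)
      refine (norm_sum_le _ _).trans (Finset.sum_le_sum fun x _ => ?_)
      rw [add_sub_add_comm, ← sub_smul, ← sub_smul, ← map_sub]
      refine (norm_add_le _ _).trans ?_
      rw [norm_smul, norm_smul, norm_ee, norm_ee, mul_one, mul_one, hu, RCLike.norm_conj]
    have h2 : (∑ x ∈ F, (u x V + u x (sh (-x) V))) ^ 2 ≤
        (F.card : ℝ) * ∑ x ∈ F, (u x V + u x (sh (-x) V)) ^ 2 := sq_sum_le_card_mul_sum_sq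
    have h3 : ∑ x ∈ F, (u x V + u x (sh (-x) V)) ^ 2 ≤
        2 * ∑ x ∈ F, (u x V ^ 2 + u x (sh (-x) V) ^ 2) := by
      rw [Finset.mul_sum]
      refine Finset.sum_le_sum fun x _ => ?_
      nlinarith [sq_nonneg (u x V - u x (sh (-x) V))]
    have h4 : ‖O V (ee 0) - Oq F b V (ee 0)‖ ≤ ‖O V (ee 0) - Tr F (O V (ee 0))‖ +
        ‖Tr F (O V (ee 0)) - Oq F b V (ee 0)‖ := norm_sub_le_norm_sub_add_norm_sub _ _ _
    have h5 : ‖O V (ee 0) - Oq F b V (ee 0)‖ ^ 2 ≤ 2 * ‖O V (ee 0) - Tr F (O V (ee 0))‖ ^ 2 +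
        2 * ‖Tr F (O V (ee 0)) - Oq F b V (ee 0)‖ ^ 2 := by
      have e1 := norm_nonneg (O V (ee 0) - Oq F b V (ee 0))
      nlinarith [sq_nonneg (‖O V (ee 0) - Tr F (O V (ee 0))‖ -
        ‖Tr F (O V (ee 0)) - Oq F b V (ee 0)‖)]
    have h6 : ‖Tr F (O V (ee 0)) - Oq F b V (ee 0)‖ ^ 2 ≤
        ((1 / 2) * ∑ x ∈ F, (u x V + u x (sh (-x) V))) ^ 2 := by
      have e1 := norm_nonneg (Tr F (O V (ee 0)) - Oq F b V (ee 0))
      gcongr
    have h7 : (F.card : ℝ) * ∑ x ∈ F, (u x V + u x (sh (-x) V)) ^ 2 ≤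
        (F.card : ℝ) * (2 * ∑ x ∈ F, (u x V ^ 2 + u x (sh (-x) V) ^ 2)) := by
      gcongr
    rw [mul_pow] at h6
    linarith
  have hint1 : Integrable (fun V => ‖O V (ee 0) - Tr F (O V (ee 0))‖ ^ 2) (PP (Sd d) ν) := by
    simp only [Tr_norm]
    refine Integrable.sub ?_ ?_
    · refine Integrable.of_bound ((hO.cov.meas (ee 0)).norm.pow 2).aestronglyMeasurable (c ^ 2)
        (Eventually.of_forall fun V => ?_)
      rw [Real.norm_eq_abs, abs_of_nonneg (by positivity)]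
      have := ax_le hO V
      gcongr
    · refine integrable_finsetSum _ fun x _ => ?_
      refine Integrable.of_bound ((ax_meas hO x).norm.pow_const 2).aestronglyMeasurable (c ^ 2)
        (Eventually.of_forall fun V => ?_)
      rw [Real.norm_eq_abs, abs_of_nonneg (by positivity)]
      have := ax_le' hO V x
      gcongr
  have hint2 : Integrable (fun V => ∑ x ∈ F, (u x V ^ 2 + u x (sh (-x) V) ^ 2))
      (PP (Sd d) ν) :=
    integrable_finsetSum _ fun x _ => (hui x).add (hshi x (-x))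
  calc ∫ V, ‖O V (ee 0) - Oq F b V (ee 0)‖ ^ 2 ∂(PP (Sd d) ν)
      ≤ ∫ V, (2 * ‖O V (ee 0) - Tr F (O V (ee 0))‖ ^ 2 +
        (F.card : ℝ) * ∑ x ∈ F, (u x V ^ 2 + u x (sh (-x) V) ^ 2)) ∂(PP (Sd d) ν) :=
        integral_mono_of_nonneg (Eventually.of_forall fun V => by positivity)
          ((hint1.const_mul 2).add (hint2.const_mul _)) (Eventually.of_forall hpt)
    _ = 2 * ∫ V, ‖O V (ee 0) - Tr F (O V (ee 0))‖ ^ 2 ∂(PP (Sd d) ν) +
        (F.card : ℝ) * ∑ x ∈ F, (∫ V, u x V ^ 2 ∂(PP (Sd d) ν) +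
          ∫ V, u x V ^ 2 ∂(PP (Sd d) ν)) := by
        have e1 : ∫ V, ∑ x ∈ F, (u x V ^ 2 + u x (sh (-x) V) ^ 2) ∂(PP (Sd d) ν) =
            ∑ x ∈ F, ∫ V, (u x V ^ 2 + u x (sh (-x) V) ^ 2) ∂(PP (Sd d) ν) :=
          integral_finsetSum F fun x _ => (hui x).add (hshi x (-x))
        rw [integral_add (hint1.const_mul 2) (hint2.const_mul _), integral_const_mul,
          integral_const_mul, e1]
        congr 2
        refine Finset.sum_congr rfl fun x _ => ?_
        rw [integral_add (hui x) (hshi x (-x)), hshe]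
    _ ≤ 2 * (ε / 4) + (F.card : ℝ) * ∑ x ∈ F, (δ + δ) := by
        have e1 : ∑ x ∈ F, (∫ V, u x V ^ 2 ∂(PP (Sd d) ν) + ∫ V, u x V ^ 2 ∂(PP (Sd d) ν)) ≤
            ∑ x ∈ F, (δ + δ) := Finset.sum_le_sum fun x _ => add_le_add (huδ x) (huδ x)
        have e2 : (F.card : ℝ) * ∑ x ∈ F, (∫ V, u x V ^ 2 ∂(PP (Sd d) ν) +
            ∫ V, u x V ^ 2 ∂(PP (Sd d) ν)) ≤ (F.card : ℝ) * ∑ x ∈ F, (δ + δ) := by
          gcongr
        linarith
    _ ≤ ε := by
        rw [Finset.sum_const, nsmul_eq_mul]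
        nlinarith

end Pool.Agent.T2h98.EA
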