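import Pool.Agent.T2h98.EA.Stm

/-! Vectors of the cyclic space are multiples at almost every energy: proof of `T_AX`. -/

set_option autoImplicit false

open scoped BigOperators Topology ENNReal InnerProductSpace
open MeasureTheory ProbabilityTheory Filter
open Pool.Agent.TH980.IM.PR (PP sh)
open Pool.Agent.TH980.IM (zk BT kap)
open Pool.Agent.T2h44.GU (RV GG qn Cy spm dn)
open Pool.Agent.T2h98.NB

namespace Pool.Agent.T2h98.EA

theorem t_AX (hF : T_FRM) : T_AX := by
  intro d V B c x hB hC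
  obtain ⟨-, -, -, -, f5⟩ := hF d V
  have hz : ∀ (k : ℕ) (E : ℝ), 0 < (zk k E).im := fun k E => Pool.Agent.TH980.IM.zk_im_pos k E
  choose v hv1 hv2 using fun m : ℕ => hC ((1 / 2) ^ m) (by positivity)
  have hsm := Pool.Agent.T2h44.GU.dn_small V (u := fun m => B (ee x) - v m) fun m => (hv2 m).le
  have hq : ∀ᵐ E : ℝ, ∀ m, Tendsto (fun k => qn V (zk k E) (B (ee x) - v m)) atTop
      (𝓝 (Real.sqrt (kap * dn V (B (ee x) - v m) E))) := by
    rw [ae_all_iff]
    exact fun m => Pool.Agent.T2h44.GU.qn_tendsto V _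
  filter_upwards [hsm, hq, Pool.Agent.T2h44.GU.qn_tendsto V (ee x)] with E e2 e3 e4
  set s : ℝ := Real.sqrt (kap * dn V (ee x) E) with hs
  set t : ℕ → ℝ := fun m => Real.sqrt (kap * dn V (B (ee x) - v m) E) with ht
  have ht0 : Tendsto t atTop (𝓝 0) := by
    have h4 := (Real.continuous_sqrt.tendsto _).comp (e2.const_mul kap)
    rw [mul_zero, Real.sqrt_zero] at h4
    exact h4
  have hqn := fun (z : ℂ) (u : L2 d) => Pool.Agent.T2h44.GU.qn_nonneg V z u
  -- the representation of the approximations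
  have hrep : ∀ m, ∃ a : ℂ, Ngl V E (v m - a • (ee x : L2 d)) := by
    intro m
    obtain ⟨a, ha⟩ := Pool.Agent.T2h44.GU.cy_rep (E := E) (fun _ => by
      obtain ⟨M, hM⟩ := e4.bddAbove_range
      exact ⟨M, fun k => hM ⟨k, rfl⟩⟩) (hv1 m)
    refine ⟨a 0, ?_⟩
    simpa using ha
  choose a ha using hrep
  -- the main estimate
  have hest : ∀ (m : ℕ) (ε : ℝ), 0 < ε → ∀ᶠ k in atTop,
      qn V (zk k E) (B (ee x) - a m • (ee x : L2 d)) ≤ t m + ε := by
    intro m ε hε
    filter_upwards [(e3 m).eventually (gt_mem_nhds (by linarith : t m < t m + ε / 2)),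
      (ha m).eventually (gt_mem_nhds (half_pos hε))] with k k1 k2
    have h1 : B (ee x) - a m • (ee x : L2 d) = (B (ee x) - v m) + (v m - a m • (ee x : L2 d)) := by
      abel
    rw [h1]
    refine (Pool.Agent.T2h44.GU.qn_add _ _ _ _).trans ?_
    linarith
  rcases (Real.sqrt_nonneg (kap * dn V (ee x) E)).lt_or_eq with hpos | hzero
  · -- the sequence `a` is a Cauchy sequence
    rw [← hs] at hpos
    have hdist : ∀ m n, ‖a m - a n‖ * s ≤ t m + t n := by
      intro m n
      refine le_of_forall_pos_le_add fun ε hε => ?_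
      have h1 : Tendsto (fun k => ‖a m - a n‖ * qn V (zk k E) (ee x)) atTop (𝓝 (‖a m - a n‖ * s)) :=
        e4.const_mul _
      refine le_of_tendsto h1 ?_
      filter_upwards [hest m (ε / 2) (half_pos hε), hest n (ε / 2) (half_pos hε)] with k k1 k2
      have h2 : (a m - a n) • (ee x : L2 d) = (B (ee x) - a n • (ee x : L2 d)) +
          (-1 : ℂ) • (B (ee x) - a m • (ee x : L2 d)) := by
        rw [sub_smul, neg_smul, one_smul]
        abel
      have h3 := Pool.Agent.T2h44.GU.qn_smul V (zk k E) (a m - a n) (ee x)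
      have h4 := Pool.Agent.T2h44.GU.qn_add V (zk k E) (B (ee x) - a n • (ee x : L2 d))
        ((-1 : ℂ) • (B (ee x) - a m • (ee x : L2 d)))
      rw [Pool.Agent.T2h44.GU.qn_smul, norm_neg, norm_one, one_mul, ← h2] at h4
      have h5 : ‖a m - a n‖ * qn V (zk k E) (ee x) = qn V (zk k E) ((a m - a n) • (ee x : L2 d)) := h3.symm
      rw [h5]
      linarith
    have hcau : CauchySeq a := by
      refine Metric.cauchySeq_iff.2 fun ε hε => ?_
      have h1 : 0 < ε * s / 2 := by positivity
      obtain ⟨N, hN⟩ := eventually_atTop.1 (ht0.eventually (gt_mem_nhds h1))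
      refine ⟨N, fun m hm n hn => ?_⟩
      have h2 := hdist m n
      have h3 := hN m hm
      have h4 := hN n hn
      rw [dist_eq_norm]
      have h5 : ‖a m - a n‖ * s < ε * s := by linarith
      exact lt_of_mul_lt_mul_right h5 hpos.le
    obtain ⟨b, hb⟩ := cauchySeq_tendsto_of_complete hcau
    refine ⟨b, ?_⟩
    refine tendsto_order.2 ⟨fun e he => Eventually.of_forall fun k => he.trans_le (hqn _ _),
      fun ε hε => ?_⟩
    have h1 : Tendsto (fun m => t m + ‖a m - b‖ * (s + 1)) atTop (𝓝 0) := by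
      have h2 : Tendsto (fun m => ‖a m - b‖) atTop (𝓝 0) := tendsto_iff_norm_sub_tendsto_zero.1 hb
      have h3 := ht0.add (h2.mul_const (s + 1))
      rwa [zero_mul, add_zero] at h3
    obtain ⟨m, hm⟩ := (h1.eventually (gt_mem_nhds (half_pos hε))).exists
    filter_upwards [hest m (ε / 2) (half_pos hε), e4.eventually (gt_mem_nhds (lt_add_one s))]
      with k k1 k2
    have h2 : B (ee x) - b • (ee x : L2 d) = (B (ee x) - a m • (ee x : L2 d)) +
        (a m - b) • (ee x : L2 d) := by
      rw [sub_smul]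
      abel
    rw [h2]
    have h3 := Pool.Agent.T2h44.GU.qn_add V (zk k E) (B (ee x) - a m • (ee x : L2 d))
        ((a m - b) • (ee x : L2 d))
    rw [Pool.Agent.T2h44.GU.qn_smul V (zk k E) (a m - b)] at h3
    have h4 : ‖a m - b‖ * qn V (zk k E) (ee x) ≤ ‖a m - b‖ * (s + 1) :=
      mul_le_mul_of_nonneg_left k2.le (norm_nonneg _)
    have h5 : ‖a m - b‖ * qn V (zk k E) (ee x) =
      ‖a m - b‖ * Pool.Agent.T2h44.GU.qn V (zk k E) (ee x) := rfl
    linarith
  · -- negligible
    refine ⟨0, ?_⟩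
    have h0 : Ngl V E (ee x) := by
      have h1 : Tendsto (fun k => qn V (zk k E) (ee x)) atTop (𝓝 (Real.sqrt (kap * dn V (ee x) E))) := e4
      rw [← hzero] at h1
      exact h1
    rw [zero_smul, sub_zero]
    have h1 : Tendsto (fun k => c * qn V (zk k E) (ee x)) atTop (𝓝 0) := by
      have := h0.const_mul c
      rwa [mul_zero] at this
    exact squeeze_zero (fun k => hqn _ _) (fun k => (f5 B c hB (zk k E) (ee x) (ee x) (hz k E)).2) h1

end Pool.Agent.T2h98.EA
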