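import Pool.Agent.T2h98.EA.Stm

/-! The factors at all sites agree: proof of `T_AXY`. -/

set_option autoImplicit false

open scoped BigOperators Topology ENNReal InnerProductSpace
open MeasureTheory ProbabilityTheory Filter
open Pool.Agent.TH980.IM.PR (PP sh)
open Pool.Agent.TH980.IM (zk BT kap)
open Pool.Agent.T2h44.GU (RV GG qn Cy spm dn)
open Pool.Agent.T2h98.NB

namespace Pool.Agent.T2h98.EA

variable {d : ℕ}

/-- connectedness of the lattice -/
theorem conn_Nb {P : Sd d → Prop} (h : ∀ x y : Sd d, Nb x y → P x → P y) (x y : Sd d) (hx : P x) :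
    P y := by
  have h1 : ∀ (i : Fin d) (n : ℕ) (x : Sd d), P x → P (x + Pi.single i (n : ℤ)) := by
    intro i n
    induction n with
    | zero => intro x hx; simpa using hx
    | succ n ih =>
      intro x hx
      have h2 := ih x hx
      have h3 := h (x + Pi.single i (n : ℤ)) (x + Pi.single i (n : ℤ) + Pi.single i 1) ⟨i, Or.inl rfl⟩ h2
      have h4 : x + Pi.single i (n : ℤ) + Pi.single i 1 = x + Pi.single i ((n + 1 : ℕ) : ℤ) := by
        rw [add_assoc, ← Pi.single_add]
        push_cast
        rfl
      rwa [h4] at h3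
  have h1' : ∀ (i : Fin d) (n : ℕ) (x : Sd d), P x → P (x + Pi.single i (-(n : ℤ))) := by
    intro i n
    induction n with
    | zero => intro x hx; simpa using hx
    | succ n ih =>
      intro x hx
      have h2 := ih x hx
      have h3 := h (x + Pi.single i (-(n : ℤ))) (x + Pi.single i (-((n + 1 : ℕ) : ℤ)))
        ⟨i, Or.inr (by
          rw [add_assoc, ← Pi.single_add]
          congr 2
          push_cast
          ring)⟩ h2
      exact h3
  have h2 : ∀ (i : Fin d) (n : ℤ) (x : Sd d), P x → P (x + Pi.single i n) := by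
    intro i n x hx
    obtain ⟨m, rfl | rfl⟩ := n.eq_nat_or_neg
    · exact h1 i m x hx
    · exact h1' i m x hx
  have h3 : ∀ s : Finset (Fin d), P (x + ∑ i ∈ s, Pi.single i ((y - x) i)) := by
    classical
    intro s
    induction s using Finset.induction_on with
    | empty => simpa using hx
    | insert a s ha ih =>
      rw [Finset.sum_insert ha, add_comm (Pi.single a _), ← add_assoc]
      exact h2 a _ _ ih
  have h4 := h3 Finset.univ
  rw [Finset.univ_sum_single] at h4
  simpa using h4

theorem t_AXY (hF : T_FRM) : T_AXY := by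
  intro d V B c E hB ha hl hnb
  obtain ⟨f1, f2, f3, -, f5⟩ := hF d V
  have hz : ∀ k, 0 < (zk k E).im := fun k => Pool.Agent.TH980.IM.zk_im_pos k E
  have hc : 0 ≤ c := (norm_nonneg B).trans hB.bdd
  choose a ha using ha
  choose l hl using hl
  -- the seminorms of the unit vectors converge
  have hs : ∀ x : Sd d, Tendsto (fun k => qn V (zk k E) (ee x)) atTop (𝓝 (Real.sqrt (l x x).re)) := by
    intro x
    have h1 : Tendsto (fun k => qn V (zk k E) (ee x) ^ 2) atTop (𝓝 (l x x).re) := by
      refine ((Complex.continuous_re.tendsto _).comp (hl x x)).congr fun k => ?_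
      show (ip V (zk k E) (ee x) (ee x)).re = _
      rw [f1 _ _ (hz k), Complex.ofReal_re]
    refine ((Real.continuous_sqrt.tendsto _).comp h1).congr fun k => ?_
    exact Real.sqrt_sq (Pool.Agent.T2h44.GU.qn_nonneg _ _ _)
  have hdich : (∀ x : Sd d, Ngl V E (ee x)) ∨ ∀ x : Sd d, ¬ Ngl V E (ee x) := by
    by_cases hall : ∀ x : Sd d, Ngl V E (ee x)
    · exact Or.inl hall
    · right
      push Not at hall
      obtain ⟨x0, hx0⟩ := hall
      intro y
      refine conn_Nb (P := fun x => ¬ Ngl V E (ee x)) ?_ x0 y hx0
      intro x y hxy hx hy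
      apply hnb x y hxy hx
      have h1 : Tendsto (fun k => qn V (zk k E) (ee x) * qn V (zk k E) (ee y)) atTop (𝓝 0) := by
        have := (hs x).mul hy
        rwa [mul_zero] at this
      refine squeeze_zero_norm (fun k => ?_) h1
      have h2 := f2 (zk k E) (ee x) (ee y) (hz k)
      rw [f3 _ _ _ (hz k), Complex.norm_real] at h2
      exact h2
  refine ⟨hdich, ?_⟩
  rcases hdich with hall | hnone
  · refine ⟨0, by simpa using hc, fun x => ?_⟩
    rw [Complex.ofReal_zero, zero_smul, sub_zero]
    have h1 : Tendsto (fun k => c * qn V (zk k E) (ee x)) atTop (𝓝 0) := by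
      have := (hall x).const_mul c
      rwa [mul_zero] at this
    exact squeeze_zero (fun k => Pool.Agent.T2h44.GU.qn_nonneg _ _ _)
      (fun k => (f5 B c hB (zk k E) (ee x) (ee x) (hz k)).2) h1
  · -- positivity of the limits
    have hpos : ∀ x : Sd d, 0 < Real.sqrt (l x x).re := by
      intro x
      rcases (Real.sqrt_nonneg (l x x).re).lt_or_eq with h | h
      · exact h
      · exfalso
        apply hnone x
        have := hs x
        rwa [← h] at this
    -- the relation
    have hrel : ∀ x y : Sd d, ((starRingEnd ℂ) (a x) - a y) * l x y = 0 := by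
      intro x y
      have h1 : Tendsto (fun k => ip V (zk k E) (B (ee x) - a x • ee x) (ee y)) atTop (𝓝 0) := by
        have h2 : Tendsto (fun k => qn V (zk k E) (B (ee x) - a x • ee x) * qn V (zk k E) (ee y))
            atTop (𝓝 0) := by
          have := (ha x).mul (hs y)
          rwa [zero_mul] at this
        exact squeeze_zero_norm (fun k => f2 (zk k E) _ (ee y) (hz k)) h2
      have h2 : Tendsto (fun k => ip V (zk k E) (ee x) (B (ee y) - a y • ee y)) atTop (𝓝 0) := by
        have h2 : Tendsto (fun k => qn V (zk k E) (ee x) * qn V (zk k E) (B (ee y) - a y • ee y))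
            atTop (𝓝 0) := by
          have := (hs x).mul (ha y)
          rwa [mul_zero] at this
        exact squeeze_zero_norm (fun k => f2 (zk k E) (ee x) _ (hz k)) h2
      have h3 := h2.sub h1
      rw [sub_zero] at h3
      have h4 : Tendsto (fun k => ((starRingEnd ℂ) (a x) - a y) * ip V (zk k E) (ee x) (ee y)) atTop
          (𝓝 0) := by
        refine h3.congr fun k => ?_
        have h5 := (f5 B c hB (zk k E) (ee x) (ee y) (hz k)).1
        unfold ip at h5 ⊢
        rw [map_sub, map_sub, map_smul, map_smul, inner_sub_right, inner_sub_left, inner_smul_right,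
          inner_smul_left]
        linear_combination h5
      exact tendsto_nhds_unique ((hl x y).const_mul _) h4
    have hreal : ∀ x : Sd d, (starRingEnd ℂ) (a x) = a x := by
      intro x
      have h1 := hrel x x
      have h2 : l x x ≠ 0 := by
        intro h0
        have := hpos x
        rw [h0] at this
        simp at this
      exact sub_eq_zero.1 ((mul_eq_zero.1 h1).resolve_right h2)
    have hnbeq : ∀ x y : Sd d, Nb x y → a x = a y := by
      intro x y hxy
      have h1 := hrel x y
      have h2 : l x y ≠ 0 := by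
        intro h0
        apply hnb x y hxy (hnone x)
        have h3 := (Complex.continuous_re.tendsto _).comp (hl x y)
        rw [h0] at h3
        refine h3.congr fun k => ?_
        show (ip V (zk k E) (ee x) (ee y)).re = _
        rw [f3 _ _ _ (hz k), Complex.ofReal_re]
      have h3 := sub_eq_zero.1 ((mul_eq_zero.1 h1).resolve_right h2)
      rw [hreal] at h3
      exact h3
    have hall : ∀ x : Sd d, a x = a 0 := fun x =>
      conn_Nb (P := fun x => a x = a 0) (fun x y hxy h => (hnbeq x y hxy).symm.trans h) 0 x rfl
    have hre : ((a 0).re : ℂ) = a 0 := Complex.conj_eq_iff_re.1 (hreal 0)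
    refine ⟨(a 0).re, ?_, fun x => ?_⟩
    · have h1 : ∀ k, |(a 0).re| * qn V (zk k E) (ee 0) ≤
          c * qn V (zk k E) (ee 0) + qn V (zk k E) (B (ee 0) - a 0 • ee 0) := by
        intro k
        have h2 := Pool.Agent.T2h44.GU.qn_smul V (zk k E) (a 0) (ee 0)
        have h3 : ‖a 0‖ = |(a 0).re| := by
          rw [← hre, Complex.norm_real, Real.norm_eq_abs, Complex.ofReal_re]
        have h4 := Pool.Agent.T2h44.GU.qn_add V (zk k E) (B (ee 0)) ((-1 : ℂ) • (B (ee 0) - a 0 • ee 0))
        have h5 : B (ee 0) + (-1 : ℂ) • (B (ee 0) - a 0 • ee 0) = a 0 • (ee 0 : L2 d) := by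
          rw [neg_smul, one_smul]
          abel
        rw [h5, h2, h3, Pool.Agent.T2h44.GU.qn_smul] at h4
        have h6 := (f5 B c hB (zk k E) (ee 0) (ee 0) (hz k)).2
        simp only [norm_neg, norm_one, one_mul] at h4
        linarith
      have h2 := le_of_tendsto_of_tendsto' ((hs 0).const_mul |(a 0).re|)
        (((hs 0).const_mul c).add (ha 0)) h1
      rw [add_zero] at h2
      exact le_of_mul_le_mul_right h2 (hpos 0)
    · rw [hre, ← hall x]
      exact ha x

end Pool.Agent.T2h98.EA
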