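import Pool.Agent.T2h98.EA.Stm

/-! Approximation by bounded continuous functions of finitely many coordinates (task EA-BCA). -/

set_option autoImplicit false

open scoped BigOperators Topology ENNReal InnerProductSpace BoundedContinuousFunction
open MeasureTheory ProbabilityTheory Filter
open Pool.Agent.TH980.IM.PR (PP sh)
open Pool.Agent.T2h98.NB

namespace Pool.Agent.T2h98.EA

/-- the restriction of the potential to `S`, extended by zero -/
noncomputable def rsS {d : ℕ} (S : Finset (Sd d)) (V : Om d) : Om d := by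
  classical
  exact fun x => if x ∈ S then V x else 0

theorem rsS_cont {d : ℕ} (S : Finset (Sd d)) : Continuous (rsS S) := by
  classical
  refine continuous_pi fun x => ?_
  unfold rsS
  by_cases h : x ∈ S
  · simpa [h] using continuous_apply x
  · simpa [h] using continuous_const

theorem rsS_tendsto {d : ℕ} (V : Om d) : Tendsto (fun S : Finset (Sd d) => rsS S V) atTop (𝓝 V) := by
  classical
  rw [tendsto_pi_nhds]
  intro x
  refine tendsto_const_nhds.congr' ?_
  filter_upwards [eventually_ge_atTop ({x} : Finset (Sd d))] with S hS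
  have hx : x ∈ S := hS (Finset.mem_singleton_self x)
  simp [rsS, hx]

theorem t_BCA : T_BCA := by
  classical
  intro d ν _ a C ha hC ε hε
  have hm : MemLp a (ENNReal.ofReal 2) (PP (Sd d) ν) :=
    MemLp.of_bound ha.aestronglyMeasurable C (Eventually.of_forall hC)
  obtain ⟨b, hb, -⟩ := hm.exists_boundedContinuous_integral_rpow_sub_le (by norm_num : (0 : ℝ) < 2)
    (half_pos hε)
  have hb2 : ∫ V, ‖a V - b V‖ ^ 2 ∂(PP (Sd d) ν) ≤ ε / 2 := by
    have e : ∀ V, ‖a V - b V‖ ^ (2 : ℝ) = ‖a V - b V‖ ^ 2 := fun V => Real.rpow_two _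
    simpa only [e] using hb
  have hlim : Tendsto (fun S : Finset (Sd d) => ∫ V, ‖a V - b (rsS S V)‖ ^ 2 ∂(PP (Sd d) ν)) atTop
      (𝓝 (∫ V, ‖a V - b V‖ ^ 2 ∂(PP (Sd d) ν))) := by
    refine tendsto_integral_filter_of_dominated_convergence (fun _ => (C + ‖b‖) ^ 2) ?_ ?_ ?_ ?_
    · refine Eventually.of_forall fun S => ?_
      have h1 : Measurable fun V => b (rsS S V) := (b.continuous.comp (rsS_cont S)).measurable
      exact ((ha.sub h1).norm.pow_const 2).aestronglyMeasurable
    · refine Eventually.of_forall fun S => Eventually.of_forall fun V => ?_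
      rw [Real.norm_of_nonneg (by positivity)]
      refine pow_le_pow_left₀ (norm_nonneg _) ?_ 2
      exact (norm_sub_le _ _).trans (add_le_add (hC V) (b.norm_coe_le_norm _))
    · exact integrable_const _
    · refine Eventually.of_forall fun V => ?_
      have h1 : Tendsto (fun S : Finset (Sd d) => b (rsS S V)) atTop (𝓝 (b V)) :=
        (b.continuous.tendsto V).comp (rsS_tendsto V)
      exact ((tendsto_const_nhds.sub h1).norm).pow 2
  have hev := hlim.eventually (Iio_mem_nhds (show ∫ V, ‖a V - b V‖ ^ 2 ∂(PP (Sd d) ν) < ε by linarith))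
  obtain ⟨S, hS⟩ := hev.exists
  refine ⟨S, fun V => b (rsS S V), ‖b‖, b.continuous.comp (rsS_cont S), fun V => b.norm_coe_le_norm _, ?_, hS.le⟩
  intro V W hVW
  have : rsS S V = rsS S W := by
    funext x
    unfold rsS
    by_cases hx : x ∈ S
    · simp [hx, hVW x hx]
    · simp [hx]
  simp only [this]

end Pool.Agent.T2h98.EA
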