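import Pool.Agent.T2h98.EA.Stm

/-! Conserved quantities commute with the resolvent (helper22). -/

set_option autoImplicit false

open scoped BigOperators Topology ENNReal InnerProductSpace
open MeasureTheory ProbabilityTheory Filter
open Pool.Agent.T2h44.GU (RV GG qn Cy spm dn)
open Pool.Agent.T2h98.NB

namespace Pool.Agent.T2h98.EA

theorem t_CMR (hL : T_LAPR) : T_CMR := by
  intro d U hU A c hA V
  have up : ∀ z : ℂ, 0 < z.im → ∀ f g : L2 d,
      (inner ℂ g (A V (RV V z f)) : ℂ) = inner ℂ g (RV V z (A V f)) := by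
    intro z hz f g
    rw [← hA.sa V g (RV V z f), hL d U hU V z f (A V g) hz, hL d U hU V z (A V f) g hz]
    congr 1
    refine integral_congr_ae (Eventually.of_forall fun t => ?_)
    change Complex.exp (Complex.I * z * t) * (inner ℂ (A V g) (U V t f) : ℂ) =
      Complex.exp (Complex.I * z * t) * (inner ℂ g (U V t (A V f)) : ℂ)
    rw [hA.sa, hA.com]
  refine ⟨hA.bdd V, hA.sa V, fun z hz f => ?_⟩
  rcases lt_or_gt_of_ne hz with h | h
  · apply ext_inner_left ℂ
    intro g
    have hc : 0 < ((starRingEnd ℂ) z).im := by simpa using h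
    have h1 : A V (RV V ((starRingEnd ℂ) z) g) = RV V ((starRingEnd ℂ) z) (A V g) :=
      ext_inner_left ℂ fun g' => up _ hc g g'
    rw [← hA.sa V g, ← Pool.Agent.T2h44.GU.RV_adj V hz, ← h1, hA.sa,
      Pool.Agent.T2h44.GU.RV_adj V hz]
  · exact ext_inner_left ℂ fun g => up z h f g

end Pool.Agent.T2h98.EA
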