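import Pool.Agent.T2h98.EA.Stm

/-! Ergodicity on the absolutely continuous spectrum: averaging is a contraction (task EA-CON). -/

set_option autoImplicit false

open scoped BigOperators Topology ENNReal InnerProductSpace
open MeasureTheory ProbabilityTheory Filter
open Pool.Agent.TH980.IM.PR (PP sh)
open Pool.Agent.T2h98.NB

namespace Pool.Agent.T2h98.EA

namespace CONx

variable {d : ℕ} {U : Om d → ℝ → L2 d →L[ℂ] L2 d}

theorem U_cont' (hU : Gr0 U) {X : Type} [TopologicalSpace X] {φ : X → Om d} {k : X → ℝ}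
    (hφ : Continuous φ) (hk : Continuous k) {h : X → L2 d}
    (hh : Continuous h) : Continuous fun s => U (φ s) (k s) (h s) := by
  rw [continuous_iff_continuousAt]
  intro s₀
  have h1 : Tendsto (fun s => ‖h s - h s₀‖ + ‖U (φ s) (k s) (h s₀) - U (φ s₀) (k s₀) (h s₀)‖) (𝓝 s₀)
      (𝓝 (0 + 0)) := by
    apply Tendsto.add
    · exact tendsto_iff_norm_sub_tendsto_zero.1 hh.continuousAt
    · have h2 : Continuous fun s => U (φ s) (k s) (h s₀) :=
        (hU.cont (h s₀)).comp (hφ.prodMk hk)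
      exact tendsto_iff_norm_sub_tendsto_zero.1 h2.continuousAt
  rw [add_zero] at h1
  apply tendsto_iff_norm_sub_tendsto_zero.2
  refine squeeze_zero (fun s => norm_nonneg _) (fun s => ?_) h1
  have h3 : U (φ s) (k s) (h s) - U (φ s₀) (k s₀) (h s₀)
      = U (φ s) (k s) (h s - h s₀) + (U (φ s) (k s) (h s₀) - U (φ s₀) (k s₀) (h s₀)) := by
    rw [map_sub]; abel
  rw [h3]
  refine le_trans (norm_add_le _ _) ?_
  rw [hU.norm]

theorem sq_int_le {T : ℝ} (hT : 0 < T) {φ : ℝ → ℝ} (hφ : Continuous φ) :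
    (∫ s in (0 : ℝ)..T, φ s) ^ 2 ≤ T * ∫ s in (0 : ℝ)..T, φ s ^ 2 := by
  set I := ∫ s in (0 : ℝ)..T, φ s with hI
  have h1 : 0 ≤ ∫ s in (0 : ℝ)..T, (φ s - T⁻¹ * I) ^ 2 :=
    intervalIntegral.integral_nonneg hT.le fun s _ => sq_nonneg _
  have h2 : ∫ s in (0 : ℝ)..T, (φ s - T⁻¹ * I) ^ 2 =
      (∫ s in (0 : ℝ)..T, φ s ^ 2) - 2 * (T⁻¹ * I) * I + T * (T⁻¹ * I) ^ 2 := by
    have e : ∀ s, (φ s - T⁻¹ * I) ^ 2 = φ s ^ 2 - 2 * (T⁻¹ * I) * φ s + (T⁻¹ * I) ^ 2 :=
      fun s => by ring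
    simp_rw [e]
    have c1 : Continuous fun s => φ s ^ 2 := hφ.pow 2
    have c2 : Continuous fun s => 2 * (T⁻¹ * I) * φ s := continuous_const.mul hφ
    have c3 : Continuous fun s => φ s ^ 2 - 2 * (T⁻¹ * I) * φ s := c1.sub c2
    rw [intervalIntegral.integral_add (c3.intervalIntegrable _ _)
      intervalIntegrable_const, intervalIntegral.integral_sub (c1.intervalIntegrable _ _)
      (c2.intervalIntegrable _ _), intervalIntegral.integral_const_mul,
      intervalIntegral.integral_const, sub_zero, smul_eq_mul]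
  rw [h2] at h1
  have h3 : T * (T⁻¹ * I) ^ 2 = T⁻¹ * I ^ 2 := by field_simp
  have h4 : 2 * (T⁻¹ * I) * I = 2 * (T⁻¹ * I ^ 2) := by ring
  rw [h3, h4] at h1
  have h5 : T⁻¹ * I ^ 2 ≤ ∫ s in (0 : ℝ)..T, φ s ^ 2 := by linarith
  calc I ^ 2 = T * (T⁻¹ * I ^ 2) := by field_simp
    _ ≤ _ := mul_le_mul_of_nonneg_left h5 hT.le

theorem three {E : Type} [NormedAddCommGroup E] (x a b : E) {δ : ℝ} (hδ : 0 < δ) :
    ‖a - b‖ ^ 2 ≤ (1 + δ) * ‖x - a‖ ^ 2 + (1 + δ⁻¹) * ‖x - b‖ ^ 2 := by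
  have h1 : ‖a - b‖ ≤ ‖x - a‖ + ‖x - b‖ := by
    have : a - b = (x - b) - (x - a) := by abel
    rw [this, add_comm]
    exact norm_sub_le _ _
  set p := ‖x - a‖
  set q := ‖x - b‖
  have hp : 0 ≤ p := norm_nonneg _
  have hq : 0 ≤ q := norm_nonneg _
  have h2 : 2 * p * q ≤ δ * p ^ 2 + δ⁻¹ * q ^ 2 := by
    have h3 : 0 ≤ δ⁻¹ * (δ * p - q) ^ 2 := by positivity
    have h4 : δ⁻¹ * (δ * p - q) ^ 2 = δ * p ^ 2 + δ⁻¹ * q ^ 2 - 2 * p * q := by
      field_simp
      ring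
    linarith
  calc ‖a - b‖ ^ 2 ≤ (p + q) ^ 2 := pow_le_pow_left₀ (norm_nonneg _) h1 2
    _ = p ^ 2 + q ^ 2 + 2 * p * q := by ring
    _ ≤ _ := by linarith

end CONx

open CONx in
theorem t_CON (hX : T_XT) (hO : T_XO) (hC : T_COV) (hT : T_TU) : T_CON := by
  intro d U hU ν _ A c hA O' c' hO' A' hA'
  obtain ⟨x1, x2, x3, -⟩ := id (hX d U hU)
  obtain ⟨y1, y2, y3, -, -, y6, -⟩ := id (hO d U hU O' c' hO')
  set μ := PP (Sd d) ν with hμ
  have : IsProbabilityMeasure μ := by rw [hμ]; unfold PP; infer_instance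
  have hc' : 0 ≤ c' := (norm_nonneg (O' 0)).trans (hO'.bdd 0)
  have hc : 0 ≤ c := (norm_nonneg (A 0)).trans (hA.bdd 0)
  have hO'n : ∀ (V : Om d) (f : L2 d), ‖O' V f‖ ≤ c' * ‖f‖ := fun V f =>
    (O' V).le_of_opNorm_le (hO'.bdd V) f
  have hAn : ∀ (V : Om d) (f : L2 d), ‖A V f‖ ≤ c * ‖f‖ := fun V f =>
    (A V).le_of_opNorm_le (hA.bdd V) f
  have hA'n : ∀ (V : Om d) (f : L2 d), ‖A' V f‖ ≤ c' * ‖f‖ := fun V f =>
    (A' V).le_of_opNorm_le (hA'.bdd V) f
  set D : Om d → L2 d →L[ℂ] L2 d := fun V => O' V - A V with hD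
  have hDc : Cov D := (hC d).2.1 _ _ y1 hA.cov
  have hDn : ∀ (V : Om d) (f : L2 d), ‖D V f‖ ≤ (c' + c) * ‖f‖ := fun V f => by
    have e : D V f = O' V f - A V f := rfl
    rw [e]
    refine (norm_sub_le _ _).trans ?_
    have := hO'n V f
    have := hAn V f
    linarith
  set R : ℝ := ∫ V, ‖D V (ee 0)‖ ^ 2 ∂μ with hR
  have hst : ∀ s : ℝ, ∫ V, ‖D V (U V s (ee 0))‖ ^ 2 ∂μ = R := by
    intro s
    refine hT d ν D (fun V => U V s) hDc (x3 s) (fun V => ?_) 0
    have e : U V (-s) = ContinuousLinearMap.adjoint (U V s) := by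
      rw [ContinuousLinearMap.eq_adjoint_iff]
      intro x y
      have := x1 V (-s) x y
      rwa [neg_neg] at this
    rw [← e]
    ext1 f
    have := x2 V (-s) f
    rw [neg_neg] at this
    exact this
  have hFm : StronglyMeasurable fun p : Om d × ℝ => ‖D p.1 (U p.1 p.2 (ee 0))‖ ^ 2 :=
    ((hC d).2.2.2.2 D hDc (Om d × ℝ) Prod.fst (fun p => U p.1 p.2 (ee 0)) measurable_fst
      (hU.g0.cont _).stronglyMeasurable).norm.pow 2
  have hFb : ∀ (V : Om d) (s : ℝ), ‖‖D V (U V s (ee 0))‖ ^ 2‖ ≤ (c' + c) ^ 2 := by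
    intro V s
    rw [Real.norm_of_nonneg (by positivity)]
    refine pow_le_pow_left₀ (norm_nonneg _) ((hDn V _).trans ?_) 2
    rw [hU.g0.norm, norm_ee, mul_one]
  -- the averages
  set x : ℝ → Om d → L2 d := fun T V => T⁻¹ • XOT U O' V T (ee 0) with hx
  have hxm : ∀ T, StronglyMeasurable (x T) := fun T => ((y6 T).meas (ee 0)).const_smul T⁻¹
  have hxn : ∀ T, 0 < T → ∀ V, ‖x T V‖ ≤ c' := by
    intro T hT V
    rw [hx]
    dsimp only
    rw [norm_smul, Real.norm_of_nonneg (by positivity)]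
    have h1 : ‖XOT U O' V T (ee 0)‖ ≤ c' * T := by
      have := (XOT U O' V T).le_of_opNorm_le (y3 V T) (ee 0)
      rwa [norm_ee, mul_one, abs_of_pos hT] at this
    calc T⁻¹ * ‖XOT U O' V T (ee 0)‖ ≤ T⁻¹ * (c' * T) :=
          mul_le_mul_of_nonneg_left h1 (by positivity)
      _ = c' := by field_simp
  have hint : ∀ (y : Om d → L2 d) (K : ℝ), StronglyMeasurable y → (∀ V, ‖y V‖ ≤ K) →
      Integrable (fun V => ‖y V‖ ^ 2) μ := by
    intro y K hy hK
    refine Integrable.of_bound (C := K ^ 2) (hy.norm.pow 2).aestronglyMeasurable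
      (Eventually.of_forall fun V => ?_)
    rw [Real.norm_of_nonneg (by positivity)]
    exact pow_le_pow_left₀ (norm_nonneg _) (hK V) 2
  have key : ∀ T, 0 < T → ∫ V, ‖x T V - A V (ee 0)‖ ^ 2 ∂μ ≤ R := by
    intro T hT0
    have hpt : ∀ V, ‖x T V - A V (ee 0)‖ ^ 2 ≤
        T⁻¹ * ∫ s in Set.Ioc 0 T, ‖D V (U V s (ee 0))‖ ^ 2 := by
      intro V
      have hDcont : Continuous fun s : ℝ => D V (U V s (ee 0)) :=
        (D V).continuous.comp ((hU.g0.cont _).comp (continuous_const.prodMk continuous_id))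
      have hcont : ∀ B : L2 d →L[ℂ] L2 d, Continuous fun s : ℝ => U V (-s) (B (U V s (ee 0))) :=
        fun B => U_cont' hU.g0 continuous_const continuous_neg
          (B.continuous.comp ((hU.g0.cont _).comp (continuous_const.prodMk continuous_id)))
      have e1 : x T V - A V (ee 0) =
          T⁻¹ • ∫ s in (0 : ℝ)..T, U V (-s) (D V (U V s (ee 0))) := by
        have e2 : ∫ s in (0 : ℝ)..T, U V (-s) (D V (U V s (ee 0))) =
            XO U O' V T (ee 0) - T • A V (ee 0) := by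
          have e3 : ∀ s : ℝ, U V (-s) (D V (U V s (ee 0))) =
              U V (-s) (O' V (U V s (ee 0))) - A V (ee 0) := by
            intro s
            have e4 : D V (U V s (ee 0)) = O' V (U V s (ee 0)) - A V (U V s (ee 0)) := rfl
            rw [e4, map_sub, hA.com, x2]
          simp_rw [e3]
          rw [intervalIntegral.integral_sub ((hcont (O' V)).intervalIntegrable _ _)
            intervalIntegrable_const, intervalIntegral.integral_const, sub_zero]
          rfl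
        rw [e2, smul_sub, smul_smul, inv_mul_cancel₀ hT0.ne', one_smul, ← y2]
      rw [e1, norm_smul, mul_pow, Real.norm_of_nonneg (by positivity)]
      have h1 : ‖∫ s in (0 : ℝ)..T, U V (-s) (D V (U V s (ee 0)))‖ ≤
          ∫ s in (0 : ℝ)..T, ‖D V (U V s (ee 0))‖ := by
        refine (intervalIntegral.norm_integral_le_integral_norm hT0.le).trans (le_of_eq ?_)
        refine intervalIntegral.integral_congr fun s _ => ?_
        rw [hU.g0.norm]
      have h2 := (pow_le_pow_left₀ (norm_nonneg _) h1 2).trans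
        (sq_int_le hT0 hDcont.norm)
      calc T⁻¹ ^ 2 * ‖∫ s in (0 : ℝ)..T, U V (-s) (D V (U V s (ee 0)))‖ ^ 2
          ≤ T⁻¹ ^ 2 * (T * ∫ s in (0 : ℝ)..T, ‖D V (U V s (ee 0))‖ ^ 2) :=
            mul_le_mul_of_nonneg_left h2 (by positivity)
        _ = T⁻¹ * ∫ s in Set.Ioc 0 T, ‖D V (U V s (ee 0))‖ ^ 2 := by
            rw [intervalIntegral.integral_of_le hT0.le]
            field_simp
    have hF : Integrable (fun p : Om d × ℝ => ‖D p.1 (U p.1 p.2 (ee 0))‖ ^ 2)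
        (μ.prod (volume.restrict (Set.Ioc 0 T))) :=
      Integrable.of_bound (C := (c' + c) ^ 2) hFm.aestronglyMeasurable
        (Eventually.of_forall fun p => hFb p.1 p.2)
    calc ∫ V, ‖x T V - A V (ee 0)‖ ^ 2 ∂μ
        ≤ ∫ V, T⁻¹ * ∫ s in Set.Ioc 0 T, ‖D V (U V s (ee 0))‖ ^ 2 ∂volume ∂μ := by
          refine integral_mono (hint (fun V => x T V - A V (ee 0)) (c' + c)
            ((hxm T).sub (hA.cov.meas _)) fun V => ?_) (hF.integral_prod_left.const_mul T⁻¹) hpt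
          refine (norm_sub_le _ _).trans ?_
          have := hxn T hT0 V
          have h3 := hAn V (ee 0)
          rw [norm_ee, mul_one] at h3
          linarith
      _ = T⁻¹ * ∫ V, ∫ s in Set.Ioc 0 T, ‖D V (U V s (ee 0))‖ ^ 2 ∂volume ∂μ := by
          rw [integral_const_mul]
      _ = T⁻¹ * ∫ s in Set.Ioc 0 T, ∫ V, ‖D V (U V s (ee 0))‖ ^ 2 ∂μ := by
          rw [integral_integral_swap hF]
      _ = T⁻¹ * ∫ s in Set.Ioc 0 T, R := by simp_rw [hst]
      _ = R := by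
          rw [setIntegral_const, Real.volume_real_Ioc_of_le hT0.le, sub_zero, smul_eq_mul]
          field_simp
  have hfin : ∀ δ : ℝ, 0 < δ → ∫ V, ‖A V (ee 0) - A' V (ee 0)‖ ^ 2 ∂μ ≤ (1 + δ) * R := by
    intro δ hδ
    have h1 : ∀ᶠ T : ℝ in atTop, ∫ V, ‖A V (ee 0) - A' V (ee 0)‖ ^ 2 ∂μ ≤
        (1 + δ) * R + (1 + δ⁻¹) * ∫ V, ‖T⁻¹ • XOT U O' V T (ee 0) - A' V (ee 0)‖ ^ 2 ∂μ := by
      filter_upwards [eventually_gt_atTop (0 : ℝ)] with T hT0
      have i1 : Integrable (fun V => ‖x T V - A V (ee 0)‖ ^ 2) μ := by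
        refine hint (fun V => x T V - A V (ee 0)) (c' + c) ((hxm T).sub (hA.cov.meas _)) fun V => ?_
        refine (norm_sub_le _ _).trans ?_
        have := hxn T hT0 V
        have h3 := hAn V (ee 0)
        rw [norm_ee, mul_one] at h3
        linarith
      have i2 : Integrable (fun V => ‖x T V - A' V (ee 0)‖ ^ 2) μ := by
        refine hint (fun V => x T V - A' V (ee 0)) (c' + c') ((hxm T).sub (hA'.cov.meas _))
          fun V => ?_
        refine (norm_sub_le _ _).trans ?_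
        have := hxn T hT0 V
        have h3 := hA'n V (ee 0)
        rw [norm_ee, mul_one] at h3
        linarith
      have i3 : Integrable (fun V => ‖A V (ee 0) - A' V (ee 0)‖ ^ 2) μ := by
        refine hint (fun V => A V (ee 0) - A' V (ee 0)) (c + c') ((hA.cov.meas _).sub
          (hA'.cov.meas _)) fun V => ?_
        refine (norm_sub_le _ _).trans ?_
        have h2 := hAn V (ee 0)
        have h3 := hA'n V (ee 0)
        rw [norm_ee, mul_one] at h2 h3
        linarith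
      calc ∫ V, ‖A V (ee 0) - A' V (ee 0)‖ ^ 2 ∂μ
          ≤ ∫ V, ((1 + δ) * ‖x T V - A V (ee 0)‖ ^ 2 + (1 + δ⁻¹) * ‖x T V - A' V (ee 0)‖ ^ 2) ∂μ :=
            integral_mono i3 ((i1.const_mul _).add (i2.const_mul _)) fun V =>
              three (x T V) (A V (ee 0)) (A' V (ee 0)) hδ
        _ = (1 + δ) * ∫ V, ‖x T V - A V (ee 0)‖ ^ 2 ∂μ +
            (1 + δ⁻¹) * ∫ V, ‖x T V - A' V (ee 0)‖ ^ 2 ∂μ := by
            rw [integral_add (i1.const_mul _) (i2.const_mul _), integral_const_mul,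
              integral_const_mul]
        _ ≤ _ := by
            have := mul_le_mul_of_nonneg_left (key T hT0) (by linarith : (0 : ℝ) ≤ 1 + δ)
            linarith
    have h2 : Tendsto (fun T : ℝ => (1 + δ) * R + (1 + δ⁻¹) *
        ∫ V, ‖T⁻¹ • XOT U O' V T (ee 0) - A' V (ee 0)‖ ^ 2 ∂μ) atTop
        (𝓝 ((1 + δ) * R + (1 + δ⁻¹) * 0)) := (hA'.lim.const_mul _).const_add _
    rw [mul_zero, add_zero] at h2
    exact ge_of_tendsto h2 h1
  have h1 : ∫ V, ‖A V (ee 0) - A' V (ee 0)‖ ^ 2 ∂μ ≤ R := by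
    have h2 : Tendsto (fun δ : ℝ => (1 + δ) * R) (𝓝[>] 0) (𝓝 ((1 + 0) * R)) := by
      refine Tendsto.mono_left ?_ nhdsWithin_le_nhds
      exact (continuous_const.add continuous_id).mul continuous_const |>.tendsto 0
    rw [add_zero, one_mul] at h2
    exact ge_of_tendsto h2 (eventually_nhdsWithin_of_forall fun δ hδ => hfin δ hδ)
  refine h1.trans (le_of_eq ?_)
  rw [hR]
  refine integral_congr_ae (Eventually.of_forall fun V => ?_)
  have e : D V (ee 0) = O' V (ee 0) - A V (ee 0) := rfl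
  dsimp only
  rw [e, norm_sub_rev]

end Pool.Agent.T2h98.EA
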