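import Pool.Agent.T2h98.EA.Stm

/-! Invariant functions are constant (task EA-CST). -/

set_option autoImplicit false

open scoped BigOperators Topology ENNReal InnerProductSpace
open MeasureTheory ProbabilityTheory Filter
open Pool.Agent.TH980.IM.PR (PP sh sh_sh meas_sh zero_one)
open Pool.Agent.T2h98.NB

namespace Pool.Agent.T2h98.EA

theorem t_CST : T_CST := by
  intro d hd ν _ g C hg _ hinv
  have hne : Nonempty (Fin d) := ⟨⟨0, by omega⟩⟩
  have hinf : Infinite (Sd d) := inferInstance
  set G : Set (Om d) := {V | ∀ z : Sd d, g (sh z V) = g V} with hG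
  have hGm : MeasurableSet G := by
    have e : G = ⋂ z : Sd d, {V | g (sh z V) = g V} := by
      ext V
      simp [hG]
    rw [e]
    exact MeasurableSet.iInter fun z => measurableSet_eq_fun (hg.comp (meas_sh z)) hg
  have hG1 : ∀ᵐ V ∂(PP (Sd d) ν), V ∈ G := ae_all_iff.2 hinv
  have hGinv : ∀ (x : Sd d) (V : Om d), sh x V ∈ G ↔ V ∈ G := by
    have h1 : ∀ (x : Sd d) (V : Om d), V ∈ G → sh x V ∈ G := by
      intro x V hV z
      rw [sh_sh, hV (z + x), hV x]
    intro x V
    refine ⟨fun h => ?_, h1 x V⟩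
    have h2 := h1 (-x) _ h
    have h3 : sh (-x) (sh x V) = V := by
      rw [sh_sh]
      funext y
      simp [sh]
    rwa [h3] at h2
  obtain ⟨a, ha⟩ : ∃ a, g =ᶠ[ae (PP (Sd d) ν)] Function.const _ a := by
    refine Filter.exists_eventuallyEq_const_of_forall_separating MeasurableSet fun U hU => ?_
    have hN := zero_one ν (hGm.inter (hg hU)) (fun x => by
      ext V
      simp only [Set.mem_preimage, Set.mem_inter_iff]
      rw [hGinv x V]
      constructor
      · rintro ⟨h1, h2⟩
        rw [h1 x] at h2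
        exact ⟨h1, h2⟩
      · rintro ⟨h1, h2⟩
        rw [← h1 x] at h2
        exact ⟨h1, h2⟩)
    rcases hN with h | h
    · right
      rw [measureReal_eq_zero_iff] at h
      filter_upwards [hG1, measure_eq_zero_iff_ae_notMem.1 h] with V h1 h2 h3
      exact h2 ⟨h1, h3⟩
    · left
      have h4 : ∀ᵐ V ∂(PP (Sd d) ν), V ∈ G ∩ g ⁻¹' U := by
        have h5 : PP (Sd d) ν (G ∩ g ⁻¹' U) = 1 := by
          rw [measureReal_def] at h
          rw [← ENNReal.ofReal_toReal (measure_ne_top (PP (Sd d) ν) (G ∩ g ⁻¹' U)), h, ENNReal.ofReal_one]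
        exact (mem_ae_iff_prob_eq_one (hGm.inter (hg hU))).2 h5
      filter_upwards [h4] with V hV
      exact hV.2
  have hint : ∫ W, g W ∂(PP (Sd d) ν) = a := by
    rw [integral_congr_ae ha]
    simp
  filter_upwards [ha] with V hV
  rw [hV, hint]
  rfl

end Pool.Agent.T2h98.EA
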