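import Pool.Agent.T2h98.EA.Stm

/-! Ergodicity on the absolutely continuous spectrum: conserved quantities map the origin to its
cyclic space (task EA-CYG). -/

set_option autoImplicit false
set_option linter.unusedVariables false

open scoped BigOperators Topology ENNReal InnerProductSpace
open MeasureTheory ProbabilityTheory Filter
open Pool.Agent.TH980.IM.PR (PP sh)
open Pool.Agent.T2h98.NB

namespace Pool.Agent.T2h98.EA

theorem t_CYG (hX : T_XT) (hC : T_COV) (hL : T_LIMO) (hCy : T_CYO) (hP : T_APX) (hN : T_CON) :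
    T_CYG := by
  intro d U hU ν _ K hK A c hA
  set μ := PP (Sd d) ν with hμ
  have : IsProbabilityMeasure μ := by rw [hμ]; unfold PP; infer_instance
  have hg : Obg A c := ⟨hA.cov, hA.bdd, hA.sa⟩
  have h1 : ∀ n : ℕ, ∃ (A' : Om d → L2 d →L[ℂ] L2 d) (c' : ℝ), (∀ V, ‖A' V‖ ≤ c') ∧ Cov A' ∧
      ∫ V, ‖A V (ee 0) - A' V (ee 0)‖ ^ 2 ∂μ ≤ (1 / 4 : ℝ) ^ n ∧
      ∀ᵐ V ∂μ, ∀ φ : L2 d, Ort U V φ → (inner ℂ (A' V (ee 0)) φ : ℂ) = 0 := by
    intro n
    obtain ⟨O', c', hO', hd⟩ := hP d ν A c hg ((1 / 4 : ℝ) ^ n) (by positivity)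
    obtain ⟨A', hA'⟩ := hL d U hU O' c' hO' ν
    exact ⟨A', c', hA'.bdd, hA'.cov, (hN d U hU ν A c hA O' c' hO' A' hA').trans hd,
      hCy d U hU ν K hK O' c' hO' A' hA'⟩
  choose A' c' hb hcov hd ho using h1
  have h2 : ∀ᵐ V ∂μ, ∀ (n : ℕ) (φ : L2 d), Ort U V φ → (inner ℂ (A' n V (ee 0)) φ : ℂ) = 0 :=
    ae_all_iff.2 ho
  have hsm : ∀ n, StronglyMeasurable fun V => ‖A V (ee 0) - A' n V (ee 0)‖ ^ 2 := fun n =>
    ((hA.cov.meas (ee 0)).sub ((hcov n).meas (ee 0))).norm.pow 2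
  have hint : ∀ n, Integrable (fun V => ‖A V (ee 0) - A' n V (ee 0)‖ ^ 2) μ := by
    intro n
    refine Integrable.of_bound (C := (c + c' n) ^ 2) (hsm n).aestronglyMeasurable
      (Eventually.of_forall fun V => ?_)
    rw [Real.norm_of_nonneg (by positivity)]
    refine pow_le_pow_left₀ (norm_nonneg _) ((norm_sub_le _ _).trans ?_) 2
    have e1 := (A V).le_of_opNorm_le (hA.bdd V) (ee 0)
    have e2 := (A' n V).le_of_opNorm_le (hb n V) (ee 0)
    rw [norm_ee, mul_one] at e1 e2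
    linarith
  have h3 : ∀ n, ∫⁻ V, ENNReal.ofReal (‖A V (ee 0) - A' n V (ee 0)‖ ^ 2) ∂μ ≤
      ENNReal.ofReal ((1 / 4 : ℝ) ^ n) := by
    intro n
    rw [← ofReal_integral_eq_lintegral_ofReal (hint n) (Eventually.of_forall fun V => sq_nonneg _)]
    exact ENNReal.ofReal_le_ofReal (hd n)
  have hme : ∀ n, Measurable fun V => ENNReal.ofReal (‖A V (ee 0) - A' n V (ee 0)‖ ^ 2) := fun n =>
    (hsm n).measurable.ennreal_ofReal
  have h4 : ∫⁻ V, ∑' n, ENNReal.ofReal (‖A V (ee 0) - A' n V (ee 0)‖ ^ 2) ∂μ ≠ ∞ := by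
    rw [lintegral_tsum fun n => (hme n).aemeasurable]
    refine ne_top_of_le_ne_top ?_ (ENNReal.tsum_le_tsum h3)
    exact Summable.tsum_ofReal_ne_top
      (summable_geometric_of_lt_one (by norm_num : (0 : ℝ) ≤ 1 / 4) (by norm_num))
  have h5 := ae_lt_top' (Measurable.tsum hme).aemeasurable h4
  filter_upwards [h2, h5] with V hV2 hV5 φ hφ
  have h6 := ENNReal.tendsto_atTop_zero_of_tsum_ne_top hV5.ne
  have h7 : Tendsto (fun n => ‖A V (ee 0) - A' n V (ee 0)‖ ^ 2) atTop (𝓝 0) := by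
    have h8 := (ENNReal.tendsto_toReal ENNReal.zero_ne_top).comp h6
    rw [ENNReal.toReal_zero] at h8
    refine h8.congr fun n => ?_
    rw [Function.comp_apply, ENNReal.toReal_ofReal (sq_nonneg _)]
  have h8 : ‖(inner ℂ (A V (ee 0)) φ : ℂ)‖ ^ 2 ≤ 0 := by
    have h9 : Tendsto (fun n => ‖A V (ee 0) - A' n V (ee 0)‖ ^ 2 * ‖φ‖ ^ 2) atTop
        (𝓝 (0 * ‖φ‖ ^ 2)) := h7.mul_const _
    rw [zero_mul] at h9
    refine ge_of_tendsto h9 (Eventually.of_forall fun n => ?_)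
    have e : (inner ℂ (A V (ee 0)) φ : ℂ) = inner ℂ (A V (ee 0) - A' n V (ee 0)) φ := by
      rw [inner_sub_left, hV2 n φ hφ, sub_zero]
    rw [e, ← mul_pow]
    exact pow_le_pow_left₀ (norm_nonneg _) (norm_inner_le_norm _ _) 2
  have h9 : ‖(inner ℂ (A V (ee 0)) φ : ℂ)‖ = 0 :=
    pow_eq_zero_iff two_ne_zero |>.1 (le_antisymm h8 (sq_nonneg _))
  exact norm_eq_zero.1 h9

end Pool.Agent.T2h98.EA
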