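import Pool.Agent.T2h98.EA.Stm

/-! Ergodicity on the absolutely continuous spectrum: the cyclic space by the group and by the
resolvent (task EA-CYR). -/

set_option autoImplicit false

open scoped BigOperators Topology ENNReal InnerProductSpace
open MeasureTheory ProbabilityTheory Filter
open Pool.Agent.TH980.IM.PR (PP sh)
open Pool.Agent.TH980.IM (zk BT kap)
open Pool.Agent.T2h44.GU (RV GG qn Cy spm dn RV_adj)
open Pool.Agent.T2h98.NB

namespace Pool.Agent.T2h98.EA

theorem t_CYR (hX : T_XT) (hP : T_LPU) (hL : T_LAPR) : T_CYR := by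
  intro d U hU V a ha
  obtain ⟨hadj, -⟩ := hX d U hU
  have hc : ∀ f : L2 d, Continuous fun t : ℝ => U V t f := fun f =>
    (hU.g0.cont f).comp (continuous_const.prodMk continuous_id)
  set W : Submodule ℂ (L2 d) := Cy V (fun _ : Fin 1 => (ee 0 : L2 d)) with hW
  have hmem : ∀ z : ℂ, z.im ≠ 0 → RV V z (ee 0) ∈ W := fun z hz =>
    Submodule.subset_span ⟨0, z, hz, rfl⟩
  have key : ∀ φ ∈ Wᗮ, Ort U V φ := by
    intro φ hφ
    have h0 : ∀ z : ℂ, z.im ≠ 0 → (inner ℂ (RV V z (ee 0)) φ : ℂ) = 0 := fun z hz =>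
      (Submodule.mem_orthogonal _ _).1 hφ _ (hmem z hz)
    have h1 : ∀ t : ℝ, 0 ≤ t → (inner ℂ (ee 0) (U V t φ) : ℂ) = 0 := by
      refine hP _ ‖φ‖ (continuous_const.inner (hc φ)) (fun t => ?_) fun z hz => ?_
      · refine (norm_inner_le_norm _ _).trans ?_
        rw [norm_ee, one_mul, hU.g0.norm]
      · have h2 := hL d U hU V z φ (ee 0) hz
        have h3 : (inner ℂ (ee 0) (RV V z φ) : ℂ) = 0 := by
          rw [← RV_adj V hz.ne']
          exact h0 _ (by rw [Complex.conj_im]; exact neg_ne_zero.2 hz.ne')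
        rw [h3] at h2
        exact (mul_eq_zero.1 h2.symm).resolve_left Complex.I_ne_zero
    have h2 : ∀ t : ℝ, 0 ≤ t → (inner ℂ φ (U V t (ee 0)) : ℂ) = 0 := by
      refine hP _ ‖φ‖ (continuous_const.inner (hc _)) (fun t => ?_) fun z hz => ?_
      · refine (norm_inner_le_norm _ _).trans ?_
        rw [hU.g0.norm, norm_ee, mul_one]
      · have h2 := hL d U hU V z (ee 0) φ hz
        have h3 : (inner ℂ φ (RV V z (ee 0)) : ℂ) = 0 := by
          rw [← inner_conj_symm, h0 z hz.ne', map_zero]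
        rw [h3] at h2
        exact (mul_eq_zero.1 h2.symm).resolve_left Complex.I_ne_zero
    intro t
    rcases le_total 0 t with ht | ht
    · exact h1 t ht
    · have h3 := h2 (-t) (by linarith)
      rw [← inner_conj_symm, hadj, neg_neg] at h3
      exact (map_eq_zero _).1 h3
  have h1 : a ∈ Wᗮᗮ := by
    rw [Submodule.mem_orthogonal]
    intro φ hφ
    rw [← inner_conj_symm, ha φ (key φ hφ), map_zero]
  rw [Submodule.orthogonal_orthogonal_eq_closure] at h1
  intro ε hε
  obtain ⟨v, hv, hv2⟩ := Metric.mem_closure_iff.1 h1 ε hε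
  exact ⟨v, hv, by rwa [dist_eq_norm] at hv2⟩

end Pool.Agent.T2h98.EA
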