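import Pool.Agent.T2h98.EA.Stm

/-! Poisson integrals dominate measures: proof of `T_DOM`. -/

set_option autoImplicit false

open scoped BigOperators Topology ENNReal NNReal InnerProductSpace BoundedContinuousFunction
open MeasureTheory ProbabilityTheory Filter
open Pool.Agent.TH980.IM (zk BT kap)

namespace Pool.Agent.T2h98.EA

namespace DOM

noncomputable def ph (x : ℝ) : ℝ := (1 + x ^ 2)⁻¹

theorem ph_nonneg (x : ℝ) : 0 ≤ ph x := by unfold ph; positivity

theorem ph_int : Integrable ph := integrable_inv_one_add_sq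

theorem ph_val : ∫ x, ph x = Real.pi := integral_univ_inv_one_add_sq

theorem ph_cont : Continuous ph := by
  unfold ph
  exact (continuous_const.add (continuous_pow 2)).inv₀ fun x => by
    have := sq_nonneg x
    show (1 : ℝ) + x ^ 2 ≠ 0
    positivity

theorem ker (t E : ℝ) {η : ℝ} (hη : 0 < η) :
    η / ((t - E) ^ 2 + η ^ 2) = η⁻¹ * ph ((E - t) / η) := by
  unfold ph
  have h1 : (t - E) ^ 2 + η ^ 2 ≠ 0 := by positivity
  have h2 : 1 + ((E - t) / η) ^ 2 ≠ 0 := by positivity
  have h3 : 1 + ((E - t) / η) ^ 2 = ((t - E) ^ 2 + η ^ 2) / η ^ 2 := by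
    field_simp
    ring
  rw [h3, inv_div]
  field_simp

variable {g : ℝ → ℝ} {M : ℝ}

theorem gph_int (hg : Continuous g) (hM : ∀ x, |g x| ≤ M) (t η : ℝ) :
    Integrable fun s => g (t + η * s) * ph s := by
  refine ph_int.bdd_mul (c := M) ?_ ?_
  · exact (hg.comp (by fun_prop)).aestronglyMeasurable
  · exact Eventually.of_forall fun s => hM _

/-- the substitution -/
theorem subst (t : ℝ) {η : ℝ} (hη : 0 < η) :
    ∫ E, g E * (η / ((t - E) ^ 2 + η ^ 2)) = ∫ s, g (t + η * s) * ph s := by
  have h1 : (fun E => g E * (η / ((t - E) ^ 2 + η ^ 2))) = fun E =>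
      η⁻¹ * (fun s => g (t + η * s) * ph s) ((E - t) / η) := by
    funext E
    rw [ker t E hη]
    have : t + η * ((E - t) / η) = E := by field_simp; ring
    simp only [this]
    ring
  rw [h1, integral_const_mul]
  rw [integral_sub_right_eq_self (fun x => (fun s => g (t + η * s) * ph s) (x / η)) t]
  have h2 : ∫ x, (fun s => g (t + η * s) * ph s) (x / η) = |η| • ∫ s, g (t + η * s) * ph s :=
    Measure.integral_comp_div (fun s => g (t + η * s) * ph s) η
  rw [h2, abs_of_pos hη, smul_eq_mul, ← mul_assoc, inv_mul_cancel₀ hη.ne', one_mul]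

theorem prod_int (m : Measure ℝ) [IsFiniteMeasure m] (hg : Continuous g) (hM : ∀ x, |g x| ≤ M) {η : ℝ}
    (hη : 0 < η) :
    Integrable (Function.uncurry fun (E t : ℝ) => g E * (η / ((t - E) ^ 2 + η ^ 2)))
      (volume.prod m) := by
  have hcont : Continuous (Function.uncurry fun (E t : ℝ) => g E * (η / ((t - E) ^ 2 + η ^ 2))) := by
    refine (hg.comp continuous_fst).mul (continuous_const.div (by fun_prop) fun p => ?_)
    positivity
  have hk : ∀ t : ℝ, Integrable fun E => η / ((t - E) ^ 2 + η ^ 2) := by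
    intro t
    have h1 : (fun E => η / ((t - E) ^ 2 + η ^ 2)) = fun E => η⁻¹ * ph ((E - t) / η) := by
      funext E; exact ker t E hη
    rw [h1]
    exact ((ph_int.comp_div hη.ne').comp_sub_right t).const_mul _
  rw [integrable_prod_iff' hcont.aestronglyMeasurable]
  refine ⟨Eventually.of_forall fun t => ?_, ?_⟩
  · exact (hk t).bdd_mul (c := M) hg.aestronglyMeasurable (Eventually.of_forall fun x => hM x)
  · refine Integrable.mono' (g := fun _ => M * Real.pi) (integrable_const _) ?_ ?_
    · exact (hcont.norm.aestronglyMeasurable (μ := volume.prod m)).prod_swap.integral_prod_right'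
    · refine Eventually.of_forall fun t => ?_
      have h1 : 0 ≤ ∫ E, ‖Function.uncurry (fun (E t : ℝ) => g E * (η / ((t - E) ^ 2 + η ^ 2))) (E, t)‖ :=
        integral_nonneg fun _ => norm_nonneg _
      rw [Real.norm_eq_abs, abs_of_nonneg h1]
      have h2 : ∫ E, M * (η / ((t - E) ^ 2 + η ^ 2)) = M * Real.pi := by
        have h3 := subst (g := fun _ => M) t hη
        rw [h3, integral_const_mul, ph_val]
      rw [← h2]
      refine integral_mono_of_nonneg (Eventually.of_forall fun _ => norm_nonneg _)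
        ((hk t).const_mul M) (Eventually.of_forall fun E => ?_)
      show ‖g E * (η / ((t - E) ^ 2 + η ^ 2))‖ ≤ M * (η / ((t - E) ^ 2 + η ^ 2))
      have h4 : 0 ≤ η / ((t - E) ^ 2 + η ^ 2) := by positivity
      rw [norm_mul, Real.norm_eq_abs, Real.norm_eq_abs, abs_of_nonneg h4]
      exact mul_le_mul_of_nonneg_right (hM E) h4

theorem swap (m : Measure ℝ) [IsFiniteMeasure m] (hg : Continuous g) (hM : ∀ x, |g x| ≤ M) {η : ℝ}
    (hη : 0 < η) :
    Integrable (fun E : ℝ => g E * (BT m (E + η * Complex.I)).im) ∧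
    ∫ E : ℝ, g E * (BT m (E + η * Complex.I)).im = ∫ t, (∫ s, g (t + η * s) * ph s) ∂m := by
  have h1 := prod_int m hg hM hη
  have h2 : (fun E : ℝ => g E * (BT m (E + η * Complex.I)).im) = fun E : ℝ =>
      ∫ t, g E * (η / ((t - E) ^ 2 + η ^ 2)) ∂m := by
    funext E
    rw [Pool.Agent.TH980.IM.im_BT m E hη, integral_const_mul]
  rw [h2]
  refine ⟨h1.integral_prod_left, ?_⟩
  rw [integral_integral_swap h1]
  exact integral_congr_ae (Eventually.of_forall fun t => subst t hη)

theorem lim (m : Measure ℝ) [IsFiniteMeasure m] (hg : Continuous g) (hM : ∀ x, |g x| ≤ M) :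
    Tendsto (fun k : ℕ => ∫ t, (∫ s, g (t + (1 / ((k : ℝ) + 1)) * s) * ph s) ∂m) atTop
      (𝓝 (∫ t, g t * Real.pi ∂m)) := by
  have hη : Tendsto (fun k : ℕ => 1 / ((k : ℝ) + 1)) atTop (𝓝 0) := tendsto_one_div_add_atTop_nhds_zero_nat
  refine tendsto_integral_of_dominated_convergence (fun _ => M * Real.pi) ?_ (integrable_const _) ?_ ?_
  · intro k
    have hc : Continuous (Function.uncurry fun (t s : ℝ) => g (t + (1 / ((k : ℝ) + 1)) * s) * ph s) :=
      (hg.comp (by fun_prop)).mul (ph_cont.comp continuous_snd)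
    exact (hc.aestronglyMeasurable (μ := m.prod volume)).integral_prod_right'
  · intro k
    refine Eventually.of_forall fun t => ?_
    have h1 : ‖∫ s, g (t + (1 / ((k : ℝ) + 1)) * s) * ph s‖ ≤ ∫ s, M * ph s := by
      refine norm_integral_le_of_norm_le (ph_int.const_mul M) (Eventually.of_forall fun s => ?_)
      rw [norm_mul, Real.norm_eq_abs, Real.norm_eq_abs, abs_of_nonneg (ph_nonneg s)]
      exact mul_le_mul_of_nonneg_right (hM _) (ph_nonneg s)
    rwa [integral_const_mul, ph_val] at h1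
  · refine Eventually.of_forall fun t => ?_
    have h2 : g t * Real.pi = ∫ s, g t * ph s := by rw [integral_const_mul, ph_val]
    rw [h2]
    refine tendsto_integral_of_dominated_convergence (fun s => M * ph s) ?_ (ph_int.const_mul M) ?_ ?_
    · intro k
      exact (gph_int hg hM t _).aestronglyMeasurable
    · intro k
      refine Eventually.of_forall fun s => ?_
      rw [norm_mul, Real.norm_eq_abs, Real.norm_eq_abs, abs_of_nonneg (ph_nonneg s)]
      exact mul_le_mul_of_nonneg_right (hM _) (ph_nonneg s)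
    · refine Eventually.of_forall fun s => ?_
      refine Tendsto.mul_const _ ?_
      have h3 : Tendsto (fun k : ℕ => t + (1 / ((k : ℝ) + 1)) * s) atTop (𝓝 t) := by
        have := (hη.mul_const s).const_add t
        rwa [zero_mul, add_zero] at this
      exact (hg.tendsto t).comp h3

theorem int_le (m₁ m₂ : Measure ℝ) [IsFiniteMeasure m₁] [IsFiniteMeasure m₂] {C : ℝ}
    (h : ∀ z : ℂ, 0 < z.im → (BT m₁ z).im ≤ C * (BT m₂ z).im) (hg : Continuous g)
    (hM : ∀ x, |g x| ≤ M) (hg0 : ∀ x, 0 ≤ g x) : ∫ t, g t ∂m₁ ≤ C * ∫ t, g t ∂m₂ := by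
  have h1 : ∀ k : ℕ, ∫ t, (∫ s, g (t + (1 / ((k : ℝ) + 1)) * s) * ph s) ∂m₁ ≤
      C * ∫ t, (∫ s, g (t + (1 / ((k : ℝ) + 1)) * s) * ph s) ∂m₂ := by
    intro k
    have hη : (0 : ℝ) < 1 / ((k : ℝ) + 1) := by positivity
    obtain ⟨a1, b1⟩ := swap m₁ hg hM hη
    obtain ⟨a2, b2⟩ := swap m₂ hg hM hη
    rw [← b1, ← b2, ← integral_const_mul]
    refine integral_mono a1 (a2.const_mul C) fun E => ?_
    have h2 := h (E + (1 / ((k : ℝ) + 1) : ℝ) * Complex.I) (by
      simp only [Complex.add_im, Complex.ofReal_im, Complex.mul_im, Complex.ofReal_re, Complex.I_im,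
        Complex.I_re, mul_one, mul_zero, add_zero, zero_add]
      exact hη)
    have h3 := mul_le_mul_of_nonneg_left h2 (hg0 E)
    show g E * _ ≤ C * (g E * _)
    linarith
  have h2 := le_of_tendsto_of_tendsto' (lim m₁ hg hM) ((lim m₂ hg hM).const_mul C) h1
  rw [integral_mul_const, integral_mul_const] at h2
  have h3 := Real.pi_pos
  have h4 : (∫ t, g t ∂m₁) * Real.pi ≤ (C * ∫ t, g t ∂m₂) * Real.pi := by linarith
  exact le_of_mul_le_mul_right h4 h3

end DOM

theorem t_DOM : T_DOM := by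
  intro m₁ m₂ _ _ C hC h
  -- bounded continuous functions
  have h1 : ∀ f : ℝ →ᵇ ℝ≥0, ∫⁻ t, f t ∂m₁ ≤ ENNReal.ofReal C * ∫⁻ t, f t ∂m₂ := by
    intro f
    have hb : ∀ x, |(f x : ℝ)| ≤ (nndist f 0 : ℝ) := by
      intro x
      rw [abs_of_nonneg (NNReal.coe_nonneg (f x))]
      exact_mod_cast BoundedContinuousFunction.NNReal.upper_bound f x
    have hc : Continuous fun x => (f x : ℝ) := NNReal.continuous_coe.comp f.continuous
    have hi := DOM.int_le m₁ m₂ h hc hb fun x => (f x).2
    have e : ∀ (m : Measure ℝ) [IsFiniteMeasure m], ∫⁻ t, f t ∂m = ENNReal.ofReal (∫ t, (f t : ℝ) ∂m) := by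
      intro m _
      rw [ofReal_integral_eq_lintegral_ofReal]
      · simp
      · exact Integrable.mono' (integrable_const (nndist f 0 : ℝ)) hc.aestronglyMeasurable
          (Eventually.of_forall fun x => hb x)
      · exact Eventually.of_forall fun x => (f x).2
    rw [e m₁, e m₂, ← ENNReal.ofReal_mul hC]
    exact ENNReal.ofReal_le_ofReal hi
  -- closed sets
  have h2 : ∀ F : Set ℝ, IsClosed F → m₁ F ≤ ENNReal.ofReal C * m₂ F := by
    intro F hF
    have hδ : ∀ n : ℕ, (0 : ℝ) < 1 / ((n : ℝ) + 1) := fun n => by positivity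
    have hlim : Tendsto (fun n : ℕ => 1 / ((n : ℝ) + 1)) atTop (𝓝 0) :=
      tendsto_one_div_add_atTop_nhds_zero_nat
    have t1 := tendsto_lintegral_thickenedIndicator_of_isClosed m₁ hF hδ hlim
    have t2 := tendsto_lintegral_thickenedIndicator_of_isClosed m₂ hF hδ hlim
    exact le_of_tendsto_of_tendsto' t1 (ENNReal.Tendsto.const_mul t2 (Or.inr ENNReal.ofReal_ne_top))
      fun n => h1 _
  rw [Measure.le_iff]
  intro s hs
  rw [MeasurableSet.measure_eq_iSup_isClosed_of_ne_top hs (measure_ne_top _ _)]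
  refine iSup₂_le fun K hK => iSup_le fun hKc => ?_
  refine (h2 K hKc).trans ?_
  rw [Measure.smul_apply, smul_eq_mul]
  exact mul_le_mul_right (measure_mono hK) _

end Pool.Agent.T2h98.EA
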