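import Pool.Agent.T2h98.EA.Stm

/-! From the unit vectors to all vectors: proof of `T_FAL`. -/

set_option autoImplicit false

open scoped BigOperators Topology ENNReal InnerProductSpace
open MeasureTheory ProbabilityTheory Filter
open Pool.Agent.TH980.IM.PR (PP sh)
open Pool.Agent.TH980.IM (zk BT kap)
open Pool.Agent.T2h44.GU (RV GG qn Cy spm dn)
open Pool.Agent.T2h98.NB

namespace Pool.Agent.T2h98.EA

theorem t_FAL (hF : T_FRM) : T_FAL := by
  intro d V B c ρ hB hρ hee f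
  obtain ⟨-, -, -, -, f5⟩ := hF d V
  have hz : ∀ (k : ℕ) (E : ℝ), 0 < (zk k E).im := fun k E => Pool.Agent.TH980.IM.zk_im_pos k E
  have hc : 0 ≤ c := (norm_nonneg B).trans hB.bdd
  choose p hp1 hp2 using fun m : ℕ => Pool.Agent.T2h44.GU.Dn_dense f ((1 / 2) ^ m) (by positivity)
  have hsm := Pool.Agent.T2h44.GU.dn_small V (u := fun m => f - p m) fun m => (hp2 m).le
  have hq : ∀ᵐ E : ℝ, ∀ m, Tendsto (fun k => qn V (zk k E) (f - p m)) atTop
      (𝓝 (Real.sqrt (kap * dn V (f - p m) E))) := by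
    rw [ae_all_iff]
    exact fun m => Pool.Agent.T2h44.GU.qn_tendsto V (f - p m)
  filter_upwards [hee, hsm, hq] with E e1 e2 e3
  have h1 : ∀ m, Ngl V E (B (p m) - (ρ E : ℂ) • p m) := by
    intro m
    obtain ⟨s, a, hsa⟩ := hp1 m
    have h2 : B (p m) - (ρ E : ℂ) • p m =
        ∑ x ∈ s, a x • (B (ee x) - (ρ E : ℂ) • (ee x : L2 d)) := by
      have h3 : p m = ∑ x ∈ s, a x • (ee x : L2 d) := hsa
      rw [h3, map_sum, Finset.smul_sum, ← Finset.sum_sub_distrib]
      refine Finset.sum_congr rfl fun x _ => ?_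
      rw [map_smul, smul_sub, smul_comm (ρ E : ℂ) (a x)]
    rw [h2]
    exact Pool.Agent.T2h44.GU.Neg.sum s fun x _ => (e1 x).smul _
  have h3 : Tendsto (fun m => 2 * c * Real.sqrt (kap * dn V (f - p m) E)) atTop (𝓝 0) := by
    have h4 := ((Real.continuous_sqrt.tendsto _).comp (e2.const_mul kap)).const_mul (2 * c)
    rw [mul_zero, Real.sqrt_zero, mul_zero] at h4
    exact h4
  refine tendsto_order.2 ⟨fun a ha => Eventually.of_forall fun k =>
    ha.trans_le (Pool.Agent.T2h44.GU.qn_nonneg _ _ _), fun ε hε => ?_⟩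
  obtain ⟨m, hm⟩ := (h3.eventually (gt_mem_nhds (half_pos hε))).exists
  have h4 : Tendsto (fun k => 2 * c * qn V (zk k E) (f - p m)) atTop
      (𝓝 (2 * c * Real.sqrt (kap * dn V (f - p m) E))) := (e3 m).const_mul _
  filter_upwards [h4.eventually (gt_mem_nhds hm), (h1 m).eventually (gt_mem_nhds (half_pos hε))]
    with k k1 k2
  have h5 : B f - (ρ E : ℂ) • f = (B (f - p m) + (-(ρ E : ℂ)) • (f - p m)) +
      (B (p m) - (ρ E : ℂ) • p m) := by
    rw [map_sub, neg_smul, smul_sub]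
    abel
  rw [h5]
  have h6 := Pool.Agent.T2h44.GU.qn_add V (zk k E) (B (f - p m) + (-(ρ E : ℂ)) • (f - p m))
    (B (p m) - (ρ E : ℂ) • p m)
  have h7 := Pool.Agent.T2h44.GU.qn_add V (zk k E) (B (f - p m)) ((-(ρ E : ℂ)) • (f - p m))
  rw [Pool.Agent.T2h44.GU.qn_smul V (zk k E) (-(ρ E : ℂ)), norm_neg, Complex.norm_real,
    Real.norm_eq_abs] at h7
  have h8 := (f5 B c hB (zk k E) (f - p m) (f - p m) (hz k E)).2
  have h9 : |ρ E| * qn V (zk k E) (f - p m) ≤ c * qn V (zk k E) (f - p m) :=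
    mul_le_mul_of_nonneg_right (hρ E) (Pool.Agent.T2h44.GU.qn_nonneg _ _ _)
  linarith

end Pool.Agent.T2h98.EA
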