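import Pool.Agent.T2h98.EA.Stm

/-! The resolvent form: proof of `T_FRM`. -/

set_option autoImplicit false

open scoped BigOperators Topology ENNReal InnerProductSpace
open MeasureTheory ProbabilityTheory Filter
open Pool.Agent.TH980.IM.PR (PP sh)
open Pool.Agent.TH980.IM (zk BT kap)
open Pool.Agent.T2h44.GU (RV GG qn Cy spm dn)
open Pool.Agent.T2h98.NB

namespace Pool.Agent.T2h98.EA

variable {d : ℕ}

theorem ip_self (V : Om d) (z : ℂ) (f : L2 d) (hz : 0 < z.im) :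
    ip V z f f = ((qn V z f ^ 2 : ℝ) : ℂ) := by
  unfold ip
  rw [inner_self_eq_norm_sq_to_K]
  unfold Pool.Agent.T2h44.GU.qn
  rw [mul_pow, Real.sq_sqrt hz.le]
  push_cast
  rfl

theorem ip_cs (V : Om d) (z : ℂ) (f g : L2 d) (hz : 0 < z.im) :
    ‖ip V z f g‖ ≤ qn V z f * qn V z g := by
  unfold ip
  rw [norm_mul, Complex.norm_real, Real.norm_eq_abs, abs_of_pos hz]
  have h1 := norm_inner_le_norm (𝕜 := ℂ) (RV V z f) (RV V z g)
  unfold Pool.Agent.T2h44.GU.qn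
  calc z.im * ‖(inner ℂ (RV V z f) (RV V z g) : ℂ)‖ ≤ z.im * (‖RV V z f‖ * ‖RV V z g‖) :=
        mul_le_mul_of_nonneg_left h1 hz.le
    _ = (Real.sqrt z.im * Real.sqrt z.im) * (‖RV V z f‖ * ‖RV V z g‖) := by
        rw [Real.mul_self_sqrt hz.le]
    _ = _ := by ring

theorem ip_eq (V : Om d) (z : ℂ) (f g : L2 d) (hz : z.im ≠ 0) :
    2 * Complex.I * ip V z f g =
      inner ℂ f (RV V z g) - inner ℂ f (RV V ((starRingEnd ℂ) z) g) := by
  have hz' : ((starRingEnd ℂ) z).im ≠ 0 := by simpa using hz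
  have h1 := Pool.Agent.T2h44.GU.RV_adj V hz' f (RV V z g)
  rw [Complex.conj_conj] at h1
  have h2 := Pool.Agent.T2h44.GU.RV_res V hz' hz g
  have h3 : (starRingEnd ℂ) z - z = -(2 * Complex.I * (z.im : ℂ)) := by
    apply Complex.ext <;> simp
    ring
  unfold ip
  rw [h1]
  have h4 : inner ℂ f (RV V ((starRingEnd ℂ) z) g) - inner ℂ f (RV V z g) =
      -(2 * Complex.I * (z.im : ℂ)) * inner ℂ f (RV V ((starRingEnd ℂ) z) (RV V z g)) := by
    rw [← inner_sub_right, h2, inner_smul_right, h3]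
  linear_combination h4

theorem ip_ee (V : Om d) (z : ℂ) (x y : Sd d) (hz : 0 < z.im) :
    ip V z (ee x) (ee y) = ((GG V z x y).im : ℂ) := by
  have h1 := ip_eq V z (ee x) (ee y) hz.ne'
  have h2 := Pool.Agent.T2h44.GU.GG_inner V z x y
  have h3 := Pool.Agent.T2h44.GU.GG_inner V z y x
  have h4 := Pool.Agent.T2h44.GU.GG_symm V hz.ne' x y
  have h5 := Pool.Agent.T2h44.GU.RV_adj V hz.ne' (ee y) (ee x)
  have h6 : (inner ℂ (ee x) (RV V z (ee y)) : ℂ) = GG V z x y := h2.symm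
  have h7 : (inner ℂ (ee x) (RV V ((starRingEnd ℂ) z) (ee y)) : ℂ) = (starRingEnd ℂ) (GG V z x y) := by
    rw [← inner_conj_symm, h5, h4, h3]
    rfl
  rw [h6, h7] at h1
  have h8 : GG V z x y - (starRingEnd ℂ) (GG V z x y) = 2 * Complex.I * ((GG V z x y).im : ℂ) := by
    apply Complex.ext <;> simp
    ring
  rw [h8] at h1
  have h9 : (2 * Complex.I : ℂ) ≠ 0 := by simp
  exact mul_left_cancel₀ h9 h1

theorem ip_polar (V : Om d) (z : ℂ) (f g : L2 d) (hz : 0 < z.im) :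
    ip V z f g = (1 / 4 : ℂ) * (((qn V z (f + g) ^ 2 : ℝ) : ℂ) - ((qn V z (f - g) ^ 2 : ℝ) : ℂ)) -
      (Complex.I / 4) * (((qn V z (f + Complex.I • g) ^ 2 : ℝ) : ℂ) -
        ((qn V z (f - Complex.I • g) ^ 2 : ℝ) : ℂ)) := by
  rw [← ip_self V z _ hz, ← ip_self V z _ hz, ← ip_self V z _ hz, ← ip_self V z _ hz]
  unfold ip
  simp only [map_add, map_sub, map_smul, inner_add_left, inner_add_right, inner_sub_left,
    inner_sub_right, inner_smul_left, inner_smul_right, Complex.conj_I]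
  ring_nf
  simp only [Complex.I_sq]
  ring

theorem ip_lim (V : Om d) (f g : L2 d) :
    ∀ᵐ E : ℝ, ∃ l : ℂ, Tendsto (fun k => ip V (zk k E) f g) atTop (𝓝 l) := by
  filter_upwards [Pool.Agent.T2h44.GU.qn_tendsto V (f + g), Pool.Agent.T2h44.GU.qn_tendsto V (f - g),
    Pool.Agent.T2h44.GU.qn_tendsto V (f + Complex.I • g),
    Pool.Agent.T2h44.GU.qn_tendsto V (f - Complex.I • g)] with E h1 h2 h3 h4
  have c : ∀ {u : ℕ → ℝ} {a : ℝ}, Tendsto u atTop (𝓝 a) →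
      Tendsto (fun k => ((u k ^ 2 : ℝ) : ℂ)) atTop (𝓝 ((a ^ 2 : ℝ) : ℂ)) := fun h =>
    (Complex.continuous_ofReal.tendsto _).comp (h.pow 2)
  refine ⟨_, Tendsto.congr (fun k => (ip_polar V (zk k E) f g
    (Pool.Agent.TH980.IM.zk_im_pos k E)).symm)
    ((((c h1).sub (c h2)).const_mul _).sub (((c h3).sub (c h4)).const_mul _))⟩

theorem ip_cmr {V : Om d} {B : L2 d →L[ℂ] L2 d} {c : ℝ} (hB : Cmr V B c) (z : ℂ) (f g : L2 d)
    (hz : 0 < z.im) : ip V z f (B g) = ip V z (B f) g ∧ qn V z (B f) ≤ c * qn V z f := by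
  refine ⟨?_, ?_⟩
  · unfold ip
    rw [← hB.com z hz.ne', ← hB.com z hz.ne', hB.sa]
  · unfold Pool.Agent.T2h44.GU.qn
    have h1 : ‖RV V z (B f)‖ ≤ c * ‖RV V z f‖ := by
      rw [← hB.com z hz.ne']
      exact (B.le_opNorm _).trans (mul_le_mul_of_nonneg_right hB.bdd (norm_nonneg _))
    calc Real.sqrt z.im * ‖RV V z (B f)‖ ≤ Real.sqrt z.im * (c * ‖RV V z f‖) :=
          mul_le_mul_of_nonneg_left h1 (Real.sqrt_nonneg _)
      _ = _ := by ring

theorem t_FRM : T_FRM := fun _ V =>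
  ⟨fun z f hz => ip_self V z f hz, fun z f g hz => ip_cs V z f g hz,
    fun z x y hz => ip_ee V z x y hz, fun f g => ip_lim V f g,
    fun _ _ hB z f g hz => ip_cmr hB z f g hz⟩

end Pool.Agent.T2h98.EA
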