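import Pool.Agent.T2h98.EA.Stm

/-! The resolvent is the Laplace transform of the group (helper22). -/

set_option autoImplicit false

open scoped BigOperators Topology ENNReal InnerProductSpace
open MeasureTheory ProbabilityTheory Filter
open Pool.Agent.TH980.IM (zk BT kap)
open Pool.Agent.T2h44.GU (RV GG qn Cy spm dn)
open Pool.Agent.T2h98.NB

namespace Pool.Agent.T2h98.EA

namespace LAPR

variable {d : ℕ}

theorem norm_exp (z : ℂ) (t : ℝ) :
    ‖Complex.exp (Complex.I * z * t)‖ = Real.exp (-z.im * t) := by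
  rw [Complex.norm_exp]
  congr 1
  simp

theorem int_exp {H : Type} [NormedAddCommGroup H] [NormedSpace ℂ H] {z : ℂ} (hz : 0 < z.im)
    {F : ℝ → H} (hF : Continuous F) {C : ℝ} (hb : ∀ t, ‖F t‖ ≤ C) :
    IntegrableOn (fun t : ℝ => Complex.exp (Complex.I * z * t) • F t) (Set.Ioi 0) := by
  have h1 : IntegrableOn (fun t : ℝ => Real.exp (-z.im * t) * C) (Set.Ioi 0) :=
    (exp_neg_integrableOn_Ioi 0 hz).mul_const C
  refine Integrable.mono' h1 ?_ ?_
  · exact ((by fun_prop : Continuous fun t : ℝ => Complex.exp (Complex.I * z * t)).smul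
      hF).aestronglyMeasurable
  · refine Eventually.of_forall fun t => ?_
    rw [norm_smul, norm_exp]
    exact mul_le_mul_of_nonneg_left (hb t) (Real.exp_pos _).le

/-- evaluation at a site -/
noncomputable def ev (x : Sd d) : L2 d →L[ℂ] ℂ := innerSL ℂ (ee x)

theorem ev_apply (x : Sd d) (f : L2 d) : ev x f = f x := inner_ee x f

theorem coord {U : Om d → ℝ → L2 d →L[ℂ] L2 d} (hU : Gr0 U) (V : Om d) (f : L2 d) (x : Sd d)
    (t : ℝ) : HasDerivAt (fun s : ℝ => (U V s f) x)
      (-Complex.I * ((V x : ℂ) * (U V t f) x + (Ad d (U V t f)) x)) t := by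
  have h1 : HasDerivAt ((ev x) ∘ fun s : ℝ => Mu (s • V) (U V s f))
      ((ev x) (-(Complex.I • Mu (t • V) (Ad d (U V t f))))) t :=
    ((ev x).restrictScalars ℝ).hasFDerivAt.comp_hasDerivAt t (hU.der V f t)
  have h2 : ∀ s : ℝ, ((ev x) ∘ fun s : ℝ => Mu (s • V) (U V s f)) s =
      Complex.exp (((s * V x : ℝ) : ℂ) * Complex.I) * (U V s f) x := by
    intro s
    change ev x (Mu (s • V) (U V s f)) = _
    rw [ev_apply, Mu_apply]
    rfl
  have h3 : HasDerivAt (fun s : ℝ => Complex.exp (-(((s * V x : ℝ) : ℂ) * Complex.I)))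
      (Complex.exp (-(((t * V x : ℝ) : ℂ) * Complex.I)) * (-((V x : ℂ) * Complex.I))) t := by
    have h4 : HasDerivAt (fun s : ℝ => -(((s * V x : ℝ) : ℂ) * Complex.I))
        (-((V x : ℂ) * Complex.I)) t := by
      have h5 : HasDerivAt (fun s : ℝ => ((s * V x : ℝ) : ℂ)) (V x : ℂ) t := by
        have := ((hasDerivAt_id t).mul_const (V x)).ofReal_comp
        simpa using this
      exact (h5.mul_const _).neg
    exact h4.cexp
  have h6 := h3.mul h1
  have h7 : (fun s : ℝ => (U V s f) x) =
      (fun s : ℝ => Complex.exp (-(((s * V x : ℝ) : ℂ) * Complex.I))) *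
        ((ev x) ∘ fun s : ℝ => Mu (s • V) (U V s f)) := by
    funext s
    rw [Pi.mul_apply, h2, ← mul_assoc, ← Complex.exp_add, neg_add_cancel, Complex.exp_zero, one_mul]
  rw [h7]
  refine h6.congr_deriv ?_
  rw [h2]
  have h8 : (ev x) (-(Complex.I • Mu (t • V) (Ad d (U V t f)))) =
      -(Complex.I * (Complex.exp (((t * V x : ℝ) : ℂ) * Complex.I) * (Ad d (U V t f)) x)) := by
    rw [map_neg, map_smul, ev_apply, Mu_apply]
    rfl
  have h9 : Complex.exp (-(((t * V x : ℝ) : ℂ) * Complex.I)) *
      Complex.exp (((t * V x : ℝ) : ℂ) * Complex.I) = 1 := by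
    rw [← Complex.exp_add, neg_add_cancel, Complex.exp_zero]
  rw [h8]
  linear_combination (-Complex.I * (V x : ℂ) * (U V t f) x - Complex.I * (Ad d (U V t f)) x) * h9

end LAPR

open LAPR

theorem t_LAPR : T_LAPR := by
  intro d U hU V z f g hz
  set F : ℝ → L2 d := fun t => U V t f with hF
  have hFc : Continuous F := (hU.g0.cont f).comp (by fun_prop : Continuous fun t : ℝ => (V, t))
  have hFb : ∀ t, ‖F t‖ ≤ ‖f‖ := fun t => (hU.g0.norm V t f).le
  have hint := int_exp hz hFc hFb
  set J : L2 d := ∫ t in Set.Ioi (0 : ℝ), Complex.exp (Complex.I * z * t) • F t with hJ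
  have hev : ∀ L : L2 d →L[ℂ] ℂ, L J =
      ∫ t in Set.Ioi (0 : ℝ), Complex.exp (Complex.I * z * t) * L (F t) := by
    intro L
    rw [hJ, ← L.integral_comp_comm hint]
    refine integral_congr_ae (Eventually.of_forall fun t => ?_)
    simp only [map_smul, smul_eq_mul]
  have hsol : Pool.Agent.T2h44.GU.Sol V z f (Complex.I • J) := by
    intro x
    -- the function which is differentiated
    set G : ℝ → ℂ := fun t => Complex.exp (Complex.I * z * t) * (F t) x with hG
    set G' : ℝ → ℂ := fun t => Complex.exp (Complex.I * z * t) *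
      (Complex.I * (z * (F t) x - (V x : ℂ) * (F t) x - (Ad d (F t)) x)) with hG'
    have hder : ∀ t : ℝ, HasDerivAt G (G' t) t := by
      intro t
      have h1 : HasDerivAt (fun t : ℝ => Complex.exp (Complex.I * z * t))
          (Complex.exp (Complex.I * z * t) * (Complex.I * z)) t := by
        have h2 : HasDerivAt (fun t : ℝ => Complex.I * z * (t : ℂ)) (Complex.I * z) t := by
          have := (Complex.ofRealCLM.hasDerivAt (x := t)).const_mul (Complex.I * z)
          simpa using this
        exact h2.cexp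
      have h3 := h1.mul (coord hU.g0 V f x t)
      refine h3.congr_deriv ?_
      simp only [hG', hF]
      ring
    -- the functional
    set L : L2 d →L[ℂ] ℂ := Complex.I • (z • ev x - (V x : ℂ) • ev x - (ev x).comp (Ad d)) with hL
    have hLa : ∀ w : L2 d, L w = Complex.I * (z * w x - (V x : ℂ) * w x - (Ad d w) x) := by
      intro w
      simp only [hL, smul_apply, sub_apply,
        ContinuousLinearMap.comp_apply, ev_apply, smul_eq_mul]
    have hGL : ∀ t, G' t = Complex.exp (Complex.I * z * t) * L (F t) := fun t => by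
      rw [hLa]
    have hG'i : IntegrableOn G' (Set.Ioi 0) := by
      have h4 := int_exp hz (L.continuous.comp hFc) (C := ‖L‖ * ‖f‖)
        (fun t => (L.le_opNorm _).trans (mul_le_mul_of_nonneg_left (hFb t) (norm_nonneg _)))
      refine h4.congr_fun (fun t _ => ?_) measurableSet_Ioi
      simp only [Function.comp_apply, smul_eq_mul]
      exact (hGL t).symm
    have hlim : Tendsto G atTop (𝓝 0) := by
      have h5 : Tendsto (fun t : ℝ => Real.exp (-z.im * t) * ‖f‖) atTop (𝓝 0) := by
        have h6 : Tendsto (fun t : ℝ => -z.im * t) atTop atBot :=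
          tendsto_id.const_mul_atTop_of_neg (by linarith)
        have := (Real.tendsto_exp_atBot.comp h6).mul_const ‖f‖
        simpa using this
      refine squeeze_zero_norm (fun t => ?_) h5
      rw [hG, norm_mul, norm_exp]
      refine mul_le_mul_of_nonneg_left ?_ (Real.exp_pos _).le
      have h7 : ‖(F t) x‖ = ‖inner ℂ (ee x) (F t)‖ := by rw [inner_ee]
      rw [h7]
      refine (norm_inner_le_norm _ _).trans ?_
      rw [norm_ee, one_mul]
      exact hFb t
    have h8 := integral_Ioi_of_hasDerivAt_of_tendsto (a := 0) (hder 0).continuousAt.continuousWithinAt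
      (fun t _ => hder t) hG'i hlim
    have h9 : G 0 = f x := by
      simp only [hG, hF, Complex.ofReal_zero, mul_zero, Complex.exp_zero, one_mul]
      rw [hU.g0.zero]
      rfl
    have h10 : ∫ t in Set.Ioi (0 : ℝ), G' t = L J := by
      rw [hev L]
      exact setIntegral_congr_fun measurableSet_Ioi fun t _ => hGL t
    rw [h10, h9, hLa, zero_sub] at h8
    have h11 : (Pool.Agent.T2h44.GU.Ad d (Complex.I • J)) x = Complex.I * (Ad d J) x := by
      rw [Pool.Agent.T2h44.GU.Ad_apply, Ad_apply, Finset.mul_sum]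
      refine Finset.sum_congr rfl fun i _ => ?_
      change Complex.I * J (x + Pi.single i 1) + Complex.I * J (x - Pi.single i 1) = _
      ring
    rw [h11]
    change Complex.I * (Ad d J) x + (V x : ℂ) * (Complex.I * J x) - z * (Complex.I * J x) = f x
    linear_combination -h8
  have hR := Pool.Agent.T2h44.GU.RV_unique hz.ne' hsol
  rw [← hR, inner_smul_right]
  have h12 := hev (innerSL ℂ g)
  simp only [innerSL_apply_apply] at h12
  rw [h12]

end Pool.Agent.T2h98.EA
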