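import Pool.Agent.T2h98.EA.Stm
import Pool.Agent.T2h98.NB.LIMO

/-! General observables: the limit of the averages. -/

set_option autoImplicit false

open scoped BigOperators Topology ENNReal InnerProductSpace
open MeasureTheory ProbabilityTheory Filter
open Pool.Agent.TH980.IM.PR (PP sh mp_sh)
open Pool.Agent.T2h98.NB

namespace Pool.Agent.T2h98.EA

variable {d : ℕ}

/-- the limit exists, for general observables -/
theorem t_LIMG (hX : T_XT) (hO : T_XOG) (hC : T_COV) (hA : T_CAUG) : T_LIMG := by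
  intro d U hU O c hOb ν _
  obtain ⟨hadj, hinv, hUc, _⟩ := hX d U hU
  obtain ⟨hXt, hXb, hcoc, hXs, hXc, hXcont, -⟩ := hO d U hU O c hOb
  have hc0 : 0 ≤ c := (norm_nonneg _).trans (hOb.bdd 0)
  have hCs := (hC d).2.2.1
  -- the times
  have hT0 : ∀ k : ℕ, ∃ T₀ : ℝ, 0 < T₀ ∧ ∀ S T : ℝ, T₀ ≤ S → T₀ ≤ T →
      ∫ V, ‖S⁻¹ • XOT U O V S (ee 0) - T⁻¹ • XOT U O V T (ee 0)‖ ^ 2 ∂(PP (Sd d) ν) ≤
        (1 / 8) ^ k := fun k => hA d U hU O c hOb ν _ (by positivity)
  choose T₀ hT0p hT0 using hT0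
  set τ : ℕ → ℝ := fun k => (∑ j ∈ Finset.range (k + 1), T₀ j) + k + 1 with hτ
  have hτge : ∀ k j, j ≤ k → T₀ j ≤ τ k := by
    intro k j hjk
    have h1 : T₀ j ≤ ∑ j ∈ Finset.range (k + 1), T₀ j :=
      Finset.single_le_sum (f := T₀) (fun j _ => (hT0p j).le)
        (Finset.mem_range.2 (Nat.lt_succ_of_le hjk))
    have h2 : (0 : ℝ) ≤ k := Nat.cast_nonneg k
    simp only [hτ]
    linarith
  have hτk : ∀ k : ℕ, (k : ℝ) ≤ τ k := by
    intro k
    have h1 : 0 ≤ ∑ j ∈ Finset.range (k + 1), T₀ j := Finset.sum_nonneg fun j _ => (hT0p j).le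
    simp only [hτ]
    linarith
  have hτp : ∀ k, 0 < τ k := fun k => (hT0p 0).trans_le (hτge k 0 (Nat.zero_le _))
  have hτtop : Tendsto τ atTop atTop := tendsto_atTop_mono hτk tendsto_natCast_atTop_atTop
  set M : ℝ → Om d → L2 d →L[ℂ] L2 d := fun T V => ((T⁻¹ : ℝ) : ℂ) • XOT U O V T with hM
  have hMa : ∀ T V f, M T V f = T⁻¹ • XOT U O V T f := by
    intro T V f
    simp only [hM, smul_apply]
    exact Complex.coe_smul _ _
  have hMc : ∀ T, Cov (M T) := fun T => hCs _ _ (hXc T)
  have hMb : ∀ T, 0 < T → ∀ V, ‖M T V‖ ≤ c := by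
    intro T hT V
    simp only [hM]
    rw [norm_smul, Complex.norm_real, norm_inv, Real.norm_of_nonneg hT.le]
    have h1 := hXb V T
    rw [abs_of_pos hT] at h1
    calc T⁻¹ * ‖XOT U O V T‖ ≤ T⁻¹ * (c * T) :=
          mul_le_mul_of_nonneg_left h1 (inv_nonneg.2 hT.le)
      _ = c := by field_simp
  obtain ⟨A, hAc, hAb, hA1, hA2⟩ := limo_exists hc0 ν (fun k => M (τ k)) (fun k => hMc _)
    (fun k V => hMb _ (hτp k) V) (fun k => by
      simp only [hMa]
      exact hT0 k _ _ (hτge (k + 1) k (Nat.le_succ k)) (hτge k k le_rfl))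
  refine ⟨A, hAc, hAb, ?_, ?_, ?_⟩
  · -- self-adjoint
    intro V f g
    rcases hA1 V with h | h
    · have h1 : Tendsto (fun k => (inner ℂ (M (τ k) V f) g : ℂ)) atTop
          (𝓝 (inner ℂ (A V f) g)) := (h f).inner tendsto_const_nhds
      have h2 : Tendsto (fun k => (inner ℂ f (M (τ k) V g) : ℂ)) atTop
          (𝓝 (inner ℂ f (A V g))) := tendsto_const_nhds.inner (h g)
      refine tendsto_nhds_unique h1 (h2.congr fun k => ?_)
      simp only [hM, smul_apply]
      rw [inner_smul_left, inner_smul_right, Complex.conj_ofReal, hXs]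
    · rw [h]
      simp
  · -- commutes
    intro V s f
    rcases hA1 V with h | h
    · have h1 : Tendsto (fun k => U V (-s) (M (τ k) V (U V s f)) - M (τ k) V f) atTop
          (𝓝 (U V (-s) (A V (U V s f)) - A V f)) :=
        (((U V (-s)).continuous.tendsto _).comp (h (U V s f))).sub (h f)
      have h2 : Tendsto (fun k => U V (-s) (M (τ k) V (U V s f)) - M (τ k) V f) atTop (𝓝 0) := by
        have hbd : ∀ k, ‖U V (-s) (M (τ k) V (U V s f)) - M (τ k) V f‖ ≤
            (τ k)⁻¹ * (2 * c * |s| * ‖f‖) := by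
          intro k
          have h3 : U V (-s) (M (τ k) V (U V s f)) - M (τ k) V f =
              ((((τ k)⁻¹ : ℝ) : ℂ)) • (U V (-(τ k)) (XOT U O V s (U V (τ k) f)) - XOT U O V s f) := by
            have h4 := hcoc V s (τ k) f
            have h5 := hcoc V (τ k) s f
            rw [add_comm (τ k) s, h4] at h5
            have h6 : U V (-s) (XOT U O V (τ k) (U V s f)) - XOT U O V (τ k) f =
                U V (-(τ k)) (XOT U O V s (U V (τ k) f)) - XOT U O V s f := by
              rw [sub_eq_sub_iff_add_eq_add, add_comm, h5, add_comm]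
            simp only [hM, smul_apply]
            rw [map_smul, ← smul_sub, h6]
          rw [h3, norm_smul, Complex.norm_real, norm_inv, Real.norm_of_nonneg (hτp k).le]
          refine mul_le_mul_of_nonneg_left ?_ (inv_nonneg.2 (hτp k).le)
          have h7 : ∀ g : L2 d, ‖XOT U O V s g‖ ≤ c * |s| * ‖g‖ := fun g =>
            ((XOT U O V s).le_opNorm g).trans
              (mul_le_mul_of_nonneg_right (hXb V s) (norm_nonneg _))
          calc ‖U V (-(τ k)) (XOT U O V s (U V (τ k) f)) - XOT U O V s f‖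
              ≤ ‖U V (-(τ k)) (XOT U O V s (U V (τ k) f))‖ + ‖XOT U O V s f‖ := norm_sub_le _ _
            _ ≤ c * |s| * ‖f‖ + c * |s| * ‖f‖ := by
                refine add_le_add ?_ (h7 f)
                rw [hU.g0.norm]
                refine (h7 _).trans ?_
                rw [hU.g0.norm]
            _ = 2 * c * |s| * ‖f‖ := by ring
        refine squeeze_zero_norm hbd ?_
        have h8 : Tendsto (fun k => (τ k)⁻¹ * (2 * c * |s| * ‖f‖)) atTop (𝓝 (0 * (2 * c * |s| * ‖f‖))) :=
          (tendsto_inv_atTop_zero.comp hτtop).mul tendsto_const_nhds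
        rwa [zero_mul] at h8
      have h9 := tendsto_nhds_unique h1 h2
      rw [sub_eq_zero] at h9
      rw [← h9]
      have h10 := hinv V (-s) (A V (U V s f))
      rw [neg_neg] at h10
      exact h10.symm
    · rw [h]
      simp
  · -- the limit
    have hle2 : ∀ (T : ℝ), 0 < T → ∀ V, ‖M T V (ee 0)‖ ≤ c := by
      intro T hT V
      refine ((M T V).le_opNorm _).trans ?_
      rw [norm_ee, mul_one]
      exact hMb T hT V
    rw [Metric.tendsto_nhds]
    intro ε hε
    obtain ⟨T₁, hT₁, hT₁'⟩ := hA d U hU O c hOb ν (ε / 2) (by positivity)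
    filter_upwards [eventually_ge_atTop T₁] with T hT
    have hTp : 0 < T := hT₁.trans_le hT
    have h1 : Tendsto (fun k => ∫ V, ‖M T V (ee 0) - M (τ k) V (ee 0)‖ ^ 2 ∂(PP (Sd d) ν)) atTop
        (𝓝 (∫ V, ‖M T V (ee 0) - A V (ee 0)‖ ^ 2 ∂(PP (Sd d) ν))) := by
      apply tendsto_integral_of_dominated_convergence (fun _ => (c + c) ^ 2)
      · intro k
        exact ((((hMc T).meas _).sub ((hMc (τ k)).meas _)).norm.pow 2).aestronglyMeasurable
      · exact integrable_const _
      · intro k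
        refine ae_of_all _ fun V => ?_
        rw [Real.norm_of_nonneg (by positivity)]
        have h2 : ‖M T V (ee 0) - M (τ k) V (ee 0)‖ ≤ c + c :=
          (norm_sub_le _ _).trans (add_le_add (hle2 _ hTp V) (hle2 _ (hτp k) V))
        exact pow_le_pow_left₀ (norm_nonneg _) h2 2
      · filter_upwards [hA2] with V hV
        exact ((tendsto_const_nhds.sub (hV (ee 0))).norm).pow 2
    have h2 : ∫ V, ‖M T V (ee 0) - A V (ee 0)‖ ^ 2 ∂(PP (Sd d) ν) ≤ ε / 2 := by
      refine le_of_tendsto h1 ?_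
      filter_upwards [hτtop.eventually_ge_atTop T₁] with k hk
      have h3 := hT₁' T (τ k) hT hk
      simp only [hMa]
      exact h3
    simp only [hMa] at h2
    rw [Real.dist_eq, sub_zero, abs_of_nonneg (integral_nonneg fun V => by positivity)]
    exact h2.trans_lt (by linarith)

end Pool.Agent.T2h98.EA
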