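import Pool.Agent.T2h98.EA.Stm

/-! Uniqueness of Laplace transforms (helper22). -/

set_option autoImplicit false

open scoped BigOperators Topology ENNReal InnerProductSpace FourierTransform
open MeasureTheory ProbabilityTheory Filter

namespace Pool.Agent.T2h98.EA

theorem t_LPU : T_LPU := by
  intro h C hc hb hz
  set F : ℝ → ℂ := Set.indicator (Set.Ioi 0) (fun t => (Real.exp (-t) : ℂ) * h t) with hF
  have hint : Integrable F := by
    rw [hF, integrable_indicator_iff measurableSet_Ioi]
    have h1 : IntegrableOn (fun t : ℝ => C * Real.exp (-t)) (Set.Ioi 0) :=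
      (integrableOn_exp_neg_Ioi 0).const_mul C
    refine Integrable.mono' h1 ?_ ?_
    · exact (by fun_prop : Continuous fun t : ℝ => (Real.exp (-t) : ℂ) * h t).aestronglyMeasurable
    · refine Eventually.of_forall fun t => ?_
      rw [norm_mul, Complex.norm_real, Real.norm_of_nonneg (Real.exp_pos _).le, mul_comm]
      exact mul_le_mul_of_nonneg_right (hb t) (Real.exp_pos _).le
  have hfou : 𝓕 F = 0 := by
    funext ξ
    rw [Real.fourier_eq', Pi.zero_apply]
    have h2 := hz ⟨-2 * Real.pi * ξ, 1⟩ (by norm_num)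
    rw [← h2, ← integral_indicator measurableSet_Ioi]
    refine integral_congr_ae (Eventually.of_forall fun t => ?_)
    simp only [hF]
    by_cases ht : t ∈ Set.Ioi (0 : ℝ)
    · rw [Set.indicator_of_mem ht, Set.indicator_of_mem ht, smul_eq_mul, ← mul_assoc,
        Complex.ofReal_exp, ← Complex.exp_add]
      congr 2
      apply Complex.ext
      · simp
      · simp; ring
    · rw [Set.indicator_of_notMem ht, Set.indicator_of_notMem ht, smul_zero]
  have hpos : ∀ t : ℝ, 0 < t → h t = 0 := by
    intro t ht
    have hcont : ContinuousAt F t := by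
      have h3 : ContinuousAt (fun t : ℝ => (Real.exp (-t) : ℂ) * h t) t :=
        (by fun_prop : Continuous fun t : ℝ => (Real.exp (-t) : ℂ) * h t).continuousAt
      refine h3.congr ?_
      filter_upwards [Ioi_mem_nhds ht] with s hs
      rw [hF, Set.indicator_of_mem hs]
    have h4 := hint.fourierInv_fourier_eq (by rw [hfou]; exact integrable_zero _ _ _) hcont
    rw [hfou] at h4
    have h5 : 𝓕⁻ (0 : ℝ → ℂ) t = 0 := by
      rw [Real.fourierInv_eq']
      simp
    rw [h5, hF, Set.indicator_of_mem (Set.mem_Ioi.2 ht)] at h4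
    have h6 : (Real.exp (-t) : ℂ) ≠ 0 := by
      exact_mod_cast (Real.exp_pos (-t)).ne'
    exact (mul_eq_zero.1 h4.symm).resolve_left h6
  intro t ht
  rcases ht.eq_or_lt with h0 | h0
  · subst h0
    have h7 : Tendsto h (𝓝[>] 0) (𝓝 (h 0)) := (hc.tendsto 0).mono_left nhdsWithin_le_nhds
    have h8 : Tendsto h (𝓝[>] 0) (𝓝 0) := by
      refine tendsto_const_nhds.congr' ?_
      filter_upwards [self_mem_nhdsWithin] with s hs
      exact (hpos s hs).symm
    exact tendsto_nhds_unique h7 h8
  · exact hpos t h0

end Pool.Agent.T2h98.EA
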