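import Pool.Agent.T2h98.EA.Stm

/-! Measurability of the resolvent form. -/

set_option autoImplicit false

open scoped BigOperators Topology ENNReal InnerProductSpace
open MeasureTheory ProbabilityTheory Filter
open Pool.Agent.TH980.IM.PR (PP sh)
open Pool.Agent.TH980.IM (zk BT kap)
open Pool.Agent.T2h44.GU (RV GG qn Cy spm dn)
open Pool.Agent.T2h98.NB

namespace Pool.Agent.T2h98.EA

namespace MSR

variable {d : ℕ}

/-- measurability by coordinates -/
theorem coord {α : Type} [MeasurableSpace α] (F : α → L2 d)
    (h : ∀ x : Sd d, StronglyMeasurable fun a => (inner ℂ (ee x) (F a) : ℂ)) :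
    StronglyMeasurable F := by
  refine stronglyMeasurable_of_tendsto (atTop : Filter (Finset (Sd d)))
    (f := fun s a => ∑ x ∈ s, (inner ℂ (ee x) (F a) : ℂ) • (ee x : L2 d)) ?_ ?_
  · intro s
    exact Finset.stronglyMeasurable_fun_sum _ fun x _ => (h x).smul_const _
  · rw [tendsto_pi_nhds]
    intro a
    have h2 := lp.hasSum_single (E := fun _ : Sd d => ℂ) (p := 2) (by norm_num) (F a)
    refine h2.congr fun s => ?_
    refine Finset.sum_congr rfl fun x _ => ?_
    rw [inner_ee]
    unfold ee
    rw [← lp.single_smul, smul_eq_mul, mul_one]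

/-- operators applied to random vectors -/
theorem app {α : Type} [MeasurableSpace α] (B : α → L2 d →L[ℂ] L2 d)
    (hB : ∀ f, StronglyMeasurable fun a => B a f) (f : α → L2 d) (hf : StronglyMeasurable f) :
    StronglyMeasurable fun a => B a (f a) := by
  have h1 : ∀ s : SimpleFunc α (L2 d), StronglyMeasurable fun a => B a (s a) := by
    intro s
    have h2 : (fun a => B a (s a)) = fun a => ∑ y ∈ s.range,
        (s ⁻¹' {y}).indicator (fun a => B a y) a := by
      funext a
      rw [Finset.sum_eq_single (s a)]
      · rw [Set.indicator_of_mem]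
        exact rfl
      · intro y _ hy
        rw [Set.indicator_of_notMem]
        intro h
        exact hy (by simpa using h.symm)
      · intro h
        exact absurd (SimpleFunc.mem_range_self s a) h
    rw [h2]
    refine Finset.stronglyMeasurable_fun_sum _ fun y _ => ?_
    exact (hB y).indicator (s.measurableSet_fiber y)
  refine stronglyMeasurable_of_tendsto atTop (fun n => h1 (hf.approx n)) ?_
  rw [tendsto_pi_nhds]
  intro a
  exact ((B a).continuous.tendsto _).comp (hf.tendsto_approx a)

/-- the resolvent -/
theorem rv (k : ℕ) (b : L2 d) :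
    StronglyMeasurable fun q : Om d × ℝ => RV q.1 (zk k q.2) b :=
  coord _ fun x => (Pool.Agent.T2h44.GU.inner_meas k (ee x) b).stronglyMeasurable

end MSR

theorem t_MSR : T_MSR := by
  intro d A hA k
  have h1 : StronglyMeasurable fun q : Om d × ℝ => A q.1 (ee 0) :=
    (hA.meas (ee 0)).comp_measurable measurable_fst
  have h2 : StronglyMeasurable fun q : Om d × ℝ => RV q.1 (zk k q.2) (A q.1 (ee 0)) :=
    MSR.app (fun q : Om d × ℝ => RV q.1 (zk k q.2)) (MSR.rv k) _ h1
  have h3 := StronglyMeasurable.inner (𝕜 := ℂ) (MSR.rv k (ee 0 : L2 d)) h2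
  have h4 : Measurable fun q : Om d × ℝ => (((zk k q.2).im : ℝ) : ℂ) := by
    have h5 : Continuous fun q : Om d × ℝ => (((zk k q.2).im : ℝ) : ℂ) :=
      Complex.continuous_ofReal.comp (Complex.continuous_im.comp
        ((Pool.Agent.TH980.IM.continuous_zk k).comp continuous_snd))
    exact h5.measurable
  exact h4.mul h3.measurable

end Pool.Agent.T2h98.EA
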