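import Pool.Agent.T2h98.EA.Stm
import Pool.Agent.TH980.IM.Uniq

/-! Ergodicity on the absolutely continuous spectrum: the Green function at neighbours does not
vanish at the boundary. -/

set_option autoImplicit false
set_option linter.unusedVariables false

open scoped BigOperators Topology ENNReal InnerProductSpace
open MeasureTheory Filter
open Pool.Agent.TH980.IM (zk BT kap NC zk_im_pos Sd L2 ee ee_apply inner_ee inner_ee')
open Pool.Agent.T2h44.GU

namespace Pool.Agent.T2h98.EA.NZx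

variable {d : ℕ}

theorem nc_diag (V : Sd d → ℝ) (a : L2 d) : NC fun z => inner ℂ a (RV V z a) := by
  apply NC.herg
  · intro z hz
    exact inner_diff V hz.ne' a a
  · intro z hz
    rw [RV_im V hz.ne']
    positivity

/-- the resolvent at a unit vector -/
theorem RV_ee (V : Sd d → ℝ) {z : ℂ} (hz : z.im ≠ 0) (y : Sd d) :
    (ee y : L2 d) + z • RV V z (ee y) = RV V z ((V y : ℂ) • ee y + Ad d (ee y)) := by
  apply RV_unique hz
  intro x
  have h1 := RV_sol V hz (ee y) x
  rw [map_add, map_smul]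
  change (Ad d (ee y)) x + z * (Ad d (RV V z (ee y))) x + (V x : ℂ) * ((ee y : L2 d) x +
    z * (RV V z (ee y)) x) - z * ((ee y : L2 d) x + z * (RV V z (ee y)) x) =
    (V y : ℂ) * (ee y : L2 d) x + (Ad d (ee y)) x
  have h2 : (V x : ℂ) * (ee y : L2 d) x = (V y : ℂ) * (ee y : L2 d) x := by
    rw [ee_apply]
    by_cases h : x = y
    · rw [h]
    · simp [h]
  have h3 : z * ((Ad d (RV V z (ee y))) x + (V x : ℂ) * (RV V z (ee y)) x -
      z * (RV V z (ee y)) x) = z * (ee y : L2 d) x := by rw [h1]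
  linear_combination h2 + h3

/-- if a matrix element of the resolvent vanishes then so does the matrix element of `Δ + V` -/
theorem ad_zero (V : Sd d → ℝ) {x y : Sd d} (hxy : x ≠ y)
    (h : ∀ z : ℂ, 0 < z.im → GG V z x y = 0) : (Ad d (ee y)) x = 0 := by
  set w : L2 d := (V y : ℂ) • ee y + Ad d (ee y) with hw
  set w' : L2 d := (V x : ℂ) • ee x + Ad d (ee x) with hw'
  have hwx : w x = (Ad d (ee y)) x := by
    change (V y : ℂ) * (ee y : L2 d) x + (Ad d (ee y)) x = _
    rw [ee_apply, if_neg hxy, mul_zero, zero_add]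
  rw [← hwx]
  have h1 : ∀ z : ℂ, 0 < z.im → (RV V z w) x = 0 := by
    intro z hz
    rw [hw, ← RV_ee V hz.ne']
    change (ee y : L2 d) x + z * (RV V z (ee y)) x = 0
    have h2 : (RV V z (ee y)) x = 0 := h z hz
    rw [h2, ee_apply, if_neg hxy, mul_zero, zero_add]
  have h2 : ∀ z : ℂ, 0 < z.im → ‖w x‖ ≤ ‖w'‖ * ‖w‖ / |z.im| := by
    intro z hz
    have hzc : ((starRingEnd ℂ) z).im ≠ 0 := by
      rw [Complex.conj_im]; exact neg_ne_zero.2 hz.ne'
    have h3 : (inner ℂ (RV V ((starRingEnd ℂ) z) (ee x)) w : ℂ) = 0 := by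
      rw [RV_adj V hz.ne', inner_ee, h1 z hz]
    have h4 := RV_ee V hzc x
    have h5 : (inner ℂ (RV V ((starRingEnd ℂ) z) w') w : ℂ) = w x := by
      rw [hw', ← h4, inner_add_left, inner_smul_left, h3, mul_zero, add_zero, inner_ee]
    rw [← h5]
    refine (norm_inner_le_norm _ _).trans ?_
    have h6 := RV_norm V hzc w'
    rw [Complex.conj_im, abs_neg] at h6
    calc ‖RV V ((starRingEnd ℂ) z) w'‖ * ‖w‖ ≤ ‖w'‖ / |z.im| * ‖w‖ :=
          mul_le_mul_of_nonneg_right h6 (norm_nonneg _)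
      _ = ‖w'‖ * ‖w‖ / |z.im| := by ring
  have h3 : ∀ m : ℕ, ‖w x‖ ≤ ‖w'‖ * ‖w‖ * (1 / ((m : ℝ) + 1)) := by
    intro m
    have hzi : (((m : ℝ) + 1 : ℝ) * Complex.I : ℂ).im = (m : ℝ) + 1 := by
      rw [Complex.im_ofReal_mul, Complex.I_im, mul_one]
    have h4 := h2 (((m : ℝ) + 1 : ℝ) * Complex.I : ℂ) (by rw [hzi]; positivity)
    rw [hzi, abs_of_pos (by positivity)] at h4
    rw [mul_one_div]
    exact h4
  have h4 : Tendsto (fun m : ℕ => ‖w'‖ * ‖w‖ * (1 / ((m : ℝ) + 1))) atTop (𝓝 0) := by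
    have := (tendsto_one_div_add_atTop_nhds_zero_nat (𝕜 := ℝ)).const_mul (‖w'‖ * ‖w‖)
    simpa using this
  exact norm_le_zero_iff.1 (ge_of_tendsto' h4 h3)

theorem nb_ad {x y : Sd d} (h : Pool.Agent.T2h98.EA.Nb x y) : x ≠ y ∧ (Ad d (ee y)) x ≠ 0 := by
  have hs : ∀ i : Fin d, (Pi.single i 1 : Sd d) ≠ 0 := by
    intro i h0
    have := congrFun h0 i
    simp at this
  have hxy : x ≠ y := by
    rintro rfl
    obtain ⟨i, h1 | h1⟩ := h
    · exact hs i (by simpa using h1)
    · exact hs i (by simpa using h1)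
  refine ⟨hxy, ?_⟩
  obtain ⟨i, hi⟩ := h
  rw [Ad_apply]
  have e : ∀ u : Sd d, (ee y : L2 d) u = ((if u = y then (1 : ℝ) else 0 : ℝ) : ℂ) := by
    intro u
    rw [ee_apply]
    split_ifs <;> simp
  simp only [e]
  norm_cast
  apply ne_of_gt
  apply Finset.sum_pos'
  · intro j _
    positivity
  · refine ⟨i, Finset.mem_univ _, ?_⟩
    rcases hi with hi | hi
    · rw [if_pos hi.symm]
      positivity
    · have h2 : x - Pi.single i 1 = y := by rw [hi]; simp
      rw [if_pos h2]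
      positivity

theorem t_NZ : Pool.Agent.T2h98.EA.T_NZ := by
  intro d V x y hxy
  obtain ⟨hne, had⟩ := nb_ad hxy
  set F : ℂ → ℂ := fun z => (1 / 4 : ℂ) * inner ℂ (ee x + ee y) (RV V z (ee x + ee y)) +
    (-(1 / 4 : ℂ)) * inner ℂ (ee x - ee y) (RV V z (ee x - ee y)) with hF
  have hFG : ∀ z : ℂ, 0 < z.im → GG V z x y = F z := by
    intro z hz
    rw [GG_polar V hz.ne', hF]
    ring
  have h1 : NC F := ((nc_diag V _).const_mul _).add ((nc_diag V _).const_mul _)
  have h2 : ∃ z : ℂ, 0 < z.im ∧ F z ≠ 0 := by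
    by_contra hcon
    push Not at hcon
    apply had
    apply ad_zero V hne
    intro z hz
    rw [hFG z hz, hcon z hz]
  filter_upwards [h1.unique h2] with E hE hE2
  apply hE
  refine hE2.congr fun k => ?_
  exact hFG _ (zk_im_pos k E)

end Pool.Agent.T2h98.EA.NZx
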