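import Pool.Agent.T2h98.EA.Stm

/-! The imaginary part of the Green function at neighbours does not vanish at the boundary on the
absolutely continuous spectrum: resampling one site. -/

set_option autoImplicit false
set_option linter.all false

open scoped Topology ENNReal InnerProductSpace
open MeasureTheory ProbabilityTheory Filter
open Pool.Agent.TH980.IM.PR (PP sh up mp_up mp_sh meas_up meas_sh)
open Pool.Agent.TH980.IM (zk zk_im_pos BT kap Sd L2)
open Pool.Agent.T2h44.GU (RV GG qn Cy spm dn GG_inner qn_sq qn_nonneg RV_up exists_lim lim_shift)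
open Pool.Agent.T2h98.NB (BD Om)

namespace Pool.Agent.T2h98.EA.NZPx

/-- exchange of the last two factors -/
def rr {α : Type} (p : (α × ℝ) × ℝ) : (α × ℝ) × ℝ := ((p.1.1, p.2), p.1.2)

theorem mp_rr {α : Type} [MeasurableSpace α] (μ : Measure α) [SFinite μ] (a b : Measure ℝ)
    [SFinite a] [SFinite b] :
    MeasurePreserving (rr (α := α)) ((μ.prod a).prod b) ((μ.prod b).prod a) := by
  have h1 := measurePreserving_prodAssoc μ a b
  have h2 : MeasurePreserving (Prod.map (id : α → α) (Prod.swap : ℝ × ℝ → ℝ × ℝ))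
      (μ.prod (a.prod b)) (μ.prod (b.prod a)) :=
    (MeasurePreserving.id μ).prod Measure.measurePreserving_swap
  have h3 := (measurePreserving_prodAssoc μ b a).symm
  exact h3.comp (h2.comp h1)

theorem alg {γ γ' g g' : ℂ} {s : ℝ} (h1 : γ' * (1 + (s : ℂ) * γ) = γ)
    (h2 : g' * (1 + (s : ℂ) * γ) = g) (hg : g ≠ 0) (hγ : 0 ≤ γ.im) (hγ' : 0 < γ'.im)
    (hg' : g'.im = 0) :
    g.im + s * (g.im * γ.re - g.re * γ.im) = 0 ∧ 0 < γ.im := by
  have a1 := congrArg Complex.im h1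
  have a2 := congrArg Complex.re h2
  have a3 := congrArg Complex.im h2
  simp only [Complex.mul_im, Complex.mul_re, Complex.add_re, Complex.add_im, Complex.one_re,
    Complex.one_im, Complex.ofReal_re, Complex.ofReal_im, zero_mul, sub_zero, add_zero,
    zero_add, hg'] at a1 a2 a3
  constructor
  · rw [← a2, ← a3]
    ring
  · rcases hγ.eq_or_lt with h | h
    · exfalso
      rw [← h] at a1 a3
      simp only [mul_zero, zero_add, add_zero, sub_zero] at a1 a3
      have h3 : 1 + s * γ.re = 0 := by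
        rcases mul_eq_zero.1 a1 with h3 | h3
        · exact absurd h3 hγ'.ne'
        · exact h3
      apply hg
      apply Complex.ext
      · rw [← a2, h3]; simp
      · rw [← a3]; simp
    · exact h

theorem alg2 {γ g : ℂ} {s : ℝ} (hg : g ≠ 0) (hγ : 0 < γ.im)
    (h : g.im + s * (g.im * γ.re - g.re * γ.im) = 0) :
    s = -g.im / (g.im * γ.re - g.re * γ.im) := by
  have hc : g.im * γ.re - g.re * γ.im ≠ 0 := by
    intro hc
    rw [hc, mul_zero, add_zero] at h
    rw [h] at hc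
    have h3 : g.re * γ.im = 0 := by linarith
    rcases mul_eq_zero.1 h3 with h4 | h4
    · exact hg (Complex.ext h4 h)
    · exact hγ.ne' h4
  rw [eq_div_iff hc]
  linarith

section

variable {d : ℕ}

theorem core {ν : Measure ℝ} [IsProbabilityMeasure ν] (hν : ∀ r : ℝ, ν {r} = 0) (x : Sd d)
    {γ g : (Sd d → ℝ) × ℝ → ℂ} (mγ : Measurable γ) (mg : Measurable g)
    (hid : ∀ᵐ p ∂(((PP (Sd d) ν).prod (volume : Measure ℝ)).prod ν),
      γ (up x (p.1.1, p.2), p.1.2) * (1 + ((p.2 - p.1.1 x : ℝ) : ℂ) * γ p.1) = γ p.1 ∧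
      g (up x (p.1.1, p.2), p.1.2) * (1 + ((p.2 - p.1.1 x : ℝ) : ℂ) * γ p.1) = g p.1)
    (hg : ∀ᵐ q ∂((PP (Sd d) ν).prod (volume : Measure ℝ)), g q ≠ 0)
    (hγ : ∀ᵐ q ∂((PP (Sd d) ν).prod (volume : Measure ℝ)), 0 ≤ (γ q).im) :
    ∀ᵐ q ∂((PP (Sd d) ν).prod (volume : Measure ℝ)), ¬ (0 < (γ q).im ∧ (g q).im = 0) := by
  have hT : MeasurePreserving (Prod.map (up x) (id : ℝ → ℝ) ∘ rr)
      (((PP (Sd d) ν).prod (volume : Measure ℝ)).prod ν)
      ((PP (Sd d) ν).prod (volume : Measure ℝ)) :=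
    ((mp_up ν x).prod (MeasurePreserving.id volume)).comp (mp_rr (PP (Sd d) ν) volume ν)
  have mB : MeasurableSet {q : (Sd d → ℝ) × ℝ | 0 < (γ q).im ∧ (g q).im = 0} :=
    (measurableSet_lt measurable_const (Complex.measurable_im.comp mγ)).inter
      (measurableSet_eq_fun (Complex.measurable_im.comp mg) measurable_const)
  -- the bad values
  have mN : MeasurableSet {p : ((Sd d → ℝ) × ℝ) × ℝ |
      (g p.1).im + (p.2 - p.1.1 x) * ((g p.1).im * (γ p.1).re - (g p.1).re * (γ p.1).im) = 0 ∧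
        0 < (γ p.1).im ∧ g p.1 ≠ 0} := by
    have m1 : Measurable fun p : ((Sd d → ℝ) × ℝ) × ℝ => g p.1 := mg.comp measurable_fst
    have m2 : Measurable fun p : ((Sd d → ℝ) × ℝ) × ℝ => γ p.1 := mγ.comp measurable_fst
    have m3 : Measurable fun p : ((Sd d → ℝ) × ℝ) × ℝ => p.1.1 x :=
      (measurable_pi_apply x).comp (measurable_fst.comp measurable_fst)
    have m4 : Measurable fun p : ((Sd d → ℝ) × ℝ) × ℝ => (g p.1).im :=
      Complex.measurable_im.comp m1
    have m5 : Measurable fun p : ((Sd d → ℝ) × ℝ) × ℝ => (g p.1).re :=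
      Complex.measurable_re.comp m1
    have m6 : Measurable fun p : ((Sd d → ℝ) × ℝ) × ℝ => (γ p.1).im :=
      Complex.measurable_im.comp m2
    have m7 : Measurable fun p : ((Sd d → ℝ) × ℝ) × ℝ => (γ p.1).re :=
      Complex.measurable_re.comp m2
    refine MeasurableSet.inter ?_ (MeasurableSet.inter ?_ ?_)
    · exact measurableSet_eq_fun (m4.add ((measurable_snd.sub m3).mul
        ((m4.mul m7).sub (m5.mul m6)))) measurable_const
    · exact measurableSet_lt measurable_const m6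
    · exact (measurableSet_eq_fun m1 measurable_const).compl
  have hN : ∀ᵐ p ∂(((PP (Sd d) ν).prod (volume : Measure ℝ)).prod ν),
      ¬ ((g p.1).im + (p.2 - p.1.1 x) *
        ((g p.1).im * (γ p.1).re - (g p.1).re * (γ p.1).im) = 0 ∧
        0 < (γ p.1).im ∧ g p.1 ≠ 0) := by
    rw [ae_iff]
    simp only [not_not]
    rw [Measure.measure_prod_null mN]
    refine Eventually.of_forall fun q => ?_
    change ν (Prod.mk q ⁻¹' _) = 0
    refine measure_mono_null ?_ (hν (q.1 x + -(g q).im / ((g q).im * (γ q).re -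
      (g q).re * (γ q).im)))
    rintro v ⟨h1, h2, h3⟩
    have h4 := alg2 h3 h2 h1
    change v = _
    have h5 : v - q.1 x = -(g q).im / ((g q).im * (γ q).re - (g q).re * (γ q).im) := h4
    linarith
  have hfin : ∀ᵐ p ∂(((PP (Sd d) ν).prod (volume : Measure ℝ)).prod ν),
      ¬ (0 < (γ (up x (p.1.1, p.2), p.1.2)).im ∧ (g (up x (p.1.1, p.2), p.1.2)).im = 0) := by
    have q1 := Measure.quasiMeasurePreserving_fst (μ := (PP (Sd d) ν).prod (volume : Measure ℝ))
      (ν := ν)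
    filter_upwards [hid, hN, q1.ae hg, q1.ae hγ] with p h1 h2 h3 h4 h5
    obtain ⟨h6, h7⟩ := alg h1.1 h1.2 h3 h4 h5.1 h5.2
    exact h2 ⟨h6, h7, h3⟩
  rw [ae_iff] at hfin ⊢
  simp only [not_not] at hfin ⊢
  rw [← hT.measure_preimage mB.nullMeasurableSet]
  exact hfin

theorem key (V : Sd d → ℝ) (x : Sd d) (v : ℝ) {z : ℂ} (hz : z.im ≠ 0) (y : Sd d) :
    GG (up x (V, v)) z x y * (1 + ((v - V x : ℝ) : ℂ) * GG V z x x) = GG V z x y := by
  have h4 := congrArg (fun f : L2 d => f x) (RV_up V x v hz (Pool.Agent.TH980.IM.ee y))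
  change (RV (up x (V, v)) z (Pool.Agent.TH980.IM.ee y)) x =
    (RV V z (Pool.Agent.TH980.IM.ee y)) x -
    (((v - V x : ℝ) : ℂ) * (RV (up x (V, v)) z (Pool.Agent.TH980.IM.ee y)) x) *
      (RV V z (Pool.Agent.TH980.IM.ee x)) x at h4
  change GG (up x (V, v)) z x y = GG V z x y -
    (((v - V x : ℝ) : ℂ) * GG (up x (V, v)) z x y) * GG V z x x at h4
  linear_combination h4

theorem qn_GG (V : Sd d → ℝ) {z : ℂ} (hz : 0 < z.im) (x : Sd d) :
    qn V z (Pool.Agent.TH980.IM.ee x) ^ 2 = (GG V z x x).im := by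
  rw [qn_sq V hz, GG_inner]

/-- the product form -/
theorem pair {ν : Measure ℝ} [IsProbabilityMeasure ν] (hν : ∀ r : ℝ, ν {r} = 0) (x y : Sd d)
    (hz : ∀ V : Sd d → ℝ, ∀ᵐ E : ℝ, ¬ Tendsto (fun k => GG V (zk k E) x y) atTop (𝓝 0)) :
    ∀ᵐ q ∂((PP (Sd d) ν).prod (volume : Measure ℝ)),
      ¬ Tendsto (fun k => qn q.1 (zk k q.2) (Pool.Agent.TH980.IM.ee x)) atTop (𝓝 0) →
      ¬ Tendsto (fun k => (GG q.1 (zk k q.2) x y).im) atTop (𝓝 0) := by
  obtain ⟨h, hm, hh⟩ := exists_lim (d := d) ν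
  have hx := lim_shift hh x x
  have hy := lim_shift hh x y
  have msh : Measurable fun q : (Sd d → ℝ) × ℝ => (sh x q.1, q.2) :=
    ((meas_sh x).comp measurable_fst).prodMk measurable_snd
  set γ : (Sd d → ℝ) × ℝ → ℂ := fun q => h (x - x) (sh x q.1, q.2) with hγd
  set g : (Sd d → ℝ) × ℝ → ℂ := fun q => h (y - x) (sh x q.1, q.2) with hgd
  have mγ : Measurable γ := (hm _).comp msh
  have mg : Measurable g := (hm _).comp msh
  have hT : MeasurePreserving (Prod.map (up x) (id : ℝ → ℝ) ∘ rr)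
      (((PP (Sd d) ν).prod (volume : Measure ℝ)).prod ν)
      ((PP (Sd d) ν).prod (volume : Measure ℝ)) :=
    ((mp_up ν x).prod (MeasurePreserving.id volume)).comp (mp_rr (PP (Sd d) ν) volume ν)
  have q1 := Measure.quasiMeasurePreserving_fst (μ := (PP (Sd d) ν).prod (volume : Measure ℝ))
    (ν := ν)
  have hid : ∀ᵐ p ∂(((PP (Sd d) ν).prod (volume : Measure ℝ)).prod ν),
      γ (up x (p.1.1, p.2), p.1.2) * (1 + ((p.2 - p.1.1 x : ℝ) : ℂ) * γ p.1) = γ p.1 ∧
      g (up x (p.1.1, p.2), p.1.2) * (1 + ((p.2 - p.1.1 x : ℝ) : ℂ) * γ p.1) = g p.1 := by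
    filter_upwards [q1.ae hx, q1.ae hy, hT.quasiMeasurePreserving.ae hx,
      hT.quasiMeasurePreserving.ae hy] with p a1 a2 a3 a4
    change Tendsto (fun k => GG (up x (p.1.1, p.2)) (zk k p.1.2) x x) atTop
      (𝓝 (γ (up x (p.1.1, p.2), p.1.2))) at a3
    change Tendsto (fun k => GG (up x (p.1.1, p.2)) (zk k p.1.2) x y) atTop
      (𝓝 (g (up x (p.1.1, p.2), p.1.2))) at a4
    have b := (a1.const_mul ((p.2 - p.1.1 x : ℝ) : ℂ)).const_add 1
    constructor
    · refine tendsto_nhds_unique ((a3.mul b).congr fun k => ?_) a1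
      exact key p.1.1 x p.2 (zk_im_pos k p.1.2).ne' x
    · refine tendsto_nhds_unique ((a4.mul b).congr fun k => ?_) a2
      exact key p.1.1 x p.2 (zk_im_pos k p.1.2).ne' y
  have hg : ∀ᵐ q ∂((PP (Sd d) ν).prod (volume : Measure ℝ)), g q ≠ 0 := by
    have ms : MeasurableSet {q : (Sd d → ℝ) × ℝ | g q ≠ 0} :=
      (measurableSet_eq_fun mg measurable_const).compl
    have h1 : ∀ᵐ V ∂(PP (Sd d) ν), ∀ᵐ E : ℝ, (V, E) ∈ {q : (Sd d → ℝ) × ℝ | g q ≠ 0} := by
      filter_upwards [Measure.ae_ae_of_ae_prod hy] with V hV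
      filter_upwards [hV, hz V] with E h2 h3 h4
      apply h3
      have h5 : h (y - x) (sh x V, E) = 0 := h4
      rw [h5] at h2
      exact h2
    exact (Measure.ae_prod_mem_iff_ae_ae_mem ms).2 h1
  have hγ : ∀ᵐ q ∂((PP (Sd d) ν).prod (volume : Measure ℝ)), 0 ≤ (γ q).im := by
    filter_upwards [hx] with q hq
    have h2 := (Complex.continuous_im.tendsto _).comp hq
    refine ge_of_tendsto' h2 fun k => ?_
    change 0 ≤ (GG q.1 (zk k q.2) x x).im
    rw [← qn_GG q.1 (zk_im_pos k q.2)]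
    positivity
  filter_upwards [core hν x mγ mg hid hg hγ, hx, hy, hγ] with q h1 h2 h3 h4 h5 h6
  apply h1
  constructor
  · rcases h4.eq_or_lt with h7 | h7
    · exfalso
      apply h5
      have h8 := (Complex.continuous_im.tendsto _).comp h2
      have h9 : Tendsto (fun k => qn q.1 (zk k q.2) (Pool.Agent.TH980.IM.ee x) ^ 2) atTop
          (𝓝 (γ q).im) := h8.congr fun k => (qn_GG q.1 (zk_im_pos k q.2) x).symm
      rw [← h7] at h9
      have h10 := (Real.continuous_sqrt.tendsto _).comp h9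
      rw [Real.sqrt_zero] at h10
      exact h10.congr fun k => Real.sqrt_sq (qn_nonneg _ _ _)
    · exact h7
  · exact tendsto_nhds_unique ((Complex.continuous_im.tendsto _).comp h3) h6

end

end Pool.Agent.T2h98.EA.NZPx

namespace Pool.Agent.T2h98.EA

theorem t_NZP (hZ : T_NZ) : T_NZP := by
  intro d ν _ K hK
  have hν : ∀ r : ℝ, ν {r} = 0 := by
    intro r
    have h := hK.2 {r} (measurableSet_singleton r)
    rw [Real.volume_singleton, mul_zero] at h
    exact nonpos_iff_eq_zero.1 h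
  have h1 : ∀ x y : Sd d, Nb x y → ∀ᵐ V ∂(PP (Sd d) ν), ∀ᵐ E : ℝ,
      ¬ Tendsto (fun k => qn V (zk k E) (Pool.Agent.TH980.IM.ee x)) atTop (𝓝 0) →
      ¬ Tendsto (fun k => (GG V (zk k E) x y).im) atTop (𝓝 0) := fun x y hxy =>
    Measure.ae_ae_of_ae_prod (NZPx.pair hν x y fun V => hZ d V x y hxy)
  have h2 : ∀ᵐ V ∂(PP (Sd d) ν), ∀ x y : Sd d, Nb x y → ∀ᵐ E : ℝ,
      ¬ Tendsto (fun k => qn V (zk k E) (Pool.Agent.TH980.IM.ee x)) atTop (𝓝 0) →
      ¬ Tendsto (fun k => (GG V (zk k E) x y).im) atTop (𝓝 0) := by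
    rw [ae_all_iff]
    intro x
    rw [ae_all_iff]
    intro y
    by_cases hxy : Nb x y
    · filter_upwards [h1 x y hxy] with V hV _
      exact hV
    · exact Eventually.of_forall fun V h => absurd h hxy
  filter_upwards [h2] with V hV
  rw [ae_all_iff]
  intro x
  rw [ae_all_iff]
  intro y
  by_cases hxy : Nb x y
  · filter_upwards [hV x y hxy] with E hE _ h3
    exact hE h3
  · exact Eventually.of_forall fun V h => absurd h hxy

end Pool.Agent.T2h98.EA
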