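import Pool.Agent.T2h98.EA.Stm

/-! Task EA-RHO (helper78): the factor does not depend on the potential. -/

set_option autoImplicit false

open scoped BigOperators Topology ENNReal InnerProductSpace
open MeasureTheory ProbabilityTheory Filter
open Pool.Agent.TH980.IM.PR (PP sh)
open Pool.Agent.TH980.IM (zk BT kap)
open Pool.Agent.T2h44.GU (RV GG qn Cy spm dn)
open Pool.Agent.T2h98.NB

namespace Pool.Agent.T2h98.EA

namespace RHOx

variable {d : ℕ}

/-- covariance of the resolvent -/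
theorem RV_shift (V : Om d) {w : ℂ} (hw : w.im ≠ 0) (z : Sd d) (f : L2 d) :
    RV (sh z V) w f = Sf (-z) (RV V w (Sf z f)) := by
  symm
  apply Pool.Agent.T2h44.GU.RV_unique hw
  intro x
  have h := Pool.Agent.T2h44.GU.RV_sol V hw (Sf z f) (x + z)
  rw [Pool.Agent.T2h44.GU.Ad_apply] at h ⊢
  rw [Sf_apply, add_sub_cancel_right] at h
  rw [← h]
  simp only [Sf_apply, sub_neg_eq_add, sh]
  congr 2
  refine Finset.sum_congr rfl fun i _ => ?_
  rw [add_right_comm, sub_add_eq_add_sub]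

theorem ip_shift (V : Om d) {w : ℂ} (hw : w.im ≠ 0) (z : Sd d) (f g : L2 d) :
    ip (sh z V) w f g = ip V w (Sf z f) (Sf z g) := by
  unfold ip
  rw [RV_shift V hw, RV_shift V hw, LinearIsometry.inner_map_map]

theorem ip_sub (V : Om d) (w : ℂ) (f g h : L2 d) (a : ℂ) :
    ip V w f (g - a • h) = ip V w f g - a * ip V w f h := by
  unfold ip
  rw [map_sub, map_smul, inner_sub_right, inner_smul_right]
  ring

theorem cov_one : Cov (fun _ : Om d => (1 : L2 d →L[ℂ] L2 d)) := by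
  refine ⟨fun f => stronglyMeasurable_const, ⟨1, fun _ => ContinuousLinearMap.norm_id_le⟩, ?_⟩
  intro z V f
  show f = Sf (-z) (Sf z f)
  rw [Sf_Sf, neg_add_cancel, Sf_zero]

theorem sh_zero (V : Om d) : sh 0 V = V := by
  funext y
  show V (y + 0) = V y
  rw [add_zero]

/-- clipping -/
noncomputable def cl (c x : ℝ) : ℝ := max (-c) (min c x)

theorem cl_abs {c : ℝ} (hc : 0 ≤ c) (x : ℝ) : |cl c x| ≤ c := by
  unfold cl
  rw [abs_le]
  exact ⟨le_max_left _ _, max_le (by linarith) (min_le_left _ _)⟩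

theorem cl_eq {c x : ℝ} (h : |x| ≤ c) : cl c x = x := by
  unfold cl
  rw [abs_le] at h
  rw [min_eq_right h.2, max_eq_right h.1]

theorem cl_cont (c : ℝ) : Continuous (cl c) := by
  unfold cl
  exact continuous_const.max (continuous_const.min continuous_id)

/-- the function of the potential and the energy -/
noncomputable def rr (c : ℝ) (A : Om d → L2 d →L[ℂ] L2 d) (q : Om d × ℝ) : ℝ :=
  if limsup (fun k => cl 1 (ip q.1 (zk k q.2) (ee 0) (ee 0)).re) atTop = 0 then 0 else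
    cl c (limsup (fun k => cl c ((ip q.1 (zk k q.2) (ee 0) (A q.1 (ee 0))).re /
      (ip q.1 (zk k q.2) (ee 0) (ee 0)).re)) atTop)

theorem rr_abs {c : ℝ} (hc : 0 ≤ c) (A : Om d → L2 d →L[ℂ] L2 d) (q : Om d × ℝ) :
    |rr c A q| ≤ c := by
  unfold rr
  split_ifs
  · simpa using hc
  · exact cl_abs hc _

theorem rr_meas (hM : T_MSR) (c : ℝ) {A : Om d → L2 d →L[ℂ] L2 d} (hA : Cov A) :
    Measurable (rr c A) := by
  have h1 : ∀ k : ℕ, Measurable fun q : Om d × ℝ => (ip q.1 (zk k q.2) (ee 0) (ee 0)).re :=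
    fun k => Complex.measurable_re.comp (hM d _ cov_one k)
  have h2 : ∀ k : ℕ, Measurable fun q : Om d × ℝ =>
      (ip q.1 (zk k q.2) (ee 0) (A q.1 (ee 0))).re :=
    fun k => Complex.measurable_re.comp (hM d A hA k)
  unfold rr
  refine Measurable.ite ?_ measurable_const ?_
  · exact measurableSet_eq_fun
      (Measurable.limsup fun k => (cl_cont 1).measurable.comp (h1 k)) measurable_const
  · exact (cl_cont c).measurable.comp
      (Measurable.limsup fun k => (cl_cont c).measurable.comp ((h2 k).div (h1 k)))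

/-- values at good points -/
theorem rr_val (hF : T_FRM) {A : Om d → L2 d →L[ℂ] L2 d} (hA : Cov A) {c a : ℝ}
    {V : Om d} {E : ℝ} {z : Sd d} {l : ℝ}
    (hl : Tendsto (fun k => qn V (zk k E) (ee z)) atTop (𝓝 l)) (ha : |a| ≤ c)
    (hN : Ngl V E (A V (ee z) - (a : ℂ) • ee z)) :
    rr c A (sh z V, E) = if l = 0 then 0 else a := by
  obtain ⟨f1, f2, -, -, -⟩ := hF d V
  have hpos : ∀ k, 0 < (zk k E).im := fun k => Pool.Agent.TH980.IM.zk_im_pos k E
  have e1 : ∀ k, ip (sh z V) (zk k E) (ee 0) (ee 0) = ((qn V (zk k E) (ee z) ^ 2 : ℝ) : ℂ) := by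
    intro k
    rw [ip_shift V (hpos k).ne', Sf_ee, zero_add, f1 _ _ (hpos k)]
  have e2 : ∀ k, ip (sh z V) (zk k E) (ee 0) (A (sh z V) (ee 0)) =
      ip V (zk k E) (ee z) (A V (ee z)) := by
    intro k
    rw [ip_shift V (hpos k).ne', Sf_ee, zero_add, hA.cov, Sf_Sf, add_neg_cancel, Sf_zero, Sf_ee,
      zero_add]
  have hl2 : Tendsto (fun k => qn V (zk k E) (ee z) ^ 2) atTop (𝓝 (l ^ 2)) := hl.pow 2
  have h1 : limsup (fun k => cl 1 (ip (sh z V) (zk k E) (ee 0) (ee 0)).re) atTop =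
      cl 1 (l ^ 2) := by
    simp only [e1, Complex.ofReal_re]
    exact (((cl_cont 1).tendsto _).comp hl2).limsup_eq
  unfold rr
  simp only [h1]
  by_cases hl0 : l = 0
  · rw [if_pos hl0, if_pos]
    have h00 : l ^ 2 = 0 := by rw [hl0]; norm_num
    rw [h00]
    exact cl_eq (by norm_num)
  · have hl1 : 0 < l ^ 2 := by positivity
    have h2 : cl 1 (l ^ 2) ≠ 0 := by
      unfold cl
      have : 0 < min 1 (l ^ 2) := lt_min one_pos hl1
      exact (lt_of_lt_of_le this (le_max_right _ _)).ne'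
    rw [if_neg hl0, if_neg h2]
    have h3 : Tendsto (fun k => (ip (sh z V) (zk k E) (ee 0) (A (sh z V) (ee 0))).re /
        (ip (sh z V) (zk k E) (ee 0) (ee 0)).re) atTop (𝓝 a) := by
      have h4 : Tendsto (fun k => (ip V (zk k E) (ee z) (A V (ee z))).re -
          a * qn V (zk k E) (ee z) ^ 2) atTop (𝓝 0) := by
        have h5 : Tendsto (fun k => qn V (zk k E) (ee z) *
            qn V (zk k E) (A V (ee z) - (a : ℂ) • ee z)) atTop (𝓝 0) := by
          have := hl.mul hN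
          rwa [mul_zero] at this
        refine squeeze_zero_norm (fun k => ?_) h5
        have h6 := f2 (zk k E) (ee z) (A V (ee z) - (a : ℂ) • ee z) (hpos k)
        rw [ip_sub, f1 _ _ (hpos k)] at h6
        refine le_trans ?_ h6
        rw [Real.norm_eq_abs]
        refine le_trans (le_of_eq ?_) (Complex.abs_re_le_norm _)
        congr 1
        rw [Complex.sub_re, ← Complex.ofReal_mul, Complex.ofReal_re]
      have h7 : Tendsto (fun k => a + ((ip V (zk k E) (ee z) (A V (ee z))).re -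
          a * qn V (zk k E) (ee z) ^ 2) / qn V (zk k E) (ee z) ^ 2) atTop (𝓝 a) := by
        have := (h4.div hl2 hl1.ne').const_add a
        rwa [zero_div, add_zero] at this
      refine h7.congr' ?_
      filter_upwards [hl2.eventually (lt_mem_nhds hl1)] with k hk
      have hk' : qn V (zk k E) (ee z) ^ 2 ≠ 0 := ne_of_gt hk
      rw [e1, e2, Complex.ofReal_re, sub_div, mul_div_cancel_right₀ _ hk']
      ring
    have h8 := (((cl_cont c).tendsto _).comp h3).limsup_eq
    rw [cl_eq ha] at h8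
    have h9 : limsup (fun k => cl c ((ip (sh z V) (zk k E) (ee 0) (A (sh z V) (ee 0))).re /
        (ip (sh z V) (zk k E) (ee 0) (ee 0)).re)) atTop = a := h8
    rw [h9, cl_eq ha]

end RHOx

open RHOx in
theorem t_RHO (hF : T_FRM) (hM : T_MSR) (hS : T_CST) : T_RHO := by
  intro d hd ν hν A c hA hC hgood
  have hc : 0 ≤ c := (norm_nonneg _).trans (hC 0).bdd
  have hrm : Measurable (rr c A) := rr_meas hM c hA
  -- good points
  have hgood2 : ∀ᵐ V ∂(PP (Sd d) ν), ∀ᵐ E : ℝ,
      (∀ x : Sd d, ∃ l : ℝ, Tendsto (fun k => qn V (zk k E) (ee x)) atTop (𝓝 l)) ∧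
      ((∀ x : Sd d, Ngl V E (ee x)) ∨ ∀ x : Sd d, ¬ Ngl V E (ee x)) ∧
      ∃ a : ℝ, |a| ≤ c ∧ ∀ x : Sd d, Ngl V E (A V (ee x) - (a : ℂ) • ee x) := by
    filter_upwards [hgood] with V hV
    have h1 : ∀ᵐ E : ℝ, ∀ x : Sd d,
        ∃ l : ℝ, Tendsto (fun k => qn V (zk k E) (ee x)) atTop (𝓝 l) := by
      rw [ae_all_iff]
      intro x
      filter_upwards [Pool.Agent.T2h44.GU.qn_tendsto V (ee x)] with E hE
      exact ⟨_, hE⟩
    filter_upwards [h1, hV] with E hE1 hE2
    exact ⟨hE1, hE2⟩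
  -- invariance
  have hinv : ∀ᵐ V ∂(PP (Sd d) ν), ∀ᵐ E : ℝ, ∀ z : Sd d, rr c A (sh z V, E) = rr c A (V, E) := by
    filter_upwards [hgood2] with V hV
    filter_upwards [hV] with E hE z
    obtain ⟨h1, h2, a, ha, h3⟩ := hE
    have e0 : rr c A (V, E) = rr c A (sh 0 V, E) := by rw [sh_zero]
    obtain ⟨l0, hl0⟩ := h1 0
    obtain ⟨lz, hlz⟩ := h1 z
    rw [e0, rr_val hF hA hlz ha (h3 z), rr_val hF hA hl0 ha (h3 0)]
    rcases h2 with h2 | h2
    · have k1 : lz = 0 := tendsto_nhds_unique hlz (h2 z)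
      have k2 : l0 = 0 := tendsto_nhds_unique hl0 (h2 0)
      rw [if_pos k1, if_pos k2]
    · have k1 : lz ≠ 0 := fun h => h2 z (by rw [h] at hlz; exact hlz)
      have k2 : l0 ≠ 0 := fun h => h2 0 (by rw [h] at hl0; exact hl0)
      rw [if_neg k1, if_neg k2]
  have hinv2 : ∀ᵐ E : ℝ, ∀ᵐ V ∂(PP (Sd d) ν), ∀ z : Sd d, rr c A (sh z V, E) = rr c A (V, E) := by
    refine (Measure.ae_ae_comm (p := fun V E => ∀ z : Sd d,
      rr c A (sh z V, E) = rr c A (V, E)) ?_).1 hinv
    have : {x : Om d × ℝ | ∀ z : Sd d, rr c A (sh z x.1, x.2) = rr c A (x.1, x.2)} =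
        ⋂ z : Sd d, {x : Om d × ℝ | rr c A (sh z x.1, x.2) = rr c A (x.1, x.2)} := by
      ext x
      simp
    rw [this]
    refine MeasurableSet.iInter fun z => measurableSet_eq_fun (hrm.comp ?_) hrm
    exact ((Pool.Agent.TH980.IM.PR.meas_sh z).comp measurable_fst).prodMk measurable_snd
  obtain ⟨ρ, hρ⟩ : ∃ ρ : ℝ → ℝ, ρ = fun E => ∫ W, rr c A (W, E) ∂(PP (Sd d) ν) := ⟨_, rfl⟩
  have hρm : Measurable ρ := by
    rw [hρ]
    exact (hrm.stronglyMeasurable.integral_prod_left').measurable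
  have hρc : ∀ E, |ρ E| ≤ c := by
    intro E
    rw [hρ, ← Real.norm_eq_abs]
    have := norm_integral_le_of_norm_le_const (μ := PP (Sd d) ν) (f := fun W => rr c A (W, E))
      (Eventually.of_forall fun W => by
        rw [Real.norm_eq_abs]; exact rr_abs hc A (W, E))
    simpa using this
  have hconst : ∀ᵐ E : ℝ, ∀ᵐ V ∂(PP (Sd d) ν), rr c A (V, E) = ρ E := by
    filter_upwards [hinv2] with E hE
    rw [hρ]
    exact hS d hd ν (fun V => rr c A (V, E)) c (hrm.comp measurable_prodMk_right)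
      (fun V => rr_abs hc A _) (fun z => by filter_upwards [hE] with V hV using hV z)
  have hconst2 : ∀ᵐ V ∂(PP (Sd d) ν), ∀ᵐ E : ℝ, rr c A (V, E) = ρ E := by
    refine (Measure.ae_ae_comm (p := fun V E => rr c A (V, E) = ρ E) ?_).2 hconst
    exact measurableSet_eq_fun hrm (hρm.comp measurable_snd)
  refine ⟨ρ, hρm, hρc, ?_⟩
  filter_upwards [hgood2, hconst2] with V hV1 hV2
  filter_upwards [hV1, hV2] with E hE1 hE2 x
  obtain ⟨h1, h2, a, ha, h3⟩ := hE1
  rcases h2 with h2 | h2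
  · have k1 : Ngl V E (A V (ee x)) := by
      have h4 : Tendsto (fun k => c * qn V (zk k E) (ee x)) atTop (𝓝 0) := by
        have := (h2 x).const_mul c
        rwa [mul_zero] at this
      refine squeeze_zero (fun k => Pool.Agent.T2h44.GU.qn_nonneg _ _ _) (fun k => ?_) h4
      exact (((hF d V).2.2.2.2 (A V) c (hC V)) (zk k E) (ee x) (ee x)
        (Pool.Agent.TH980.IM.zk_im_pos k E)).2
    have k2 := k1.add ((h2 x).smul (-(ρ E : ℂ)))
    rw [neg_smul, ← sub_eq_add_neg] at k2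
    exact k2
  · obtain ⟨l0, hl0⟩ := h1 0
    have k2 : l0 ≠ 0 := fun h => h2 0 (by rw [h] at hl0; exact hl0)
    have e0 : rr c A (V, E) = rr c A (sh 0 V, E) := by rw [sh_zero]
    rw [e0, rr_val hF hA hl0 ha (h3 0), if_neg k2] at hE2
    rw [← hE2]
    exact h3 x

end Pool.Agent.T2h98.EA
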