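import Pool.Agent.T2h98.EA.Stm

/-! The spectral measure, by the group and by the resolvent (helper22). -/

set_option autoImplicit false

open scoped BigOperators Topology ENNReal InnerProductSpace
open MeasureTheory ProbabilityTheory Filter
open Pool.Agent.TH980.IM (zk BT kap)
open Pool.Agent.T2h44.GU (RV GG qn Cy spm dn)
open Pool.Agent.T2h98.NB

namespace Pool.Agent.T2h98.EA

namespace SPE

theorem norm_exp (z : ℂ) (t : ℝ) :
    ‖Complex.exp (Complex.I * z * t)‖ = Real.exp (-z.im * t) := by
  rw [Complex.norm_exp]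
  congr 1
  simp

theorem norm_exp' (t E : ℝ) : ‖Complex.exp (-(Complex.I * t * E))‖ = 1 := by
  rw [Complex.norm_exp]
  simp

theorem int_exp {z : ℂ} (hz : 0 < z.im) {F : ℝ → ℂ} (hF : Continuous F) {C : ℝ}
    (hb : ∀ t, ‖F t‖ ≤ C) :
    IntegrableOn (fun t : ℝ => Complex.exp (Complex.I * z * t) * F t) (Set.Ioi 0) := by
  have h1 : IntegrableOn (fun t : ℝ => Real.exp (-z.im * t) * C) (Set.Ioi 0) :=
    (exp_neg_integrableOn_Ioi 0 hz).mul_const C
  refine Integrable.mono' h1 ?_ ?_
  · exact ((by fun_prop : Continuous fun t : ℝ => Complex.exp (Complex.I * z * t)).mul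
      hF).aestronglyMeasurable
  · refine Eventually.of_forall fun t => ?_
    rw [norm_mul, norm_exp]
    exact mul_le_mul_of_nonneg_left (hb t) (Real.exp_pos _).le

theorem BT_lap (m : Measure ℝ) [IsFiniteMeasure m] {z : ℂ} (hz : 0 < z.im) :
    BT m z = Complex.I * ∫ t in Set.Ioi (0 : ℝ), Complex.exp (Complex.I * z * t) *
      ∫ E : ℝ, Complex.exp (-(Complex.I * t * E)) ∂m := by
  have h1 : ∀ t : ℝ, Complex.exp (Complex.I * z * t) *
      ∫ E : ℝ, Complex.exp (-(Complex.I * t * E)) ∂m =
      ∫ E : ℝ, Complex.exp (Complex.I * z * t) * Complex.exp (-(Complex.I * t * E)) ∂m :=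
    fun t => (integral_const_mul _ _).symm
  simp_rw [h1]
  rw [integral_integral_swap]
  · rw [← integral_const_mul]
    unfold BT
    congr 1
    funext E
    have h2 : ∀ t : ℝ, Complex.exp (Complex.I * z * t) * Complex.exp (-(Complex.I * t * E)) =
        Complex.exp ((Complex.I * (z - E)) * t) := by
      intro t
      rw [← Complex.exp_add]
      congr 1
      ring
    simp_rw [h2]
    have h3 : (Complex.I * (z - E)).re < 0 := by simp [hz]
    rw [integral_exp_mul_complex_Ioi h3 0]
    have h4 : (z : ℂ) - E ≠ 0 := by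
      intro h
      have := congrArg Complex.im h
      simp at this
      exact hz.ne' this
    have h5 : (E : ℂ) - z ≠ 0 := by
      intro h
      apply h4
      linear_combination -h
    simp only [Complex.ofReal_zero, mul_zero, Complex.exp_zero]
    field_simp
    ring
  · have h6 : Integrable (fun t : ℝ => Real.exp (-z.im * t)) (volume.restrict (Set.Ioi 0)) :=
      exp_neg_integrableOn_Ioi 0 hz
    have h7 := h6.mul_prod (integrable_const (1 : ℝ) (μ := m))
    refine Integrable.mono' h7 ?_ ?_
    · exact (by fun_prop : Continuous (Function.uncurry fun t E : ℝ =>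
        Complex.exp (Complex.I * z * t) * Complex.exp (-(Complex.I * t * E)))).aestronglyMeasurable
    · refine Eventually.of_forall fun p => ?_
      simp only [Function.uncurry]
      rw [norm_mul, norm_exp, norm_exp']

theorem BT_conj (m : Measure ℝ) (z : ℂ) : BT m ((starRingEnd ℂ) z) = (starRingEnd ℂ) (BT m z) := by
  unfold BT
  rw [← integral_conj]
  congr 1
  funext t
  rw [map_inv₀, map_sub, Complex.conj_ofReal]

end SPE

open SPE

theorem t_SPE (hX : T_XT) (hP : T_LPU) (hL : T_LAPR) : T_SPE := by
  intro d U hU V f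
  obtain ⟨hadj, -⟩ := hX d U hU
  have hs : Spe U V f (spm V f) := by
    set m := spm V f with hm
    have hcont2 : Continuous fun t : ℝ => ∫ E : ℝ, Complex.exp (-(Complex.I * t * E)) ∂m := by
      refine continuous_of_dominated (F := fun (t E : ℝ) => Complex.exp (-(Complex.I * t * E)))
        (bound := fun _ => 1) ?_ ?_ (integrable_const _) ?_
      · intro t
        exact (by fun_prop : Continuous fun E : ℝ =>
          Complex.exp (-(Complex.I * t * E))).aestronglyMeasurable
      · intro t
        exact Eventually.of_forall fun E => (norm_exp' t E).le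
      · exact Eventually.of_forall fun E => by fun_prop
    have hb2 : ∀ t : ℝ, ‖∫ E : ℝ, Complex.exp (-(Complex.I * t * E)) ∂m‖ ≤ m.real Set.univ := by
      intro t
      have := norm_integral_le_of_norm_le_const (μ := m) (C := 1)
        (Eventually.of_forall fun E : ℝ => (norm_exp' t E).le)
      simpa using this
    have hcont1 : Continuous fun t : ℝ => (inner ℂ f (U V t f) : ℂ) := by
      have h1 : Continuous fun t : ℝ => U V t f :=
        (hU.g0.cont f).comp (by fun_prop : Continuous fun t : ℝ => (V, t))
      exact continuous_const.inner h1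
    have hb1 : ∀ t : ℝ, ‖(inner ℂ f (U V t f) : ℂ)‖ ≤ ‖f‖ * ‖f‖ := by
      intro t
      refine (norm_inner_le_norm _ _).trans ?_
      rw [hU.g0.norm]
    have h0 := hP (fun t => (inner ℂ f (U V t f) : ℂ) -
      ∫ E : ℝ, Complex.exp (-(Complex.I * t * E)) ∂m) (‖f‖ * ‖f‖ + m.real Set.univ)
      (hcont1.sub hcont2) (fun t => (norm_sub_le _ _).trans (add_le_add (hb1 t) (hb2 t))) ?_
    · have hpos : ∀ t : ℝ, 0 ≤ t →
          (inner ℂ f (U V t f) : ℂ) = ∫ E : ℝ, Complex.exp (-(Complex.I * t * E)) ∂m :=
        fun t ht => sub_eq_zero.1 (h0 t ht)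
      intro t
      rcases le_total 0 t with ht | ht
      · exact hpos t ht
      · have h1 := hpos (-t) (by linarith)
        have h2 : (inner ℂ f (U V t f) : ℂ) = (starRingEnd ℂ) (inner ℂ f (U V (-t) f) : ℂ) := by
          have h3 := hadj V (-t) f f
          rw [neg_neg] at h3
          rw [← h3, inner_conj_symm]
        rw [h2, h1, ← integral_conj]
        congr 1
        funext E
        rw [← Complex.exp_conj]
        congr 1
        simp
    · intro z hz
      have e1 : ∀ t : ℝ, Complex.exp (Complex.I * z * t) * ((inner ℂ f (U V t f) : ℂ) -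
          ∫ E : ℝ, Complex.exp (-(Complex.I * t * E)) ∂m) =
          Complex.exp (Complex.I * z * t) * (inner ℂ f (U V t f) : ℂ) -
          Complex.exp (Complex.I * z * t) * ∫ E : ℝ, Complex.exp (-(Complex.I * t * E)) ∂m :=
        fun t => mul_sub _ _ _
      simp_rw [e1]
      rw [integral_sub (int_exp hz hcont1 hb1) (int_exp hz hcont2 hb2)]
      have e2 := hL d U hU V z f f hz
      have e3 := BT_lap m hz
      rw [hm, Pool.Agent.T2h44.GU.BT_spm V f hz.ne', e2] at e3
      exact sub_eq_zero.2 (mul_left_cancel₀ Complex.I_ne_zero e3)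
  refine ⟨hs, ?_, ?_⟩
  · have h1 := hs 0
    rw [hU.g0.zero] at h1
    have h2 : (1 : L2 d →L[ℂ] L2 d) f = f := rfl
    rw [h2, inner_self_eq_norm_sq_to_K] at h1
    simp only [Complex.ofReal_zero, mul_zero, zero_mul, neg_zero, Complex.exp_zero,
      integral_const, smul_eq_mul] at h1
    have h3 : ((‖f‖ ^ 2 : ℝ) : ℂ) = (((spm V f).real Set.univ : ℝ) : ℂ) := by
      push_cast
      simpa using h1
    exact (Complex.ofReal_injective h3).symm
  · intro m _ hm z hz
    have up : ∀ z : ℂ, 0 < z.im → BT m z = (inner ℂ f (RV V z f) : ℂ) := by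
      intro z hz
      rw [BT_lap m hz, hL d U hU V z f f hz]
      congr 1
      refine integral_congr_ae (Eventually.of_forall fun t => ?_)
      change _ * _ = _ * _
      rw [hm t]
    rcases lt_or_gt_of_ne hz with h | h
    · have hc : 0 < ((starRingEnd ℂ) z).im := by simpa using h
      have h1 := up _ hc
      rw [BT_conj] at h1
      have h2 := congrArg (starRingEnd ℂ) h1
      rw [Complex.conj_conj, inner_conj_symm, Pool.Agent.T2h44.GU.RV_adj V hz] at h2
      exact h2
    · exact up z h

end Pool.Agent.T2h98.EA
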