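import Pool.Agent.T2h98.NB.AllO
import Pool.Agent.T2h98.NB.ODD
import Pool.Agent.T2h98.EA.XOG
import Pool.Agent.T2h98.EA.CAUG
import Pool.Agent.T2h98.EA.LIMG
import Pool.Agent.T2h98.EA.ALLG
import Pool.Agent.T2h98.EA.BCA
import Pool.Agent.T2h98.EA.APX
import Pool.Agent.T2h98.EA.CONx
import Pool.Agent.T2h98.EA.CYG
import Pool.Agent.T2h98.EA.LPU
import Pool.Agent.T2h98.EA.LAPR
import Pool.Agent.T2h98.EA.CMR
import Pool.Agent.T2h98.EA.CYR
import Pool.Agent.T2h98.EA.CYX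
import Pool.Agent.T2h98.EA.SPE
import Pool.Agent.T2h98.EA.DOM
import Pool.Agent.T2h98.EA.FRM
import Pool.Agent.T2h98.EA.NZ
import Pool.Agent.T2h98.EA.NZP
import Pool.Agent.T2h98.EA.AX
import Pool.Agent.T2h98.EA.AXY
import Pool.Agent.T2h98.EA.MSR
import Pool.Agent.T2h98.EA.CST
import Pool.Agent.T2h98.EA.RHO
import Pool.Agent.T2h98.EA.FAL
import Pool.Agent.T2h98.EA.ACF

/-! Ergodicity on the absolutely continuous spectrum: all parts. -/

set_option autoImplicit false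

open scoped BigOperators Topology ENNReal InnerProductSpace
open MeasureTheory ProbabilityTheory Filter
open Pool.Agent.TH980.IM.PR (PP sh)
open Pool.Agent.TH980.IM (zk BT kap)
open Pool.Agent.T2h44.GU (RV GG qn Cy spm dn)
open Pool.Agent.T2h98.NB

namespace Pool.Agent.T2h98.EA.All

open Pool.Agent.T2h98.EA Pool.Agent.T2h98.NB.All

theorem xogA : T_XOG := XOGx.t_XOG

theorem caugA : T_CAUG := t_CAUG xtA xogA cov_facts tp met

theorem limgA : T_LIMG := t_LIMG xtA xogA cov_facts caugA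

theorem oddA : T_ODD := ODDx.t_ODD xtA xoA cov_facts tp limoA alloA cyoA

theorem allgA : T_ALLG := t_ALLG xogA cov_facts

theorem apxA : T_APX := t_APX t_BCA

theorem conA : T_CON := t_CON xtA xoA cov_facts (tu cov_facts)

theorem cygA : T_CYG := t_CYG xtA cov_facts limoA cyoA apxA conA

theorem cmrA : T_CMR := t_CMR t_LAPR

theorem cyrA : T_CYR := t_CYR xtA t_LPU t_LAPR

theorem cyxA : T_CYX := t_CYX cygA cyrA

theorem speA : T_SPE := t_SPE xtA t_LPU t_LAPR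

theorem nzpA : T_NZP := t_NZP NZx.t_NZ

theorem axA : T_AX := t_AX t_FRM

theorem axyA : T_AXY := t_AXY t_FRM

theorem rhoA : T_RHO := t_RHO t_FRM t_MSR t_CST

theorem falA : T_FAL := t_FAL t_FRM

theorem acfA : T_ACF := t_ACF t_FRM t_DOM

/-- conserved quantities are functions of the energy on the absolutely continuous spectrum -/
theorem eaA : T_EA := by
  intro d hd U hU ν _ K hK A c hA
  have hcm := cmrA d U hU A c hA
  have h1 : ∀ᵐ V ∂(PP (Sd d) ν), ∀ᵐ E : ℝ,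
      ((∀ x : Sd d, Ngl V E (ee x)) ∨ ∀ x : Sd d, ¬ Ngl V E (ee x)) ∧
      ∃ a : ℝ, |a| ≤ c ∧ ∀ x : Sd d, Ngl V E (A V (ee x) - (a : ℂ) • ee x) := by
    filter_upwards [cyxA d U hU ν K hK A c hA, nzpA d ν K hK] with V hV1 hV2
    have e1 : ∀ᵐ E : ℝ, ∀ x : Sd d, ∃ a : ℂ, Ngl V E (A V (ee x) - a • ee x) := by
      rw [ae_all_iff]
      intro x
      exact axA d V (A V) c x (hcm V) (hV1 x)
    have e2 : ∀ᵐ E : ℝ, ∀ x y : Sd d, ∃ l : ℂ,
        Tendsto (fun k => ip V (zk k E) (ee x) (ee y)) atTop (𝓝 l) := by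
      rw [ae_all_iff]
      intro x
      rw [ae_all_iff]
      intro y
      exact (t_FRM d V).2.2.2.1 (ee x) (ee y)
    filter_upwards [e1, e2, hV2] with E a1 a2 a3
    exact axyA d V (A V) c E (hcm V) a1 a2 a3
  obtain ⟨ρ, hρ, hρc, h2⟩ := rhoA d hd ν A c hA.cov hcm h1
  refine ⟨ρ, hρ, hρc, ?_⟩
  filter_upwards [h2] with V hV f m hm hS hac
  haveI := hm
  have h3 := falA d V (A V) c ρ (hcm V) hρc hV
  exact acfA d V (A V) c ρ (hcm V) hρ hρc h3 (fun g => (speA d U hU V g).2.1) f m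
    ((speA d U hU V f).2.2 m hS) hac

end Pool.Agent.T2h98.EA.All
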