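import Pool.Agent.T2h98.EA.Stm

/-! Conserved quantities map the unit vectors to their cyclic spaces. -/

set_option autoImplicit false

open scoped BigOperators Topology ENNReal InnerProductSpace
open MeasureTheory ProbabilityTheory Filter
open Pool.Agent.TH980.IM.PR (PP sh mp_sh)
open Pool.Agent.T2h44.GU (RV Cy RV_sol RV_unique Sol)
open Pool.Agent.T2h98.NB

namespace Pool.Agent.T2h98.EA

namespace CYX

variable {d : ℕ}

/-- the resolvent of the translated potential -/
theorem RV_shift (x : Sd d) (V : Om d) {z : ℂ} (hz : z.im ≠ 0) (g : L2 d) :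
    RV (sh x V) z (Sf (-x) g) = Sf (-x) (RV V z g) := by
  symm
  apply RV_unique hz
  intro j
  set w := RV V z g with hw
  have h2 := RV_sol V hz g (j + x)
  rw [← hw, Pool.Agent.T2h44.GU.Ad_apply] at h2
  rw [Pool.Agent.T2h44.GU.Ad_apply]
  simp only [Sf_apply, sub_neg_eq_add, sh]
  rw [← h2]
  congr 2
  refine Finset.sum_congr rfl fun i _ => ?_
  rw [add_right_comm, sub_add_eq_add_sub]

theorem InC_shift (x : Sd d) (V : Om d) (a : L2 d) (h : InC (sh x V) 0 (Sf (-x) a)) :
    InC V x a := by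
  intro ε hε
  obtain ⟨v, hv, hve⟩ := h ε hε
  have key : ∀ v ∈ Cy (sh x V) (fun _ : Fin 1 => (ee 0 : L2 d)),
      Sf x v ∈ Cy V (fun _ : Fin 1 => (ee x : L2 d)) := by
    intro v hv
    induction hv using Submodule.span_induction with
    | mem v hv =>
      obtain ⟨i, z, hz, rfl⟩ := hv
      refine Submodule.subset_span ⟨i, z, hz, ?_⟩
      have h1 := RV_shift x V hz (ee x)
      rw [Sf_ee, add_neg_cancel] at h1
      rw [h1, Sf_Sf, add_neg_cancel, Sf_zero]
    | zero => rw [map_zero]; exact Submodule.zero_mem _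
    | add u v _ _ hu hv => rw [map_add]; exact Submodule.add_mem _ hu hv
    | smul c u _ hu => rw [map_smul]; exact Submodule.smul_mem _ _ hu
  refine ⟨Sf x v, key v hv, ?_⟩
  have h2 : a - Sf x v = Sf x (Sf (-x) a - v) := by
    rw [map_sub, Sf_Sf, add_neg_cancel, Sf_zero]
  rw [h2, LinearIsometry.norm_map]
  exact hve

end CYX

open CYX in
theorem t_CYX (hG : T_CYG) (hR : T_CYR) : T_CYX := by
  intro d U hU ν _ K hK A c hA
  have h0 : ∀ᵐ V ∂(PP (Sd d) ν), InC V 0 (A V (ee 0)) := by
    filter_upwards [hG d U hU ν K hK A c hA] with V hV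
    exact hR d U hU V _ hV
  rw [ae_all_iff]
  intro x
  have h1 := (mp_sh (ι := Sd d) ν x).quasiMeasurePreserving.ae h0
  filter_upwards [h1] with V hV
  rw [hA.cov.cov, Sf_ee, zero_add] at hV
  exact InC_shift x V _ hV

end Pool.Agent.T2h98.EA
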