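import Pool.Agent.T2h98.NB.GPO

/-! No ballistic motion: the position of general initial states. -/

set_option autoImplicit false
set_option linter.unusedVariables false

open scoped BigOperators Topology ENNReal InnerProductSpace
open MeasureTheory ProbabilityTheory Filter
open Pool.Agent.TH980.IM.PR (PP sh)

namespace Pool.Agent.T2h98.EA

open Pool.Agent.T2h98.NB Pool.Agent.T2h98.NB.GPO

variable {d : ℕ}

/-- truncated positions converge -/
theorem mop_pos (i : Fin d) (f g : L2 d) (hg : ∀ x, g x = ((x i : ℝ) : ℂ) * f x) :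
    Tendsto (fun R : ℕ => mop (ch R i) R (ch_abs R i) f) atTop (𝓝 g) := by
  have e1 : ∀ R : ℕ, ‖mop (ch R i) R (ch_abs R i) f - g‖ ^ 2 =
      ∑' x, (ch R i x - x i) ^ 2 * ‖f x‖ ^ 2 := by
    intro R
    rw [norm_sq]
    refine tsum_congr fun x => ?_
    show ‖(ch R i x : ℂ) * f x - g x‖ ^ 2 = _
    rw [hg, ← sub_mul, norm_mul, mul_pow]
    congr 1
    rw [← Complex.ofReal_sub, Complex.norm_real, Real.norm_eq_abs, sq_abs]
  have h1 : Tendsto (fun R : ℕ => ∑' x, (ch R i x - x i) ^ 2 * ‖f x‖ ^ 2) atTop
      (𝓝 (∑' x : Sd d, (0 : ℝ))) := by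
    refine tendsto_tsum_of_dominated_convergence (bound := fun x => 4 * ‖g x‖ ^ 2)
      ((sq_summable g).mul_left _) ?_ ?_
    · intro x
      have : (fun R : ℕ => (ch R i x - x i) ^ 2 * ‖f x‖ ^ 2) =ᶠ[atTop] fun _ => 0 := by
        obtain ⟨N, hN⟩ := exists_nat_ge (|((x i : ℤ) : ℝ)|)
        filter_upwards [eventually_ge_atTop N] with R hR
        have hR' : (N : ℝ) ≤ R := by exact_mod_cast hR
        unfold ch
        rw [cu_eq (by linarith), sub_self]
        ring
      exact (tendsto_congr' this).2 tendsto_const_nhds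
    · refine Eventually.of_forall fun R x => ?_
      rw [Real.norm_eq_abs, abs_of_nonneg (by positivity), hg, norm_mul, mul_pow,
        Complex.norm_real, Real.norm_eq_abs, sq_abs, ← mul_assoc]
      apply mul_le_mul_of_nonneg_right _ (by positivity)
      have h2 := cu_sq_le R (x i)
      have h3 : (ch R i x - x i) ^ 2 ≤ 2 * (ch R i x) ^ 2 + 2 * (x i : ℝ) ^ 2 := by
        nlinarith [sq_nonneg (ch R i x + x i)]
      unfold ch at h3 ⊢
      linarith
  rw [tsum_zero] at h1
  apply tendsto_iff_norm_sub_tendsto_zero.2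
  have h2 := (Real.continuous_sqrt.tendsto 0).comp h1
  rw [Real.sqrt_zero] at h2
  refine h2.congr fun n => ?_
  show √(∑' x, (ch n i x - x i) ^ 2 * ‖f x‖ ^ 2) = _
  rw [← e1, Real.sqrt_sq (norm_nonneg _)]

/-- the position of a general initial state -/
theorem gpf (hM : T_MUC) {U : Om d → ℝ → L2 d →L[ℂ] L2 d} (hU : Gr0 U) (i : Fin d) (V : Om d)
    (t : ℝ) (f g : L2 d) (hg : ∀ x, g x = ((x i : ℝ) : ℂ) * f x) (x : Sd d) :
    ((x i : ℝ) : ℂ) * (U V t f) x = (U V t (g + Xt U i V t f)) x := by
  -- the truncated equation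
  have key : ∀ R : ℕ, U V (-t) (mop (ch R i) R (ch_abs R i) (U V t f)) =
      mop (ch R i) R (ch_abs R i) f +
      ∫ s in (0 : ℝ)..t, U V (-s) (Complex.I • (mop (fa R i) 1 (fa_abs R i)
        (Sf (-Pi.single i 1) (U V s f)) +
        mop (ba R i) 1 (ba_abs R i) (Sf (Pi.single i 1) (U V s f)))) := by
    intro R
    rw [heis hM hU]
    congr 2
    funext s
    rw [comm_eq]
  have hcU : Continuous fun s => U V s f := U_cont hU V continuous_id continuous_const
  -- limit
  have hlim : Tendsto (fun R : ℕ => ∫ s in (0 : ℝ)..t, U V (-s) (Complex.I •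
      (mop (fa R i) 1 (fa_abs R i) (Sf (-Pi.single i 1) (U V s f)) +
        mop (ba R i) 1 (ba_abs R i) (Sf (Pi.single i 1) (U V s f))))) atTop
      (𝓝 (∫ s in (0 : ℝ)..t, U V (-s) (vel i (U V s f)))) := by
    refine intervalIntegral.tendsto_integral_filter_of_dominated_convergence
      (fun _ => 2 * ‖f‖) ?_ ?_ ?_ ?_
    · refine Eventually.of_forall fun R => ?_
      have e1 : Continuous fun s => mop (fa R i) 1 (fa_abs R i)
          (Sf (-Pi.single i 1) (U V s f)) :=
        (mop (fa R i) 1 (fa_abs R i)).continuous.comp ((Sf (-Pi.single i 1)).continuous.comp hcU)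
      have e2 : Continuous fun s => mop (ba R i) 1 (ba_abs R i)
          (Sf (Pi.single i 1) (U V s f)) :=
        (mop (ba R i) 1 (ba_abs R i)).continuous.comp ((Sf (Pi.single i 1)).continuous.comp hcU)
      have e3 : Continuous fun s => (Complex.I •
          (mop (fa R i) 1 (fa_abs R i) (Sf (-Pi.single i 1) (U V s f)) +
          mop (ba R i) 1 (ba_abs R i) (Sf (Pi.single i 1) (U V s f))) : L2 d) := by
        have e4 : Continuous fun s =>
            (mop (fa R i) 1 (fa_abs R i) (Sf (-Pi.single i 1) (U V s f)) +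
            mop (ba R i) 1 (ba_abs R i) (Sf (Pi.single i 1) (U V s f)) : L2 d) := e1.add e2
        exact (continuous_const (y := Complex.I)).smul e4
      exact (U_cont hU V continuous_neg e3).aestronglyMeasurable
    · refine Eventually.of_forall fun R => Eventually.of_forall fun s _ => ?_
      rw [hU.norm, norm_smul, Complex.norm_I, one_mul]
      refine le_trans (norm_add_le _ _) ?_
      have e1 := mop_norm_le (fa R i) 1 (fa_abs R i) (Sf (-Pi.single i 1) (U V s f))
      have e2 := mop_norm_le (ba R i) 1 (ba_abs R i) (Sf (Pi.single i 1) (U V s f))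
      rw [LinearIsometry.norm_map, hU.norm] at e1 e2
      linarith
    · exact intervalIntegrable_const
    · refine Eventually.of_forall fun s _ => ?_
      have e1 := mop_lim (Sf (-Pi.single i 1) (U V s f)) (fun R => fa R i) 1
        (fun R => fa_abs R i) 1 (fa_lim i)
      have e2 := mop_lim (Sf (Pi.single i 1) (U V s f)) (fun R => ba R i) 1
        (fun R => ba_abs R i) (-1) (ba_lim i)
      have e3 := ((U V (-s)).continuous.tendsto _).comp ((e1.add e2).const_smul Complex.I)
      refine (e3.congr fun R => rfl).trans (le_of_eq ?_)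
      congr 2
      show _ = Complex.I • (Sf (-Pi.single i 1) (U V s f) - Sf (Pi.single i 1) (U V s f))
      congr 1
      push_cast
      rw [one_smul, neg_smul, one_smul, sub_eq_add_neg]
  have h1 := (mop_pos i f g hg).add hlim
  have h2 : Tendsto (fun R : ℕ => mop (ch R i) R (ch_abs R i) (U V t f)) atTop
      (𝓝 (U V t (g + Xt U i V t f))) := by
    have h3 := ((U V t).continuous.tendsto _).comp h1
    refine h3.congr fun R => ?_
    show U V t (mop (ch R i) R (ch_abs R i) f + _) = _
    rw [← key R, U_neg' hU]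
  have h3 : Tendsto (fun R : ℕ => (mop (ch R i) R (ch_abs R i) (U V t f)) x) atTop
      (𝓝 ((U V t (g + Xt U i V t f)) x)) := by
    have h4 := ((innerSL ℂ (ee x : L2 d)).continuous.tendsto _).comp h2
    simpa only [innerSL_apply_apply, inner_ee, Function.comp_def] using h4
  refine tendsto_nhds_unique ?_ h3
  have h5 : (fun R : ℕ => (mop (ch R i) R (ch_abs R i) (U V t f)) x) =ᶠ[atTop]
      fun _ => ((x i : ℝ) : ℂ) * (U V t f) x := by
    obtain ⟨N, hN⟩ := exists_nat_ge (|((x i : ℤ) : ℝ)|)
    filter_upwards [eventually_ge_atTop N] with R hR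
    have hR' : (N : ℝ) ≤ R := by exact_mod_cast hR
    rw [mop_apply]
    unfold ch
    rw [cu_eq (by linarith)]
  exact (tendsto_congr' h5).2 tendsto_const_nhds

end Pool.Agent.T2h98.EA
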