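import Pool.Agent.T2h98.EA.NBF
import Pool.Agent.T2h98.EA.GPF

/-! No ballistic motion for random initial states with finite second moment. -/

set_option autoImplicit false
set_option linter.unusedVariables false

open scoped BigOperators Topology ENNReal InnerProductSpace
open MeasureTheory ProbabilityTheory Filter
open Pool.Agent.TH980.IM.PR (PP sh mp_sh)
open Pool.Agent.T2h98.NB

namespace Pool.Agent.T2h98.EA

variable {d : ℕ}

/-- the second moment -/
noncomputable def mom (p : L2 d) : ℝ≥0∞ :=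
  ∑' x : Sd d, ENNReal.ofReal ((∑ i, (x i : ℝ) ^ 2) * ‖p x‖ ^ 2)

/-- the second moment of a coordinate -/
noncomputable def momi (i : Fin d) (p : L2 d) : ℝ≥0∞ :=
  ∑' x : Sd d, ENNReal.ofReal ((x i : ℝ) ^ 2 * ‖p x‖ ^ 2)

theorem mom_eq (p : L2 d) : mom p = ∑ i, momi i p := by
  unfold mom momi
  have h : ∀ x : Sd d, ENNReal.ofReal ((∑ i, (x i : ℝ) ^ 2) * ‖p x‖ ^ 2) =
      ∑ i, ENNReal.ofReal ((x i : ℝ) ^ 2 * ‖p x‖ ^ 2) := by
    intro x
    rw [Finset.sum_mul, ENNReal.ofReal_sum_of_nonneg fun i _ => by positivity]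
  simp only [h]
  exact Summable.tsum_finsetSum fun i _ => ENNReal.summable

theorem momi_le (i : Fin d) (p : L2 d) : momi i p ≤ mom p := by
  rw [mom_eq]
  exact Finset.single_le_sum (f := fun i => momi i p) (fun _ _ => zero_le) (Finset.mem_univ i)

/-- the vector `x_i p` -/
theorem exists_pos (i : Fin d) (p : L2 d) (h : momi i p ≠ ⊤) :
    ∃ g : L2 d, (∀ x, g x = ((x i : ℝ) : ℂ) * p x) ∧ ENNReal.ofReal (‖g‖ ^ 2) = momi i p := by
  have h1 : Summable fun x : Sd d => ‖((x i : ℝ) : ℂ) * p x‖ ^ 2 := by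
    have e : ∀ x : Sd d, ‖((x i : ℝ) : ℂ) * p x‖ ^ 2 = (x i : ℝ) ^ 2 * ‖p x‖ ^ 2 := by
      intro x
      rw [norm_mul, mul_pow, Complex.norm_real, Real.norm_eq_abs, sq_abs]
    simp only [e]
    have h2 := ENNReal.summable_toReal (f := fun x : Sd d =>
      ENNReal.ofReal ((x i : ℝ) ^ 2 * ‖p x‖ ^ 2)) h
    refine h2.congr fun x => ?_
    rw [ENNReal.toReal_ofReal (by positivity)]
  refine ⟨⟨fun x => ((x i : ℝ) : ℂ) * p x, mem_of_summable h1⟩, fun x => rfl, ?_⟩
  rw [norm_sq, ENNReal.ofReal_tsum_of_nonneg (fun x => by positivity) h1]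
  unfold momi
  refine tsum_congr fun x => ?_
  congr 1
  show ‖((x i : ℝ) : ℂ) * p x‖ ^ 2 = _
  rw [norm_mul, mul_pow, Complex.norm_real, Real.norm_eq_abs, sq_abs]

/-- the moment at time `t` -/
theorem momi_evol (hM : T_MUC) {U : Om d → ℝ → L2 d →L[ℂ] L2 d} (hU : Gr0 U) (i : Fin d) (V : Om d)
    (t : ℝ) (f : L2 d) :
    momi i (U V t f) ≤ 2 * momi i f + 2 * ENNReal.ofReal (‖Xt U i V t f‖ ^ 2) := by
  rcases eq_or_ne (momi i f) ⊤ with h | h
  · rw [h, ENNReal.mul_top two_ne_zero, top_add]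
    exact le_top
  obtain ⟨g, hg, hg2⟩ := exists_pos i f h
  have h1 := gpf hM hU i V t f g hg
  have h2 : momi i (U V t f) = ENNReal.ofReal (‖g + Xt U i V t f‖ ^ 2) := by
    unfold momi
    rw [← hU.norm V t (g + Xt U i V t f), norm_sq,
      ENNReal.ofReal_tsum_of_nonneg (fun x => by positivity) (sq_summable _)]
    refine tsum_congr fun x => ?_
    rw [← h1 x, norm_mul, mul_pow, Complex.norm_real, Real.norm_eq_abs, sq_abs]
  rw [h2, ← hg2]
  have h3 : ‖g + Xt U i V t f‖ ^ 2 ≤ 2 * ‖g‖ ^ 2 + 2 * ‖Xt U i V t f‖ ^ 2 := by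
    have h4 := norm_add_le g (Xt U i V t f)
    have h5 := norm_nonneg (g + Xt U i V t f)
    nlinarith [sq_nonneg (‖g‖ - ‖Xt U i V t f‖)]
  refine (ENNReal.ofReal_le_ofReal h3).trans ?_
  rw [ENNReal.ofReal_add (by positivity) (by positivity), ENNReal.ofReal_mul zero_le_two,
    ENNReal.ofReal_mul zero_le_two, ENNReal.ofReal_ofNat]

/-- **no ballistic motion**, random initial states with finite second moment -/
theorem nbg (hM : T_MUC) (hV : T_VEL) (hX : T_XT) (hXO : T_XO) (hC : T_COV) (hL : T_LIMO)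
    (hOdd : T_ODD) (hA : T_ALLG)
    (d : ℕ) (U : Om d → ℝ → L2 d →L[ℂ] L2 d) (hU : Grp U) (ν : Measure ℝ) [IsProbabilityMeasure ν]
    (K : ℝ) (hK : BD ν K) (f : Om d → L2 d) (hf : StronglyMeasurable f)
    (hf2 : ∫⁻ V, ENNReal.ofReal (‖f V‖ ^ 2) ∂(PP (Sd d) ν) ≠ ⊤)
    (hf3 : ∫⁻ V, mom (f V) ∂(PP (Sd d) ν) ≠ ⊤) :
    Tendsto (fun t : ℝ => (∫⁻ V, mom (U V t (f V)) ∂(PP (Sd d) ν)) / ENNReal.ofReal (t ^ 2))
      atTop (𝓝 0) := by
  obtain ⟨-, -, -, hXeq, hXbd, -, -, hXcov, -⟩ := hX d U hU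
  obtain ⟨-, -, -, -, hmeas⟩ := hC d
  have hfi : Integrable (fun V => ‖f V‖ ^ 2) (PP (Sd d) ν) := by
    refine ⟨(hf.norm.pow 2).aestronglyMeasurable, ?_⟩
    rw [hasFiniteIntegral_iff_ofReal (ae_of_all _ fun V => by positivity)]
    exact lt_top_iff_ne_top.2 hf2
  have hXm : ∀ (i : Fin d) (t : ℝ), StronglyMeasurable fun V => Xt U i V t (f V) := by
    intro i t
    have h1 := hmeas _ (hXcov i t) (Om d) id f measurable_id hf
    simpa only [id, hXeq] using h1
  have hXi : ∀ (i : Fin d) (t : ℝ), Integrable (fun V => ‖Xt U i V t (f V)‖ ^ 2)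
      (PP (Sd d) ν) := by
    intro i t
    refine Integrable.mono' (hfi.const_mul ((2 * |t|) ^ 2))
      ((hXm i t).norm.pow 2).aestronglyMeasurable (ae_of_all _ fun V => ?_)
    rw [Real.norm_of_nonneg (by positivity), ← mul_pow]
    apply pow_le_pow_left₀ (norm_nonneg _)
    rw [← hXeq]
    exact (XT U i V t).le_of_opNorm_le (hXbd i V t) _
  -- the bound at time t
  have hb : ∀ t : ℝ, ∫⁻ V, mom (U V t (f V)) ∂(PP (Sd d) ν) ≤
      2 * (d * ∫⁻ V, mom (f V) ∂(PP (Sd d) ν)) +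
      ∑ i, 2 * ENNReal.ofReal (∫ V, ‖Xt U i V t (f V)‖ ^ 2 ∂(PP (Sd d) ν)) := by
    intro t
    have h1 : ∀ V, mom (U V t (f V)) ≤ (2 * (d * mom (f V))) +
        ∑ i, 2 * ENNReal.ofReal (‖Xt U i V t (f V)‖ ^ 2) := by
      intro V
      rw [mom_eq]
      calc ∑ i, momi i (U V t (f V)) ≤ ∑ i : Fin d, (2 * mom (f V) +
            2 * ENNReal.ofReal (‖Xt U i V t (f V)‖ ^ 2)) := by
            refine Finset.sum_le_sum fun i _ => (momi_evol hM hU.g0 i V t (f V)).trans ?_
            gcongr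
            exact momi_le i (f V)
        _ = _ := by
            rw [Finset.sum_add_distrib, Finset.sum_const, Finset.card_univ, Fintype.card_fin,
              nsmul_eq_mul]
            ring
    refine (lintegral_mono h1).trans ?_
    rw [lintegral_add_right]
    · rw [lintegral_finsetSum']
      · apply add_le_add
        · rw [lintegral_const_mul' _ _ (by norm_num), lintegral_const_mul' _ _ (by
            exact ENNReal.natCast_ne_top d)]
        · refine Finset.sum_le_sum fun i _ => ?_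
          rw [lintegral_const_mul' _ _ (by norm_num),
            ofReal_integral_eq_lintegral_ofReal (hXi i t) (ae_of_all _ fun V => by positivity)]
      · intro i _
        exact ((((hXm i t).norm.pow 2).measurable).ennreal_ofReal.const_mul 2).aemeasurable
    · exact Finset.measurable_sum _ fun i _ =>
        (((hXm i t).norm.pow 2).measurable).ennreal_ofReal.const_mul 2
  -- divide by t ^ 2
  have h1 : Tendsto (fun t : ℝ => (2 * (d * ∫⁻ V, mom (f V) ∂(PP (Sd d) ν))) /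
      ENNReal.ofReal (t ^ 2)) atTop (𝓝 0) := by
    have e1 : Tendsto (fun t : ℝ => ENNReal.ofReal (t ^ 2)) atTop (𝓝 ⊤) :=
      ENNReal.tendsto_ofReal_atTop.comp (tendsto_pow_atTop two_ne_zero)
    have e2 := ENNReal.Tendsto.const_div (a := 2 * (d * ∫⁻ V, mom (f V) ∂(PP (Sd d) ν))) e1
      (Or.inr (ENNReal.mul_ne_top (by norm_num)
        (ENNReal.mul_ne_top (ENNReal.natCast_ne_top d) hf3)))
    rwa [ENNReal.div_top] at e2
  have h2 : ∀ i : Fin d, Tendsto (fun t : ℝ => (2 * ENNReal.ofReal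
      (∫ V, ‖Xt U i V t (f V)‖ ^ 2 ∂(PP (Sd d) ν))) / ENNReal.ofReal (t ^ 2)) atTop (𝓝 0) := by
    intro i
    have e1 := nbf hV hX hXO hL hOdd hA d U hU ν K hK i f hf hfi
    have e2 := ENNReal.tendsto_ofReal e1
    rw [ENNReal.ofReal_zero] at e2
    have e3 := ENNReal.Tendsto.const_mul (a := 2) e2 (Or.inr (by norm_num))
    rw [mul_zero] at e3
    refine e3.congr' ?_
    filter_upwards [eventually_gt_atTop 0] with t ht
    have e4 : ∫ V, ‖t⁻¹ • Xt U i V t (f V)‖ ^ 2 ∂(PP (Sd d) ν) =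
        (∫ V, ‖Xt U i V t (f V)‖ ^ 2 ∂(PP (Sd d) ν)) / t ^ 2 := by
      rw [← integral_div]
      refine integral_congr_ae (ae_of_all _ fun V => ?_)
      simp only
      rw [norm_smul, mul_pow, Real.norm_eq_abs, sq_abs]
      field_simp
    rw [e4, ENNReal.ofReal_div_of_pos (by positivity), mul_div_assoc]
  have h3 := h1.add (tendsto_finsetSum Finset.univ fun i (_ : i ∈ Finset.univ) => h2 i)
  rw [Finset.sum_const_zero, add_zero] at h3
  refine tendsto_of_tendsto_of_tendsto_of_le_of_le tendsto_const_nhds h3 (fun _ => zero_le)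
    fun t => ?_
  simp only [div_eq_mul_inv]
  rw [← Finset.sum_mul, ← add_mul]
  gcongr
  exact hb t

end Pool.Agent.T2h98.EA
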