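import Pool.Agent.T2h98.NB.StmO
import Pool.Agent.T2h44.GU.Main

/-! Ergodicity on the absolutely continuous spectrum: statements of the parts. -/

set_option autoImplicit false
set_option linter.unusedVariables false

open scoped BigOperators Topology ENNReal InnerProductSpace
open MeasureTheory ProbabilityTheory Filter
open Pool.Agent.TH980.IM.PR (PP sh)
open Pool.Agent.TH980.IM (zk BT kap)
open Pool.Agent.T2h44.GU (RV GG qn Cy spm dn)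
open Pool.Agent.T2h98.NB

namespace Pool.Agent.T2h98.EA

section

variable {d : ℕ}

/-- general observables: measurable, covariant, bounded, self-adjoint -/
structure Obg (O : Om d → L2 d →L[ℂ] L2 d) (c : ℝ) : Prop where
  cov : Cov O
  bdd : ∀ V, ‖O V‖ ≤ c
  sa : ∀ (V : Om d) (f g : L2 d), inner ℂ (O V f) g = (inner ℂ f (O V g) : ℂ)

/-- conserved quantities -/
structure Cons (U : Om d → ℝ → L2 d →L[ℂ] L2 d) (A : Om d → L2 d →L[ℂ] L2 d) (c : ℝ) : Prop where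
  cov : Cov A
  bdd : ∀ V, ‖A V‖ ≤ c
  sa : ∀ (V : Om d) (f g : L2 d), inner ℂ (A V f) g = (inner ℂ f (A V g) : ℂ)
  com : ∀ (V : Om d) (t : ℝ) (f : L2 d), A V (U V t f) = U V t (A V f)

/-- bounded self-adjoint operators commuting with the resolvent of `Δ + V` -/
structure Cmr (V : Om d) (B : L2 d →L[ℂ] L2 d) (c : ℝ) : Prop where
  bdd : ‖B‖ ≤ c
  sa : ∀ f g : L2 d, inner ℂ (B f) g = (inner ℂ f (B g) : ℂ)
  com : ∀ z : ℂ, z.im ≠ 0 → ∀ f : L2 d, B (RV V z f) = RV V z (B f)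

/-- negligible vectors at the energy `E` -/
abbrev Ngl (V : Om d) (E : ℝ) (u : L2 d) : Prop := Pool.Agent.T2h44.GU.Neg V E u

/-- the resolvent form -/
noncomputable def ip (V : Om d) (z : ℂ) (f g : L2 d) : ℂ :=
  (z.im : ℂ) * inner ℂ (RV V z f) (RV V z g)

/-- neighbours -/
def Nb (x y : Sd d) : Prop := ∃ i : Fin d, y = x + Pi.single i 1 ∨ x = y + Pi.single i 1

/-- `a` is a limit of vectors of the cyclic space of `ee x` -/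
def InC (V : Om d) (x : Sd d) (a : L2 d) : Prop :=
  ∀ ε : ℝ, 0 < ε → ∃ v ∈ Cy V (fun _ : Fin 1 => (ee x : L2 d)), ‖a - v‖ < ε

/-- `m` is the spectral measure of `f` -/
def Spe (U : Om d → ℝ → L2 d →L[ℂ] L2 d) (V : Om d) (f : L2 d) (m : Measure ℝ) : Prop :=
  ∀ t : ℝ, (inner ℂ f (U V t f) : ℂ) = ∫ E : ℝ, Complex.exp (-(Complex.I * t * E)) ∂m

end

/-! ## A. Time averages of general observables -/

/-- simple facts on the time integral (as `T_XO`) -/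
def T_XOG : Prop := ∀ (d : ℕ) (U : Om d → ℝ → L2 d →L[ℂ] L2 d), Grp U →
  ∀ (O : Om d → L2 d →L[ℂ] L2 d) (c : ℝ), Obg O c →
  (∀ (V : Om d) (t : ℝ) (f : L2 d), XOT U O V t f = XO U O V t f) ∧
  (∀ (V : Om d) (t : ℝ), ‖XOT U O V t‖ ≤ c * |t|) ∧
  (∀ (V : Om d) (s t : ℝ) (f : L2 d),
    XOT U O V (s + t) f = XOT U O V s f + U V (-s) (XOT U O V t (U V s f))) ∧
  (∀ (V : Om d) (t : ℝ) (f g : L2 d),
    inner ℂ (XOT U O V t f) g = (inner ℂ f (XOT U O V t g) : ℂ)) ∧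
  (∀ t : ℝ, Cov fun V => XOT U O V t) ∧
  (∀ (V : Om d) (f : L2 d), Continuous fun t : ℝ => XOT U O V t f) ∧
  (∀ f : L2 d, StronglyMeasurable fun p : Om d × ℝ => XOT U O p.1 p.2 f)

/-- the averages are a Cauchy family in mean square (as `T_CAUO`) -/
def T_CAUG : Prop := ∀ (d : ℕ) (U : Om d → ℝ → L2 d →L[ℂ] L2 d), Grp U →
  ∀ (O : Om d → L2 d →L[ℂ] L2 d) (c : ℝ), Obg O c →
  ∀ (ν : Measure ℝ) [IsProbabilityMeasure ν] (η : ℝ), 0 < η →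
  ∃ T₀ : ℝ, 0 < T₀ ∧ ∀ S T : ℝ, T₀ ≤ S → T₀ ≤ T →
    ∫ V, ‖S⁻¹ • XOT U O V S (ee 0) - T⁻¹ • XOT U O V T (ee 0)‖ ^ 2 ∂(PP (Sd d) ν) ≤ η

/-- the limit exists (as `T_LIMO`) -/
def T_LIMG : Prop := ∀ (d : ℕ) (U : Om d → ℝ → L2 d →L[ℂ] L2 d), Grp U →
  ∀ (O : Om d → L2 d →L[ℂ] L2 d) (c : ℝ), Obg O c →
  ∀ (ν : Measure ℝ) [IsProbabilityMeasure ν], ∃ A, LimO U ν O c A

/-- the averages at random vectors -/
def T_ALLG : Prop := ∀ (d : ℕ) (U : Om d → ℝ → L2 d →L[ℂ] L2 d), Grp U →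
  ∀ (O : Om d → L2 d →L[ℂ] L2 d) (c : ℝ), Obg O c →
  ∀ (ν : Measure ℝ) [IsProbabilityMeasure ν] (A : Om d → L2 d →L[ℂ] L2 d), LimO U ν O c A →
  ∀ f : Om d → L2 d, StronglyMeasurable f → Integrable (fun V => ‖f V‖ ^ 2) (PP (Sd d) ν) →
  Tendsto (fun T : ℝ => ∫ V, ‖T⁻¹ • XOT U O V T (f V) - A V (f V)‖ ^ 2 ∂(PP (Sd d) ν))
    atTop (𝓝 0)

/-! ## B. Conserved quantities map the unit vectors to their cyclic spaces -/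

/-- approximation by bounded continuous functions of finitely many coordinates -/
def T_BCA : Prop := ∀ (d : ℕ) (ν : Measure ℝ) [IsProbabilityMeasure ν] (a : Om d → ℂ) (C : ℝ),
  Measurable a → (∀ V, ‖a V‖ ≤ C) → ∀ ε : ℝ, 0 < ε →
  ∃ (S : Finset (Sd d)) (b : Om d → ℂ) (C' : ℝ), Continuous b ∧ (∀ V, ‖b V‖ ≤ C') ∧
    (∀ V W : Om d, (∀ x ∈ S, V x = W x) → b V = b W) ∧
    ∫ V, ‖a V - b V‖ ^ 2 ∂(PP (Sd d) ν) ≤ ε

/-- approximation by local observables -/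
def T_APX : Prop := ∀ (d : ℕ) (ν : Measure ℝ) [IsProbabilityMeasure ν]
  (O : Om d → L2 d →L[ℂ] L2 d) (c : ℝ), Obg O c → ∀ ε : ℝ, 0 < ε →
  ∃ (O' : Om d → L2 d →L[ℂ] L2 d) (c' : ℝ), Obs O' c' ∧
    ∫ V, ‖O V (ee 0) - O' V (ee 0)‖ ^ 2 ∂(PP (Sd d) ν) ≤ ε

/-- averaging is a contraction -/
def T_CON : Prop := ∀ (d : ℕ) (U : Om d → ℝ → L2 d →L[ℂ] L2 d), Grp U →
  ∀ (ν : Measure ℝ) [IsProbabilityMeasure ν] (A : Om d → L2 d →L[ℂ] L2 d) (c : ℝ), Cons U A c →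
  ∀ (O' : Om d → L2 d →L[ℂ] L2 d) (c' : ℝ), Obs O' c' →
  ∀ A' : Om d → L2 d →L[ℂ] L2 d, LimO U ν O' c' A' →
  ∫ V, ‖A V (ee 0) - A' V (ee 0)‖ ^ 2 ∂(PP (Sd d) ν) ≤
    ∫ V, ‖A V (ee 0) - O' V (ee 0)‖ ^ 2 ∂(PP (Sd d) ν)

/-- conserved quantities map the origin to its cyclic space (from `T_CYO`, `T_APX`, `T_CON`) -/
def T_CYG : Prop := ∀ (d : ℕ) (U : Om d → ℝ → L2 d →L[ℂ] L2 d), Grp U →
  ∀ (ν : Measure ℝ) [IsProbabilityMeasure ν] (K : ℝ), BD ν K →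
  ∀ (A : Om d → L2 d →L[ℂ] L2 d) (c : ℝ), Cons U A c →
  ∀ᵐ V ∂(PP (Sd d) ν), ∀ φ : L2 d, Ort U V φ → (inner ℂ (A V (ee 0)) φ : ℂ) = 0

/-! ## C. The resolvent -/

/-- uniqueness of Laplace transforms -/
def T_LPU : Prop := ∀ (h : ℝ → ℂ) (C : ℝ), Continuous h → (∀ t, ‖h t‖ ≤ C) →
  (∀ z : ℂ, 0 < z.im → ∫ t in Set.Ioi (0 : ℝ), Complex.exp (Complex.I * z * t) * h t = 0) →
  ∀ t : ℝ, 0 ≤ t → h t = 0

/-- the resolvent is the Laplace transform of the group -/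
def T_LAPR : Prop := ∀ (d : ℕ) (U : Om d → ℝ → L2 d →L[ℂ] L2 d), Grp U →
  ∀ (V : Om d) (z : ℂ) (f g : L2 d), 0 < z.im →
  (inner ℂ g (RV V z f) : ℂ) = Complex.I *
    ∫ t in Set.Ioi (0 : ℝ), Complex.exp (Complex.I * z * t) * (inner ℂ g (U V t f) : ℂ)

/-- conserved quantities commute with the resolvent -/
def T_CMR : Prop := ∀ (d : ℕ) (U : Om d → ℝ → L2 d →L[ℂ] L2 d), Grp U →
  ∀ (A : Om d → L2 d →L[ℂ] L2 d) (c : ℝ), Cons U A c → ∀ V : Om d, Cmr V (A V) c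

/-- the cyclic space, by the group and by the resolvent -/
def T_CYR : Prop := ∀ (d : ℕ) (U : Om d → ℝ → L2 d →L[ℂ] L2 d), Grp U →
  ∀ (V : Om d) (a : L2 d), (∀ φ : L2 d, Ort U V φ → (inner ℂ a φ : ℂ) = 0) → InC V 0 a

/-- conserved quantities map the unit vectors to their cyclic spaces (`T_CYG`, `T_CYR`, shift) -/
def T_CYX : Prop := ∀ (d : ℕ) (U : Om d → ℝ → L2 d →L[ℂ] L2 d), Grp U →
  ∀ (ν : Measure ℝ) [IsProbabilityMeasure ν] (K : ℝ), BD ν K →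
  ∀ (A : Om d → L2 d →L[ℂ] L2 d) (c : ℝ), Cons U A c →
  ∀ᵐ V ∂(PP (Sd d) ν), ∀ x : Sd d, InC V x (A V (ee x))

/-- the spectral measure, by the group and by the resolvent -/
def T_SPE : Prop := ∀ (d : ℕ) (U : Om d → ℝ → L2 d →L[ℂ] L2 d), Grp U →
  ∀ (V : Om d) (f : L2 d),
  Spe U V f (spm V f) ∧ (spm V f).real Set.univ = ‖f‖ ^ 2 ∧
  ∀ (m : Measure ℝ) [IsFiniteMeasure m], Spe U V f m →
    ∀ z : ℂ, z.im ≠ 0 → BT m z = (inner ℂ f (RV V z f) : ℂ)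

/-- Poisson integrals dominate measures -/
def T_DOM : Prop := ∀ (m₁ m₂ : Measure ℝ) [IsFiniteMeasure m₁] [IsFiniteMeasure m₂] (C : ℝ),
  0 ≤ C → (∀ z : ℂ, 0 < z.im → (BT m₁ z).im ≤ C * (BT m₂ z).im) →
  m₁ ≤ ENNReal.ofReal C • m₂

/-! ## D. Boundary values -/

/-- the resolvent form -/
def T_FRM : Prop := ∀ (d : ℕ) (V : Om d),
  (∀ (z : ℂ) (f : L2 d), 0 < z.im → ip V z f f = ((qn V z f ^ 2 : ℝ) : ℂ)) ∧
  (∀ (z : ℂ) (f g : L2 d), 0 < z.im → ‖ip V z f g‖ ≤ qn V z f * qn V z g) ∧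
  (∀ (z : ℂ) (x y : Sd d), 0 < z.im → ip V z (ee x) (ee y) = ((GG V z x y).im : ℂ)) ∧
  (∀ f g : L2 d, ∀ᵐ E : ℝ, ∃ l : ℂ, Tendsto (fun k => ip V (zk k E) f g) atTop (𝓝 l)) ∧
  (∀ (B : L2 d →L[ℂ] L2 d) (c : ℝ), Cmr V B c → ∀ (z : ℂ) (f g : L2 d), 0 < z.im →
    ip V z f (B g) = ip V z (B f) g ∧ qn V z (B f) ≤ c * qn V z f)

/-- the Green function at neighbours does not vanish at the boundary -/
def T_NZ : Prop := ∀ (d : ℕ) (V : Om d) (x y : Sd d), Nb x y →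
  ∀ᵐ E : ℝ, ¬ Tendsto (fun k => GG V (zk k E) x y) atTop (𝓝 0)

/-- its imaginary part does not vanish on the absolutely continuous spectrum -/
def T_NZP : Prop := ∀ (d : ℕ) (ν : Measure ℝ) [IsProbabilityMeasure ν] (K : ℝ), BD ν K →
  ∀ᵐ V ∂(PP (Sd d) ν), ∀ᵐ E : ℝ, ∀ x y : Sd d, Nb x y → ¬ Ngl V E (ee x) →
    ¬ Tendsto (fun k => (GG V (zk k E) x y).im) atTop (𝓝 0)

/-- vectors of the cyclic space are multiples at almost every energy -/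
def T_AX : Prop := ∀ (d : ℕ) (V : Om d) (B : L2 d →L[ℂ] L2 d) (c : ℝ) (x : Sd d), Cmr V B c →
  InC V x (B (ee x)) → ∀ᵐ E : ℝ, ∃ a : ℂ, Ngl V E (B (ee x) - a • ee x)

/-- the factors at all sites agree -/
def T_AXY : Prop := ∀ (d : ℕ) (V : Om d) (B : L2 d →L[ℂ] L2 d) (c E : ℝ), Cmr V B c →
  (∀ x : Sd d, ∃ a : ℂ, Ngl V E (B (ee x) - a • ee x)) →
  (∀ x y : Sd d, ∃ l : ℂ, Tendsto (fun k => ip V (zk k E) (ee x) (ee y)) atTop (𝓝 l)) →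
  (∀ x y : Sd d, Nb x y → ¬ Ngl V E (ee x) →
    ¬ Tendsto (fun k => (GG V (zk k E) x y).im) atTop (𝓝 0)) →
  ((∀ x : Sd d, Ngl V E (ee x)) ∨ ∀ x : Sd d, ¬ Ngl V E (ee x)) ∧
    ∃ a : ℝ, |a| ≤ c ∧ ∀ x : Sd d, Ngl V E (B (ee x) - (a : ℂ) • ee x)

/-- measurability -/
def T_MSR : Prop := ∀ (d : ℕ) (A : Om d → L2 d →L[ℂ] L2 d), Cov A → ∀ k : ℕ,
  Measurable fun q : Om d × ℝ => ip q.1 (zk k q.2) (ee 0) (A q.1 (ee 0))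

/-- invariant functions are constant -/
def T_CST : Prop := ∀ (d : ℕ), 1 ≤ d → ∀ (ν : Measure ℝ) [IsProbabilityMeasure ν] (g : Om d → ℝ)
  (C : ℝ), Measurable g → (∀ V, |g V| ≤ C) → (∀ z : Sd d, ∀ᵐ V ∂(PP (Sd d) ν), g (sh z V) = g V) →
  ∀ᵐ V ∂(PP (Sd d) ν), g V = ∫ W, g W ∂(PP (Sd d) ν)

/-- the factor does not depend on the potential -/
def T_RHO : Prop := ∀ (d : ℕ), 1 ≤ d → ∀ (ν : Measure ℝ) [IsProbabilityMeasure ν]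
  (A : Om d → L2 d →L[ℂ] L2 d) (c : ℝ), Cov A → (∀ V, Cmr V (A V) c) →
  (∀ᵐ V ∂(PP (Sd d) ν), ∀ᵐ E : ℝ,
    ((∀ x : Sd d, Ngl V E (ee x)) ∨ ∀ x : Sd d, ¬ Ngl V E (ee x)) ∧
    ∃ a : ℝ, |a| ≤ c ∧ ∀ x : Sd d, Ngl V E (A V (ee x) - (a : ℂ) • ee x)) →
  ∃ ρ : ℝ → ℝ, Measurable ρ ∧ (∀ E, |ρ E| ≤ c) ∧ ∀ᵐ V ∂(PP (Sd d) ν), ∀ᵐ E : ℝ, ∀ x : Sd d,
    Ngl V E (A V (ee x) - (ρ E : ℂ) • ee x)

/-- from the unit vectors to all vectors -/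
def T_FAL : Prop := ∀ (d : ℕ) (V : Om d) (B : L2 d →L[ℂ] L2 d) (c : ℝ) (ρ : ℝ → ℝ), Cmr V B c →
  (∀ E, |ρ E| ≤ c) → (∀ᵐ E : ℝ, ∀ x : Sd d, Ngl V E (B (ee x) - (ρ E : ℂ) • ee x)) →
  ∀ f : L2 d, ∀ᵐ E : ℝ, Ngl V E (B f - (ρ E : ℂ) • f)

/-- vectors with an absolutely continuous spectral measure -/
def T_ACF : Prop := ∀ (d : ℕ) (V : Om d) (B : L2 d →L[ℂ] L2 d) (c : ℝ) (ρ : ℝ → ℝ), Cmr V B c →
  Measurable ρ → (∀ E, |ρ E| ≤ c) → (∀ f : L2 d, ∀ᵐ E : ℝ, Ngl V E (B f - (ρ E : ℂ) • f)) →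
  (∀ f : L2 d, (spm V f).real Set.univ = ‖f‖ ^ 2) →
  ∀ (f : L2 d) (m : Measure ℝ) [IsFiniteMeasure m],
  (∀ z : ℂ, z.im ≠ 0 → BT m z = (inner ℂ f (RV V z f) : ℂ)) → m ≪ volume →
  (inner ℂ f (B f) : ℂ) = ((∫ E, ρ E ∂m : ℝ) : ℂ)

/-! ## E. The conclusion -/

/-- conserved quantities are functions of the energy on the absolutely continuous spectrum -/
def T_EA : Prop := ∀ (d : ℕ), 1 ≤ d → ∀ (U : Om d → ℝ → L2 d →L[ℂ] L2 d), Grp U →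
  ∀ (ν : Measure ℝ) [IsProbabilityMeasure ν] (K : ℝ), BD ν K →
  ∀ (A : Om d → L2 d →L[ℂ] L2 d) (c : ℝ), Cons U A c →
  ∃ ρ : ℝ → ℝ, Measurable ρ ∧ (∀ E, |ρ E| ≤ c) ∧ ∀ᵐ V ∂(PP (Sd d) ν), ∀ (f : L2 d) (m : Measure ℝ),
    IsFiniteMeasure m → Spe U V f m → m ≪ volume →
    (inner ℂ f (A V f) : ℂ) = ((∫ E, ρ E ∂m : ℝ) : ℂ)

end Pool.Agent.T2h98.EA
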